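import Mathlib

set_option autoImplicit false

/-!
# Logarithmic derivatives of power series over a field
-/

namespace PDSW

section field

variable {k : Type*} [Field k]

theorem dvd_deriv {N : ℕ} {h : PowerSeries k} (hh : (PowerSeries.X : PowerSeries k) ^ (N + 1) ∣ h) :
    (PowerSeries.X : PowerSeries k) ^ N ∣ PowerSeries.derivative k h := by
  rw [PowerSeries.X_pow_dvd_iff] at hh ⊢
  intro m hm
  rw [PowerSeries.coeff_derivative, hh (m + 1) (by omega), zero_mul]

/-- the logarithmic derivative -/
noncomputable def dlog (f : PowerSeries k) : PowerSeries k := PowerSeries.derivative k f * f⁻¹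

theorem dlog_mul {f g : PowerSeries k} (hf : PowerSeries.constantCoeff f ≠ 0)
    (hg : PowerSeries.constantCoeff g ≠ 0) : dlog (f * g) = dlog f + dlog g := by
  unfold dlog
  rw [Derivation.leibniz, PowerSeries.mul_inv_rev, smul_eq_mul, smul_eq_mul]
  have h1 := PowerSeries.mul_inv_cancel f hf
  have h2 := PowerSeries.mul_inv_cancel g hg
  linear_combination (PowerSeries.derivative k g * g⁻¹) * h1 +
    (PowerSeries.derivative k f * f⁻¹) * h2

theorem dlog_C (c : k) : dlog (PowerSeries.C c) = 0 := by
  unfold dlog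
  rw [PowerSeries.derivative_C, zero_mul]

theorem dlog_one : dlog (1 : PowerSeries k) = 0 := by
  rw [← map_one (PowerSeries.C (R := k)), dlog_C]

theorem dlog_pow {f : PowerSeries k} (hf : PowerSeries.constantCoeff f ≠ 0) (n : ℕ) :
    dlog (f ^ n) = n • dlog f := by
  induction n with
  | zero => rw [pow_zero, dlog_one, zero_smul]
  | succ n ih =>
    rw [pow_succ, dlog_mul (by rw [map_pow]; exact pow_ne_zero _ hf) hf, ih, add_smul, one_smul]

theorem dlog_prod {ι : Type*} (s : Finset ι) (f : ι → PowerSeries k)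
    (hf : ∀ i ∈ s, PowerSeries.constantCoeff (f i) ≠ 0) :
    dlog (∏ i ∈ s, f i) = ∑ i ∈ s, dlog (f i) := by
  classical
  induction s using Finset.induction_on with
  | empty => rw [Finset.prod_empty, Finset.sum_empty, dlog_one]
  | insert i s hi ih =>
    have h1 := hf i (Finset.mem_insert_self _ _)
    have h2 : ∀ j ∈ s, PowerSeries.constantCoeff (f j) ≠ 0 := fun j hj =>
      hf j (Finset.mem_insert_of_mem hj)
    rw [Finset.prod_insert hi, Finset.sum_insert hi, dlog_mul h1 (by
      rw [map_prod]
      exact Finset.prod_ne_zero_iff.2 h2), ih h2]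

theorem dlog_congr {N : ℕ} {f g : PowerSeries k} (hf : PowerSeries.constantCoeff f ≠ 0)
    (hg : PowerSeries.constantCoeff g ≠ 0) (h : (PowerSeries.X : PowerSeries k) ^ (N + 1) ∣ f - g) :
    (PowerSeries.X : PowerSeries k) ^ N ∣ dlog f - dlog g := by
  have h1 := PowerSeries.mul_inv_cancel f hf
  have h2 := PowerSeries.mul_inv_cancel g hg
  have h3 := dvd_deriv h
  rw [map_sub] at h3
  have e : dlog f - dlog g = f⁻¹ * (PowerSeries.derivative k f - PowerSeries.derivative k g) -
      f⁻¹ * g⁻¹ * PowerSeries.derivative k g * (f - g) := by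
    unfold dlog
    linear_combination (g⁻¹ * PowerSeries.derivative k g) * h1 -
      (f⁻¹ * PowerSeries.derivative k g) * h2
  rw [e]
  exact dvd_sub (h3.mul_left _) (((pow_dvd_pow _ (Nat.le_succ N)).trans h).mul_left _)

theorem deriv_rescale (a : k) (f : PowerSeries k) :
    PowerSeries.derivative k (PowerSeries.rescale a f) =
      PowerSeries.C a * PowerSeries.rescale a (PowerSeries.derivative k f) := by
  ext n
  rw [PowerSeries.coeff_derivative, PowerSeries.coeff_rescale, PowerSeries.coeff_C_mul,
    PowerSeries.coeff_rescale, PowerSeries.coeff_derivative]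
  ring

theorem const_rescale (a : k) (f : PowerSeries k) :
    PowerSeries.constantCoeff (PowerSeries.rescale a f) = PowerSeries.constantCoeff f := by
  rw [← PowerSeries.coeff_zero_eq_constantCoeff_apply, PowerSeries.coeff_rescale, pow_zero, one_mul,
    PowerSeries.coeff_zero_eq_constantCoeff_apply]

theorem dlog_rescale (a : k) {f : PowerSeries k} (hf : PowerSeries.constantCoeff f ≠ 0) :
    dlog (PowerSeries.rescale a f) = PowerSeries.C a * PowerSeries.rescale a (dlog f) := by
  have h1 := congrArg (PowerSeries.rescale a) (PowerSeries.mul_inv_cancel f hf)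
  rw [map_mul, map_one] at h1
  have h2 : PowerSeries.constantCoeff (PowerSeries.rescale a f) ≠ 0 := by
    rw [const_rescale]; exact hf
  have h3 := PowerSeries.mul_inv_cancel _ h2
  have h4 : (PowerSeries.rescale a f)⁻¹ = PowerSeries.rescale a f⁻¹ := by
    linear_combination (PowerSeries.rescale a f⁻¹) * h3 - (PowerSeries.rescale a f)⁻¹ * h1
  unfold dlog
  rw [deriv_rescale, h4, map_mul]
  ring

theorem const_of_dlog {N : ℕ} (hN : ∀ m : ℕ, 1 ≤ m → m ≤ N → (m : k) ≠ 0) {f : PowerSeries k}
    (hf : PowerSeries.constantCoeff f ≠ 0) (h : (PowerSeries.X : PowerSeries k) ^ N ∣ dlog f) :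
    (PowerSeries.X : PowerSeries k) ^ (N + 1) ∣ f - PowerSeries.C (PowerSeries.constantCoeff f) := by
  have h1 : PowerSeries.derivative k f = dlog f * f := by
    unfold dlog
    rw [mul_assoc, PowerSeries.inv_mul_cancel f hf, mul_one]
  have h2 : (PowerSeries.X : PowerSeries k) ^ N ∣ PowerSeries.derivative k f := by
    rw [h1]
    exact h.mul_right _
  rw [PowerSeries.X_pow_dvd_iff] at h2 ⊢
  intro m hm
  rcases m with _ | m
  · rw [map_sub, PowerSeries.coeff_zero_eq_constantCoeff_apply,
      PowerSeries.coeff_zero_eq_constantCoeff_apply, PowerSeries.constantCoeff_C, sub_self]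
  · rw [map_sub, PowerSeries.coeff_C, if_neg (Nat.succ_ne_zero m), sub_zero]
    have h3 := h2 m (by omega)
    rw [PowerSeries.coeff_derivative] at h3
    have h4 := hN (m + 1) (by omega) (by omega)
    push_cast at h4
    rcases mul_eq_zero.1 h3 with h5 | h5
    · exact h5
    · exact absurd h5 h4

theorem congr_of_dlog {N : ℕ} (hN : ∀ m : ℕ, 1 ≤ m → m ≤ N → (m : k) ≠ 0) {f g : PowerSeries k}
    (hg : PowerSeries.constantCoeff g ≠ 0)
    (hfg : PowerSeries.constantCoeff f = PowerSeries.constantCoeff g)
    (h : (PowerSeries.X : PowerSeries k) ^ N ∣ dlog f - dlog g) :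
    (PowerSeries.X : PowerSeries k) ^ (N + 1) ∣ f - g := by
  have hg1 := PowerSeries.mul_inv_cancel g hg
  have hc : PowerSeries.constantCoeff (f * g⁻¹) = 1 := by
    rw [map_mul, PowerSeries.constantCoeff_inv, hfg, mul_inv_cancel₀ hg]
  have hc0 : PowerSeries.constantCoeff (f * g⁻¹) ≠ 0 := by rw [hc]; exact one_ne_zero
  have e1 : f = (f * g⁻¹) * g := by
    linear_combination (-f) * hg1
  have e2 : dlog f = dlog (f * g⁻¹) + dlog g := by
    conv_lhs => rw [e1]
    rw [dlog_mul hc0 hg]
  have h1 : (PowerSeries.X : PowerSeries k) ^ N ∣ dlog (f * g⁻¹) := by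
    rw [e2, add_sub_cancel_right] at h
    exact h
  have h2 := const_of_dlog hN hc0 h1
  rw [hc, map_one] at h2
  have e3 : f - g = g * (f * g⁻¹ - 1) := by
    linear_combination (-f) * hg1
  rw [e3]
  exact h2.mul_left _

end field

end PDSW
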