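import Mathlib

/-!
# MP_d51818_co: the multiplier theorem for abelian planar difference sets
-/

set_option autoImplicit false
set_option linter.unusedSectionVars false

namespace PDS7

open Finset

variable {G : Type} [AddCommGroup G] [Fintype G] [DecidableEq G]

/-- `D` is a planar difference set of order `n`. -/
structure IsPDS (n : ℕ) (D : Finset G) : Prop where
  cardG : Fintype.card G = n ^ 2 + n + 1
  cardD : D.card = n + 1
  diff : ∀ g : G, g ≠ 0 → ((D ×ˢ D).filter (fun p : G × G => p.1 - p.2 = g)).card = 1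

/-- the number of the pairs with a given difference -/
def dc (D : Finset G) (g : G) : ℕ := ((D ×ˢ D).filter (fun p : G × G => p.1 - p.2 = g)).card

theorem dc_zero (D : Finset G) : dc D 0 = D.card := by
  unfold dc
  refine Finset.card_bij (fun p _ => p.1) ?_ ?_ ?_
  · intro p hp
    rw [Finset.mem_filter, Finset.mem_product] at hp
    exact hp.1.1
  · intro p hp q hq h
    rw [Finset.mem_filter, Finset.mem_product] at hp hq
    refine Prod.ext h ?_
    rw [← sub_eq_zero.mp hp.2, ← sub_eq_zero.mp hq.2]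
    exact h
  · intro d hd
    exact ⟨(d, d), by simp [hd], rfl⟩

/-- translation -/
theorem IsPDS.trans {n : ℕ} {D : Finset G} (h : IsPDS n D) (g : G) :
    IsPDS n (D.image (fun d => d + g)) := by
  have hinj : Function.Injective (fun d : G => d + g) := add_left_injective g
  refine ⟨h.cardG, by rw [Finset.card_image_of_injective _ hinj, h.cardD], ?_⟩
  intro a ha
  rw [← h.diff a ha]
  symm
  refine Finset.card_bij (fun p _ => (p.1 + g, p.2 + g)) ?_ ?_ ?_
  · intro p hp
    rw [Finset.mem_filter, Finset.mem_product] at hp ⊢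
    refine ⟨⟨Finset.mem_image_of_mem _ hp.1.1, Finset.mem_image_of_mem _ hp.1.2⟩, ?_⟩
    show p.1 + g - (p.2 + g) = a
    rw [add_sub_add_right_eq_sub]
    exact hp.2
  · intro p _ q _ hpq
    rw [Prod.mk.injEq] at hpq
    exact Prod.ext (add_right_cancel hpq.1) (add_right_cancel hpq.2)
  · intro q hq
    rw [Finset.mem_filter, Finset.mem_product] at hq
    obtain ⟨⟨h1, h2⟩, h3⟩ := hq
    obtain ⟨x, hx, hx'⟩ := Finset.mem_image.mp h1
    obtain ⟨y, hy, hy'⟩ := Finset.mem_image.mp h2
    refine ⟨(x, y), ?_, ?_⟩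
    · rw [Finset.mem_filter, Finset.mem_product]
      refine ⟨⟨hx, hy⟩, ?_⟩
      show x - y = a
      rw [← h3, ← hx', ← hy', add_sub_add_right_eq_sub]
    · exact Prod.ext hx' hy'

section groupring

variable (p : ℕ) [Fact p.Prime]

/-- the element of the group ring -/
noncomputable def el (D : Finset G) : AddMonoidAlgebra (ZMod p) G :=
  ∑ d ∈ D, AddMonoidAlgebra.single d 1

/-- the element with the opposite exponents -/
noncomputable def eln (D : Finset G) : AddMonoidAlgebra (ZMod p) G :=
  ∑ d ∈ D, AddMonoidAlgebra.single (-d) 1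

/-- the sum of the group -/
noncomputable def ell : AddMonoidAlgebra (ZMod p) G := ∑ g : G, AddMonoidAlgebra.single g 1

instance charP_ga : CharP (AddMonoidAlgebra (ZMod p) G) p :=
  charP_of_injective_algebraMap (algebraMap (ZMod p) (AddMonoidAlgebra (ZMod p) G)).injective p

theorem el_pow (D : Finset G) :
    el p D ^ p = ∑ d ∈ D, AddMonoidAlgebra.single (p • d) (1 : ZMod p) := by
  unfold el
  rw [sum_pow_char]
  refine Finset.sum_congr rfl fun d _ => ?_
  rw [AddMonoidAlgebra.single_pow, one_pow]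

theorem el_mul_neg (D : Finset G) (m : ℕ) :
    (∑ d ∈ D, AddMonoidAlgebra.single (m • d) (1 : ZMod p)) * eln p D =
    ∑ q ∈ D ×ˢ D, AddMonoidAlgebra.single (m • q.1 - q.2) (1 : ZMod p) := by
  unfold eln
  rw [Finset.sum_mul_sum, Finset.sum_product]
  refine Finset.sum_congr rfl fun d _ => Finset.sum_congr rfl fun d' _ => ?_
  rw [AddMonoidAlgebra.single_mul_single, one_mul, sub_eq_add_neg]

theorem sum_single_apply (D : Finset G) (m : ℕ) (g : G) :
    (∑ q ∈ D ×ˢ D, AddMonoidAlgebra.single (m • q.1 - q.2) (1 : ZMod p)).coeff g =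
      (((D ×ˢ D).filter (fun q : G × G => m • q.1 - q.2 = g)).card : ZMod p) := by
  rw [Finset.card_filter, Nat.cast_sum, AddMonoidAlgebra.coeff_sum, Finsupp.finsetSum_apply]
  refine Finset.sum_congr rfl fun q _ => ?_
  rw [AddMonoidAlgebra.coeff_single, Finsupp.single_apply]
  split_ifs <;> simp

theorem ell_apply (g : G) : (ell p : AddMonoidAlgebra (ZMod p) G).coeff g = 1 := by
  unfold ell
  rw [AddMonoidAlgebra.coeff_sum, Finsupp.finsetSum_apply]
  have : ∀ x : G, (AddMonoidAlgebra.single x (1 : ZMod p)).coeff g = if x = g then 1 else 0 := by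
    intro x
    rw [AddMonoidAlgebra.coeff_single, Finsupp.single_apply]
  rw [Finset.sum_congr rfl fun x _ => this x, Finset.sum_ite_eq' Finset.univ g,
    if_pos (Finset.mem_univ _)]

theorem single_mul_ell (d : G) :
    AddMonoidAlgebra.single d (1 : ZMod p) * ell p = ell p := by
  unfold ell
  rw [Finset.mul_sum]
  refine Fintype.sum_equiv (Equiv.addLeft d) _ _ fun x => ?_
  rw [AddMonoidAlgebra.single_mul_single, one_mul]
  rfl

theorem el_mul_ell (D : Finset G) : el p D * ell p = (D.card : ZMod p) • ell p := by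
  unfold el
  rw [Finset.sum_mul, Finset.sum_congr rfl fun d _ => single_mul_ell p d, Finset.sum_const,
    Nat.cast_smul_eq_nsmul]

/-- the counts of the differences `p d - d'` modulo `p` -/
theorem count_mod {n : ℕ} {D : Finset G} (h : IsPDS n D) (hp : p ∣ n) (g : G) :
    (((D ×ˢ D).filter (fun q : G × G => p • q.1 - q.2 = g)).card : ZMod p) = 1 := by
  have hn : (n : ZMod p) = 0 := (ZMod.natCast_eq_zero_iff n p).mpr hp
  have h1 : el p D * eln p D = ell p := by
    have h2 := el_mul_neg p D 1
    have h3 : (∑ d ∈ D, AddMonoidAlgebra.single (1 • d) (1 : ZMod p)) = el p D := by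
      unfold el
      refine Finset.sum_congr rfl fun d _ => ?_
      rw [one_smul]
    rw [h3] at h2
    rw [h2]
    apply AddMonoidAlgebra.ext
    apply Finsupp.ext
    intro x
    rw [sum_single_apply, ell_apply]
    have h4 : ((D ×ˢ D).filter (fun q : G × G => 1 • q.1 - q.2 = x)) =
        ((D ×ˢ D).filter (fun q : G × G => q.1 - q.2 = x)) := by
      refine Finset.filter_congr fun q _ => ?_
      rw [one_smul]
    rw [h4]
    by_cases hx : x = 0
    · have := dc_zero D
      unfold dc at this
      rw [hx, this, h.cardD, Nat.cast_add, hn, zero_add, Nat.cast_one]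
    · rw [h.diff x hx, Nat.cast_one]
  have h5 : el p D * ell p = ell p := by
    rw [el_mul_ell, h.cardD, Nat.cast_add, hn, zero_add, Nat.cast_one, one_smul]
  have h6 : ∀ k : ℕ, el p D ^ k * ell p = ell p := by
    intro k
    induction k with
    | zero => rw [pow_zero, one_mul]
    | succ k ih => rw [pow_succ, mul_assoc, h5, ih]
  have h8 : ∀ k : ℕ, 0 < k → el p D ^ k * eln p D = ell p := by
    intro k hk
    cases k with
    | zero => exact absurd hk (lt_irrefl 0)
    | succ k => rw [pow_succ, mul_assoc, h1, h6]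
  have h7 : el p D ^ p * eln p D = ell p := h8 p (Fact.out : p.Prime).pos
  rw [el_pow, el_mul_neg] at h7
  rw [← sum_single_apply, h7, ell_apply]

end groupring

/-- double counting of the coincidences -/
theorem fib {α β : Type} (S : Finset α) (T : Finset β) (f : α → G) (f' : β → G) :
    ∑ g : G, (S.filter (fun s => f s = g)).card * (T.filter (fun t => f' t = g)).card =
      ∑ s ∈ S, ∑ t ∈ T, if f s = f' t then 1 else 0 := by
  simp only [Finset.card_filter, Finset.sum_mul_sum]
  rw [Finset.sum_comm]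
  refine Finset.sum_congr rfl fun s _ => ?_
  rw [Finset.sum_comm]
  refine Finset.sum_congr rfl fun t _ => ?_
  rw [Finset.sum_eq_single (f s)]
  · rw [if_pos rfl, one_mul]
    by_cases h : f s = f' t
    · rw [if_pos h, if_pos h.symm]
    · rw [if_neg h, if_neg fun h' => h h'.symm]
  · intro g _ hg
    rw [if_neg fun h => hg h.symm, zero_mul]
  · intro h
    exact absurd (Finset.mem_univ _) h

theorem smul_inj {n m : ℕ} {D : Finset G} (h : IsPDS n D) (hm : Nat.Coprime m (n ^ 2 + n + 1))
    {x : G} (hx : m • x = 0) : x = 0 := by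
  have h1 : addOrderOf x ∣ m := addOrderOf_dvd_of_nsmul_eq_zero hx
  have h2 : addOrderOf x ∣ n ^ 2 + n + 1 := by
    rw [← h.cardG]
    exact addOrderOf_dvd_card
  have h3 : addOrderOf x ∣ 1 := by
    rw [← hm]
    exact Nat.dvd_gcd h1 h2
  have h4 : addOrderOf x = 1 := Nat.dvd_one.mp h3
  exact AddMonoid.addOrderOf_eq_one_iff.mp h4

theorem coprime_of_dvd {n p : ℕ} (hp : p ∣ n) : Nat.Coprime p (n ^ 2 + n + 1) := by
  obtain ⟨k, rfl⟩ := hp
  have : (p * k) ^ 2 + p * k + 1 = p * (p * k ^ 2 + k) + 1 := by ring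
  rw [this]
  exact (Nat.coprime_mul_left_add_right p 1 _).mpr (Nat.coprime_one_right p)

theorem coprime_succ (n : ℕ) : Nat.Coprime (n + 1) (n ^ 2 + n + 1) := by
  have : n ^ 2 + n + 1 = (n + 1) * n + 1 := by ring
  rw [this]
  exact (Nat.coprime_mul_left_add_right (n + 1) 1 _).mpr (Nat.coprime_one_right (n + 1))

/-- the squares of the counts -/
theorem sum_sq {n p : ℕ} {D : Finset G} (h : IsPDS n D) (hp : p ∣ n) :
    ∑ g : G, ((D ×ˢ D).filter (fun q : G × G => p • q.1 - q.2 = g)).card *
      ((D ×ˢ D).filter (fun q : G × G => p • q.1 - q.2 = g)).card =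
      (n + 1) ^ 2 + (n ^ 2 + n) := by
  have h1 : ∑ g : G, ((D ×ˢ D).filter (fun q : G × G => q.1 - q.2 = g)).card *
      ((D ×ˢ D).filter (fun q : G × G => q.1 - q.2 = p • g)).card =
      (n + 1) ^ 2 + (n ^ 2 + n) := by
    have h2 : ∀ g : G, ((D ×ˢ D).filter (fun q : G × G => q.1 - q.2 = g)).card *
      ((D ×ˢ D).filter (fun q : G × G => q.1 - q.2 = p • g)).card =
        if g = 0 then (n + 1) ^ 2 else 1 := by
      intro g
      split_ifs with hg
      · have := dc_zero D
        unfold dc at this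
        rw [hg, smul_zero, this, h.cardD, sq]
      · rw [h.diff g hg, h.diff (p • g) fun h0 => hg (smul_inj h (coprime_of_dvd hp) h0)]
    rw [Finset.sum_congr rfl fun g _ => h2 g, ← Finset.add_sum_erase _ _ (Finset.mem_univ (0 : G)),
      if_pos rfl, Finset.sum_congr rfl fun g hg => if_neg (Finset.ne_of_mem_erase hg),
      Finset.sum_const, Finset.card_erase_of_mem (Finset.mem_univ _), Finset.card_univ, h.cardG]
    simp
  rw [← h1, fib]
  have h3 : ∑ g : G, ((D ×ˢ D).filter (fun q : G × G => q.1 - q.2 = g)).card *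
      ((D ×ˢ D).filter (fun q : G × G => q.1 - q.2 = p • g)).card =
      ∑ q ∈ D ×ˢ D, ∑ r ∈ D ×ˢ D, if r.1 - r.2 = p • (q.1 - q.2) then 1 else 0 := by
    simp only [Finset.card_filter, Finset.sum_mul_sum]
    rw [Finset.sum_comm]
    refine Finset.sum_congr rfl fun s _ => ?_
    rw [Finset.sum_comm]
    refine Finset.sum_congr rfl fun t _ => ?_
    rw [Finset.sum_eq_single (s.1 - s.2)]
    · rw [if_pos rfl, one_mul]
    · intro g _ hg
      rw [if_neg fun h => hg h.symm, zero_mul]
    · intro h
      exact absurd (Finset.mem_univ _) h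
  rw [h3]
  simp only [Finset.sum_product]
  refine Finset.sum_congr rfl fun a _ => ?_
  rw [Finset.sum_comm]
  refine Finset.sum_congr rfl fun x _ => Finset.sum_congr rfl fun y _ =>
    Finset.sum_congr rfl fun d _ => ?_
  have h4 : p • a - y = p • x - d ↔ y - d = p • (a - x) := by
    rw [smul_sub, sub_eq_sub_iff_add_eq_add, sub_eq_sub_iff_add_eq_add, add_comm (p • a) d,
      add_comm y (p • x)]
    constructor
    · intro h5
      rw [← h5, add_comm]
    · intro h5
      rw [← h5, add_comm]
  simp only [h4]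

/-- the multiplier theorem -/
theorem mult {n p : ℕ} {D : Finset G} (h : IsPDS n D) (hpp : p.Prime) (hp : p ∣ n) (hn : 0 < n) :
    ∃ g : G, ∀ d ∈ D, p • d - g ∈ D := by
  have : Fact p.Prime := ⟨hpp⟩
  set c : G → ℕ := fun g => ((D ×ˢ D).filter (fun q : G × G => p • q.1 - q.2 = g)).card with hc
  have hp2 := hpp.two_le
  have hc1 : ∀ g, c g = 1 + p * (c g / p) := by
    intro g
    have h1 := count_mod p h hp g
    have h2 : c g % p = 1 % p := (ZMod.natCast_eq_natCast_iff' (c g) 1 p).mp (by
      rw [Nat.cast_one]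
      exact h1)
    rw [Nat.mod_eq_of_lt (by omega : 1 < p)] at h2
    have := Nat.mod_add_div (c g) p
    omega
  set a : G → ℕ := fun g => c g / p with ha
  have hc2 : ∀ g, c g = 1 + p * a g := hc1
  have hS1 : ∑ g, c g = (n + 1) ^ 2 := by
    have h1 := Finset.card_eq_sum_card_fiberwise (s := D ×ˢ D) (t := Finset.univ)
      (f := fun q : G × G => p • q.1 - q.2) (fun _ _ => Finset.mem_coe.mpr (Finset.mem_univ _))
    rw [Finset.card_product, h.cardD] at h1
    rw [sq, h1]
  have hS2 : ∑ g, c g * c g = (n + 1) ^ 2 + (n ^ 2 + n) := sum_sq h hp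
  have hA1 : p * ∑ g, a g = n := by
    have h1 : ∑ g, c g = (n ^ 2 + n + 1) + p * ∑ g, a g := by
      rw [Finset.sum_congr rfl fun g _ => hc2 g, Finset.sum_add_distrib, Finset.sum_const,
        Finset.card_univ, h.cardG, ← Finset.mul_sum]
      simp
    rw [hS1] at h1
    nlinarith
  have hA2 : p ^ 2 * ∑ g, a g * a g = n ^ 2 := by
    have h1 : ∑ g, c g * c g = (n ^ 2 + n + 1) + 2 * (p * ∑ g, a g) +
        p ^ 2 * ∑ g, a g * a g := by
      have h2 : ∀ g, c g * c g = 1 + 2 * (p * a g) + p ^ 2 * (a g * a g) := by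
        intro g
        rw [hc2 g]
        ring
      rw [Finset.sum_congr rfl fun g _ => h2 g, Finset.sum_add_distrib, Finset.sum_add_distrib,
        Finset.sum_const, Finset.card_univ, h.cardG, ← Finset.mul_sum, ← Finset.mul_sum,
        ← Finset.mul_sum]
      simp
    rw [hS2, hA1] at h1
    nlinarith
  have hA3 : ∑ g, a g * a g = (∑ g, a g) * (∑ g, a g) := by
    have h1 : p ^ 2 * ∑ g, a g * a g = p ^ 2 * ((∑ g, a g) * (∑ g, a g)) := by
      rw [hA2, ← hA1]
      ring
    exact Nat.eq_of_mul_eq_mul_left (by positivity) h1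
  have hA0 : 0 < ∑ g, a g := by
    rcases Nat.eq_zero_or_pos (∑ g, a g) with h0 | h0
    · rw [h0, mul_zero] at hA1
      omega
    · exact h0
  obtain ⟨g₀, -, hg₀⟩ : ∃ g ∈ (Finset.univ : Finset G), a g ≠ 0 := by
    by_contra hcon
    push Not at hcon
    rw [Finset.sum_eq_zero hcon] at hA0
    exact absurd hA0 (lt_irrefl 0)
  have hA4 : a g₀ = ∑ g, a g := by
    have hle : ∀ g, a g ≤ ∑ g', a g' := fun g =>
      Finset.single_le_sum (f := a) (fun _ _ => Nat.zero_le _) (Finset.mem_univ g)
    have h1 : ∑ g, a g * (∑ g', a g' - a g) = 0 := by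
      have h2 : ∑ g, a g * (∑ g', a g' - a g) + ∑ g, a g * a g =
          (∑ g, a g) * (∑ g, a g) := by
        rw [← Finset.sum_add_distrib, Finset.sum_mul]
        refine Finset.sum_congr rfl fun g _ => ?_
        rw [← mul_add, Nat.sub_add_cancel (hle g)]
      rw [hA3] at h2
      omega
    have h3 := (Finset.sum_eq_zero_iff.mp h1) g₀ (Finset.mem_univ _)
    rcases Nat.mul_eq_zero.mp h3 with h4 | h4
    · exact absurd h4 hg₀
    · have := hle g₀
      omega
  have hc3 : c g₀ = n + 1 := by
    rw [hc2, hA4, hA1, add_comm]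
  refine ⟨g₀, ?_⟩
  -- the projection is a bijection
  have hinj : Set.InjOn (fun q : G × G => q.1)
      (((D ×ˢ D).filter (fun q : G × G => p • q.1 - q.2 = g₀) : Finset (G × G)) : Set (G × G)) := by
    intro q hq r hr hqr
    rw [Finset.mem_coe, Finset.mem_filter] at hq hr
    have h1 : q.1 = r.1 := hqr
    refine Prod.ext h1 ?_
    have h2 : p • q.1 - q.2 = p • r.1 - r.2 := by rw [hq.2, hr.2]
    rw [h1] at h2
    exact sub_right_injective h2
  have him : ((D ×ˢ D).filter (fun q : G × G => p • q.1 - q.2 = g₀)).image (fun q => q.1) = D := by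
    apply Finset.eq_of_subset_of_card_le
    · intro x hx
      obtain ⟨q, hq, rfl⟩ := Finset.mem_image.mp hx
      rw [Finset.mem_filter, Finset.mem_product] at hq
      exact hq.1.1
    · rw [Finset.card_image_of_injOn hinj, h.cardD]
      exact hc3.ge
  intro d hd
  rw [← him] at hd
  obtain ⟨q, hq, rfl⟩ := Finset.mem_image.mp hd
  rw [Finset.mem_filter, Finset.mem_product] at hq
  have h1 : p • q.1 - g₀ = q.2 := by
    rw [← hq.2]
    abel
  show p • q.1 - g₀ ∈ D
  rw [h1]
  exact hq.1.2

/-- for the translate with sum zero the primes dividing the order fix the set -/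
theorem mult_fix {n p : ℕ} {D : Finset G} (h : IsPDS n D) (hs : ∑ d ∈ D, d = 0)
    (hpp : p.Prime) (hp : p ∣ n) (hn : 0 < n) : ∀ d ∈ D, p • d ∈ D := by
  obtain ⟨g, hg⟩ := mult h hpp hp hn
  have hinj : Set.InjOn (fun d : G => p • d - g) (D : Set G) := by
    intro x _ y _ hxy
    have h1 : p • x = p • y := sub_left_injective hxy
    have h2 : p • (x - y) = 0 := by rw [smul_sub, h1, sub_self]
    exact sub_eq_zero.mp (smul_inj h (coprime_of_dvd hp) h2)
  have him : D.image (fun d : G => p • d - g) = D := by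
    apply Finset.eq_of_subset_of_card_le
    · intro x hx
      obtain ⟨d, hd, rfl⟩ := Finset.mem_image.mp hx
      exact hg d hd
    · rw [Finset.card_image_of_injOn hinj]
  have h1 : ∑ d ∈ D, (p • d - g) = 0 := by
    rw [← Finset.sum_image (f := fun x => x) hinj, him]
    exact hs
  rw [Finset.sum_sub_distrib, ← Finset.smul_sum, hs, smul_zero, zero_sub, neg_eq_zero,
    Finset.sum_const, h.cardD] at h1
  have h2 : g = 0 := smul_inj h (coprime_succ n) h1
  intro d hd
  have := hg d hd
  rwa [h2, sub_zero] at this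

/-- the order is a multiplier -/
theorem mult_n {n : ℕ} {D : Finset G} (h : IsPDS n D) (hs : ∑ d ∈ D, d = 0) (hn : 0 < n) :
    ∀ d ∈ D, n • d ∈ D := by
  have key : ∀ m : ℕ, m ∣ n → ∀ d ∈ D, m • d ∈ D := by
    intro m
    induction m using induction_on_primes with
    | zero =>
      intro h0
      have := Nat.eq_zero_of_zero_dvd h0
      omega
    | one =>
      intro _ d hd
      rwa [one_smul]
    | prime_mul p a hp ih =>
      intro hpa d hd
      rw [mul_smul]
      exact mult_fix h hs hp ((Nat.dvd_mul_right p a).trans hpa) hn _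
        (ih ((Nat.dvd_mul_left a p).trans hpa) d hd)
  exact key n dvd_rfl

/-- the translate with sum zero -/
theorem exists_zero {n : ℕ} {D : Finset G} (h : IsPDS n D) :
    ∃ D' : Finset G, IsPDS n D' ∧ ∑ d ∈ D', d = 0 := by
  have hinj : Function.Injective (fun x : G => (n + 1) • x) := by
    intro x y hxy
    have h1 : (n + 1) • (x - y) = 0 := by
      rw [smul_sub]
      exact sub_eq_zero.mpr hxy
    exact sub_eq_zero.mp (smul_inj h (coprime_succ n) h1)
  obtain ⟨g, hg⟩ := (Finite.injective_iff_surjective.mp hinj) (-∑ d ∈ D, d)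
  refine ⟨D.image (fun d => d + g), h.trans g, ?_⟩
  rw [Finset.sum_image (fun x _ y _ hxy => add_right_cancel hxy), Finset.sum_add_distrib,
    Finset.sum_const, h.cardD]
  have h2 : (n + 1) • g = -∑ d ∈ D, d := hg
  rw [h2, add_neg_cancel]

end PDS7
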