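import Pool.Agent.Lib.MP_d51818_co.B4
import Pool.Agent.Lib.MP_d51818_co.Mult

set_option autoImplicit false
set_option linter.unusedSectionVars false

/-!
# Difference sets: character values, multipliers
-/

open Polynomial

namespace PDSW

open PDS7 (IsPDS dc dc_zero smul_inj coprime_of_dvd)

variable {w : ℕ} [hw : Fact w.Prime]

/-- the powers of the root of unity -/
noncomputable def ee {R : Type*} [CommRing R] (ζ : R) (t : ZMod w) : R := ζ ^ t.val

theorem pow_congr {R : Type*} [CommRing R] {ζ : R} (hζ : ζ ^ w = 1) {m n : ℕ}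
    (h : (m : ZMod w) = (n : ZMod w)) : ζ ^ m = ζ ^ n := by
  rw [ZMod.natCast_eq_natCast_iff] at h
  rw [← Nat.div_add_mod m w, ← Nat.div_add_mod n w, pow_add, pow_mul, hζ, one_pow, one_mul,
    pow_add, pow_mul, hζ, one_pow, one_mul, h]

theorem ee_add {R : Type*} [CommRing R] {ζ : R} (hζ : ζ ^ w = 1) (s t : ZMod w) :
    ee ζ (s + t) = ee ζ s * ee ζ t := by
  unfold ee
  rw [← pow_add]
  apply pow_congr hζ
  push_cast
  rw [ZMod.natCast_zmod_val, ZMod.natCast_zmod_val, ZMod.natCast_zmod_val]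

theorem ee_zero {R : Type*} [CommRing R] {ζ : R} : ee (w := w) ζ 0 = 1 := by
  unfold ee
  rw [ZMod.val_zero, pow_zero]

theorem aeval_FD {G R : Type*} [CommRing R] (ζ : R) (D : Finset G) (χ : G → ZMod w) :
    aeval ζ (FD D χ) = ∑ d ∈ D, ee ζ (χ d) := by
  unfold FD ee
  rw [map_sum]
  refine Finset.sum_congr rfl fun d _ => ?_
  rw [map_pow, aeval_X]

variable {G : Type} [AddCommGroup G] [Fintype G] [DecidableEq G]

theorem sum_ee {R : Type*} [CommRing R] [IsDomain R] {ζ : R} (hζ : IsPrimitiveRoot ζ w)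
    {χ : G →+ ZMod w} (hχ : χ ≠ 0) : ∑ g : G, ee ζ (χ g) = 0 := by
  obtain ⟨g0, hg0⟩ : ∃ g, χ g ≠ 0 := by
    by_contra hcon
    push Not at hcon
    exact hχ (AddMonoidHom.ext hcon)
  have h1 : ∑ g : G, ee ζ (χ g) = ee ζ (χ g0) * ∑ g : G, ee ζ (χ g) := by
    rw [Finset.mul_sum]
    refine (Fintype.sum_equiv (Equiv.addLeft g0) _ _ fun g => ?_).symm
    rw [Equiv.coe_addLeft, map_add, ee_add hζ.pow_eq_one]
  have h2 : (1 - ee ζ (χ g0)) * ∑ g : G, ee ζ (χ g) = 0 := by
    linear_combination h1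
  rcases mul_eq_zero.1 h2 with h3 | h3
  · exfalso
    have h4 : ζ ^ (χ g0).val = 1 := (sub_eq_zero.1 h3).symm
    have h5 := (hζ.pow_eq_one_iff_dvd _).1 h4
    have h6 : (χ g0).val < w := ZMod.val_lt _
    have h7 : (χ g0).val ≠ 0 := by
      rw [Ne, ZMod.val_eq_zero]
      exact hg0
    have := Nat.le_of_dvd (by omega) h5
    omega
  · exact h3

/-- the product of conjugate character values -/
theorem prod_char {R : Type*} [CommRing R] [IsDomain R] {ζ : R} (hζ : IsPrimitiveRoot ζ w)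
    {n : ℕ} {D : Finset G} (h : IsPDS n D) {χ : G →+ ZMod w} (hχ : χ ≠ 0) :
    aeval ζ (FD D χ) * aeval ζ (FD D (fun d => -χ d)) = (n : R) := by
  rw [aeval_FD, aeval_FD, Finset.sum_mul_sum, ← Finset.sum_product']
  have h1 : ∀ q ∈ D ×ˢ D, ee ζ (χ q.1) * ee ζ (-χ q.2) = ee ζ (χ (q.1 - q.2)) := by
    intro q _
    rw [← ee_add hζ.pow_eq_one, map_sub, sub_eq_add_neg]
  rw [Finset.sum_congr rfl h1]
  have h2 : ∑ q ∈ D ×ˢ D, ee ζ (χ (q.1 - q.2)) = ∑ g : G, (dc D g : R) * ee ζ (χ g) := by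
    rw [← Finset.sum_fiberwise_of_maps_to (s := D ×ˢ D) (t := Finset.univ)
      (g := fun q : G × G => q.1 - q.2) (fun _ _ => Finset.mem_univ _)]
    refine Finset.sum_congr rfl fun g _ => ?_
    have h3 : ∀ q ∈ (D ×ˢ D).filter (fun q : G × G => q.1 - q.2 = g),
        ee ζ (χ (q.1 - q.2)) = ee ζ (χ g) := by
      intro q hq
      rw [(Finset.mem_filter.1 hq).2]
    rw [Finset.sum_congr rfl h3, Finset.sum_const, nsmul_eq_mul]
    rfl
  have h4 : ∑ g : G, (dc D g : R) * ee ζ (χ g) = n + ∑ g : G, ee ζ (χ g) := by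
    rw [← Finset.add_sum_erase _ _ (Finset.mem_univ (0 : G)),
      ← Finset.add_sum_erase _ (fun g => ee ζ (χ g)) (Finset.mem_univ (0 : G)), dc_zero, h.cardD,
      map_zero, ee_zero]
    have h5 : ∀ g ∈ Finset.univ.erase (0 : G), (dc D g : R) * ee ζ (χ g) = ee ζ (χ g) := by
      intro g hg
      have : dc D g = 1 := h.diff g (Finset.ne_of_mem_erase hg)
      rw [this, Nat.cast_one, one_mul]
    rw [Finset.sum_congr rfl h5]
    push_cast
    ring
  rw [h2, h4, sum_ee hζ hχ, add_zero]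

/-- the multipliers fix the polynomials -/
theorem FD_mult {n p : ℕ} {D : Finset G} (h : IsPDS n D) (hs : ∑ d ∈ D, d = 0)
    (hpp : p.Prime) (hp : p ∣ n) (hn : 0 < n) (χ : G →+ ZMod w) :
    FD D (fun d => (p : ZMod w) * χ d) = FD D χ := by
  have hm := PDS7.mult_fix h hs hpp hp hn
  have hinj : Function.Injective (fun d : G => p • d) := by
    intro x y hxy
    have h1 : p • (x - y) = 0 := by
      rw [smul_sub]
      exact sub_eq_zero.mpr hxy
    exact sub_eq_zero.mp (smul_inj h (coprime_of_dvd hp) h1)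
  have him : D.image (fun d : G => p • d) = D := by
    apply Finset.eq_of_subset_of_card_le
    · intro x hx
      obtain ⟨d, hd, rfl⟩ := Finset.mem_image.mp hx
      exact hm d hd
    · rw [Finset.card_image_of_injective _ hinj]
  unfold FD
  conv_rhs => rw [← him]
  rw [Finset.sum_image hinj.injOn]
  refine Finset.sum_congr rfl fun d _ => ?_
  rw [map_nsmul, nsmul_eq_mul]

/-- two independent coordinates of a vector space of dimension at least two -/
theorem two_coord (Q : Type) [AddCommGroup Q] [Module (ZMod w) Q] [Module.Finite (ZMod w) Q]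
    (hcard : w < Nat.card Q) :
    ∃ (α β : Q →ₗ[ZMod w] ZMod w) (g0 g1 : Q), α g0 = 1 ∧ β g0 = 0 ∧ α g1 = 0 ∧ β g1 = 1 := by
  have hrank : w < w ^ Module.finrank (ZMod w) Q := by
    have h1 := Module.natCard_eq_pow_finrank (K := ZMod w) (V := Q)
    rw [Nat.card_zmod] at h1
    rw [← h1]
    exact hcard
  have hr : 1 < Module.finrank (ZMod w) Q := by
    by_contra hcon
    have h1 : Module.finrank (ZMod w) Q ≤ 1 := by omega
    have := Nat.pow_le_pow_right hw.out.pos h1
    rw [pow_one] at this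
    omega
  let b := Module.finBasis (ZMod w) Q
  let i0 : Fin (Module.finrank (ZMod w) Q) := ⟨0, by omega⟩
  let i1 : Fin (Module.finrank (ZMod w) Q) := ⟨1, hr⟩
  have hne : i0 ≠ i1 := by
    intro h0
    have := congrArg Fin.val h0
    exact absurd this (by norm_num [i0, i1])
  refine ⟨b.coord i0, b.coord i1, b i0, b i1, ?_, ?_, ?_, ?_⟩
  · rw [Module.Basis.coord_apply, Module.Basis.repr_self, Finsupp.single_eq_same]
  · rw [Module.Basis.coord_apply, Module.Basis.repr_self, Finsupp.single_eq_of_ne hne.symm]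
  · rw [Module.Basis.coord_apply, Module.Basis.repr_self, Finsupp.single_eq_of_ne hne]
  · rw [Module.Basis.coord_apply, Module.Basis.repr_self, Finsupp.single_eq_same]

/-- two independent homomorphisms -/
theorem two_homs (h : w < Nat.card {x : G // w • x = 0}) :
    ∃ α β : G →+ ZMod w, (∃ g, α g = 1 ∧ β g = 0) ∧ ∃ g, α g = 0 ∧ β g = 1 := by
  let f : G →+ G := nsmulAddMonoidHom w
  let H : AddSubgroup G := f.range
  have h7 : ∀ v : G ⧸ H, w • v = 0 := by
    intro v
    induction v using QuotientAddGroup.induction_on with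
    | H g =>
      rw [← QuotientAddGroup.mk_nsmul, QuotientAddGroup.eq_zero_iff]
      exact ⟨g, rfl⟩
  let _ : Module (ZMod w) (G ⧸ H) := AddCommGroup.zmodModule h7
  have hcard : Nat.card (G ⧸ H) = Nat.card {x : G // w • x = 0} := by
    have h1 : Nat.card H * H.index = Nat.card G := AddSubgroup.card_mul_index H
    have h2 : Nat.card f.ker * f.ker.index = Nat.card G := AddSubgroup.card_mul_index f.ker
    have h3 : f.ker.index = Nat.card H := AddSubgroup.index_ker f
    have h4 : Nat.card f.ker = Nat.card {x : G // w • x = 0} := by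
      apply Nat.card_congr
      exact Equiv.subtypeEquivRight fun x => by
        rw [AddMonoidHom.mem_ker]
        rfl
    have h5 : 0 < Nat.card H := Nat.card_pos
    rw [h3, mul_comm] at h2
    have h6 : Nat.card H * H.index = Nat.card H * Nat.card f.ker := by rw [h1, h2]
    have h7 := Nat.eq_of_mul_eq_mul_left h5 h6
    rw [← h4, ← h7]
    rfl
  have hfin : Module.Finite (ZMod w) (G ⧸ H) := Module.Finite.of_finite
  rw [← hcard] at h
  obtain ⟨α, β, q0, q1, h1, h2, h3, h4⟩ := two_coord (G ⧸ H) h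
  obtain ⟨g0, hg0⟩ := QuotientAddGroup.mk'_surjective H q0
  obtain ⟨g1, hg1⟩ := QuotientAddGroup.mk'_surjective H q1
  refine ⟨α.toAddMonoidHom.comp (QuotientAddGroup.mk' H),
    β.toAddMonoidHom.comp (QuotientAddGroup.mk' H), ⟨g0, ?_, ?_⟩, ⟨g1, ?_, ?_⟩⟩
  · show α (QuotientAddGroup.mk' H g0) = 1
    rw [hg0, h1]
  · show β (QuotientAddGroup.mk' H g0) = 0
    rw [hg0, h2]
  · show α (QuotientAddGroup.mk' H g1) = 0
    rw [hg1, h3]
  · show β (QuotientAddGroup.mk' H g1) = 1
    rw [hg1, h4]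

/-- the square of `w` divides the order -/
theorem sq_dvd {α β : G →+ ZMod w} (h0 : ∃ g, α g = 1 ∧ β g = 0) (h1 : ∃ g, α g = 0 ∧ β g = 1) :
    w ^ 2 ∣ Fintype.card G := by
  obtain ⟨g0, a0, b0⟩ := h0
  obtain ⟨g1, a1, b1⟩ := h1
  have hs : Function.Surjective (AddMonoidHom.prod α β) := by
    rintro ⟨x, y⟩
    refine ⟨x.val • g0 + y.val • g1, ?_⟩
    rw [map_add, map_nsmul, map_nsmul]
    ext
    · show x.val • α g0 + y.val • α g1 = x
      rw [a0, a1, smul_zero, add_zero, nsmul_eq_mul, mul_one, ZMod.natCast_zmod_val]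
    · show x.val • β g0 + y.val • β g1 = y
      rw [b0, b1, smul_zero, zero_add, nsmul_eq_mul, mul_one, ZMod.natCast_zmod_val]
  have h2 := AddSubgroup.card_dvd_of_surjective _ hs
  rw [Nat.card_prod, Nat.card_zmod, Nat.card_eq_fintype_card (α := G)] at h2
  rw [pow_two]
  exact h2

end PDSW
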