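import Mathlib

set_option autoImplicit false
set_option linter.unusedSectionVars false

/-!
# Odd functions on the plane over `ZMod w` and their sums over the lines
-/

namespace PDSW

variable {w : ℕ} [hw : Fact w.Prime]

/-- the value of a linear form -/
def lf (l x : Fin 2 → ZMod w) : ZMod w := x 0 * l 0 + x 1 * l 1

theorem lf_smul (c : ZMod w) (l x : Fin 2 → ZMod w) : lf (c • l) x = c * lf l x := by
  unfold lf
  simp only [Pi.smul_apply, smul_eq_mul]
  ring

theorem lf_smul' (c : ZMod w) (l x : Fin 2 → ZMod w) : lf l (c • x) = c * lf l x := by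
  unfold lf
  simp only [Pi.smul_apply, smul_eq_mul]
  ring

theorem lf_neg (l x : Fin 2 → ZMod w) : lf l (-x) = -lf l x := by
  unfold lf
  simp only [Pi.neg_apply]
  ring

theorem lf_add (l l' x : Fin 2 → ZMod w) : lf (l + l') x = lf l x + lf l' x := by
  unfold lf
  simp only [Pi.add_apply]
  ring

theorem lf_comm (l x : Fin 2 → ZMod w) : lf l x = lf x l := by
  unfold lf
  ring

theorem lf_zero (l : Fin 2 → ZMod w) : lf l 0 = 0 := by
  unfold lf
  simp

/-- the indicator of `1` as a polynomial -/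
theorem ind_eq (t : ZMod w) :
    (if t = 1 then (1 : ZMod w) else 0) = -∑ i ∈ Finset.Ico 1 w, t ^ i := by
  have h1 := hw.out.one_le
  split_ifs with h
  · subst h
    simp only [one_pow, Finset.sum_const, Nat.card_Ico, nsmul_eq_mul, mul_one]
    rw [Nat.cast_sub h1, ZMod.natCast_self]
    simp
  · have h2 := geom_sum_Ico_mul t (m := 1) (n := w) h1
    rw [ZMod.pow_card, pow_one, sub_self] at h2
    rcases mul_eq_zero.1 h2 with h3 | h3
    · rw [h3, neg_zero]
    · exact absurd (sub_eq_zero.1 h3) h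

/-- the sum over the line -/
noncomputable def SS (E : (Fin 2 → ZMod w) → ℤ) (l : Fin 2 → ZMod w) : ℤ :=
  ∑ x, if lf l x = 1 then E x else 0

/-- the power moments -/
noncomputable def MM (E : (Fin 2 → ZMod w) → ℤ) (i : ℕ) (l : Fin 2 → ZMod w) : ZMod w :=
  ∑ x, (lf l x) ^ i * (E x : ZMod w)

variable {E : (Fin 2 → ZMod w) → ℤ}

theorem SS_cast (l : Fin 2 → ZMod w) :
    ((SS E l : ℤ) : ZMod w) = -∑ i ∈ Finset.Ico 1 w, MM E i l := by
  unfold SS MM
  rw [Finset.sum_comm, ← Finset.sum_neg_distrib, Int.cast_sum]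
  refine Finset.sum_congr rfl fun x _ => ?_
  rw [← Finset.sum_mul, ← neg_mul, ← ind_eq]
  split_ifs <;> simp

theorem MM_smul (c : ZMod w) (i : ℕ) (l : Fin 2 → ZMod w) :
    MM E i (c • l) = c ^ i * MM E i l := by
  unfold MM
  rw [Finset.mul_sum]
  refine Finset.sum_congr rfl fun x _ => ?_
  rw [lf_smul, mul_pow, mul_assoc]

theorem MM_even (hw2 : w ≠ 2) (hE : ∀ x, E (-x) = -E x) {i : ℕ} (hi : Even i)
    (l : Fin 2 → ZMod w) : MM E i l = 0 := by
  have h1 : MM E i l = -MM E i l := by
    unfold MM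
    rw [← Finset.sum_neg_distrib]
    refine Fintype.sum_equiv (Equiv.neg _) _ _ fun x => ?_
    rw [Equiv.neg_apply, lf_neg, hE, hi.neg_pow]
    push_cast
    ring
  have h2 : (2 : ZMod w) * MM E i l = 0 := by linear_combination h1
  rcases mul_eq_zero.1 h2 with h3 | h3
  · exfalso
    have h4 : ((2 : ℕ) : ZMod w) = 0 := by exact_mod_cast h3
    rw [ZMod.natCast_eq_zero_iff] at h4
    exact hw2 ((Nat.prime_dvd_prime_iff_eq hw.out Nat.prime_two).1 h4)
  · exact h3

theorem MM_fix {c : ZMod w} (hc : c ≠ 0) (hE : ∀ x, E (c • x) = E x) {i : ℕ} (hi : c ^ i ≠ 1)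
    (l : Fin 2 → ZMod w) : MM E i l = 0 := by
  have h1 : c ^ i * MM E i l = MM E i l := by
    rw [← MM_smul]
    unfold MM
    refine Fintype.sum_equiv (Equiv.smulRight hc) _ _ fun x => ?_
    rw [Equiv.smulRight_apply, lf_smul, lf_smul', hE]
  have h2 : (c ^ i - 1) * MM E i l = 0 := by linear_combination h1
  rcases mul_eq_zero.1 h2 with h3 | h3
  · exact absurd (sub_eq_zero.1 h3) hi
  · exact h3

theorem exists_one {x : Fin 2 → ZMod w} (hx : x ≠ 0) : ∃ u, lf u x = 1 := by
  by_cases h0 : x 0 = 0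
  · have h1 : x 1 ≠ 0 := by
      intro h1
      apply hx
      funext i
      fin_cases i
      · exact h0
      · exact h1
    refine ⟨![0, (x 1)⁻¹], ?_⟩
    unfold lf
    simp [h1]
  · refine ⟨![(x 0)⁻¹, 0], ?_⟩
    unfold lf
    simp [h0]

theorem card_line {x : Fin 2 → ZMod w} (hx : x ≠ 0) :
    (Finset.univ.filter (fun l : Fin 2 → ZMod w => lf l x = 1)).card = w := by
  obtain ⟨u, hu⟩ := exists_one hx
  have h1 : ∀ t : ZMod w, (Finset.univ.filter (fun l : Fin 2 → ZMod w => lf l x = t)).card =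
      (Finset.univ.filter (fun l : Fin 2 → ZMod w => lf l x = 1)).card := by
    intro t
    refine Finset.card_bij' (fun l _ => l + (1 - t) • u) (fun l _ => l + (t - 1) • u)
      ?_ ?_ ?_ ?_
    · intro l hl
      rw [Finset.mem_filter] at hl ⊢
      refine ⟨Finset.mem_univ _, ?_⟩
      rw [lf_add, lf_smul, hu, hl.2]
      ring
    · intro l hl
      rw [Finset.mem_filter] at hl ⊢
      refine ⟨Finset.mem_univ _, ?_⟩
      rw [lf_add, lf_smul, hu, hl.2]
      ring
    · intro l _
      rw [add_assoc, ← add_smul]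
      simp
    · intro l _
      rw [add_assoc, ← add_smul]
      simp
  have h2 := Finset.card_eq_sum_card_fiberwise (s := (Finset.univ : Finset (Fin 2 → ZMod w)))
    (t := (Finset.univ : Finset (ZMod w))) (f := fun l => lf l x)
    (fun _ _ => Finset.mem_coe.mpr (Finset.mem_univ _))
  rw [Finset.sum_congr rfl fun t _ => h1 t, Finset.sum_const, Finset.card_univ, Finset.card_univ,
    ZMod.card, Fintype.card_fun, ZMod.card, Fintype.card_fin, smul_eq_mul, pow_two] at h2
  exact (Nat.eq_of_mul_eq_mul_left hw.out.pos h2).symm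

theorem SS_odd (hw2 : w ≠ 2) (hE : ∀ x, x ≠ 0 → Odd (E x)) {l : Fin 2 → ZMod w} (hl : l ≠ 0) :
    Odd (SS E l) := by
  have h1 : Finset.univ.filter (fun x => lf l x = 1) =
      Finset.univ.filter (fun x : Fin 2 → ZMod w => lf x l = 1) := by
    ext x
    simp only [Finset.mem_filter, Finset.mem_univ, true_and]
    rw [lf_comm x l]
  have h2 : ∀ x, ∃ k : ℤ, lf l x = 1 → E x = 2 * k + 1 := by
    intro x
    by_cases h : lf l x = 1
    · obtain ⟨k, hk⟩ := hE x (by
        intro h0
        rw [h0, lf_zero] at h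
        exact zero_ne_one h)
      exact ⟨k, fun _ => hk⟩
    · exact ⟨0, fun h3 => absurd h3 h⟩
  choose k hk using h2
  unfold SS
  rw [← Finset.sum_filter]
  have h3 : ∀ x ∈ Finset.univ.filter (fun x => lf l x = 1), E x = 2 * k x + 1 := by
    intro x hx
    exact hk x (Finset.mem_filter.1 hx).2
  rw [Finset.sum_congr rfl h3, Finset.sum_add_distrib, ← Finset.mul_sum, Finset.sum_const, h1,
    card_line hl]
  obtain ⟨m, hm⟩ := hw.out.odd_of_ne_two hw2
  refine ⟨∑ x ∈ Finset.univ.filter (fun x : Fin 2 → ZMod w => lf x l = 1), k x + m, ?_⟩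
  have hm' : (w : ℤ) = 2 * (m : ℤ) + 1 := by exact_mod_cast hm
  rw [nsmul_eq_mul, mul_one]
  linear_combination hm'

/-- number of the linear forms with two given values one -/
def NN (x y : Fin 2 → ZMod w) : ℕ :=
  (Finset.univ.filter (fun l : Fin 2 → ZMod w => lf l x = 1 ∧ lf l y = 1)).card

theorem NN_eq {x : Fin 2 → ZMod w} (hx : x ≠ 0) (y : Fin 2 → ZMod w) :
    (NN x y : ℤ) = 1 + ∑ c : ZMod w, if y = c • x then (if c = 1 then (w : ℤ) else 0) - 1 else 0 := by
  by_cases hd : x 0 * y 1 - x 1 * y 0 = 0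
  · -- dependent
    obtain ⟨c, hc⟩ : ∃ c : ZMod w, y = c • x := by
      by_cases h0 : x 0 = 0
      · have h1 : x 1 ≠ 0 := by
          intro h1
          apply hx
          funext i
          fin_cases i
          · exact h0
          · exact h1
        refine ⟨y 1 / x 1, ?_⟩
        funext i
        fin_cases i
        · show y 0 = y 1 / x 1 * x 0
          rw [h0, mul_zero]
          rw [h0, zero_mul, zero_sub, neg_eq_zero] at hd
          exact (mul_eq_zero.1 hd).resolve_left h1
        · show y 1 = y 1 / x 1 * x 1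
          field_simp
      · refine ⟨y 0 / x 0, ?_⟩
        funext i
        fin_cases i
        · show y 0 = y 0 / x 0 * x 0
          field_simp
        · show y 1 = y 0 / x 0 * x 1
          field_simp
          linear_combination hd
    have hinj : ∀ c' : ZMod w, y = c' • x → c' = c := by
      intro c' hc'
      obtain ⟨u, hu⟩ := exists_one hx
      have h1 := congrArg (lf u) hc'
      have h2 := congrArg (lf u) hc
      rw [lf_smul', hu, mul_one] at h1 h2
      rw [← h1, ← h2]
    rw [Finset.sum_eq_single c]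
    · rw [if_pos hc]
      unfold NN
      by_cases h1 : c = 1
      · rw [if_pos h1]
        have h2 : (Finset.univ.filter (fun l : Fin 2 → ZMod w => lf l x = 1 ∧ lf l y = 1)) =
            Finset.univ.filter (fun l : Fin 2 → ZMod w => lf l x = 1) := by
          ext l
          simp only [Finset.mem_filter, Finset.mem_univ, true_and]
          rw [hc, lf_smul', h1, one_mul, and_self]
        rw [h2, card_line hx]
        ring
      · rw [if_neg h1]
        have h2 : (Finset.univ.filter (fun l : Fin 2 → ZMod w => lf l x = 1 ∧ lf l y = 1)) = ∅ := by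
          rw [Finset.filter_eq_empty_iff]
          rintro l _ ⟨h3, h4⟩
          rw [hc, lf_smul', h3, mul_one] at h4
          exact h1 h4
        rw [h2, Finset.card_empty]
        norm_num
    · intro c' _ hne
      rw [if_neg]
      intro h
      exact hne (hinj c' h)
    · intro h
      exact absurd (Finset.mem_univ _) h
  · rw [Finset.sum_eq_zero]
    · unfold NN
      have h2 : (Finset.univ.filter (fun l : Fin 2 → ZMod w => lf l x = 1 ∧ lf l y = 1)) =
          {![(y 1 - x 1) / (x 0 * y 1 - x 1 * y 0), (x 0 - y 0) / (x 0 * y 1 - x 1 * y 0)]} := by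
        ext l
        simp only [Finset.mem_filter, Finset.mem_univ, true_and, Finset.mem_singleton]
        unfold lf
        constructor
        · rintro ⟨h3, h4⟩
          funext i
          fin_cases i
          · show l 0 = (y 1 - x 1) / (x 0 * y 1 - x 1 * y 0)
            rw [eq_div_iff hd]
            linear_combination y 1 * h3 - x 1 * h4
          · show l 1 = (x 0 - y 0) / (x 0 * y 1 - x 1 * y 0)
            rw [eq_div_iff hd]
            linear_combination x 0 * h4 - y 0 * h3
        · rintro rfl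
          refine ⟨?_, ?_⟩
          · show x 0 * ((y 1 - x 1) / (x 0 * y 1 - x 1 * y 0)) +
              x 1 * ((x 0 - y 0) / (x 0 * y 1 - x 1 * y 0)) = 1
            rw [← mul_div_assoc, ← mul_div_assoc, ← add_div, div_eq_one_iff_eq hd]
            ring
          · show y 0 * ((y 1 - x 1) / (x 0 * y 1 - x 1 * y 0)) +
              y 1 * ((x 0 - y 0) / (x 0 * y 1 - x 1 * y 0)) = 1
            rw [← mul_div_assoc, ← mul_div_assoc, ← add_div, div_eq_one_iff_eq hd]
            ring
      rw [h2, Finset.card_singleton]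
      norm_num
    · intro c _
      rw [if_neg]
      intro h
      apply hd
      rw [h]
      simp only [Pi.smul_apply, smul_eq_mul]
      ring

theorem sum_odd_zero (hE : ∀ x, E (-x) = -E x) : ∑ x, E x = 0 := by
  have h1 : ∑ x, E x = -∑ x, E x := by
    rw [← Finset.sum_neg_distrib]
    refine Fintype.sum_equiv (Equiv.neg _) _ _ fun x => ?_
    rw [Equiv.neg_apply, hE, neg_neg]
  linarith

theorem sum_odd_zero' (hE : ∀ x, E (-x) = -E x) (x : Fin 2 → ZMod w) :
    ∑ c : ZMod w, E (c • x) = 0 := by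
  have h1 : ∑ c : ZMod w, E (c • x) = -∑ c : ZMod w, E (c • x) := by
    rw [← Finset.sum_neg_distrib]
    refine Fintype.sum_equiv (Equiv.neg _) _ _ fun c => ?_
    rw [Equiv.neg_apply, neg_smul, hE, neg_neg]
  linarith

theorem sum_NN (hE : ∀ x, E (-x) = -E x) {x : Fin 2 → ZMod w} (hx : x ≠ 0) :
    ∑ y, E y * (NN x y : ℤ) = w * E x := by
  simp only [NN_eq hx, mul_add, mul_one, Finset.sum_add_distrib]
  rw [sum_odd_zero hE, zero_add]
  simp only [Finset.mul_sum]
  rw [Finset.sum_comm]
  have h1 : ∀ c : ZMod w, ∑ y, E y * (if y = c • x then (if c = 1 then (w : ℤ) else 0) - 1 else 0) =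
      (if c = 1 then (w : ℤ) * E x else 0) - E (c • x) := by
    intro c
    rw [Finset.sum_eq_single (c • x)]
    · rw [if_pos rfl]
      split_ifs with h
      · rw [h, one_smul]
        ring
      · ring
    · intro y _ hy
      rw [if_neg hy, mul_zero]
    · intro h
      exact absurd (Finset.mem_univ _) h
  rw [Finset.sum_congr rfl fun c _ => h1 c, Finset.sum_sub_distrib, sum_odd_zero' hE, sub_zero,
    Finset.sum_ite_eq' Finset.univ (1 : ZMod w), if_pos (Finset.mem_univ _)]

theorem second (hE : ∀ x, E (-x) = -E x) : ∑ l, SS E l ^ 2 = w * ∑ x, E x ^ 2 := by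
  have h0 : E 0 = 0 := by
    have := hE 0
    rw [neg_zero] at this
    omega
  have h1 : ∀ l, SS E l ^ 2 = ∑ x, E x * ∑ y, E y * (if lf l x = 1 ∧ lf l y = 1 then 1 else 0) := by
    intro l
    unfold SS
    rw [pow_two, Finset.sum_mul_sum]
    refine Finset.sum_congr rfl fun x _ => ?_
    rw [Finset.mul_sum]
    refine Finset.sum_congr rfl fun y _ => ?_
    by_cases hx : lf l x = 1 <;> by_cases hy : lf l y = 1 <;> simp [hx, hy]
  rw [Finset.sum_congr rfl fun l _ => h1 l, Finset.sum_comm, Finset.mul_sum]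
  refine Finset.sum_congr rfl fun x _ => ?_
  rw [← Finset.mul_sum, Finset.sum_comm]
  have h2 : ∀ y, ∑ l, E y * (if lf l x = 1 ∧ lf l y = 1 then (1 : ℤ) else 0) = E y * (NN x y : ℤ) := by
    intro y
    rw [← Finset.mul_sum]
    unfold NN
    rw [Finset.card_filter]
    push_cast
    rfl
  rw [Finset.sum_congr rfl fun y _ => h2 y]
  by_cases hx : x = 0
  · rw [hx, h0]
    ring
  · rw [sum_NN hE hx]
    ring

theorem choose_l (hE : ∀ x, E (-x) = -E x) {f : ℕ} (hf : ∀ x, |E x| ≤ (f : ℤ)) :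
    ∃ l : Fin 2 → ZMod w, l ≠ 0 ∧
      ∑ b : (ZMod w)ˣ, SS E (b.val • l) ^ 2 ≤ (w : ℤ) * ((w : ℤ) - 1) * (f : ℤ) ^ 2 := by
  classical
  have hw1 := hw.out.one_lt
  have h0 : E 0 = 0 := by
    have := hE 0
    rw [neg_zero] at this
    omega
  by_contra hcon
  push Not at hcon
  -- total over the nonzero `l`
  have hcard : ((Finset.univ.erase (0 : Fin 2 → ZMod w)).card : ℤ) = (w : ℤ) ^ 2 - 1 := by
    rw [Finset.card_erase_of_mem (Finset.mem_univ _), Finset.card_univ, Fintype.card_fun, ZMod.card,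
      Fintype.card_fin, Nat.cast_sub (Nat.one_le_pow _ _ hw.out.pos)]
    push_cast
    rfl
  have h1 : ((w : ℤ) ^ 2 - 1) * ((w : ℤ) * ((w : ℤ) - 1) * (f : ℤ) ^ 2) <
      ∑ l ∈ Finset.univ.erase (0 : Fin 2 → ZMod w), ∑ b : (ZMod w)ˣ, SS E (b.val • l) ^ 2 := by
    rw [← hcard, ← nsmul_eq_mul, ← Finset.sum_const]
    refine Finset.sum_lt_sum_of_nonempty ?_ fun l hl => hcon l (Finset.ne_of_mem_erase hl)
    refine ⟨![1, 0], Finset.mem_erase.2 ⟨?_, Finset.mem_univ _⟩⟩
    intro h
    have := congrFun h 0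
    exact one_ne_zero this
  have h2 : ∑ l ∈ Finset.univ.erase (0 : Fin 2 → ZMod w), ∑ b : (ZMod w)ˣ, SS E (b.val • l) ^ 2 ≤
      ∑ l : Fin 2 → ZMod w, ∑ b : (ZMod w)ˣ, SS E (b.val • l) ^ 2 :=
    Finset.sum_le_sum_of_subset_of_nonneg (Finset.erase_subset _ _) fun l _ _ =>
      Finset.sum_nonneg fun b _ => sq_nonneg _
  have h3 : ∑ l : Fin 2 → ZMod w, ∑ b : (ZMod w)ˣ, SS E (b.val • l) ^ 2 =
      ((w : ℤ) - 1) * ((w : ℤ) * ∑ x, E x ^ 2) := by
    rw [Finset.sum_comm]
    have h4 : ∀ b : (ZMod w)ˣ, ∑ l : Fin 2 → ZMod w, SS E (b.val • l) ^ 2 = w * ∑ x, E x ^ 2 := by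
      intro b
      rw [← second hE]
      refine Fintype.sum_equiv (Equiv.smulRight b.ne_zero) _ _ fun x => ?_
      rfl
    rw [Finset.sum_congr rfl fun b _ => h4 b, Finset.sum_const, Finset.card_univ,
      ZMod.card_units_eq_totient, Nat.totient_prime hw.out, nsmul_eq_mul,
      Nat.cast_sub hw.out.one_le]
    push_cast
    rfl
  have h5 : ∑ x, E x ^ 2 ≤ ((w : ℤ) ^ 2 - 1) * (f : ℤ) ^ 2 := by
    rw [← Finset.add_sum_erase _ _ (Finset.mem_univ (0 : Fin 2 → ZMod w)), h0, ← hcard,
      ← nsmul_eq_mul, ← Finset.sum_const]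
    have h6 : ∑ x ∈ Finset.univ.erase (0 : Fin 2 → ZMod w), E x ^ 2 ≤
        ∑ x ∈ Finset.univ.erase (0 : Fin 2 → ZMod w), (f : ℤ) ^ 2 := by
      refine Finset.sum_le_sum fun x _ => ?_
      rw [← sq_abs (E x)]
      exact pow_le_pow_left₀ (abs_nonneg _) (hf x) 2
    linarith
  have h7 : (0 : ℤ) ≤ ((w : ℤ) - 1) * w := by
    have : (1 : ℤ) < w := by exact_mod_cast hw1
    nlinarith
  have h8 := mul_le_mul_of_nonneg_left h5 h7
  rw [h3] at h2
  nlinarith [h1, h2, h8]

end PDSW
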