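import Pool.Agent.Lib.MP_d51818_co.B8
import Pool.Agent.Lib.MP_d51818_co.B9
import Pool.Agent.Lib.MP_d51818_co.B10

set_option autoImplicit false
set_option linter.unusedSectionVars false

/-!
# The moments of the exponents
-/

open scoped Pointwise
open NumberField IsCyclotomicExtension Polynomial

namespace PDSW

open PDS7 (IsPDS)

section sums

variable {w : ℕ} [hw : Fact w.Prime]

/-- sums over the representatives of the units -/
theorem sum_Ico {M : Type*} [AddCommMonoid M] (g : ZMod w → M) :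
    ∑ a ∈ Finset.Ico 1 w, g (a : ZMod w) = ∑ b : (ZMod w)ˣ, g (b : ZMod w) := by
  have : NeZero w := ⟨hw.out.ne_zero⟩
  symm
  refine Finset.sum_bij (fun b _ => (b : ZMod w).val) ?_ ?_ ?_ ?_
  · intro b _
    rw [Finset.mem_Ico]
    refine ⟨Nat.one_le_iff_ne_zero.2 ?_, ZMod.val_lt _⟩
    rw [Ne, ZMod.val_eq_zero]
    exact b.ne_zero
  · intro b _ b' _ h
    exact Units.ext (ZMod.val_injective w h)
  · intro a ha
    rw [Finset.mem_Ico] at ha
    have h : (a : ZMod w) ≠ 0 := cast_ne ha.1 ha.2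
    exact ⟨Units.mk0 _ h, Finset.mem_univ _, by
      rw [Units.val_mk0, ZMod.val_cast_of_lt ha.2]⟩
  · intro b _
    rw [ZMod.natCast_zmod_val]

theorem sum_pow_Ico (i : ℕ) :
    ∑ a ∈ Finset.Ico 1 w, (a : ZMod w) ^ i = if w - 1 ∣ i then -1 else 0 := by
  rw [sum_Ico (fun a : ZMod w => a ^ i)]
  have h := FiniteField.sum_pow_units (ZMod w) i
  rw [ZMod.card] at h
  exact h

/-- from the vanishing of the logarithmic derivative to the congruence -/
theorem cong_of_Ph (h3 : 3 ≤ w) {R : Type*} [CommRing R] {ζ : R}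
    (hζ : aeval ζ (cyclotomic w ℤ) = 0) {F : ℤ[X]} (hF : ((F.eval 1 : ℤ) : ZMod w) ≠ 0) {i : ℕ}
    (hi1 : 1 ≤ i) (hi2 : i + 2 ≤ w) (hPh : Ph w (w - 1 - i) F = 0) :
    ∃ z : ℤ, (w : R) ∣ (∏ a ∈ Finset.Ico 1 w, (aeval (ζ ^ a) F) ^ (a ^ i)) - (z : R) := by
  obtain ⟨H, hH⟩ : ∃ H : ℤ[X], H = ∏ a ∈ Finset.Ico 1 w, (F.comp (X ^ a)) ^ (a ^ i) := ⟨_, rfl⟩
  have hz : ∀ a ∈ Finset.Ico 1 w, (((((F.comp (X ^ a)) ^ (a ^ i) : ℤ[X])).eval 1 : ℤ) : ZMod w) ≠ 0 :=
    fun a _ => nz_pow (nz_comp hF a) _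
  have hH0 : ((H.eval 1 : ℤ) : ZMod w) ≠ 0 := by
    rw [hH]
    exact nz_prod _ _ hz
  have hPhH : ∀ j, 1 ≤ j → j + 2 ≤ w → Ph w j H = 0 := by
    intro j hj1 hj2
    rw [hH, Ph_prod j _ _ hz]
    have e : ∀ a ∈ Finset.Ico 1 w, Ph w j ((F.comp (X ^ a)) ^ (a ^ i)) =
        (a : ZMod w) ^ (i + j) * Ph w j F := by
      intro a _
      rw [Ph_pow j (nz_comp hF a), Ph_comp hj1 hj2 hF, pow_add]
      push_cast
      ring
    rw [Finset.sum_congr rfl e, ← Finset.sum_mul, sum_pow_Ico]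
    split_ifs with hd
    · have hj : j = w - 1 - i := by
        obtain ⟨c, hc⟩ := hd
        have h1 : c ≠ 0 := by
          rintro rfl
          omega
        have h2 : c < 2 := by
          by_contra h
          have : (w - 1) * 2 ≤ (w - 1) * c := Nat.mul_le_mul_left _ (by omega)
          omega
        have h3 : c = 1 := by omega
        rw [h3, mul_one] at hc
        omega
      rw [hj, hPh, mul_zero]
    · rw [zero_mul]
  have hdl : (PowerSeries.X : PowerSeries (ZMod w)) ^ (w - 2) ∣ dlog (psi w H) := by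
    rw [PowerSeries.X_pow_dvd_iff]
    intro k hk
    have := hPhH (k + 1) (by omega) (by omega)
    unfold Ph phi at this
    rwa [Nat.add_sub_cancel] at this
  have h1 := const_of_dlog (fun k hk1 hk2 => cast_ne hk1 (by omega)) (psi_ne hH0) hdl
  have h2 : w - 2 + 1 = w - 1 := by omega
  rw [h2, psi_const] at h1
  refine ⟨H.eval 1, ?_⟩
  have h4 : (PowerSeries.X : PowerSeries (ZMod w)) ^ (w - 1) ∣ psi w (H - C (H.eval 1)) := by
    rw [map_sub, psi_C]
    rw [map_intCast] at h1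
    exact h1
  have h5 := dvd_of_psi h3 hζ h4
  rw [map_sub, aeval_C] at h5
  have h6 : aeval ζ H = ∏ a ∈ Finset.Ico 1 w, (aeval (ζ ^ a) F) ^ (a ^ i) := by
    rw [hH, map_prod]
    refine Finset.prod_congr rfl fun a _ => ?_
    rw [map_pow, aeval_comp, map_pow, aeval_X]
  rw [← h6]
  simpa using h5

end sums

section chars

variable {w : ℕ} [hw : Fact w.Prime]
variable {G : Type} [AddCommGroup G] [Fintype G] [DecidableEq G]

/-- the characters of order `w` of a plane -/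
def chi (α β : G →+ ZMod w) (x : Fin 2 → ZMod w) : G →+ ZMod w :=
  (AddMonoidHom.mulLeft (x 0)).comp α + (AddMonoidHom.mulLeft (x 1)).comp β

theorem chi_apply (α β : G →+ ZMod w) (x : Fin 2 → ZMod w) (d : G) :
    chi α β x d = x 0 * α d + x 1 * β d := rfl

theorem chi_ne {α β : G →+ ZMod w} (h0 : ∃ g, α g = 1 ∧ β g = 0) (h1 : ∃ g, α g = 0 ∧ β g = 1)
    {x : Fin 2 → ZMod w} (hx : x ≠ 0) : chi α β x ≠ 0 := by
  intro h
  apply hx
  obtain ⟨g0, a0, b0⟩ := h0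
  obtain ⟨g1, a1, b1⟩ := h1
  have e0 := DFunLike.congr_fun h g0
  have e1 := DFunLike.congr_fun h g1
  rw [chi_apply, a0, b0, mul_one, mul_zero, add_zero, AddMonoidHom.zero_apply] at e0
  rw [chi_apply, a1, b1, mul_one, mul_zero, zero_add, AddMonoidHom.zero_apply] at e1
  funext i
  fin_cases i
  · exact e0
  · exact e1

theorem chi_smul (α β : G →+ ZMod w) (c : ZMod w) (x : Fin 2 → ZMod w) :
    (fun d => c * chi α β x d) = chi α β (c • x) := by
  funext d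
  rw [chi_apply, chi_apply]
  simp only [Pi.smul_apply, smul_eq_mul]
  ring

theorem chi_neg (α β : G →+ ZMod w) (x : Fin 2 → ZMod w) :
    (fun d => -chi α β x d) = chi α β (-x) := by
  funext d
  rw [chi_apply, chi_apply]
  simp only [Pi.neg_apply]
  ring

theorem FD_chi_zero (D : Finset G) (α β : G →+ ZMod w) :
    FD D (chi α β 0) = C (D.card : ℤ) := by
  unfold FD
  have e : ∀ d ∈ D, (X : ℤ[X]) ^ (chi α β 0 d).val = 1 := by
    intro d _
    rw [chi_apply]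
    simp
  rw [Finset.sum_congr rfl e]
  simp

end chars

section cyc

variable {w : ℕ} [hw : Fact w.Prime] {K : Type*} [Field K] [NumberField K]
  [hK : IsCyclotomicExtension {w} ℚ K]
variable {G : Type} [AddCommGroup G] [Fintype G] [DecidableEq G]
variable {p f m n : ℕ} {P : Ideal (𝓞 K)} [hPp : P.IsPrime] {ζ : 𝓞 K} {F : ℤ[X]} {D : Finset G}
  {α β : G →+ ZMod w}

/-- the exponents -/
noncomputable def EE (P : Ideal (𝓞 K)) (ζ : 𝓞 K) (f : ℕ) (D : Finset G) (α β : G →+ ZMod w)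
    (x : Fin 2 → ZMod w) : ℤ :=
  if x = 0 then 0 else (f : ℤ) - 2 * (vv P (aeval ζ (FD D (chi α β x))) : ℤ)

theorem ne_bot_of (hp : p.Prime) (hP : (p : 𝓞 K) ∈ P) : P ≠ ⊥ := by
  intro h
  rw [h, Ideal.mem_bot] at hP
  have hp0 : (p : 𝓞 K) ≠ 0 := by exact_mod_cast hp.ne_zero
  exact hp0 hP

include hw hK in
theorem vv_pow_p (hp : p.Prime) (hpw : p ≠ w) (hP : (p : 𝓞 K) ∈ P) (n : ℕ) :
    vv P ((p : 𝓞 K) ^ n) = n := by
  have hp0 : (p : 𝓞 K) ≠ 0 := by exact_mod_cast hp.ne_zero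
  have hP0 := ne_bot_of hp hP
  induction n with
  | zero =>
    rw [pow_zero]
    unfold vv
    rw [Ideal.span_singleton_one, ← Ideal.one_eq_top]
    exact multiplicity_of_one_right (prime_of hP0).not_isUnit
  | succ n ih => rw [pow_succ, vv_mul hP0 (pow_ne_zero _ hp0) hp0, ih, vv_p (w := w) hp hpw hP]

include hw in
theorem vv_sum (hp : p.Prime) (hpw : p ≠ w) (hP : (p : 𝓞 K) ∈ P) (hζ : IsPrimitiveRoot ζ w)
    (hD : IsPDS (p ^ f) D) {χ : G →+ ZMod w} (hχ : χ ≠ 0) :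
    vv P (aeval ζ (FD D χ)) + vv P (aeval ζ (FD D (fun d => -χ d))) = f := by
  have hp0 : (p : 𝓞 K) ≠ 0 := by exact_mod_cast hp.ne_zero
  have hP0 := ne_bot_of hp hP
  have h := prod_char hζ hD hχ
  push_cast at h
  have h0 : aeval ζ (FD D χ) * aeval ζ (FD D (fun d => -χ d)) ≠ 0 := by
    rw [h]
    exact pow_ne_zero f hp0
  rw [← vv_mul hP0 (left_ne_zero_of_mul h0) (right_ne_zero_of_mul h0), h,
    vv_pow_p (w := w) hp hpw hP]

theorem EE_neg (hp : p.Prime) (hpw : p ≠ w) (hP : (p : 𝓞 K) ∈ P) (hζ : IsPrimitiveRoot ζ w)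
    (hD : IsPDS (p ^ f) D) (h0 : ∃ g, α g = 1 ∧ β g = 0) (h1 : ∃ g, α g = 0 ∧ β g = 1)
    (x : Fin 2 → ZMod w) : EE P ζ f D α β (-x) = -EE P ζ f D α β x := by
  unfold EE
  by_cases hx : x = 0
  · rw [if_pos (by rw [hx, neg_zero]), if_pos hx, neg_zero]
  · rw [if_neg (by rwa [neg_eq_zero]), if_neg hx, ← chi_neg]
    have h := vv_sum (w := w) hp hpw hP hζ hD (chi_ne h0 h1 hx)
    omega

theorem EE_abs (hp : p.Prime) (hpw : p ≠ w) (hP : (p : 𝓞 K) ∈ P) (hζ : IsPrimitiveRoot ζ w)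
    (hD : IsPDS (p ^ f) D) (h0 : ∃ g, α g = 1 ∧ β g = 0) (h1 : ∃ g, α g = 0 ∧ β g = 1)
    (x : Fin 2 → ZMod w) : |EE P ζ f D α β x| ≤ (f : ℤ) := by
  unfold EE
  split_ifs with hx
  · rw [abs_zero]
    exact Int.natCast_nonneg f
  · have h := vv_sum (w := w) hp hpw hP hζ hD (chi_ne h0 h1 hx)
    rw [abs_le]
    omega

theorem EE_odd (hf : Odd f) {x : Fin 2 → ZMod w} (hx : x ≠ 0) : Odd (EE P ζ f D α β x) := by
  unfold EE
  rw [if_neg hx]
  obtain ⟨k, hk⟩ := hf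
  refine ⟨k - (vv P (aeval ζ (FD D (chi α β x))) : ℤ), ?_⟩
  rw [hk]
  push_cast
  ring

theorem EE_mult (hp : p.Prime) (hpw : p ≠ w) (hD : IsPDS n D) (hs : ∑ d ∈ D, d = 0)
    (hpn : p ∣ n) (hn : 0 < n) (x : Fin 2 → ZMod w) :
    EE P ζ f D α β ((p : ZMod w) • x) = EE P ζ f D α β x := by
  have hpc : (p : ZMod w) ≠ 0 := by
    rw [Ne, ZMod.natCast_eq_zero_iff]
    intro h
    exact hpw ((Nat.prime_dvd_prime_iff_eq hw.out hp).1 h).symm
  unfold EE
  by_cases hx : x = 0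
  · rw [if_pos (by rw [hx, smul_zero]), if_pos hx]
  · rw [if_neg (smul_ne_zero hpc hx), if_neg hx, ← chi_smul,
      FD_mult hD hs hp hpn hn (chi α β x)]

/-- the relation in terms of the exponents -/
theorem ant3 (hw2 : w ≠ 2) (hp : p.Prime) (hpw : p ≠ w) (hP : (p : 𝓞 K) ∈ P)
    (hζ : IsPrimitiveRoot ζ w) (hF : Ideal.span {aeval ζ F} = P ^ m) (hm : m ≠ 0)
    (hD : IsPDS (p ^ f) D) (hDc : (D.card : ZMod w) ≠ 0)
    (h0 : ∃ g, α g = 1 ∧ β g = 0) (h1 : ∃ g, α g = 0 ∧ β g = 1)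
    {j : ℕ} (hj : Odd j) (hj1 : 2 ≤ j) (hj2 : j + 2 ≤ w) (x : Fin 2 → ZMod w) :
    2 * (Nat.card {σ : Gal(K/ℚ) // σ • P = P} : ZMod w) * (m : ZMod w) *
        Ph w j (FD D (chi α β x)) =
      -(Ph w j F * ∑ b : (ZMod w)ˣ, (b : ZMod w) ^ j *
        ((EE P ζ f D α β (((b⁻¹ : (ZMod w)ˣ) : ZMod w) • x) : ℤ) : ZMod w)) := by
  have hNZ : NeZero w := ⟨hw.out.ne_zero⟩
  by_cases hx : x = 0
  · subst hx
    rw [FD_chi_zero, Ph_C, mul_zero]
    have e : ∀ b : (ZMod w)ˣ, (b : ZMod w) ^ j *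
        ((EE P ζ f D α β (((b⁻¹ : (ZMod w)ˣ) : ZMod w) • (0 : Fin 2 → ZMod w)) : ℤ) : ZMod w) =
        0 := by
      intro b
      rw [smul_zero]
      unfold EE
      rw [if_pos rfl, Int.cast_zero, mul_zero]
    rw [Finset.sum_congr rfl fun b _ => e b, Finset.sum_const_zero, mul_zero, neg_zero]
  · have hA1 : (((FD D (chi α β x)).eval 1 : ℤ) : ZMod w) ≠ 0 := by
      rw [FD_one]
      push_cast
      exact hDc
    have hA : aeval ζ (FD D (chi α β x)) *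
        aeval ζ ((FD D (chi α β x)).comp (X ^ (w - 1))) = (p : 𝓞 K) ^ f := by
      rw [FD_comp D _ hζ.pow_eq_one]
      have e1 : ((w - 1 : ℕ) : ZMod w) = -1 := by
        rw [Nat.cast_sub hw.out.one_le, ZMod.natCast_self, zero_sub, Nat.cast_one]
      have e2 : (fun d => ((w - 1 : ℕ) : ZMod w) * chi α β x d) = fun d => -chi α β x d := by
        funext d
        rw [e1]
        ring
      rw [e2]
      have h := prod_char hζ hD (chi_ne h0 h1 hx)
      push_cast at h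
      exact h
    rw [ant2 (w := w) hw2 hp hpw hP hζ hF hm hA1 hA hj hj1 hj2]
    congr 2
    refine Fintype.sum_equiv (Rat.galEquivZMod w K).toEquiv _ _ fun σ => ?_
    have e3 : (Rat.galEquivZMod w K).toEquiv σ = ex w K σ := rfl
    rw [e3]
    congr 2
    have e4 : ((ex w K σ)⁻¹ : (ZMod w)ˣ) = ex w K σ⁻¹ := (map_inv (Rat.galEquivZMod w K) σ).symm
    rw [e4]
    unfold EE
    rw [if_neg (smul_ne_zero (Units.ne_zero _) hx), smul_aeval (w := w) hζ.pow_eq_one,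
      FD_comp D _ hζ.pow_eq_one, ZMod.natCast_zmod_val, chi_smul]

/-- the moments vanish unless the logarithmic derivative of the generator vanishes -/
theorem MM_zero (hw2 : w ≠ 2) (hp : p.Prime) (hpw : p ≠ w) (hP : (p : 𝓞 K) ∈ P)
    (hζ : IsPrimitiveRoot ζ w) (hF : Ideal.span {aeval ζ F} = P ^ m) (hm : m ≠ 0)
    (hD : IsPDS (p ^ f) D) (hDc : (D.card : ZMod w) ≠ 0)
    (h0 : ∃ g, α g = 1 ∧ β g = 0) (h1 : ∃ g, α g = 0 ∧ β g = 1)
    {i : ℕ} (hi : Odd i) (hi2 : i + 3 ≤ w) (l : Fin 2 → ZMod w) :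
    Ph w (w - 1 - i) F * MM (EE P ζ f D α β) i l = 0 := by
  have hNZ : NeZero w := ⟨hw.out.ne_zero⟩
  have hwo := hw.out.odd_of_ne_two hw2
  obtain ⟨j, hj⟩ : ∃ j, j = w - 1 - i := ⟨_, rfl⟩
  have hi1 : 1 ≤ i := hi.pos
  have hjo : Odd j := by
    obtain ⟨a, ha⟩ := hwo
    obtain ⟨b, hb⟩ := hi
    exact ⟨a - b - 1, by omega⟩
  have hj1 : 2 ≤ j := by omega
  have hj2 : j + 2 ≤ w := by omega
  rw [← hj]
  obtain ⟨s, hs⟩ : ∃ s : ZMod w, s = 2 * (Nat.card {σ : Gal(K/ℚ) // σ • P = P} : ZMod w) *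
    (m : ZMod w) := ⟨_, rfl⟩
  have h3 := fun x => ant3 (w := w) hw2 hp hpw hP hζ hF hm hD hDc h0 h1 hjo hj1 hj2 x
  rw [← hs] at h3
  -- the left side
  have hL : ∑ x : Fin 2 → ZMod w, (lf l x) ^ i * (s * Ph w j (FD D (chi α β x))) = 0 := by
    have hP1 : IsP (i + j) (fun x : Fin 2 → ZMod w =>
        (lf l x) ^ i * (s * Ph w j (FD D (chi α β x)))) := by
      refine IsP.mul ?_ ?_
      · have h := (IsP.lin (l 0) (l 1)).pow i
        rw [mul_one] at h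
        exact h
      · have h := (isP_Ph D α β hDc (by omega) hj2).smul s
        exact h
    refine hP1.sum_eq_zero ?_
    omega
  -- the right side
  have hR : ∑ x : Fin 2 → ZMod w, (lf l x) ^ i * (-(Ph w j F * ∑ b : (ZMod w)ˣ,
      (b : ZMod w) ^ j * ((EE P ζ f D α β (((b⁻¹ : (ZMod w)ˣ) : ZMod w) • x) : ℤ) : ZMod w))) =
      Ph w j F * MM (EE P ζ f D α β) i l := by
    have e1 : ∀ b : (ZMod w)ˣ, ∑ x : Fin 2 → ZMod w, (lf l x) ^ i *
        ((EE P ζ f D α β (((b⁻¹ : (ZMod w)ˣ) : ZMod w) • x) : ℤ) : ZMod w) =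
        (b : ZMod w) ^ i * MM (EE P ζ f D α β) i l := by
      intro b
      rw [← MM_smul]
      unfold MM
      refine Fintype.sum_equiv (Equiv.smulRight (b⁻¹).ne_zero) _ _ fun x => ?_
      rw [Equiv.smulRight_apply, lf_smul, lf_smul', ← mul_assoc, Units.mul_inv, one_mul]
    have e2 : ∀ x : Fin 2 → ZMod w, (lf l x) ^ i * (-(Ph w j F * ∑ b : (ZMod w)ˣ,
        (b : ZMod w) ^ j *
          ((EE P ζ f D α β (((b⁻¹ : (ZMod w)ˣ) : ZMod w) • x) : ℤ) : ZMod w))) =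
        ∑ b : (ZMod w)ˣ, -(Ph w j F * (b : ZMod w) ^ j) * ((lf l x) ^ i *
          ((EE P ζ f D α β (((b⁻¹ : (ZMod w)ˣ) : ZMod w) • x) : ℤ) : ZMod w)) := by
      intro x
      rw [Finset.mul_sum, ← Finset.sum_neg_distrib, Finset.mul_sum]
      refine Finset.sum_congr rfl fun b _ => ?_
      ring
    rw [Finset.sum_congr rfl fun x _ => e2 x, Finset.sum_comm]
    have e3 : ∀ b : (ZMod w)ˣ, ∑ x : Fin 2 → ZMod w, -(Ph w j F * (b : ZMod w) ^ j) *
        ((lf l x) ^ i *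
          ((EE P ζ f D α β (((b⁻¹ : (ZMod w)ˣ) : ZMod w) • x) : ℤ) : ZMod w)) =
        -(Ph w j F * MM (EE P ζ f D α β) i l) := by
      intro b
      rw [← Finset.mul_sum, e1]
      have e4 : (b : ZMod w) ^ j * (b : ZMod w) ^ i = 1 := by
        rw [← pow_add]
        have e5 : j + i = w - 1 := by omega
        rw [e5]
        exact ZMod.pow_card_sub_one_eq_one b.ne_zero
      linear_combination (-(Ph w j F * MM (EE P ζ f D α β) i l)) * e4
    rw [Finset.sum_congr rfl fun b _ => e3 b, Finset.sum_const, Finset.card_univ,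
      ZMod.card_units_eq_totient, Nat.totient_prime hw.out, nsmul_eq_mul,
      Nat.cast_sub hw.out.one_le, ZMod.natCast_self]
    push_cast
    ring
  rw [← hR, ← Finset.sum_congr rfl fun x _ => by rw [← h3 x], hL]

end cyc

end PDSW
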