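import Pool.Agent.Lib.MP_d51818_co.B11

set_option autoImplicit false
set_option linter.unusedSectionVars false

/-!
# The theorem on the Sylow subgroups of abelian groups with a planar difference set
-/

open scoped Pointwise
open NumberField IsCyclotomicExtension Polynomial

namespace PDSW

open PDS7 (IsPDS)

variable {w : ℕ} [hw : Fact w.Prime]

theorem no_four (n : ℕ) : ¬ 2 ^ 2 ∣ n ^ 2 + n + 1 := by
  intro h
  have h1 : 2 ∣ n ^ 2 + n + 1 := (by norm_num : (2 : ℕ) ∣ 2 ^ 2).trans h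
  rcases Nat.even_or_odd n with h2 | h2
  · obtain ⟨k, hk⟩ := h2
    subst hk
    have : (k + k) ^ 2 + (k + k) + 1 = 2 * (2 * k ^ 2 + k) + 1 := by ring
    omega
  · obtain ⟨k, hk⟩ := h2
    subst hk
    have : (2 * k + 1) ^ 2 + (2 * k + 1) + 1 = 2 * (2 * k ^ 2 + 3 * k + 1) + 1 := by ring
    omega

theorem no_nine (n : ℕ) : ¬ 3 ^ 2 ∣ n ^ 2 + n + 1 := by
  intro h
  have h1 : n % 9 < 9 := Nat.mod_lt _ (by norm_num)
  have h2 : (n ^ 2 + n + 1) % 9 = 0 := Nat.mod_eq_zero_of_dvd (by norm_num at h ⊢; exact h)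
  have h3 : (n ^ 2 + n + 1) % 9 = ((n % 9) ^ 2 + n % 9 + 1) % 9 := by
    simp [Nat.add_mod, Nat.pow_mod]
  rw [h3] at h2
  interval_cases h4 : n % 9 <;> omega

section cyc

variable {K : Type*} [Field K] [NumberField K] [hK : IsCyclotomicExtension {w} ℚ K]
variable {G : Type} [AddCommGroup G] [Fintype G] [DecidableEq G]

/-- the condition on an exponent -/
def Cond (w p : ℕ) {K : Type*} [Field K] [NumberField K] (ζ : 𝓞 K) (F : ℤ[X]) (i : ℕ) : Prop :=
  Odd i ∧ i < w - 1 ∧ w ∣ p ^ i - 1 ∧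
    ∃ z : ℤ, (w : 𝓞 K) ∣ (∏ a ∈ Finset.Ico 1 w, (aeval (ζ ^ a) F) ^ (a ^ i)) - (z : 𝓞 K)

include hK in
theorem main {p f m : ℕ} (hp : p.Prime) (hf : Odd f) (hm : m ≠ 0) {P : Ideal (𝓞 K)} [P.IsPrime]
    (hP : (p : 𝓞 K) ∈ P) {ζ : 𝓞 K} (hζ : IsPrimitiveRoot ζ w) {F : ℤ[X]}
    (hF : Ideal.span {aeval ζ F} = P ^ m) {D : Finset G} (hD : IsPDS (p ^ f) D)
    (hG : w < Nat.card {x : G // w • x = 0}) :
    ∃ r s : ℕ → ℤ, (∀ i, r i ≠ 0 → Cond w p ζ F i) ∧
      (∀ b ∈ Finset.Ico 1 w, Odd (s b) ∧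
        (w : ℤ) ∣ s b - ∑ i ∈ Finset.range w, r i * (b : ℤ) ^ i) ∧
      ∑ b ∈ Finset.Ico 1 w, s b ^ 2 ≤ (w : ℤ) * ((w : ℤ) - 1) * (f : ℤ) ^ 2 := by
  have hNZ : NeZero w := ⟨hw.out.ne_zero⟩
  obtain ⟨D', hD', hs⟩ := PDS7.exists_zero hD
  obtain ⟨α, β, h0, h1⟩ := two_homs hG
  have hdvd := sq_dvd h0 h1
  rw [hD.cardG] at hdvd
  have hw2 : w ≠ 2 := by
    rintro rfl
    exact no_four _ hdvd
  have hw3 : w ≠ 3 := by
    rintro rfl
    exact no_nine _ hdvd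
  have hwo := hw.out.odd_of_ne_two hw2
  have hw5 : 4 ≤ w := by
    have := hw.out.two_le
    omega
  have hn : 0 < p ^ f := pow_pos hp.pos f
  have hpn : p ∣ p ^ f := dvd_pow_self p hf.pos.ne'
  have hz : ((p : ZMod w) ^ f) ^ 2 + (p : ZMod w) ^ f + 1 = 0 := by
    have h2 : (((p ^ f) ^ 2 + p ^ f + 1 : ℕ) : ZMod w) = 0 := by
      rw [ZMod.natCast_eq_zero_iff]
      exact (dvd_pow_self w two_ne_zero).trans hdvd
    push_cast at h2
    exact h2
  have hpw : p ≠ w := by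
    rintro rfl
    rw [ZMod.natCast_self, zero_pow hf.pos.ne'] at hz
    norm_num at hz
  have hp0 : (p : ZMod w) ≠ 0 := by
    rw [Ne, ZMod.natCast_eq_zero_iff]
    intro h
    exact hpw ((Nat.prime_dvd_prime_iff_eq hw.out hp).1 h).symm
  have hDc : (D'.card : ZMod w) ≠ 0 := by
    rw [hD'.cardD]
    push_cast
    intro h
    have : (1 : ZMod w) = 0 := by
      linear_combination hz - (p : ZMod w) ^ f * h
    exact one_ne_zero this
  have hp1 : (p : ZMod w) ^ (w - 2) ≠ 1 := by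
    intro h
    have h2 : (p : ZMod w) ^ (w - 1) = 1 := ZMod.pow_card_sub_one_eq_one hp0
    have h3 : w - 1 = (w - 2) + 1 := by omega
    rw [h3, pow_succ, h, one_mul] at h2
    rw [h2, one_pow, one_pow] at hz
    have h4 : ((3 : ℕ) : ZMod w) = 0 := by
      push_cast
      linear_combination hz
    rw [ZMod.natCast_eq_zero_iff] at h4
    exact hw3 ((Nat.prime_dvd_prime_iff_eq hw.out Nat.prime_three).1 h4)
  have hEneg := EE_neg (w := w) (α := α) (β := β) hp hpw hP hζ hD' h0 h1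
  have hEabs := EE_abs (w := w) (α := α) (β := β) hp hpw hP hζ hD' h0 h1
  obtain ⟨l, hl, hsum⟩ := choose_l hEneg hEabs
  obtain ⟨E, hE⟩ : ∃ E, E = EE P ζ f D' α β := ⟨_, rfl⟩
  rw [← hE] at hEneg hEabs hsum
  have hEodd : ∀ x, x ≠ 0 → Odd (E x) := fun x hx => by
    rw [hE]
    exact EE_odd hf hx
  have hEmul : ∀ x, E ((p : ZMod w) • x) = E x := fun x => by
    rw [hE]
    exact EE_mult hp hpw hD' hs hpn hn x
  have hF1 := eval_one_ne hζ hp hpw hP hF hm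
  have hζ0 : aeval ζ (cyclotomic w ℤ) = 0 := by
    have h := hζ.isRoot_cyclotomic hw.out.pos
    rw [IsRoot, ← map_cyclotomic_int, eval_map] at h
    exact h
  -- the conditions
  have key : ∀ i, 1 ≤ i → i < w → MM E i l ≠ 0 → Cond w p ζ F i := by
    intro i hi1 hi2 hM
    have hodd : Odd i := by
      by_contra h
      exact hM (MM_even hw2 hEneg (Nat.not_odd_iff_even.1 h) l)
    have hpi : (p : ZMod w) ^ i = 1 := by
      by_contra h
      exact hM (MM_fix hp0 hEmul h l)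
    have hne1 : i ≠ w - 1 := by
      rintro rfl
      obtain ⟨a, ha⟩ := hwo
      obtain ⟨b, hb⟩ := hodd
      omega
    have hne2 : i ≠ w - 2 := by
      rintro rfl
      exact hp1 hpi
    have hi3 : i + 3 ≤ w := by omega
    refine ⟨hodd, by omega, ?_, ?_⟩
    · have h2 : ((p ^ i : ℕ) : ZMod w) = ((1 : ℕ) : ZMod w) := by
        push_cast
        exact hpi
      rw [ZMod.natCast_eq_natCast_iff] at h2
      exact (Nat.modEq_iff_dvd' (Nat.one_le_pow _ _ hp.pos)).1 h2.symm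
    · have h3 := MM_zero (w := w) hw2 hp hpw hP hζ hF hm hD' hDc h0 h1 hodd hi3 l
      rw [← hE] at h3
      have h4 := (mul_eq_zero.1 h3).resolve_right hM
      exact cong_of_Ph (by omega) hζ0 hF1 hi1 (by omega) h4
  refine ⟨fun i => if 1 ≤ i ∧ i < w then -((MM E i l).val : ℤ) else 0,
    fun b => SS E ((b : ZMod w) • l), ?_, ?_, ?_⟩
  · intro i hi
    by_cases h : 1 ≤ i ∧ i < w
    · refine key i h.1 h.2 ?_
      intro hM
      simp only [h, and_self, if_true, hM, ZMod.val_zero, Nat.cast_zero, neg_zero] at hi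
      exact hi rfl
    · simp only [h, if_false] at hi
      exact absurd rfl hi
  · intro b hb
    rw [Finset.mem_Ico] at hb
    have hb0 : (b : ZMod w) ≠ 0 := cast_ne hb.1 hb.2
    refine ⟨SS_odd hw2 hEodd (smul_ne_zero hb0 hl), ?_⟩
    rw [← ZMod.intCast_zmod_eq_zero_iff_dvd]
    simp only [Int.cast_sub, Int.cast_sum, Int.cast_mul, Int.cast_pow, Int.cast_natCast]
    rw [SS_cast, sub_eq_zero, Finset.range_eq_Ico, Finset.sum_eq_sum_Ico_succ_bot hw.out.pos]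
    have e0 : ((if 1 ≤ 0 ∧ 0 < w then -((MM E 0 l).val : ℤ) else 0 : ℤ) : ZMod w) = 0 := by
      rw [if_neg (by omega), Int.cast_zero]
    have e1 : ∀ i ∈ Finset.Ico (0 + 1) w,
        ((if 1 ≤ i ∧ i < w then -((MM E i l).val : ℤ) else 0 : ℤ) : ZMod w) * (b : ZMod w) ^ i =
        -MM E i ((b : ZMod w) • l) := by
      intro i hi
      rw [Finset.mem_Ico] at hi
      rw [if_pos ⟨by omega, hi.2⟩, MM_smul]
      push_cast
      rw [ZMod.natCast_zmod_val]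
      ring
    rw [e0, zero_mul, zero_add, Finset.sum_congr rfl e1, Finset.sum_neg_distrib]
  · have e2 : ∑ b ∈ Finset.Ico 1 w, SS E ((b : ZMod w) • l) ^ 2 =
        ∑ b : (ZMod w)ˣ, SS E ((b : ZMod w) • l) ^ 2 :=
      sum_Ico (fun t : ZMod w => SS E (t • l) ^ 2)
    rw [e2]
    exact hsum

theorem exists_cond {f : ℕ} {C : ℕ → Prop} (hfw : f ^ 2 < w)
    (h : ∃ r s : ℕ → ℤ, (∀ i, r i ≠ 0 → C i) ∧
      (∀ b ∈ Finset.Ico 1 w, Odd (s b) ∧
        (w : ℤ) ∣ s b - ∑ i ∈ Finset.range w, r i * (b : ℤ) ^ i) ∧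
      ∑ b ∈ Finset.Ico 1 w, s b ^ 2 ≤ (w : ℤ) * ((w : ℤ) - 1) * (f : ℤ) ^ 2) : ∃ i, C i := by
  by_contra hcon
  push Not at hcon
  obtain ⟨r, s, h1, h2, h3⟩ := h
  have hr : ∀ i, r i = 0 := by
    intro i
    by_contra h
    exact hcon i (h1 i h)
  have h4 : ∀ b ∈ Finset.Ico 1 w, (w : ℤ) ^ 2 ≤ s b ^ 2 := by
    intro b hb
    obtain ⟨h5, h6⟩ := h2 b hb
    simp only [hr, zero_mul, Finset.sum_const_zero, sub_zero] at h6
    have h7 : s b ≠ 0 := by
      intro h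
      rw [h] at h5
      exact absurd h5 (by decide)
    obtain ⟨c, hc⟩ := h6
    have h8 : c ≠ 0 := by
      rintro rfl
      rw [mul_zero] at hc
      exact h7 hc
    have h9 : 1 ≤ c ^ 2 := by
      have := Int.one_le_abs h8
      rw [← sq_abs]
      nlinarith
    rw [hc, mul_pow]
    nlinarith [sq_nonneg (w : ℤ)]
  have h5 : ((w : ℤ) - 1) * (w : ℤ) ^ 2 ≤ ∑ b ∈ Finset.Ico 1 w, s b ^ 2 := by
    refine le_trans (le_of_eq ?_) (Finset.sum_le_sum h4)
    rw [Finset.sum_const, Nat.card_Ico, nsmul_eq_mul, Nat.cast_sub hw.out.one_le]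
    push_cast
    rfl
  have h6 : (f : ℤ) ^ 2 < w := by exact_mod_cast hfw
  have h7 : (1 : ℤ) < w := by exact_mod_cast hw.out.one_lt
  have h8 : (0 : ℤ) < (w : ℤ) * ((w : ℤ) - 1) := by nlinarith
  nlinarith

end cyc

end PDSW
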