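import Pool.Agent.Lib.MP_d51818_co.B1

set_option autoImplicit false

/-!
# The truncated exponential modulo a prime
-/

open Polynomial

namespace PDSW

variable (w : ℕ) [hw : Fact w.Prime]

/-- the truncated exponential series -/
noncomputable def texp : PowerSeries (ZMod w) :=
  PowerSeries.mk fun k => if k < w - 1 then ((k.factorial : ZMod w))⁻¹ else 0

variable {w}

theorem cast_ne {m : ℕ} (h1 : 1 ≤ m) (h2 : m < w) : (m : ZMod w) ≠ 0 := by
  rw [Ne, ZMod.natCast_eq_zero_iff]
  intro h
  have := Nat.le_of_dvd (by omega) h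
  omega

theorem fact_ne {m : ℕ} (h : m < w) : (m.factorial : ZMod w) ≠ 0 := by
  rw [Ne, ZMod.natCast_eq_zero_iff, hw.out.dvd_factorial]
  omega

theorem texp_const : PowerSeries.constantCoeff (texp w) = 1 := by
  have h2 := hw.out.two_le
  rw [← PowerSeries.coeff_zero_eq_constantCoeff_apply, texp, PowerSeries.coeff_mk,
    if_pos (by omega)]
  simp

theorem texp_ne : PowerSeries.constantCoeff (texp w) ≠ 0 := by
  rw [texp_const]; exact one_ne_zero

theorem dlog_texp : (PowerSeries.X : PowerSeries (ZMod w)) ^ (w - 2) ∣ dlog (texp w) - 1 := by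
  have h1 : (PowerSeries.X : PowerSeries (ZMod w)) ^ (w - 2) ∣
      PowerSeries.derivative (ZMod w) (texp w) - texp w := by
    rw [PowerSeries.X_pow_dvd_iff]
    intro m hm
    rw [map_sub, PowerSeries.coeff_derivative, texp, PowerSeries.coeff_mk, PowerSeries.coeff_mk,
      if_pos (by omega), if_pos (by omega), Nat.factorial_succ]
    have h2 := fact_ne (w := w) (m := m) (by omega)
    have h3 := cast_ne (w := w) (m := m + 1) (by omega) (by omega)
    push_cast at h3 ⊢
    field_simp
    ring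
  have h2 := PowerSeries.mul_inv_cancel (texp w) texp_ne
  have e : dlog (texp w) - 1 =
      (PowerSeries.derivative (ZMod w) (texp w) - texp w) * (texp w)⁻¹ := by
    unfold dlog
    linear_combination h2
  rw [e]
  exact h1.mul_right _

theorem dvd_rescale {N : ℕ} (a : ZMod w) {h : PowerSeries (ZMod w)}
    (hh : (PowerSeries.X : PowerSeries (ZMod w)) ^ N ∣ h) :
    (PowerSeries.X : PowerSeries (ZMod w)) ^ N ∣ PowerSeries.rescale a h := by
  rw [PowerSeries.X_pow_dvd_iff] at hh ⊢
  intro m hm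
  rw [PowerSeries.coeff_rescale, hh m hm, mul_zero]

theorem texp_pow (a : ℕ) : (PowerSeries.X : PowerSeries (ZMod w)) ^ (w - 1) ∣
    texp w ^ a - PowerSeries.rescale (a : ZMod w) (texp w) := by
  have h2 := hw.out.two_le
  have e : w - 1 = (w - 2) + 1 := by omega
  rw [e]
  refine congr_of_dlog (fun m h1 h3 => cast_ne h1 (by omega)) ?_ ?_ ?_
  · rw [const_rescale]; exact texp_ne
  · rw [const_rescale, map_pow, texp_const, one_pow]
  · rw [dlog_pow texp_ne, dlog_rescale _ texp_ne]
    have e1 : a • dlog (texp w) - PowerSeries.C (a : ZMod w) *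
        PowerSeries.rescale (a : ZMod w) (dlog (texp w)) =
        PowerSeries.C (a : ZMod w) * (dlog (texp w) - 1) -
        PowerSeries.C (a : ZMod w) * PowerSeries.rescale (a : ZMod w) (dlog (texp w) - 1) := by
      rw [map_sub, map_one, nsmul_eq_mul, map_natCast]
      ring
    rw [e1]
    exact dvd_sub (dlog_texp.mul_left _) ((dvd_rescale _ dlog_texp).mul_left _)

variable (w)

/-- the substitution of the truncated exponential -/
noncomputable def psi : ℤ[X] →+* PowerSeries (ZMod w) :=
  Polynomial.eval₂RingHom (Int.castRingHom _) (texp w)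

variable {w}

theorem psi_X : psi w X = texp w := by
  simp [psi]

theorem psi_C (c : ℤ) : psi w (C c) = (c : PowerSeries (ZMod w)) := by
  simp [psi]

theorem psi_apply (F : ℤ[X]) :
    psi w F = (F.map (Int.castRingHom (PowerSeries (ZMod w)))).eval (texp w) := by
  rw [eval_map]
  rfl

theorem psi_const (F : ℤ[X]) : PowerSeries.constantCoeff (psi w F) = ((F.eval 1 : ℤ) : ZMod w) := by
  have h : (PowerSeries.constantCoeff (R := ZMod w)).comp (psi w) =
      (Int.castRingHom (ZMod w)).comp (Polynomial.evalRingHom (1 : ℤ)) := by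
    apply Polynomial.ringHom_ext
    · intro c
      rw [RingHom.comp_apply, psi_C]
      simp
    · rw [RingHom.comp_apply, psi_X, texp_const]
      simp
  exact congrArg (fun f : ℤ[X] →+* ZMod w => f F) h

theorem psi_comp (F : ℤ[X]) (a : ℕ) : (PowerSeries.X : PowerSeries (ZMod w)) ^ (w - 1) ∣
    psi w (F.comp (X ^ a)) - PowerSeries.rescale (a : ZMod w) (psi w F) := by
  have h1 : psi w (F.comp (X ^ a)) =
      (F.map (Int.castRingHom (PowerSeries (ZMod w)))).eval (texp w ^ a) := by
    rw [psi_apply, Polynomial.map_comp, eval_comp]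
    simp
  have h2 : PowerSeries.rescale (a : ZMod w) (psi w F) =
      (F.map (Int.castRingHom (PowerSeries (ZMod w)))).eval
        (PowerSeries.rescale (a : ZMod w) (texp w)) := by
    have h : (PowerSeries.rescale (a : ZMod w)).comp (psi w) =
        Polynomial.eval₂RingHom (Int.castRingHom _) (PowerSeries.rescale (a : ZMod w) (texp w)) := by
      apply Polynomial.ringHom_ext
      · intro c
        simp [psi]
      · simp [psi]
    have h' := congrArg (fun f : ℤ[X] →+* PowerSeries (ZMod w) => f F) h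
    rw [eval_map]
    exact h'
  rw [h1, h2]
  exact (texp_pow a).trans (Polynomial.sub_dvd_eval_sub _ _ _)

theorem cyclotomic_map : (cyclotomic w ℤ).map (Int.castRingHom (ZMod w)) = (X - 1) ^ (w - 1) := by
  rw [map_cyclotomic]
  have h := cyclotomic_mul_prime_eq_pow_of_not_dvd (ZMod w) (p := w) (n := 1)
    (fun h => hw.out.one_lt.ne' (Nat.dvd_one.1 h))
  rw [one_mul, cyclotomic_one] at h
  exact h

/-- factorisation through the reduction modulo `w` -/
theorem psi_map (F : ℤ[X]) : psi w F =
    Polynomial.eval₂ (PowerSeries.C (R := ZMod w)) (texp w) (F.map (Int.castRingHom (ZMod w))) := by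
  rw [Polynomial.eval₂_map]
  unfold psi
  rw [Polynomial.coe_eval₂RingHom]
  congr 1
  exact RingHom.ext_int _ _

theorem texp_sub : ∃ u : PowerSeries (ZMod w), texp w - 1 = PowerSeries.X * u ∧
    (3 ≤ w → PowerSeries.constantCoeff u ≠ 0) := by
  have h1 : (PowerSeries.X : PowerSeries (ZMod w)) ∣ texp w - 1 := by
    rw [PowerSeries.X_dvd_iff, map_sub, texp_const, map_one, sub_self]
  obtain ⟨u, hu⟩ := h1
  refine ⟨u, hu, fun h3 => ?_⟩
  have h4 := congrArg (PowerSeries.coeff 1) hu
  rw [PowerSeries.coeff_succ_X_mul, map_sub, texp, PowerSeries.coeff_mk, if_pos (by omega)] at h4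
  rw [← PowerSeries.coeff_zero_eq_constantCoeff_apply, ← h4]
  simp [PowerSeries.coeff_one]

theorem psi_cyclotomic : (PowerSeries.X : PowerSeries (ZMod w)) ^ (w - 1) ∣
    psi w (cyclotomic w ℤ) := by
  rw [psi_map, cyclotomic_map]
  obtain ⟨u, hu, _⟩ := texp_sub (w := w)
  simp only [eval₂_pow, eval₂_sub, eval₂_X, eval₂_one]
  rw [hu, mul_pow]
  exact Dvd.intro _ rfl

theorem psi_of_aeval {K : Type*} [Field K] [CharZero K] {ζ : K} (hζ : IsPrimitiveRoot ζ w)
    {A B : ℤ[X]} (h : aeval ζ A = aeval ζ B) :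
    (PowerSeries.X : PowerSeries (ZMod w)) ^ (w - 1) ∣ psi w A - psi w B := by
  have h1 : cyclotomic w ℤ ∣ A - B := by
    rw [cyclotomic_eq_minpoly hζ hw.out.pos]
    refine minpoly.isIntegrallyClosed_dvd (hζ.isIntegral hw.out.pos) ?_
    rw [map_sub, h, sub_self]
  obtain ⟨Q, hQ⟩ := h1
  rw [← map_sub, hQ, map_mul]
  exact psi_cyclotomic.mul_right _

theorem dvd_of_psi (h3 : 3 ≤ w) {R : Type*} [CommRing R] {ζ : R}
    (hζ : aeval ζ (cyclotomic w ℤ) = 0) {H : ℤ[X]}
    (h : (PowerSeries.X : PowerSeries (ZMod w)) ^ (w - 1) ∣ psi w H) : (w : R) ∣ aeval ζ H := by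
  obtain ⟨Hb, hHb⟩ : ∃ Hb, Hb = H.map (Int.castRingHom (ZMod w)) := ⟨_, rfl⟩
  obtain ⟨u, hu, hu0⟩ := texp_sub (w := w)
  have hu1 := hu0 h3
  -- divisibility modulo w
  have hdiv : (X - 1 : (ZMod w)[X]) ^ (w - 1) ∣ Hb := by
    by_cases hH0 : Hb = 0
    · rw [hH0]; exact dvd_zero _
    obtain ⟨Q, hQ, hQ1⟩ := exists_eq_pow_rootMultiplicity_mul_and_not_dvd Hb hH0 1
    obtain ⟨k, hk⟩ : ∃ k, k = Hb.rootMultiplicity 1 := ⟨_, rfl⟩
    rw [← hk] at hQ
    rw [map_one] at hQ hQ1
    by_cases hkw : w - 1 ≤ k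
    · rw [hQ]
      exact (pow_dvd_pow _ hkw).mul_right _
    · exfalso
      have e1 : psi w H = PowerSeries.X ^ k * (u ^ k *
          Polynomial.eval₂ (PowerSeries.C (R := ZMod w)) (texp w) Q) := by
        rw [psi_map, ← hHb, hQ]
        simp only [eval₂_mul, eval₂_pow, eval₂_sub, eval₂_X, eval₂_one]
        rw [hu, mul_pow]
        ring
      have e2 := (PowerSeries.X_pow_dvd_iff.1 h) k (by omega)
      rw [e1, PowerSeries.coeff_X_pow_mul', if_pos le_rfl, Nat.sub_self,
        PowerSeries.coeff_zero_eq_constantCoeff_apply, map_mul, map_pow] at e2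
      rcases mul_eq_zero.1 e2 with e3 | e3
      · exact pow_ne_zero _ hu1 e3
      · apply hQ1
        rw [← C_1, dvd_iff_isRoot, IsRoot]
        have e4 : PowerSeries.constantCoeff
            (Polynomial.eval₂ (PowerSeries.C (R := ZMod w)) (texp w) Q) = Q.eval 1 := by
          rw [Polynomial.hom_eval₂, texp_const]
          have : (PowerSeries.constantCoeff (R := ZMod w)).comp (PowerSeries.C (R := ZMod w)) =
              RingHom.id _ := by
            ext
            simp
          rw [this]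
          rfl
        rw [← e4, e3]
  obtain ⟨Qb, hQb⟩ := hdiv
  obtain ⟨Q, hQ⟩ := Polynomial.map_surjective (Int.castRingHom (ZMod w))
    (ZMod.intCast_surjective) Qb
  have h4 : (H - cyclotomic w ℤ * Q).map (Int.castRingHom (ZMod w)) = 0 := by
    rw [Polynomial.map_sub, Polynomial.map_mul, cyclotomic_map, hQ, ← hHb, hQb, sub_self]
  have h5 : C (w : ℤ) ∣ H - cyclotomic w ℤ * Q := by
    rw [C_dvd_iff_dvd_coeff]
    intro i
    have h6 := congrArg (fun P => P.coeff i) h4
    simp only [Polynomial.coeff_map, Polynomial.coeff_zero, eq_intCast] at h6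
    rwa [ZMod.intCast_zmod_eq_zero_iff_dvd] at h6
  obtain ⟨S, hS⟩ := h5
  refine ⟨aeval ζ S, ?_⟩
  have h7 := congrArg (aeval ζ) hS
  rw [map_sub, map_mul, hζ, zero_mul, sub_zero, map_mul, aeval_C] at h7
  rw [h7]
  simp

end PDSW
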