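import Pool.Agent.Lib.MP_d51818_co.B2

set_option autoImplicit false

/-!
# The Kummer logarithmic derivatives, and polynomial functions on the plane over `ZMod w`
-/

open Polynomial

namespace PDSW

variable {w : ℕ} [hw : Fact w.Prime]

/-- the coefficients of the logarithmic derivative -/
noncomputable def phi (j : ℕ) (f : PowerSeries (ZMod w)) : ZMod w :=
  PowerSeries.coeff (j - 1) (dlog f)

theorem phi_congr {j : ℕ} (h1 : 1 ≤ j) (h2 : j + 2 ≤ w) {f g : PowerSeries (ZMod w)}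
    (hf : PowerSeries.constantCoeff f ≠ 0) (hg : PowerSeries.constantCoeff g ≠ 0)
    (h : (PowerSeries.X : PowerSeries (ZMod w)) ^ (w - 1) ∣ f - g) : phi j f = phi j g := by
  have e : w - 1 = (w - 2) + 1 := by omega
  rw [e] at h
  have h3 := (PowerSeries.X_pow_dvd_iff.1 (dlog_congr hf hg h)) (j - 1) (by omega)
  rw [map_sub, sub_eq_zero] at h3
  exact h3

theorem phi_mul (j : ℕ) {f g : PowerSeries (ZMod w)}
    (hf : PowerSeries.constantCoeff f ≠ 0) (hg : PowerSeries.constantCoeff g ≠ 0) :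
    phi j (f * g) = phi j f + phi j g := by
  unfold phi
  rw [dlog_mul hf hg, map_add]

theorem phi_pow (j : ℕ) {f : PowerSeries (ZMod w)}
    (hf : PowerSeries.constantCoeff f ≠ 0) (n : ℕ) :
    phi j (f ^ n) = (n : ZMod w) * phi j f := by
  unfold phi
  rw [dlog_pow hf, map_nsmul, nsmul_eq_mul]

theorem phi_prod (j : ℕ) {ι : Type*} (s : Finset ι) (f : ι → PowerSeries (ZMod w))
    (hf : ∀ i ∈ s, PowerSeries.constantCoeff (f i) ≠ 0) :
    phi j (∏ i ∈ s, f i) = ∑ i ∈ s, phi j (f i) := by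
  unfold phi
  rw [dlog_prod s f hf, map_sum]

theorem phi_rescale {j : ℕ} (h1 : 1 ≤ j) (a : ZMod w) {f : PowerSeries (ZMod w)}
    (hf : PowerSeries.constantCoeff f ≠ 0) :
    phi j (PowerSeries.rescale a f) = a ^ j * phi j f := by
  unfold phi
  rw [dlog_rescale a hf, PowerSeries.coeff_C_mul, PowerSeries.coeff_rescale, ← mul_assoc,
    ← pow_succ', Nat.sub_add_cancel h1]

theorem phi_C (j : ℕ) (c : ZMod w) : phi j (PowerSeries.C c) = 0 := by
  unfold phi
  rw [dlog_C, map_zero]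

theorem phi_texp {j : ℕ} (h1 : 2 ≤ j) (h2 : j + 2 ≤ w) : phi j (texp w) = 0 := by
  have h3 := (PowerSeries.X_pow_dvd_iff.1 (dlog_texp (w := w))) (j - 1) (by omega)
  rw [map_sub, sub_eq_zero, PowerSeries.coeff_one, if_neg (by omega)] at h3
  exact h3

/-- the logarithmic derivatives of an integer polynomial at a root of unity -/
noncomputable def Ph (w : ℕ) [hw : Fact w.Prime] (j : ℕ) (A : ℤ[X]) : ZMod w := phi j (psi w A)

theorem psi_ne {A : ℤ[X]} (hA : ((A.eval 1 : ℤ) : ZMod w) ≠ 0) :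
    PowerSeries.constantCoeff (psi w A) ≠ 0 := by
  rw [psi_const]
  exact hA

theorem Ph_mul (j : ℕ) {A B : ℤ[X]} (hA : ((A.eval 1 : ℤ) : ZMod w) ≠ 0)
    (hB : ((B.eval 1 : ℤ) : ZMod w) ≠ 0) : Ph w j (A * B) = Ph w j A + Ph w j B := by
  unfold Ph
  rw [map_mul, phi_mul j (psi_ne hA) (psi_ne hB)]

theorem Ph_pow (j : ℕ) {A : ℤ[X]} (hA : ((A.eval 1 : ℤ) : ZMod w) ≠ 0) (n : ℕ) :
    Ph w j (A ^ n) = (n : ZMod w) * Ph w j A := by
  unfold Ph
  rw [map_pow, phi_pow j (psi_ne hA)]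

theorem Ph_prod (j : ℕ) {ι : Type*} (s : Finset ι) (A : ι → ℤ[X])
    (hA : ∀ i ∈ s, (((A i).eval 1 : ℤ) : ZMod w) ≠ 0) :
    Ph w j (∏ i ∈ s, A i) = ∑ i ∈ s, Ph w j (A i) := by
  unfold Ph
  rw [map_prod, phi_prod j s _ fun i hi => psi_ne (hA i hi)]

theorem eval_comp_one (A : ℤ[X]) (a : ℕ) : (A.comp (X ^ a)).eval 1 = A.eval 1 := by
  rw [eval_comp, eval_pow, eval_X, one_pow]

theorem Ph_comp {j : ℕ} (h1 : 1 ≤ j) (h2 : j + 2 ≤ w) {A : ℤ[X]}
    (hA : ((A.eval 1 : ℤ) : ZMod w) ≠ 0) (a : ℕ) :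
    Ph w j (A.comp (X ^ a)) = (a : ZMod w) ^ j * Ph w j A := by
  unfold Ph
  rw [← phi_rescale h1 (a : ZMod w) (psi_ne hA)]
  refine phi_congr h1 h2 (psi_ne ?_) ?_ (psi_comp A a)
  · rw [eval_comp_one]
    exact hA
  · rw [const_rescale]
    exact psi_ne hA

theorem Ph_X_pow {j : ℕ} (h1 : 2 ≤ j) (h2 : j + 2 ≤ w) (a : ℕ) : Ph w j (X ^ a : ℤ[X]) = 0 := by
  unfold Ph
  rw [map_pow, psi_X, phi_pow j texp_ne, phi_texp h1 h2, mul_zero]

theorem Ph_C (j : ℕ) (c : ℤ) : Ph w j (C c) = 0 := by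
  unfold Ph
  rw [psi_C, ← map_intCast (PowerSeries.C (R := ZMod w)), phi_C]

theorem Ph_congr {K : Type*} [Field K] [CharZero K] {ζ : K} (hζ : IsPrimitiveRoot ζ w)
    {j : ℕ} (h1 : 1 ≤ j) (h2 : j + 2 ≤ w) {A B : ℤ[X]}
    (hA : ((A.eval 1 : ℤ) : ZMod w) ≠ 0) (hB : ((B.eval 1 : ℤ) : ZMod w) ≠ 0)
    (h : aeval ζ A = aeval ζ B) : Ph w j A = Ph w j B :=
  phi_congr h1 h2 (psi_ne hA) (psi_ne hB) (psi_of_aeval hζ h)

/-- a polynomial function of degree at most `d` on the plane -/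
def IsP (d : ℕ) (f : (Fin 2 → ZMod w) → ZMod w) : Prop :=
  ∃ P : MvPolynomial (Fin 2) (ZMod w), P.totalDegree ≤ d ∧ ∀ x, f x = MvPolynomial.eval x P

theorem IsP.mono {d e : ℕ} (h : d ≤ e) {f : (Fin 2 → ZMod w) → ZMod w} (hf : IsP d f) :
    IsP e f := by
  obtain ⟨P, hP, hf⟩ := hf
  exact ⟨P, hP.trans h, hf⟩

theorem IsP.const (d : ℕ) (c : ZMod w) : IsP d (fun _ : Fin 2 → ZMod w => c) :=
  ⟨MvPolynomial.C c, by rw [MvPolynomial.totalDegree_C]; exact Nat.zero_le _, fun x => by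
    rw [MvPolynomial.eval_C]⟩

theorem IsP.add {d : ℕ} {f g : (Fin 2 → ZMod w) → ZMod w} (hf : IsP d f) (hg : IsP d g) :
    IsP d (fun x => f x + g x) := by
  obtain ⟨P, hP, hf⟩ := hf
  obtain ⟨Q, hQ, hg⟩ := hg
  refine ⟨P + Q, (MvPolynomial.totalDegree_add P Q).trans (max_le hP hQ), fun x => ?_⟩
  rw [map_add, ← hf, ← hg]

theorem IsP.mul {d e : ℕ} {f g : (Fin 2 → ZMod w) → ZMod w} (hf : IsP d f) (hg : IsP e g) :
    IsP (d + e) (fun x => f x * g x) := by
  obtain ⟨P, hP, hf⟩ := hf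
  obtain ⟨Q, hQ, hg⟩ := hg
  refine ⟨P * Q, (MvPolynomial.totalDegree_mul P Q).trans (Nat.add_le_add hP hQ), fun x => ?_⟩
  rw [map_mul, ← hf, ← hg]

theorem IsP.smul {d : ℕ} (c : ZMod w) {f : (Fin 2 → ZMod w) → ZMod w} (hf : IsP d f) :
    IsP d (fun x => c * f x) := by
  have h := (IsP.const 0 c).mul hf
  rw [zero_add] at h
  exact h

theorem IsP.sub {d : ℕ} {f g : (Fin 2 → ZMod w) → ZMod w} (hf : IsP d f) (hg : IsP d g) :
    IsP d (fun x => f x - g x) := by
  have h := hf.add (hg.smul (-1))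
  have e : (fun x => f x - g x) = fun x => f x + -1 * g x := by
    funext x
    ring
  rw [e]
  exact h

theorem IsP.sum {d : ℕ} {ι : Type*} (s : Finset ι) (f : ι → (Fin 2 → ZMod w) → ZMod w)
    (hf : ∀ i ∈ s, IsP d (f i)) : IsP d (fun x => ∑ i ∈ s, f i x) := by
  classical
  induction s using Finset.induction_on with
  | empty =>
    simp only [Finset.sum_empty]
    exact IsP.const d 0
  | insert i s hi ih =>
    have h1 := hf i (Finset.mem_insert_self _ _)
    have h2 := ih fun j hj => hf j (Finset.mem_insert_of_mem hj)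
    simp only [Finset.sum_insert hi]
    exact h1.add h2

theorem IsP.pow {d : ℕ} {f : (Fin 2 → ZMod w) → ZMod w} (hf : IsP d f) (n : ℕ) :
    IsP (n * d) (fun x => f x ^ n) := by
  induction n with
  | zero =>
    simp only [pow_zero]
    exact IsP.const _ 1
  | succ n ih =>
    have h := ih.mul hf
    rw [← Nat.succ_mul] at h
    simp only [pow_succ]
    exact h

theorem IsP.lin (u v : ZMod w) : IsP 1 (fun x : Fin 2 → ZMod w => x 0 * u + x 1 * v) := by
  have h0 : IsP 1 (fun x : Fin 2 → ZMod w => x 0) :=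
    ⟨MvPolynomial.X 0, by rw [MvPolynomial.totalDegree_X], fun x => by rw [MvPolynomial.eval_X]⟩
  have h1 : IsP 1 (fun x : Fin 2 → ZMod w => x 1) :=
    ⟨MvPolynomial.X 1, by rw [MvPolynomial.totalDegree_X], fun x => by rw [MvPolynomial.eval_X]⟩
  have h := (h0.smul u).add (h1.smul v)
  have e : (fun x : Fin 2 → ZMod w => x 0 * u + x 1 * v) = fun x => u * x 0 + v * x 1 := by
    funext x
    ring
  rw [e]
  exact h

theorem IsP.sum_eq_zero {d : ℕ} (hd : d < 2 * (w - 1)) {f : (Fin 2 → ZMod w) → ZMod w}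
    (hf : IsP d f) : ∑ x : Fin 2 → ZMod w, f x = 0 := by
  obtain ⟨P, hP, hf⟩ := hf
  simp only [hf]
  apply MvPolynomial.sum_eval_eq_zero
  rw [ZMod.card, Fintype.card_fin, mul_comm]
  exact lt_of_le_of_lt hP hd

/-- the logarithmic derivative of a family of power series with polynomial coefficients -/
theorem isP_dlog {N : ℕ} {c : ZMod w} (hc : c ≠ 0)
    (F : (Fin 2 → ZMod w) → PowerSeries (ZMod w))
    (h0 : ∀ x, PowerSeries.constantCoeff (F x) = c)
    (hF : ∀ k ≤ N, IsP k (fun x => PowerSeries.coeff k (F x))) :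
    ∀ k, k + 1 ≤ N → IsP (k + 1) (fun x => PowerSeries.coeff k (dlog (F x))) := by
  intro k
  induction k using Nat.strong_induction_on with
  | _ k ih =>
    intro hk
    have key : ∀ x, PowerSeries.coeff k (dlog (F x)) = c⁻¹ *
        ((k + 1 : ZMod w) * PowerSeries.coeff (k + 1) (F x) -
        ∑ i ∈ Finset.range k, PowerSeries.coeff i (dlog (F x)) *
          PowerSeries.coeff (k - i) (F x)) := by
      intro x
      have hx : PowerSeries.constantCoeff (F x) ≠ 0 := by rw [h0]; exact hc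
      have e1 : PowerSeries.derivative (ZMod w) (F x) = dlog (F x) * F x := by
        unfold dlog
        rw [mul_assoc, PowerSeries.inv_mul_cancel _ hx, mul_one]
      have e2 := congrArg (PowerSeries.coeff k) e1
      rw [PowerSeries.coeff_derivative, PowerSeries.coeff_mul,
        Finset.Nat.sum_antidiagonal_eq_sum_range_succ (fun i j => PowerSeries.coeff i (dlog (F x)) *
          PowerSeries.coeff j (F x)), Finset.sum_range_succ, Nat.sub_self,
        PowerSeries.coeff_zero_eq_constantCoeff_apply, h0] at e2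
      rw [eq_inv_mul_iff_mul_eq₀ hc]
      linear_combination -e2
    have e3 : (fun x => PowerSeries.coeff k (dlog (F x))) = fun x => c⁻¹ *
        ((k + 1 : ZMod w) * PowerSeries.coeff (k + 1) (F x) -
        ∑ i ∈ Finset.range k, PowerSeries.coeff i (dlog (F x)) *
          PowerSeries.coeff (k - i) (F x)) := funext key
    rw [e3]
    refine ((hF (k + 1) hk).smul _).sub (IsP.sum _ _ fun i hi => ?_) |>.smul _
    rw [Finset.mem_range] at hi
    have h1 := (ih i hi (by omega)).mul (hF (k - i) (by omega))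
    have e4 : i + 1 + (k - i) = k + 1 := by omega
    rw [e4] at h1
    exact h1

end PDSW
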