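import Pool.Agent.Lib.MP_d51818_co.B3

set_option autoImplicit false
set_option linter.unusedSectionVars false

/-!
# The polynomials of the characters of order `w`
-/

open Polynomial

namespace PDSW

variable {w : ℕ} [hw : Fact w.Prime]

/-- the polynomial of a character -/
noncomputable def FD {G : Type*} (D : Finset G) (χ : G → ZMod w) : ℤ[X] :=
  ∑ d ∈ D, X ^ (χ d).val

theorem FD_one {G : Type*} (D : Finset G) (χ : G → ZMod w) :
    (FD D χ).eval 1 = (D.card : ℤ) := by
  unfold FD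
  rw [eval_finsetSum]
  simp

theorem FD_coeff {G : Type*} (D : Finset G) (χ : G → ZMod w) {k : ℕ} (hk : k + 2 ≤ w) :
    PowerSeries.coeff k (psi w (FD D χ)) = ∑ d ∈ D, (χ d) ^ k * ((k.factorial : ZMod w))⁻¹ := by
  unfold FD
  rw [map_sum, map_sum]
  refine Finset.sum_congr rfl fun d _ => ?_
  rw [map_pow, psi_X]
  have h1 := (PowerSeries.X_pow_dvd_iff.1 (texp_pow (w := w) (χ d).val)) k (by omega)
  rw [map_sub, sub_eq_zero] at h1
  rw [h1, PowerSeries.coeff_rescale, ZMod.natCast_zmod_val, texp, PowerSeries.coeff_mk,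
    if_pos (by omega)]

theorem isP_coeff {G : Type*} (D : Finset G) (α β : G → ZMod w) {k : ℕ} (hk : k + 2 ≤ w) :
    IsP k (fun x : Fin 2 → ZMod w =>
      PowerSeries.coeff k (psi w (FD D (fun d => x 0 * α d + x 1 * β d)))) := by
  simp only [FD_coeff D _ hk]
  refine IsP.sum D _ fun d _ => ?_
  have h1 := ((IsP.lin (α d) (β d)).pow k).smul ((k.factorial : ZMod w))⁻¹
  rw [mul_one] at h1
  have e : (fun x : Fin 2 → ZMod w => (x 0 * α d + x 1 * β d) ^ k * ((k.factorial : ZMod w))⁻¹) =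
      fun x => ((k.factorial : ZMod w))⁻¹ * (x 0 * α d + x 1 * β d) ^ k := by
    funext x
    rw [mul_comm]
  rw [e]
  exact h1

theorem isP_Ph {G : Type*} (D : Finset G) (α β : G → ZMod w) (hD : (D.card : ZMod w) ≠ 0)
    {j : ℕ} (h1 : 1 ≤ j) (h2 : j + 2 ≤ w) :
    IsP j (fun x : Fin 2 → ZMod w => Ph w j (FD D (fun d => x 0 * α d + x 1 * β d))) := by
  have h := isP_dlog (N := w - 2) hD
    (fun x : Fin 2 → ZMod w => psi w (FD D (fun d => x 0 * α d + x 1 * β d)))
    (fun x => by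
      rw [psi_const, FD_one]
      push_cast
      rfl)
    (fun k hk => isP_coeff D α β (by
      have := hw.out.two_le
      omega)) (j - 1) (by omega)
  rw [Nat.sub_add_cancel h1] at h
  exact h

theorem FD_comp {G : Type*} (D : Finset G) (χ : G → ZMod w) {R : Type*} [CommRing R] {ζ : R}
    (hζ : ζ ^ w = 1) (a : ℕ) :
    aeval ζ ((FD D χ).comp (X ^ a)) = aeval ζ (FD D (fun d => (a : ZMod w) * χ d)) := by
  unfold FD
  rw [aeval_comp, map_sum, map_sum]
  refine Finset.sum_congr rfl fun d _ => ?_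
  rw [map_pow, map_pow, map_pow, aeval_X, aeval_X, ← pow_mul]
  have h1 : ∀ m n : ℕ, (m : ZMod w) = (n : ZMod w) → ζ ^ m = ζ ^ n := by
    intro m n h
    rw [ZMod.natCast_eq_natCast_iff] at h
    rw [← Nat.div_add_mod m w, ← Nat.div_add_mod n w, pow_add, pow_mul, hζ, one_pow, one_mul,
      pow_add, pow_mul, hζ, one_pow, one_mul, h]
  apply h1
  push_cast
  rw [ZMod.natCast_zmod_val, ZMod.natCast_zmod_val]

end PDSW
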