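import Mathlib

set_option autoImplicit false
set_option linter.unusedSectionVars false

/-!
# Ideal factorisation of an element dividing a power of a prime, in a Galois setting
-/

open scoped Pointwise

namespace PDSW

section abstract

variable {R : Type*} [CommRing R] [IsDedekindDomain R]
variable {𝒢 : Type*} [Group 𝒢] [MulSemiringAction 𝒢 R]

/-- the exponent of the ideal `P` in the element `x` -/
noncomputable def vv (P : Ideal R) (x : R) : ℕ := multiplicity P (Ideal.span {x})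

theorem prime_of {P : Ideal R} [hP : P.IsPrime] (h0 : P ≠ ⊥) : Prime P :=
  Ideal.prime_of_isPrime h0 hP

theorem span_ne {x : R} (hx : x ≠ 0) : (Ideal.span {x} : Ideal R) ≠ 0 := by
  rw [Ne, Ideal.zero_eq_bot, Ideal.span_singleton_eq_bot]
  exact hx

theorem emult_eq {P : Ideal R} [P.IsPrime] (h0 : P ≠ ⊥) {x : R} (hx : x ≠ 0) :
    emultiplicity P (Ideal.span {x}) = (vv P x : ℕ∞) :=
  (FiniteMultiplicity.of_prime_left (prime_of h0) (span_ne hx)).emultiplicity_eq_multiplicity

theorem vv_mul {P : Ideal R} [P.IsPrime] (h0 : P ≠ ⊥) {x y : R} (hx : x ≠ 0) (hy : y ≠ 0) :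
    vv P (x * y) = vv P x + vv P y := by
  have h := emultiplicity_mul (prime_of h0) (a := Ideal.span {x}) (b := Ideal.span {y})
  rw [Ideal.span_singleton_mul_span_singleton, emult_eq h0 hx, emult_eq h0 hy,
    emult_eq h0 (mul_ne_zero hx hy)] at h
  exact_mod_cast h

theorem emult_smul (σ : 𝒢) (P : Ideal R) (x : R) :
    emultiplicity (σ • P) (Ideal.span {x}) = emultiplicity P (Ideal.span {σ⁻¹ • x}) := by
  rw [emultiplicity_eq_emultiplicity_iff]
  intro n
  rw [Ideal.dvd_span_singleton, Ideal.dvd_span_singleton, ← smul_pow',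
    Ideal.mem_pointwise_smul_iff_inv_smul_mem]

theorem vv_smul (σ : 𝒢) (P : Ideal R) (x : R) : vv (σ • P) x = vv P (σ⁻¹ • x) :=
  multiplicity_eq_of_emultiplicity_eq (emult_smul σ P x)

theorem smul_ne_bot (σ : 𝒢) {P : Ideal R} (h0 : P ≠ ⊥) : σ • P ≠ ⊥ := by
  intro h
  apply h0
  have := congrArg (fun I => σ⁻¹ • I) h
  simp only [inv_smul_smul, Ideal.smul_bot] at this
  exact this

theorem emult_prime {P Q : Ideal R} [hP : P.IsPrime] [hQ : Q.IsPrime] (h0 : P ≠ ⊥) (h1 : Q ≠ ⊥)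
    [Decidable (P = Q)] : emultiplicity Q P = if P = Q then 1 else 0 := by
  split_ifs with h
  · rw [h]
    exact (FiniteMultiplicity.of_prime_left (prime_of h1) h1).emultiplicity_self
  · rw [emultiplicity_eq_zero, Ideal.dvd_iff_le]
    intro h2
    exact h ((hP.isMaximal h0).eq_of_le hQ.ne_top h2)

variable [Fintype 𝒢]

/-- the factorisation -/
theorem factor {P : Ideal R} [hP : P.IsPrime] (h0 : P ≠ ⊥) {q : R}
    (htr : ∀ Q : Ideal R, Q.IsPrime → q ∈ Q → ∃ σ : 𝒢, σ • P = Q)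
    {x : R} {f : ℕ} (hx0 : x ≠ 0) (hx : x ∣ q ^ f) :
    Ideal.span {x} ^ Nat.card {σ : 𝒢 // σ • P = P} = ∏ σ : 𝒢, (σ • P) ^ vv P (σ⁻¹ • x) := by
  classical
  have hL : (Ideal.span {x} : Ideal R) ^ Nat.card {σ : 𝒢 // σ • P = P} ≠ 0 :=
    pow_ne_zero _ (span_ne hx0)
  have hR : (∏ σ : 𝒢, (σ • P) ^ vv P (σ⁻¹ • x)) ≠ 0 := by
    rw [Finset.prod_ne_zero_iff]
    intro σ _
    exact pow_ne_zero _ (smul_ne_bot σ h0)
  have key : ∀ Q : Ideal R, Prime Q →
      emultiplicity Q (Ideal.span {x} ^ Nat.card {σ : 𝒢 // σ • P = P}) =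
      emultiplicity Q (∏ σ : 𝒢, (σ • P) ^ vv P (σ⁻¹ • x)) := by
    intro Q hQ
    have hQp : Q.IsPrime := Ideal.isPrime_of_prime hQ
    have hQ0 : Q ≠ ⊥ := hQ.ne_zero
    rw [emultiplicity_pow hQ, Finset.emultiplicity_prod hQ, emult_eq hQ0 hx0]
    have e1 : ∀ σ : 𝒢, emultiplicity Q ((σ • P) ^ vv P (σ⁻¹ • x)) =
        ((if σ • P = Q then vv Q x else 0 : ℕ) : ℕ∞) := by
      intro σ
      rw [emultiplicity_pow hQ, emult_prime (smul_ne_bot σ h0) hQ0]
      split_ifs with h
      · rw [mul_one, ← vv_smul, h]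
      · rw [mul_zero]
        rfl
    rw [Finset.sum_congr rfl fun σ _ => e1 σ, ← Nat.cast_sum, ← Finset.sum_filter,
      Finset.sum_const, smul_eq_mul]
    have e2 : Nat.card {σ : 𝒢 // σ • P = P} * vv Q x =
        (Finset.univ.filter (fun σ : 𝒢 => σ • P = Q)).card * vv Q x := by
      by_cases hqQ : q ∈ Q
      · obtain ⟨τ, hτ⟩ := htr Q hQp hqQ
        congr 1
        rw [← Fintype.card_subtype, ← Nat.card_eq_fintype_card]
        refine Nat.card_congr ((Equiv.mulLeft τ).subtypeEquiv fun σ => ?_)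
        rw [Equiv.coe_mulLeft, mul_smul, ← hτ]
        exact (smul_left_cancel_iff τ).symm
      · have h1 : vv Q x = 0 := by
          have h2 : emultiplicity Q (Ideal.span {x}) = 0 := by
            rw [emultiplicity_eq_zero, Ideal.dvd_span_singleton]
            intro h3
            apply hqQ
            exact hQp.mem_of_pow_mem f (Ideal.mem_of_dvd Q hx h3)
          rw [emult_eq hQ0 hx0] at h2
          exact_mod_cast h2
        rw [h1, mul_zero, mul_zero]
    exact_mod_cast e2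
  apply le_antisymm
  · rw [← Ideal.dvd_iff_le]
    rw [UniqueFactorizationMonoid.dvd_iff_emultiplicity_le hR]
    intro Q hQ
    rw [key Q hQ]
  · rw [← Ideal.dvd_iff_le]
    rw [UniqueFactorizationMonoid.dvd_iff_emultiplicity_le hL]
    intro Q hQ
    rw [key Q hQ]

end abstract

end PDSW
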