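import Pool.Agent.Lib.MP_d51818_co.B5

set_option autoImplicit false
set_option linter.unusedSectionVars false

/-!
# Elements of absolute value a power of the square root of a prime in a cyclotomic field
-/

open scoped Pointwise
open NumberField IsCyclotomicExtension

namespace PDSW

section cyc

variable {w : ℕ} [hw : Fact w.Prime] {K : Type*} [Field K] [NumberField K]
  [hK : IsCyclotomicExtension {w} ℚ K]

include hw hK in
/-- the Galois group is commutative -/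
theorem gal_comm (σ τ : Gal(K/ℚ)) : σ * τ = τ * σ := by
  have : NeZero w := ⟨hw.out.ne_zero⟩
  apply (Rat.galEquivZMod w K).injective
  rw [map_mul, map_mul, mul_comm]

include hw hK in
/-- transitivity on the primes over `p` -/
theorem trans {p : ℕ} (hp : p.Prime) (P Q : Ideal (𝓞 K)) [P.IsPrime] [hQ : Q.IsPrime]
    (hP : (p : 𝓞 K) ∈ P) (hQp : (p : 𝓞 K) ∈ Q) : ∃ σ : Gal(K/ℚ), σ • P = Q := by
  have : Fact p.Prime := ⟨hp⟩
  have hG : IsGalois ℚ K := IsCyclotomicExtension.isGalois {w} ℚ K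
  have key : ∀ I : Ideal (𝓞 K), I.IsPrime → (p : 𝓞 K) ∈ I → I.LiesOver (Ideal.span {(p : ℤ)}) := by
    intro I hI hpI
    rw [Ideal.liesOver_iff]
    refine Ideal.IsMaximal.eq_of_le (Int.ideal_span_isMaximal_of_prime p) Ideal.IsPrime.ne_top' ?_
    rw [Ideal.span_singleton_le_iff_mem, Ideal.mem_comap, algebraMap_int_eq, map_natCast]
    exact hpI
  have h1 := key P inferInstance hP
  have h2 := key Q hQ hQp
  exact Ideal.exists_smul_eq_of_isGaloisGroup (Ideal.span {(p : ℤ)}) P Q Gal(K/ℚ)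

include hw hK in
theorem norm_conj {c : Gal(K/ℚ)} (hc : Rat.galEquivZMod w K c = -1) (φ : K →+* ℂ) (x : K) :
    ‖φ (c x)‖ = ‖φ x‖ := by
  have : NeZero w := ⟨hw.out.ne_zero⟩
  have hz := IsCyclotomicExtension.zeta_spec w ℚ K
  obtain ⟨z, hzz⟩ : ∃ z, z = IsCyclotomicExtension.zeta w ℚ K := ⟨_, rfl⟩
  rw [← hzz] at hz
  have h1 : c z * z = 1 := by
    rw [Rat.galEquivZMod_apply_of_pow_eq w K c hz.pow_eq_one, hc, ← pow_succ]
    have h2 : (((-1 : (ZMod w)ˣ) : ZMod w)).val + 1 = w := by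
      rw [Units.val_neg, Units.val_one]
      obtain ⟨k, hk⟩ : ∃ k, w = k + 2 := ⟨w - 2, by have := hw.out.two_le; omega⟩
      subst hk
      rw [ZMod.val_neg_one]
    rw [h2, hz.pow_eq_one]
  let f : K →ₐ[ℚ] ℂ := (φ.comp (c : K →+* K)).toRatAlgHom
  let g : K →ₐ[ℚ] ℂ := ((starRingEnd ℂ).comp φ).toRatAlgHom
  have hfg : f = g := by
    apply (hz.powerBasis ℚ).algHom_ext
    rw [IsPrimitiveRoot.powerBasis_gen]
    show φ (c z) = (starRingEnd ℂ) (φ z)
    have h3 : φ (c z) * φ z = 1 := by rw [← map_mul, h1, map_one]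
    have h4 : (starRingEnd ℂ) (φ z) * φ z = 1 := by
      have h5 : ‖φ z‖ = 1 := by
        have h6 : (φ z) ^ w = 1 := by rw [← map_pow, hz.pow_eq_one, map_one]
        exact Complex.norm_eq_one_of_pow_eq_one h6 hw.out.ne_zero
      rw [mul_comm, Complex.mul_conj, Complex.normSq_eq_norm_sq, h5]
      norm_num
    have h7 : φ z ≠ 0 := by
      intro h0
      rw [h0, mul_zero] at h3
      exact zero_ne_one h3
    exact mul_right_cancel₀ h7 (h3.trans h4.symm)
  have h8 : φ (c x) = (starRingEnd ℂ) (φ x) := DFunLike.congr_fun hfg x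
  rw [h8, RCLike.norm_conj]

variable {p f m : ℕ} (P : Ideal (𝓞 K)) [hPp : P.IsPrime]

/-- the product of the conjugates of the generator -/
noncomputable def pr (π x : 𝓞 K) : 𝓞 K := ∏ σ : Gal(K/ℚ), (σ • π) ^ vv P (σ⁻¹ • x)

include hw hK in
theorem smul_pr (c : Gal(K/ℚ)) (π x : 𝓞 K) : c • pr P π x = pr P π (c • x) := by
  unfold pr
  rw [Finset.smul_prod']
  refine Fintype.prod_equiv (Equiv.mulLeft c) _ _ fun σ => ?_
  rw [smul_pow', Equiv.coe_mulLeft, mul_smul]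
  congr 2
  rw [mul_inv_rev, gal_comm (w := w), mul_smul, ← mul_smul c⁻¹, gal_comm (w := w) c⁻¹, mul_smul,
    inv_smul_smul]

include hw hK in
theorem span_pr (hp : p.Prime) (hP : (p : 𝓞 K) ∈ P) {π : 𝓞 K} (hπ : Ideal.span {π} = P ^ m)
    {x : 𝓞 K} (hx : x ∣ (p : 𝓞 K) ^ f) (hx0 : x ≠ 0) :
    Ideal.span {x ^ (Nat.card {σ : Gal(K/ℚ) // σ • P = P} * m)} = Ideal.span {pr P π x} := by
  have hp0 : (p : 𝓞 K) ≠ 0 := by
    exact_mod_cast hp.ne_zero
  have hP0 : P ≠ ⊥ := by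
    intro h
    rw [h, Ideal.mem_bot] at hP
    exact hp0 hP
  have h1 := factor (𝒢 := Gal(K/ℚ)) hP0 (q := (p : 𝓞 K))
    (fun Q hQ hQp => trans (w := w) hp P Q hP hQp) hx0 hx
  unfold pr
  rw [← Ideal.prod_span_singleton, ← Ideal.span_singleton_pow, pow_mul, h1, ← Finset.prod_pow]
  refine Finset.prod_congr rfl fun σ _ => ?_
  rw [← Ideal.span_singleton_pow]
  have h2 : Ideal.span {σ • π} = (σ • P) ^ m := by
    rw [← smul_pow', ← hπ, Ideal.smul_closure, Set.smul_set_singleton]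
  rw [h2, ← pow_mul, ← pow_mul, mul_comm]

include hw hK in
/-- the relation between an element and its conjugate -/
theorem ant1 (hw2 : w ≠ 2) (hp : p.Prime) (hP : (p : 𝓞 K) ∈ P) {π : 𝓞 K}
    (hπ : Ideal.span {π} = P ^ m) {c : Gal(K/ℚ)} (hc : Rat.galEquivZMod w K c = -1)
    {ζ : 𝓞 K} (hζ : IsPrimitiveRoot ζ w) {x : 𝓞 K} (hx : x * (c • x) = (p : 𝓞 K) ^ f) :
    ∃ r : ℕ, x ^ (Nat.card {σ : Gal(K/ℚ) // σ • P = P} * m) * pr P π (c • x) =
      (-ζ) ^ r * ((c • x) ^ (Nat.card {σ : Gal(K/ℚ) // σ • P = P} * m) * pr P π x) := by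
  obtain ⟨k, hk⟩ : ∃ k, k = Nat.card {σ : Gal(K/ℚ) // σ • P = P} * m := ⟨_, rfl⟩
  have hp0 : (p : 𝓞 K) ^ f ≠ 0 := by
    exact_mod_cast pow_ne_zero f hp.ne_zero
  have hx0 : x ≠ 0 := by
    intro h
    rw [h, zero_mul] at hx
    exact hp0 hx.symm
  have hcx0 : c • x ≠ 0 := by
    intro h
    rw [h, mul_zero] at hx
    exact hp0 hx.symm
  have hcc : c • c • x = x := by
    have h1 : c * c = 1 := by
      apply (Rat.galEquivZMod w K).injective
      rw [map_mul, hc, map_one, neg_mul_neg, one_mul]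
    rw [← mul_smul, h1, one_smul]
  have s1 := span_pr (w := w) P hp hP hπ (Dvd.intro _ hx) hx0
  have s2 := span_pr (w := w) P hp hP hπ (x := c • x) (Dvd.intro_left _ hx) hcx0
  rw [← hk] at s1 s2 ⊢
  have h1 : Ideal.span {x ^ k * pr P π (c • x)} = Ideal.span {(c • x) ^ k * pr P π x} := by
    rw [← Ideal.span_singleton_mul_span_singleton, s1, ← s2, Ideal.span_singleton_mul_span_singleton,
      mul_comm]
  rw [Ideal.span_singleton_eq_span_singleton] at h1
  obtain ⟨u, hu⟩ := h1.symm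
  have h2 : (c • x) ^ k * pr P π x = c • (x ^ k * pr P π (c • x)) := by
    rw [smul_mul', smul_pow', smul_pr (w := w), hcc]
  have hne : x ^ k * pr P π (c • x) ≠ 0 := by
    have h3 : pr P π (c • x) ≠ 0 := by
      intro h
      rw [h, Ideal.span_singleton_eq_span_singleton] at s2
      exact pow_ne_zero k hcx0 (associated_zero_iff_eq_zero _ |>.1 s2)
    exact mul_ne_zero (pow_ne_zero k hx0) h3
  obtain ⟨y, hy⟩ : ∃ y, y = x ^ k * pr P π (c • x) := ⟨_, rfl⟩
  rw [h2, ← hy] at hu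
  rw [← hy] at hne
  have h4 : ∀ φ : K →+* ℂ, ‖φ ((u : 𝓞 K) : K)‖ = 1 := by
    intro φ
    have h5 : φ (((c • y : 𝓞 K)) : K) * φ ((u : 𝓞 K) : K) = φ ((y : 𝓞 K) : K) := by
      rw [← map_mul]
      congr 1
      exact_mod_cast congrArg (fun t : 𝓞 K => (t : K)) hu
    have h6 : ((c • y : 𝓞 K) : K) = c (y : K) := rfl
    have h7 := congrArg norm h5
    rw [norm_mul, h6, norm_conj (w := w) hc] at h7
    have h8 : ‖φ (y : K)‖ ≠ 0 := by
      rw [norm_ne_zero_iff]
      intro h9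
      apply hne
      have h10 := (map_eq_zero φ).1 h9
      exact_mod_cast h10
    exact mul_left_cancel₀ h8 (by rw [h7, mul_one])
  obtain ⟨N, hN, hN1⟩ := NumberField.Embeddings.pow_eq_one_of_norm_eq_one K ℂ
    (NumberField.RingOfIntegers.isIntegral_coe (u : 𝓞 K)) h4
  have h5 : IsOfFinOrder ((u : 𝓞 K) : K) := isOfFinOrder_iff_pow_eq_one.2 ⟨N, hN, hN1⟩
  have hζK : IsPrimitiveRoot (ζ : K) w := hζ.map_of_injective RingOfIntegers.coe_injective
  have : NeZero w := ⟨hw.out.ne_zero⟩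
  obtain ⟨r, hr⟩ := hζK.exists_neg_pow_of_isOfFinOrder (hw.out.odd_of_ne_two hw2) h5
  refine ⟨r, ?_⟩
  have h9 : (u : 𝓞 K) = (-ζ) ^ r := by
    apply RingOfIntegers.coe_injective
    refine hr.trans ?_
    push_cast
    rfl
  rw [← hy, h2, ← hy, ← h9, mul_comm]
  exact hu.symm

end cyc

end PDSW
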