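import Pool.Agent.Lib.MP_d51818_co.B4
import Pool.Agent.Lib.MP_d51818_co.B6

set_option autoImplicit false
set_option linter.unusedSectionVars false

/-!
# The logarithmic derivatives of the elements of absolute value a power of a square root of `p`
-/

open scoped Pointwise
open NumberField IsCyclotomicExtension Polynomial

namespace PDSW

section cyc

variable {w : ℕ} [hw : Fact w.Prime] {K : Type*} [Field K] [NumberField K]
  [hK : IsCyclotomicExtension {w} ℚ K]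

/-- the exponent of the action on the roots of unity -/
noncomputable def ex (w : ℕ) [hw : Fact w.Prime] (K : Type*) [Field K] [NumberField K]
    [hK : IsCyclotomicExtension {w} ℚ K] (σ : Gal(K/ℚ)) : (ZMod w)ˣ :=
  have : NeZero w := ⟨hw.out.ne_zero⟩
  Rat.galEquivZMod w K σ

theorem smul_aeval {ζ : 𝓞 K} (hζ : ζ ^ w = 1) (σ : Gal(K/ℚ)) (A : ℤ[X]) :
    σ • (aeval ζ A) = aeval ζ (A.comp (X ^ (ex w K σ).val.val)) := by
  have : NeZero w := ⟨hw.out.ne_zero⟩
  have h1 : σ • (aeval ζ A) = aeval (σ • ζ) A := by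
    have h := Polynomial.map_aeval_eq_aeval_map (φ := RingHom.id ℤ)
      (ψ := MulSemiringAction.toRingHom Gal(K/ℚ) (𝓞 K) σ) (RingHom.ext_int _ _) A ζ
    rw [Polynomial.map_id] at h
    exact h
  rw [h1, Rat.galEquivZMod_smul_of_pow_eq w K σ hζ, aeval_comp, map_pow, aeval_X]
  rfl

theorem coe_aeval (ζ : 𝓞 K) (A : ℤ[X]) : ((aeval ζ A : 𝓞 K) : K) = aeval (ζ : K) A :=
  (aeval_algebraMap_apply K ζ A).symm

/-- the value at one of a generator of a power of a prime over `p` -/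
theorem eval_one_ne {ζ : 𝓞 K} (hζ : IsPrimitiveRoot ζ w) {p m : ℕ} (hp : p.Prime) (hpw : p ≠ w)
    {P : Ideal (𝓞 K)} (hP : (p : 𝓞 K) ∈ P) {F : ℤ[X]} (hF : Ideal.span {aeval ζ F} = P ^ m)
    (hm : m ≠ 0) : ((F.eval 1 : ℤ) : ZMod w) ≠ 0 := by
  intro h0
  rw [ZMod.intCast_zmod_eq_zero_iff_dvd] at h0
  have hζK : IsPrimitiveRoot (ζ : K) w := hζ.map_of_injective RingOfIntegers.coe_injective
  have h1 : Prime (ζ - 1) := hζK.zeta_sub_one_prime'
  have h2 : (ζ - 1) ∣ (w : 𝓞 K) := hζK.toInteger_sub_one_dvd_prime'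
  have h3 : (ζ - 1) ∣ aeval ζ F := by
    have h4 : (X - C 1 : ℤ[X]) ∣ F - C (F.eval 1) := X_sub_C_dvd_sub_C_eval
    obtain ⟨Q, hQ⟩ := h4
    have h5 := congrArg (aeval ζ) hQ
    rw [map_sub, map_mul, map_sub, aeval_X, aeval_C, aeval_C, map_one] at h5
    have h6 : (ζ - 1) ∣ algebraMap ℤ (𝓞 K) (F.eval 1) := by
      obtain ⟨c, hc⟩ := h0
      rw [hc, map_mul]
      refine Dvd.dvd.mul_right ?_ _
      simpa using h2
    have h7 : aeval ζ F = (ζ - 1) * aeval ζ Q + algebraMap ℤ (𝓞 K) (F.eval 1) := by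
      rw [← h5]
      ring
    rw [h7]
    exact dvd_add (Dvd.intro _ rfl) h6
  have hI : (Ideal.span {ζ - 1} : Ideal (𝓞 K)).IsPrime := by
    rw [Ideal.span_singleton_prime h1.ne_zero]
    exact h1
  have h8 : P ^ m ≤ Ideal.span {ζ - 1} := by
    rw [← hF, Ideal.span_singleton_le_span_singleton]
    exact h3
  have h9 : P ≤ Ideal.span {ζ - 1} := (hI.pow_le_iff hm).1 h8
  have h10 : (p : 𝓞 K) ∈ Ideal.span {ζ - 1} := h9 hP
  have h11 : (w : 𝓞 K) ∈ Ideal.span {ζ - 1} := Ideal.mem_span_singleton.2 h2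
  have hc : Nat.Coprime p w := (Nat.coprime_primes hp hw.out).2 hpw
  have h12 : ((1 : ℤ) : 𝓞 K) ∈ Ideal.span {ζ - 1} := by
    have h13 : (1 : ℤ) = p * Nat.gcdA p w + w * Nat.gcdB p w := by
      rw [← Nat.gcd_eq_gcd_ab, hc]
      rfl
    rw [h13]
    push_cast
    exact Ideal.add_mem _ (Ideal.mul_mem_right _ _ h10) (Ideal.mul_mem_right _ _ h11)
  rw [Int.cast_one] at h12
  exact hI.ne_top ((Ideal.eq_top_iff_one _).2 h12)

/-- `p` is unramified -/
theorem vv_p {p : ℕ} (hp : p.Prime) (hpw : p ≠ w) {P : Ideal (𝓞 K)} [P.IsPrime]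
    (hP : (p : 𝓞 K) ∈ P) : vv P (p : 𝓞 K) = 1 := by
  have : Fact p.Prime := ⟨hp⟩
  have : NeZero w := ⟨hw.out.ne_zero⟩
  have hl : P.LiesOver (Ideal.span {(p : ℤ)}) := by
    rw [Ideal.liesOver_iff]
    refine Ideal.IsMaximal.eq_of_le (Int.ideal_span_isMaximal_of_prime p) Ideal.IsPrime.ne_top' ?_
    rw [Ideal.span_singleton_le_iff_mem, Ideal.mem_comap, algebraMap_int_eq, map_natCast]
    exact hP
  have hnd : ¬ p ∣ w := fun h => hpw ((Nat.prime_dvd_prime_iff_eq hp hw.out).1 h)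
  have h1 := Rat.ramificationIdx_eq_of_not_dvd p K P hnd
  have hp0 : (p : 𝓞 K) ≠ 0 := by exact_mod_cast hp.ne_zero
  have h2 : Ideal.map (algebraMap ℤ (𝓞 K)) (Ideal.span {(p : ℤ)}) = Ideal.span {(p : 𝓞 K)} := by
    rw [Ideal.map_span, Set.image_singleton]
    simp
  rw [Ideal.IsDedekindDomain.ramificationIdx_eq_multiplicity (Ideal.span {(p : ℤ)}) P (by
    rw [h2]
    exact span_ne hp0), h2] at h1
  exact h1

end cyc

end PDSW
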