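import Pool.Agent.Lib.MP_d51818_co.B7

set_option autoImplicit false
set_option linter.unusedSectionVars false

/-!
# The relation between the logarithmic derivatives and the exponents
-/

open scoped Pointwise
open NumberField IsCyclotomicExtension Polynomial

namespace PDSW

section nz

variable {w : ℕ} [hw : Fact w.Prime]

theorem nz_mul {A B : ℤ[X]} (hA : ((A.eval 1 : ℤ) : ZMod w) ≠ 0)
    (hB : ((B.eval 1 : ℤ) : ZMod w) ≠ 0) : (((A * B).eval 1 : ℤ) : ZMod w) ≠ 0 := by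
  rw [eval_mul, Int.cast_mul]
  exact mul_ne_zero hA hB

theorem nz_pow {A : ℤ[X]} (hA : ((A.eval 1 : ℤ) : ZMod w) ≠ 0) (n : ℕ) :
    (((A ^ n).eval 1 : ℤ) : ZMod w) ≠ 0 := by
  rw [eval_pow, Int.cast_pow]
  exact pow_ne_zero _ hA

theorem nz_prod {ι : Type*} (s : Finset ι) (A : ι → ℤ[X])
    (hA : ∀ i ∈ s, (((A i).eval 1 : ℤ) : ZMod w) ≠ 0) :
    (((∏ i ∈ s, A i).eval 1 : ℤ) : ZMod w) ≠ 0 := by
  rw [eval_prod, Int.cast_prod]
  exact Finset.prod_ne_zero_iff.2 hA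

theorem nz_comp {A : ℤ[X]} (hA : ((A.eval 1 : ℤ) : ZMod w) ≠ 0) (n : ℕ) :
    (((A.comp (X ^ n)).eval 1 : ℤ) : ZMod w) ≠ 0 := by
  rw [eval_comp_one]
  exact hA

theorem nz_X : (((X : ℤ[X]).eval 1 : ℤ) : ZMod w) ≠ 0 := by
  rw [eval_X, Int.cast_one]
  exact one_ne_zero

theorem nz_C {c : ℤ} (hc : (c : ZMod w) ≠ 0) : (((C c : ℤ[X]).eval 1 : ℤ) : ZMod w) ≠ 0 := by
  rw [eval_C]
  exact hc

end nz

section cyc

variable {w : ℕ} [hw : Fact w.Prime] {K : Type*} [Field K] [NumberField K]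
  [hK : IsCyclotomicExtension {w} ℚ K]

/-- the polynomial of the product of the conjugates -/
noncomputable def prP (P : Ideal (𝓞 K)) (F : ℤ[X]) (y : 𝓞 K) : ℤ[X] :=
  ∏ σ : Gal(K/ℚ), (F.comp (X ^ (ex w K σ).val.val)) ^ vv P (σ⁻¹ • y)

theorem aeval_prP {ζ : 𝓞 K} (hζ : ζ ^ w = 1) (P : Ideal (𝓞 K)) [P.IsPrime] (F : ℤ[X]) (y : 𝓞 K) :
    aeval ζ (prP (w := w) P F y) = pr P (aeval ζ F) y := by
  unfold prP pr
  rw [map_prod]
  refine Finset.prod_congr rfl fun σ _ => ?_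
  rw [map_pow, smul_aeval (w := w) hζ]

theorem Ph_prP {P : Ideal (𝓞 K)} {F : ℤ[X]} (hF : ((F.eval 1 : ℤ) : ZMod w) ≠ 0) (y : 𝓞 K)
    {j : ℕ} (h1 : 1 ≤ j) (h2 : j + 2 ≤ w) : Ph w j (prP (w := w) P F y) =
      Ph w j F * ∑ σ : Gal(K/ℚ), ((ex w K σ).val : ZMod w) ^ j * (vv P (σ⁻¹ • y) : ZMod w) := by
  unfold prP
  rw [Ph_prod j _ _ fun σ _ => nz_pow (nz_comp hF _) _, Finset.mul_sum]
  refine Finset.sum_congr rfl fun σ _ => ?_
  rw [Ph_pow j (nz_comp hF _), Ph_comp h1 h2 hF, ZMod.natCast_zmod_val]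
  ring

theorem nz_prP {P : Ideal (𝓞 K)} {F : ℤ[X]} (hF : ((F.eval 1 : ℤ) : ZMod w) ≠ 0) (y : 𝓞 K) :
    (((prP (w := w) P F y).eval 1 : ℤ) : ZMod w) ≠ 0 :=
  nz_prod _ _ fun _ _ => nz_pow (nz_comp hF _) _

theorem exists_c (hw2 : w ≠ 2) : ∃ c : Gal(K/ℚ), ex w K c = -1 ∧ (ex w K c).val.val = w - 1 := by
  have : NeZero w := ⟨hw.out.ne_zero⟩
  obtain ⟨c, hc⟩ := (Rat.galEquivZMod w K).surjective (-1)
  refine ⟨c, hc, ?_⟩
  have h : ex w K c = -1 := hc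
  rw [h, Units.val_neg, Units.val_one]
  obtain ⟨k, hk⟩ : ∃ k, w = k + 2 := ⟨w - 2, by have := hw.out.two_le; omega⟩
  subst hk
  rw [ZMod.val_neg_one]
  omega

theorem ant2 (hw2 : w ≠ 2) {p f m : ℕ} (hp : p.Prime) (hpw : p ≠ w) {P : Ideal (𝓞 K)} [P.IsPrime]
    (hP : (p : 𝓞 K) ∈ P) {ζ : 𝓞 K} (hζ : IsPrimitiveRoot ζ w) {F : ℤ[X]}
    (hF : Ideal.span {aeval ζ F} = P ^ m) (hm : m ≠ 0) {A : ℤ[X]}
    (hA1 : ((A.eval 1 : ℤ) : ZMod w) ≠ 0)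
    (hA : aeval ζ A * aeval ζ (A.comp (X ^ (w - 1))) = (p : 𝓞 K) ^ f)
    {j : ℕ} (hj : Odd j) (hj1 : 2 ≤ j) (hj2 : j + 2 ≤ w) :
    2 * (Nat.card {σ : Gal(K/ℚ) // σ • P = P} : ZMod w) * (m : ZMod w) * Ph w j A =
      -(Ph w j F * ∑ σ : Gal(K/ℚ), ((ex w K σ).val : ZMod w) ^ j *
        (((f : ℤ) - 2 * (vv P (σ⁻¹ • aeval ζ A) : ℤ) : ℤ) : ZMod w)) := by
  have : NeZero w := ⟨hw.out.ne_zero⟩
  obtain ⟨c, hc, hc'⟩ := exists_c (w := w) (K := K) hw2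
  have hF1 := eval_one_ne hζ hp hpw hP hF hm
  have hcx : c • aeval ζ A = aeval ζ (A.comp (X ^ (w - 1))) := by
    rw [smul_aeval (w := w) hζ.pow_eq_one, hc']
  have hx : aeval ζ A * (c • aeval ζ A) = (p : 𝓞 K) ^ f := by rw [hcx, hA]
  obtain ⟨r, hr⟩ := ant1 (w := w) P hw2 hp hP hF (c := c) hc hζ hx
  obtain ⟨k, hk⟩ : ∃ k, k = Nat.card {σ : Gal(K/ℚ) // σ • P = P} * m := ⟨_, rfl⟩
  rw [← hk] at hr
  -- the polynomials
  have hC : (((C (-1) : ℤ[X]).eval 1 : ℤ) : ZMod w) ≠ 0 := nz_C (by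
    push_cast
    exact neg_ne_zero.2 one_ne_zero)
  have hnX : (((C (-1) * X : ℤ[X]).eval 1 : ℤ) : ZMod w) ≠ 0 := nz_mul hC nz_X
  have hCA := nz_comp hA1 (w - 1)
  have e1 : aeval ζ (A ^ k * prP (w := w) P F (c • aeval ζ A)) =
      aeval ζ ((C (-1) * X) ^ r * ((A.comp (X ^ (w - 1))) ^ k *
        prP (w := w) P F (aeval ζ A))) := by
    simp only [map_mul, map_pow, aeval_prP hζ.pow_eq_one, aeval_X, aeval_C]
    rw [hr, hcx]
    simp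
  have e2 : aeval (ζ : K) (A ^ k * prP (w := w) P F (c • aeval ζ A)) =
      aeval (ζ : K) ((C (-1) * X) ^ r * ((A.comp (X ^ (w - 1))) ^ k *
        prP (w := w) P F (aeval ζ A))) := by
    rw [← coe_aeval, ← coe_aeval, e1]
  have hζK : IsPrimitiveRoot (ζ : K) w := hζ.map_of_injective RingOfIntegers.coe_injective
  have e3 := Ph_congr hζK (by omega : 1 ≤ j) hj2
    (nz_mul (nz_pow hA1 k) (nz_prP hF1 (c • aeval ζ A)))
    (nz_mul (nz_pow hnX r) (nz_mul (nz_pow hCA k) (nz_prP hF1 (aeval ζ A)))) e2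
  rw [Ph_mul j (nz_pow hA1 k) (nz_prP hF1 _), Ph_pow j hA1,
    Ph_mul j (nz_pow hnX r) (nz_mul (nz_pow hCA k) (nz_prP hF1 _)), Ph_pow j hnX,
    Ph_mul j hC nz_X, Ph_C,
    Ph_mul j (nz_pow hCA k) (nz_prP hF1 _), Ph_pow j hCA,
    Ph_comp (by omega) hj2 hA1, Ph_prP hF1 _ (by omega) hj2, Ph_prP hF1 _ (by omega) hj2] at e3
  have e4 : Ph w j (X : ℤ[X]) = 0 := by
    have := Ph_X_pow (w := w) hj1 hj2 1
    rwa [pow_one] at this
  have e5 : ((w - 1 : ℕ) : ZMod w) ^ j = -1 := by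
    have h1 : ((w - 1 : ℕ) : ZMod w) = -1 := by
      rw [Nat.cast_sub hw.out.one_le, ZMod.natCast_self, zero_sub, Nat.cast_one]
    rw [h1, hj.neg_one_pow]
  rw [e4, e5] at e3
  -- the exponents
  have hp0 : (p : 𝓞 K) ≠ 0 := by exact_mod_cast hp.ne_zero
  have hP0 : P ≠ ⊥ := by
    intro h
    rw [h, Ideal.mem_bot] at hP
    exact hp0 hP
  have hx0 : aeval ζ A ≠ 0 := by
    intro h
    rw [h, zero_mul] at hx
    exact pow_ne_zero f hp0 hx.symm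
  have hsne : ∀ (σ : Gal(K/ℚ)) (y : 𝓞 K), y ≠ 0 → σ • y ≠ 0 := by
    intro σ y hy h
    apply hy
    have := congrArg (fun z => σ⁻¹ • z) h
    simpa using this
  have hvp : ∀ n : ℕ, vv P ((p : 𝓞 K) ^ n) = n := by
    intro n
    induction n with
    | zero =>
      rw [pow_zero]
      unfold vv
      rw [Ideal.span_singleton_one, ← Ideal.one_eq_top]
      exact multiplicity_of_one_right (prime_of hP0).not_isUnit
    | succ n ih => rw [pow_succ, vv_mul hP0 (pow_ne_zero _ hp0) hp0, ih, vv_p hp hpw hP]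
  have e6 : ∀ σ : Gal(K/ℚ), vv P (σ⁻¹ • aeval ζ A) + vv P (σ⁻¹ • c • aeval ζ A) = f := by
    intro σ
    rw [← vv_mul hP0 (hsne _ _ hx0) (hsne _ _ (hsne _ _ hx0)), ← smul_mul', hx]
    have : σ⁻¹ • ((p : 𝓞 K) ^ f) = (p : 𝓞 K) ^ f := by
      rw [smul_pow']
      congr 1
      exact map_natCast (MulSemiringAction.toRingHom Gal(K/ℚ) (𝓞 K) σ⁻¹) p
    rw [this, hvp]
  have e7 : ∀ σ : Gal(K/ℚ), ((ex w K σ).val : ZMod w) ^ j *
        (((f : ℤ) - 2 * (vv P (σ⁻¹ • aeval ζ A) : ℤ) : ℤ) : ZMod w) =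
      ((ex w K σ).val : ZMod w) ^ j * (vv P (σ⁻¹ • c • aeval ζ A) : ZMod w) -
      ((ex w K σ).val : ZMod w) ^ j * (vv P (σ⁻¹ • aeval ζ A) : ZMod w) := by
    intro σ
    rw [← mul_sub]
    congr 1
    have h := e6 σ
    have h' : ((vv P (σ⁻¹ • aeval ζ A) : ℕ) : ZMod w) +
        ((vv P (σ⁻¹ • c • aeval ζ A) : ℕ) : ZMod w) = (f : ZMod w) := by
      rw [← Nat.cast_add, h]
    push_cast
    linear_combination -h'
  rw [Finset.sum_congr rfl fun σ _ => e7 σ, Finset.sum_sub_distrib]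
  have e8 : (k : ZMod w) = (Nat.card {σ : Gal(K/ℚ) // σ • P = P} : ZMod w) * (m : ZMod w) := by
    rw [hk]
    push_cast
    rfl
  rw [e8] at e3
  linear_combination e3

end cyc

end PDSW
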