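import Pool.Agent.Lib.MP_d51818_co.Mult

/-!
# MP_d51818_co: characters of order seven
-/

set_option autoImplicit false
set_option linter.unusedSectionVars false

namespace PDS7

open Finset

variable {G : Type} [AddCommGroup G] [Fintype G] [DecidableEq G]

/-- the number of the elements of `D` with a given value of `α` -/
def Nt (D : Finset G) (α : G →+ ZMod 7) (t : ZMod 7) : ℕ := (D.filter (fun d => α d = t)).card

theorem sum_Nt (D : Finset G) (α : G →+ ZMod 7) : ∑ t, Nt D α t = D.card := by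
  unfold Nt
  exact (Finset.card_eq_sum_card_fiberwise (s := D) (t := Finset.univ) (f := fun d => α d)
    (fun _ _ => Finset.mem_coe.mpr (Finset.mem_univ _))).symm

/-- invariance under a multiplier -/
theorem Nt_mul {D : Finset G} {n m : ℕ} (h : IsPDS n D) (hD : ∀ d ∈ D, m • d ∈ D)
    (hm : Nat.Coprime m (n ^ 2 + n + 1)) (hm7 : (m : ZMod 7) ≠ 0) (α : G →+ ZMod 7)
    (t : ZMod 7) : Nt D α ((m : ZMod 7) * t) = Nt D α t := by
  have hinj : Function.Injective (fun d : G => m • d) := by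
    intro x y hxy
    have h1 : m • (x - y) = 0 := by
      rw [smul_sub]
      exact sub_eq_zero.mpr hxy
    exact sub_eq_zero.mp (smul_inj h hm h1)
  have him : D.image (fun d : G => m • d) = D := by
    apply Finset.eq_of_subset_of_card_le
    · intro x hx
      obtain ⟨d, hd, rfl⟩ := Finset.mem_image.mp hx
      exact hD d hd
    · rw [Finset.card_image_of_injective _ hinj]
  have hfield : Fact (Nat.Prime 7) := ⟨by norm_num⟩
  unfold Nt
  symm
  refine Finset.card_bij (fun d _ => m • d) ?_ ?_ ?_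
  · intro d hd
    rw [Finset.mem_filter] at hd ⊢
    refine ⟨hD d hd.1, ?_⟩
    rw [map_nsmul, hd.2, nsmul_eq_mul]
  · intro x _ y _ hxy
    exact hinj hxy
  · intro y hy
    rw [Finset.mem_filter] at hy
    have hy1 := hy.1
    rw [← him] at hy1
    obtain ⟨d, hd, rfl⟩ := Finset.mem_image.mp hy1
    refine ⟨d, ?_, rfl⟩
    rw [Finset.mem_filter]
    refine ⟨hd, ?_⟩
    have h2 := hy.2
    rw [map_nsmul, nsmul_eq_mul] at h2
    exact mul_left_cancel₀ hm7 h2

/-- the sum of the squares -/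
theorem sum_Nt_sq {D : Finset G} {n : ℕ} (h : IsPDS n D) (α : G →+ ZMod 7) (hα : α ≠ 0) :
    7 * ∑ t, Nt D α t * Nt D α t = n ^ 2 + 8 * n + 1 := by
  have hfield : Fact (Nat.Prime 7) := ⟨by norm_num⟩
  have h1 : ∑ t, Nt D α t * Nt D α t = ∑ x ∈ D, ∑ y ∈ D, if α x = α y then 1 else 0 :=
    by
    unfold Nt
    exact fib (G := ZMod 7) D D (fun d => α d) (fun d => α d)
  have h2 : ∑ x ∈ D, ∑ y ∈ D, (if α x = α y then 1 else 0) =
      ∑ q ∈ D ×ˢ D, if α (q.1 - q.2) = 0 then 1 else 0 := by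
    rw [Finset.sum_product]
    refine Finset.sum_congr rfl fun x _ => Finset.sum_congr rfl fun y _ => ?_
    have : α x = α y ↔ α (x - y) = 0 := by rw [map_sub, sub_eq_zero]
    simp only [this]
  have h3 : ∑ q ∈ D ×ˢ D, (if α (q.1 - q.2) = 0 then 1 else 0) =
      ∑ g : G, (if α g = 0 then dc D g else 0) := by
    have h4 : ∀ g : G, (if α g = 0 then dc D g else 0) =
        ∑ q ∈ D ×ˢ D, if q.1 - q.2 = g then (if α g = 0 then 1 else 0) else 0 := by
      intro g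
      unfold dc
      split_ifs with h5
      · rw [Finset.card_filter]
      · simp
    rw [Finset.sum_congr rfl fun g _ => h4 g, Finset.sum_comm]
    refine Finset.sum_congr rfl fun q _ => ?_
    rw [Finset.sum_ite_eq Finset.univ (q.1 - q.2), if_pos (Finset.mem_univ _)]
  have h4 : ∑ g : G, (if α g = 0 then dc D g else 0) =
      n + (Finset.univ.filter (fun g : G => α g = 0)).card := by
    rw [← Finset.sum_filter, ← Finset.add_sum_erase _ _
      (Finset.mem_filter.mpr ⟨Finset.mem_univ (0 : G), map_zero α⟩), dc_zero, h.cardD]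
    have h5 : ∀ g ∈ (Finset.univ.filter (fun g : G => α g = 0)).erase 0, dc D g = 1 :=
      fun g hg => h.diff g (Finset.ne_of_mem_erase hg)
    rw [Finset.sum_congr rfl h5, Finset.sum_const, smul_eq_mul, mul_one]
    have h6 := Finset.card_erase_add_one
      (Finset.mem_filter.mpr ⟨Finset.mem_univ (0 : G), map_zero α⟩ :
        (0 : G) ∈ Finset.univ.filter (fun g : G => α g = 0))
    omega
  have hker : 7 * (Finset.univ.filter (fun g : G => α g = 0)).card = n ^ 2 + n + 1 := by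
    have hsur : Function.Surjective α := by
      obtain ⟨g, hg⟩ : ∃ g, α g ≠ 0 := by
        by_contra hcon
        push Not at hcon
        exact hα (AddMonoidHom.ext hcon)
      intro t
      refine ⟨(t * (α g)⁻¹).val • g, ?_⟩
      rw [map_nsmul, nsmul_eq_mul, ZMod.natCast_val, ZMod.cast_id', id, mul_assoc,
        inv_mul_cancel₀ hg, mul_one]
    have h5 : (Finset.univ.filter (fun g : G => α g = 0)).card = Nat.card α.ker := by
      rw [Nat.card_eq_fintype_card, Fintype.card_subtype]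
      congr 1
      ext g
      simp [AddMonoidHom.mem_ker]
    have h6 := AddSubgroup.card_mul_index α.ker
    rw [AddSubgroup.index_ker, AddMonoidHom.range_eq_top.mpr hsur] at h6
    rw [h5]
    have h7 : Nat.card (⊤ : AddSubgroup (ZMod 7)) = 7 := by
      rw [AddSubgroup.card_top, Nat.card_zmod]
    rw [h7, Nat.card_eq_fintype_card (α := G), h.cardG] at h6
    rw [← h6, mul_comm]
  rw [h1, h2, h3, h4, mul_add, hker]
  ring

theorem two_or_four : ∀ x : ZMod 7, x ^ 2 + x + 1 = 0 → x = 2 ∨ x = 4 := by decide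

theorem two_ne : (2 : ZMod 7) ≠ 0 := by decide

theorem four_ne : (4 : ZMod 7) ≠ 0 := by decide

theorem two_eq : (2 : ZMod 7) = 4 * 4 := by decide

theorem cube_sum : ∀ a b c : ZMod 7, 3 * (b - c) = a * 0 ^ 3 + b * 1 ^ 3 + b * 2 ^ 3 +
    c * 3 ^ 3 + b * 4 ^ 3 + c * 5 ^ 3 + c * 6 ^ 3 := by decide

/-- for a set fixed by the multiplication by `n`, `n = 2` or `4` modulo seven -/
theorem Nt_two {D : Finset G} {n : ℕ} (h : IsPDS n D) (hD : ∀ d ∈ D, n • d ∈ D)
    (h7 : 7 ∣ n ^ 2 + n + 1) (α : G →+ ZMod 7) (t : ZMod 7) : Nt D α (2 * t) = Nt D α t := by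
  have hfield : Fact (Nat.Prime 7) := ⟨by norm_num⟩
  have hn : (n : ZMod 7) = 2 ∨ (n : ZMod 7) = 4 := by
    have h1 : (n : ZMod 7) ^ 2 + (n : ZMod 7) + 1 = 0 := by
      have := (ZMod.natCast_eq_zero_iff (n ^ 2 + n + 1) 7).mpr h7
      push_cast at this
      exact this
    exact two_or_four _ h1
  have hcop : Nat.Coprime n (n ^ 2 + n + 1) := coprime_of_dvd dvd_rfl
  have hne : (n : ZMod 7) ≠ 0 := by
    rcases hn with h1 | h1
    · rw [h1]
      exact two_ne
    · rw [h1]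
      exact four_ne
  have h2 := Nt_mul h hD hcop hne α
  rcases hn with h1 | h1
  · rw [h1] at h2
    exact h2 t
  · rw [h1] at h2
    rw [two_eq, mul_assoc, h2, h2]

/-- the numbers `u` and `v` of a homomorphism -/
theorem uv {D : Finset G} {n : ℕ} (h : IsPDS n D) (hD : ∀ d ∈ D, n • d ∈ D)
    (h7 : 7 ∣ n ^ 2 + n + 1) (α : G →+ ZMod 7) (hα : α ≠ 0) :
    ∃ u v : ℤ, 4 * (n : ℤ) = u ^ 2 + 7 * v ^ 2 ∧ 3 * (v : ZMod 7) = ∑ d ∈ D, (α d) ^ 3 := by
  have h2 := Nt_two h hD h7 α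
  have e2 : Nt D α 2 = Nt D α 1 := h2 1
  have e4 : Nt D α 4 = Nt D α 1 := (h2 2).trans e2
  have e6 : Nt D α 6 = Nt D α 3 := h2 3
  have e5 : Nt D α 5 = Nt D α 3 := (h2 6).trans e6
  have s1 : Nt D α 0 + 3 * Nt D α 1 + 3 * Nt D α 3 = n + 1 := by
    have := sum_Nt D α
    rw [h.cardD] at this
    rw [← this]
    have : ∑ t, Nt D α t = Nt D α 0 + Nt D α 1 + Nt D α 2 + Nt D α 3 + Nt D α 4 + Nt D α 5 +
        Nt D α 6 := by
      exact Fin.sum_univ_seven (fun t : Fin 7 => Nt D α t)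
    rw [this, e2, e4, e5, e6]
    ring
  have s2 : 7 * (Nt D α 0 * Nt D α 0 + 3 * (Nt D α 1 * Nt D α 1) + 3 * (Nt D α 3 * Nt D α 3)) =
      n ^ 2 + 8 * n + 1 := by
    rw [← sum_Nt_sq h α hα]
    have : ∑ t, Nt D α t * Nt D α t = Nt D α 0 * Nt D α 0 + Nt D α 1 * Nt D α 1 +
        Nt D α 2 * Nt D α 2 + Nt D α 3 * Nt D α 3 + Nt D α 4 * Nt D α 4 +
        Nt D α 5 * Nt D α 5 + Nt D α 6 * Nt D α 6 := by
      exact Fin.sum_univ_seven (fun t : Fin 7 => Nt D α t * Nt D α t)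
    rw [this, e2, e4, e5, e6]
    ring
  refine ⟨2 * (Nt D α 0 : ℤ) - Nt D α 1 - Nt D α 3, (Nt D α 1 : ℤ) - Nt D α 3, ?_, ?_⟩
  · have s1' : (Nt D α 0 : ℤ) + 3 * Nt D α 1 + 3 * Nt D α 3 = n + 1 := by exact_mod_cast s1
    have s2' : 7 * ((Nt D α 0 : ℤ) * Nt D α 0 + 3 * (Nt D α 1 * Nt D α 1) +
        3 * (Nt D α 3 * Nt D α 3)) = (n : ℤ) ^ 2 + 8 * n + 1 := by exact_mod_cast s2
    have e : 3 * (4 * (n : ℤ)) = 3 * ((2 * (Nt D α 0 : ℤ) - Nt D α 1 - Nt D α 3) ^ 2 +
        7 * ((Nt D α 1 : ℤ) - Nt D α 3) ^ 2) := by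
      linear_combination (-2) * s2' +
        2 * ((Nt D α 0 : ℤ) + 3 * Nt D α 1 + 3 * Nt D α 3 + n + 1) * s1'
    linarith
  · have h3 : ∑ d ∈ D, (α d) ^ 3 = ∑ t, (Nt D α t : ZMod 7) * t ^ 3 := by
      have h4 : ∀ t : ZMod 7, (Nt D α t : ZMod 7) * t ^ 3 =
          ∑ d ∈ D, if α d = t then t ^ 3 else 0 := by
        intro t
        rw [← Finset.sum_filter, Finset.sum_const, nsmul_eq_mul]
        rfl
      rw [Finset.sum_congr rfl fun t _ => h4 t, Finset.sum_comm]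
      refine Finset.sum_congr rfl fun d _ => ?_
      rw [Finset.sum_ite_eq Finset.univ (α d), if_pos (Finset.mem_univ _)]
    rw [h3]
    have : ∑ t, (Nt D α t : ZMod 7) * t ^ 3 = (Nt D α 0 : ZMod 7) * 0 ^ 3 +
        (Nt D α 1 : ZMod 7) * 1 ^ 3 +
        (Nt D α 2 : ZMod 7) * 2 ^ 3 + (Nt D α 3 : ZMod 7) * 3 ^ 3 + (Nt D α 4 : ZMod 7) * 4 ^ 3 +
        (Nt D α 5 : ZMod 7) * 5 ^ 3 + (Nt D α 6 : ZMod 7) * 6 ^ 3 := by
      exact Fin.sum_univ_seven (fun t : Fin 7 => (Nt D α t : ZMod 7) * (t : ZMod 7) ^ 3)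
    rw [this, e2, e4, e5, e6]
    push_cast
    exact cube_sum _ _ _

end PDS7
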