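import Pool.Agent.Lib.MP_d51818_co.Form

/-!
# MP_d51818_co: the theorem on the Sylow 7-subgroup
-/

set_option autoImplicit false

namespace PDS7

open Finset

/-- two independent homomorphisms -/
theorem two_homs {G : Type} [AddCommGroup G] [Finite G]
    (h : 7 < Nat.card {x : G // 7 • x = 0}) :
    ∃ α β : G →+ ZMod 7, (∃ g, α g = 1 ∧ β g = 0) ∧ ∃ g, α g = 0 ∧ β g = 1 := by
  have hfield : Fact (Nat.Prime 7) := ⟨by norm_num⟩
  let f : G →+ G := nsmulAddMonoidHom 7
  let H : AddSubgroup G := f.range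
  have h7 : ∀ v : G ⧸ H, 7 • v = 0 := by
    intro v
    induction v using QuotientAddGroup.induction_on with
    | H g =>
      rw [← QuotientAddGroup.mk_nsmul, QuotientAddGroup.eq_zero_iff]
      exact ⟨g, rfl⟩
  let _ : Module (ZMod 7) (G ⧸ H) := AddCommGroup.zmodModule h7
  have hcard : Nat.card (G ⧸ H) = Nat.card {x : G // 7 • x = 0} := by
    have h1 : Nat.card H * H.index = Nat.card G := AddSubgroup.card_mul_index H
    have h2 : Nat.card f.ker * f.ker.index = Nat.card G := AddSubgroup.card_mul_index f.ker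
    have h3 : f.ker.index = Nat.card H := AddSubgroup.index_ker f
    have h4 : Nat.card f.ker = Nat.card {x : G // 7 • x = 0} := by
      apply Nat.card_congr
      exact Equiv.subtypeEquivRight fun x => by
        rw [AddMonoidHom.mem_ker]
        rfl
    have h5 : 0 < Nat.card H := Nat.card_pos
    rw [h3, mul_comm] at h2
    have h6 : Nat.card H * H.index = Nat.card H * Nat.card f.ker := by rw [h1, h2]
    have h7 := Nat.eq_of_mul_eq_mul_left h5 h6
    rw [← h4, ← h7]
    rfl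
  have hfin : Module.Finite (ZMod 7) (G ⧸ H) := Module.Finite.of_finite
  have hrank : 7 < 7 ^ Module.finrank (ZMod 7) (G ⧸ H) := by
    have h1 := Module.natCard_eq_pow_finrank (K := ZMod 7) (V := G ⧸ H)
    rw [Nat.card_zmod] at h1
    rw [← h1, hcard]
    exact h
  have hr : 1 < Module.finrank (ZMod 7) (G ⧸ H) := by
    by_contra hcon
    have : Module.finrank (ZMod 7) (G ⧸ H) ≤ 1 := by omega
    have := Nat.pow_le_pow_right (n := 7) (by norm_num) this
    omega
  let b := Module.finBasis (ZMod 7) (G ⧸ H)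
  let i0 : Fin (Module.finrank (ZMod 7) (G ⧸ H)) := ⟨0, by omega⟩
  let i1 : Fin (Module.finrank (ZMod 7) (G ⧸ H)) := ⟨1, hr⟩
  have hne : i0 ≠ i1 := by
    intro h0
    have := congrArg Fin.val h0
    exact absurd this (by norm_num [i0, i1])
  let α : G →+ ZMod 7 := (b.coord i0).toAddMonoidHom.comp (QuotientAddGroup.mk' H)
  let β : G →+ ZMod 7 := (b.coord i1).toAddMonoidHom.comp (QuotientAddGroup.mk' H)
  obtain ⟨g0, hg0⟩ := QuotientAddGroup.mk'_surjective H (b i0)
  obtain ⟨g1, hg1⟩ := QuotientAddGroup.mk'_surjective H (b i1)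
  refine ⟨α, β, ⟨g0, ?_, ?_⟩, ⟨g1, ?_, ?_⟩⟩
  · show b.coord i0 (QuotientAddGroup.mk' H g0) = 1
    rw [hg0, Module.Basis.coord_apply, Module.Basis.repr_self, Finsupp.single_eq_same]
  · show b.coord i1 (QuotientAddGroup.mk' H g0) = 0
    rw [hg0, Module.Basis.coord_apply, Module.Basis.repr_self, Finsupp.single_eq_of_ne hne.symm]
  · show b.coord i0 (QuotientAddGroup.mk' H g1) = 0
    rw [hg1, Module.Basis.coord_apply, Module.Basis.repr_self, Finsupp.single_eq_of_ne hne]
  · show b.coord i1 (QuotientAddGroup.mk' H g1) = 1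
    rw [hg1, Module.Basis.coord_apply, Module.Basis.repr_self, Finsupp.single_eq_same]

/-- the main theorem -/
theorem main {G : Type} [AddCommGroup G] [Fintype G] [DecidableEq G] {n : ℕ} {D : Finset G}
    (h : IsPDS n D) (hG : 7 < Nat.card {x : G // 7 • x = 0}) :
    (∃ u v : ℤ, 4 * (n : ℤ) = u ^ 2 + 343 * v ^ 2) ∨
      ∀ c : ℤ, ¬ 7 ∣ c → ∃ u v : ℤ, 4 * (n : ℤ) = u ^ 2 + 7 * v ^ 2 ∧ 7 ∣ v - c := by
  have hfield : Fact (Nat.Prime 7) := ⟨by norm_num⟩
  obtain ⟨D', hD', hs⟩ := exists_zero h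
  have hn : 0 < n := by
    rcases Nat.eq_zero_or_pos n with h0 | h0
    · exfalso
      have h1 : Nat.card {x : G // 7 • x = 0} ≤ Nat.card G :=
        Nat.card_le_card_of_injective _ Subtype.val_injective
      rw [Nat.card_eq_fintype_card (α := G), h.cardG, h0] at h1
      omega
    · exact h0
  have hmul := mult_n hD' hs hn
  obtain ⟨α, β, ⟨g0, hα0, hβ0⟩, ⟨g1, hα1, hβ1⟩⟩ := two_homs hG
  have h7 : 7 ∣ n ^ 2 + n + 1 := by
    have hx : ∃ x : G, x ≠ 0 ∧ 7 • x = 0 := by
      by_contra hcon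
      push Not at hcon
      have h1 : Nat.card {x : G // 7 • x = 0} ≤ 1 := by
        rw [Finite.card_le_one_iff_subsingleton]
        refine ⟨fun a b => Subtype.ext ?_⟩
        have ha : a.1 = 0 := by
          by_contra h2
          exact hcon a.1 h2 a.2
        have hb : b.1 = 0 := by
          by_contra h2
          exact hcon b.1 h2 b.2
        rw [ha, hb]
      omega
    obtain ⟨x, hx0, hx7⟩ := hx
    have h1 : addOrderOf x = 7 := addOrderOf_eq_prime hx7 hx0
    rw [← h.cardG, ← h1]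
    exact addOrderOf_dvd_card
  -- the family of homomorphisms
  have hfam : ∀ x y : ZMod 7, (x ≠ 0 ∨ y ≠ 0) → ∃ u v : ℤ, 4 * (n : ℤ) = u ^ 2 + 7 * v ^ 2 ∧
      3 * (v : ZMod 7) = (∑ d ∈ D', (α d) ^ 3) * x ^ 3 + 3 * (∑ d ∈ D', (α d) ^ 2 * β d) * x ^ 2 * y
        + 3 * (∑ d ∈ D', α d * (β d) ^ 2) * x * y ^ 2 + (∑ d ∈ D', (β d) ^ 3) * y ^ 3 := by
    intro x y hxy
    let γ : G →+ ZMod 7 := (AddMonoidHom.mulLeft x).comp α + (AddMonoidHom.mulLeft y).comp β
    have hγ : ∀ g, γ g = x * α g + y * β g := fun g => rfl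
    have hγ0 : γ ≠ 0 := by
      intro h0
      rcases hxy with hx | hy
      · apply hx
        have := DFunLike.congr_fun h0 g0
        rw [hγ, hα0, hβ0, mul_one, mul_zero, add_zero] at this
        exact this
      · apply hy
        have := DFunLike.congr_fun h0 g1
        rw [hγ, hα1, hβ1, mul_one, mul_zero, zero_add] at this
        exact this
    obtain ⟨u, v, h1, h2⟩ := uv hD' hmul h7 γ hγ0
    refine ⟨u, v, h1, ?_⟩
    rw [h2, Finset.mul_sum, Finset.mul_sum, Finset.sum_mul, Finset.sum_mul, Finset.sum_mul,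
      Finset.sum_mul, Finset.sum_mul, Finset.sum_mul, ← Finset.sum_add_distrib,
      ← Finset.sum_add_distrib, ← Finset.sum_add_distrib]
    refine Finset.sum_congr rfl fun d _ => ?_
    rw [hγ]
    ring
  by_cases hz : ∃ x y : ZMod 7, (x ≠ 0 ∨ y ≠ 0) ∧
      (∑ d ∈ D', (α d) ^ 3) * x ^ 3 + 3 * (∑ d ∈ D', (α d) ^ 2 * β d) * x ^ 2 * y
        + 3 * (∑ d ∈ D', α d * (β d) ^ 2) * x * y ^ 2 + (∑ d ∈ D', (β d) ^ 3) * y ^ 3 = 0
  · left
    obtain ⟨x, y, hxy, h0⟩ := hz
    obtain ⟨u, v, h1, h2⟩ := hfam x y hxy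
    rw [h0] at h2
    have h3 : ((v : ℤ) : ZMod 7) = 0 := by
      rcases mul_eq_zero.mp h2 with h4 | h4
      · exact absurd h4 (by
          intro h5
          have h6 : ((3 : ℕ) : ZMod 7) = 0 := by exact_mod_cast h5
          rw [ZMod.natCast_eq_zero_iff] at h6
          omega)
      · exact h4
    rw [ZMod.intCast_zmod_eq_zero_iff_dvd] at h3
    obtain ⟨w, hw⟩ := h3
    refine ⟨u, w, ?_⟩
    rw [h1, hw]
    push_cast
    ring
  · right
    push Not at hz
    intro c hc
    have hc' : (c : ZMod 7) ≠ 0 := by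
      intro h0
      rw [ZMod.intCast_zmod_eq_zero_iff_dvd] at h0
      exact hc h0
    obtain ⟨x, y, hxy⟩ := form_all _ _ _ _ hz (3 * (c : ZMod 7)) (by
      intro h0
      rcases mul_eq_zero.mp h0 with h4 | h4
      · have h6 : ((3 : ℕ) : ZMod 7) = 0 := by exact_mod_cast h4
        rw [ZMod.natCast_eq_zero_iff] at h6
        omega
      · exact hc' h4)
    have hne : x ≠ 0 ∨ y ≠ 0 := by
      by_contra hcon
      push Not at hcon
      rw [hcon.1, hcon.2] at hxy
      have h0 : 3 * (c : ZMod 7) = 0 := by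
        rw [← hxy]
        ring
      rcases mul_eq_zero.mp h0 with h4 | h4
      · have h6 : ((3 : ℕ) : ZMod 7) = 0 := by exact_mod_cast h4
        rw [ZMod.natCast_eq_zero_iff] at h6
        omega
      · exact hc' h4
    obtain ⟨u, v, h1, h2⟩ := hfam x y hne
    rw [hxy] at h2
    refine ⟨u, v, h1, ?_⟩
    have h3 : ((v - c : ℤ) : ZMod 7) = 0 := by
      have h4 : (3 : ZMod 7) * ((v : ZMod 7) - (c : ZMod 7)) = 0 := by
        rw [mul_sub, h2, sub_self]
      rcases mul_eq_zero.mp h4 with h5 | h5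
      · exfalso
        have h6 : ((3 : ℕ) : ZMod 7) = 0 := by exact_mod_cast h5
        rw [ZMod.natCast_eq_zero_iff] at h6
        omega
      · push_cast
        exact h5
    rw [ZMod.intCast_zmod_eq_zero_iff_dvd] at h3
    exact_mod_cast h3

end PDS7
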