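import Pool.Agent.Lib.MP_d51818_co.Chars

/-!
# MP_d51818_co: binary cubic forms modulo seven, and two independent homomorphisms
-/

set_option autoImplicit false

namespace PDS7

open Finset

/-- a depressed binary cubic form without zeros takes all the nonzero values -/
theorem form_dep : ∀ P Q : ZMod 7, (∀ X : ZMod 7, X ^ 3 + P * X + Q ≠ 0) →
    ∀ c : ZMod 7, c ≠ 0 → ∃ X Y : ZMod 7, X ^ 3 + P * X * Y ^ 2 + Q * Y ^ 3 = c := by
  decide

theorem inv_three : (3 : ZMod 7) * 5 = 1 := by decide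

theorem units7 : ∀ A : ZMod 7, A ≠ 0 → ∃ A' : ZMod 7, A * A' = 1 := by decide

theorem eq_zero7 : ∀ A c : ZMod 7, c ≠ 0 → A * c = 0 → A = 0 := by decide

/-- a binary cubic form without zeros takes all the nonzero values -/
theorem form_all (A B C E : ZMod 7)
    (h : ∀ x y : ZMod 7, (x ≠ 0 ∨ y ≠ 0) →
      A * x ^ 3 + 3 * B * x ^ 2 * y + 3 * C * x * y ^ 2 + E * y ^ 3 ≠ 0) (c : ZMod 7)
    (hc : c ≠ 0) : ∃ x y : ZMod 7,
      A * x ^ 3 + 3 * B * x ^ 2 * y + 3 * C * x * y ^ 2 + E * y ^ 3 = c := by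
  have hA : A ≠ 0 := by
    have h1 := h 1 0 (Or.inl (by decide))
    intro h2
    apply h1
    rw [h2]
    ring
  obtain ⟨A', hA'⟩ := units7 A hA
  -- the substitution `x = X - b y` with `b = B A'`
  have key : ∀ X y : ZMod 7,
      A * (X - B * A' * y) ^ 3 + 3 * B * (X - B * A' * y) ^ 2 * y +
        3 * C * (X - B * A' * y) * y ^ 2 + E * y ^ 3 =
      A * (X ^ 3 + (3 * C * A' - 3 * (B * A') ^ 2) * X * y ^ 2 +
        (2 * (B * A') ^ 3 - 3 * C * A' * (B * A') + E * A') * y ^ 3) := by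
    intro X y
    have e1 : A * A' = 1 := hA'
    linear_combination (exp := 1) (
      3 * B * X ^ 2 * y * (-1) + 6 * B ^ 2 * A' * X * y ^ 2 - 3 * B ^ 3 * A' ^ 2 * y ^ 3
      - 3 * C * X * y ^ 2 + 3 * C * B * A' * y ^ 3 - E * y ^ 3) * e1
  obtain ⟨X, Y, hXY⟩ := form_dep (3 * C * A' - 3 * (B * A') ^ 2)
    (2 * (B * A') ^ 3 - 3 * C * A' * (B * A') + E * A') (by
      intro X hX
      have h1 := h (X - B * A' * 1) 1 (Or.inr (by decide))
      apply h1
      rw [key X 1, one_pow, one_pow, mul_one, mul_one, hX, mul_zero]) (c * A') (by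
      intro h2
      apply hc
      have : c = c * A' * A := by rw [mul_assoc, mul_comm A' A, hA', mul_one]
      rw [this, h2, zero_mul])
  refine ⟨X - B * A' * Y, Y, ?_⟩
  rw [key X Y, hXY, mul_comm c A', ← mul_assoc, hA', one_mul]

end PDS7
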