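import Mathlib

/-!
# MP_d51818_co: the equation `m ^ 2 + m + 1 = w ^ k` for a prime `w = q ^ 2 + q + 1`, `q` a prime
power
-/

set_option autoImplicit false

namespace SubPl

open Finset QuadraticAlgebra

theorem div_aux {p : ℕ} [hp : Fact p.Prime] {N X K W k : ℕ} (h : X * K = N * W) (hN : N ≠ 0)
    (hK : K ≠ 0) (hW : p ^ k ∣ W) (hk : K < p ^ k) : p ^ (padicValNat p N + 1) ∣ X := by
  rcases eq_or_ne W 0 with hW0 | hW0
  · rw [hW0, mul_zero] at h
    rcases mul_eq_zero.mp h with h1 | h1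
    · rw [h1]; exact dvd_zero _
    · exact absurd h1 hK
  · have hX0 : X ≠ 0 := by
      rintro rfl
      rw [zero_mul] at h
      exact mul_ne_zero hN hW0 h.symm
    have h1 : padicValNat p X + padicValNat p K = padicValNat p N + padicValNat p W := by
      rw [← padicValNat.mul hX0 hK, ← padicValNat.mul hN hW0, h]
    have h2 : k ≤ padicValNat p W := (padicValNat_dvd_iff_le hW0).mp hW
    have h3 : padicValNat p K < k := by
      have h4 : p ^ padicValNat p K ≤ K := Nat.le_of_dvd (Nat.pos_of_ne_zero hK) pow_padicValNat_dvd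
      exact (Nat.pow_lt_pow_iff_right hp.out.one_lt).mp (lt_of_le_of_lt h4 hk)
    exact (padicValNat_dvd_iff_le hX0).mpr (by omega)

/-- the integers of the field of the cube roots of unity, `z` a sixth root of unity -/
abbrev R : Type := QuadraticAlgebra ℤ (-1) 1

/-- the real part -/
def reH : R →+ ℤ where
  toFun x := x.re
  map_zero' := rfl
  map_add' _ _ := rfl

/-- the sum of the two coordinates -/
def suH : R →+ ℤ where
  toFun x := x.re + x.im
  map_zero' := rfl
  map_add' x y := by simp only [re_add, im_add]; ring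

theorem expand (L : R →+ ℤ) (x Y : R) (Q s : ℕ) :
    L (x * ((Q : R) * Y + 1) ^ s) =
      ∑ m ∈ range (s + 1), ((s.choose m * Q ^ m : ℕ) : ℤ) * L (x * Y ^ m) := by
  rw [add_pow, Finset.mul_sum, map_sum]
  refine Finset.sum_congr rfl fun m _ => ?_
  have : x * (((Q : R) * Y) ^ m * 1 ^ (s - m) * (s.choose m : R)) =
      (s.choose m * Q ^ m : ℕ) • (x * Y ^ m) := by
    rw [nsmul_eq_mul, Nat.cast_mul, Nat.cast_pow, mul_pow, one_pow]
    ring
  rw [this, map_nsmul, nsmul_eq_mul]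

theorem skolem {p c : ℕ} [hp : Fact p.Prime] (hQ : 3 ≤ p ^ c) (L : R →+ ℤ) (x Y : R)
    (hL : ¬ (p : ℤ) ∣ L (x * Y)) {s : ℕ} (hs : 0 < s) :
    L (x * (((p ^ c : ℕ) : R) * Y + 1) ^ s) ≠ L x := by
  intro h
  rw [expand, Finset.range_eq_Ico, Finset.sum_eq_sum_Ico_succ_bot (by omega),
    Finset.sum_eq_sum_Ico_succ_bot (by omega)] at h
  simp only [Nat.choose_zero_right, pow_zero, mul_one, Nat.cast_one, one_mul, zero_add,
    Nat.choose_one_right, pow_one] at h
  have hN : s * p ^ c ≠ 0 := mul_ne_zero hs.ne' (pow_ne_zero _ hp.out.ne_zero)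
  set e := padicValNat p (s * p ^ c) with he
  have h1 : ∀ m ∈ Finset.Ico (1 + 1) (s + 1),
      (p : ℤ) ^ (e + 1) ∣ ((s.choose m * (p ^ c) ^ m : ℕ) : ℤ) * L (x * Y ^ m) := by
    intro m hm
    rw [Finset.mem_Ico] at hm
    apply Dvd.dvd.mul_right
    have h2 : p ^ (e + 1) ∣ s.choose m * (p ^ c) ^ m := by
      apply div_aux (N := s * p ^ c) (K := m)
        (W := (s - 1).choose (m - 1) * p ^ (c * (m - 1))) (k := c * (m - 1)) _ hN (by omega)
        (Dvd.intro_left _ rfl) _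
      · obtain ⟨m', rfl⟩ : ∃ m', m = m' + 1 := ⟨m - 1, by omega⟩
        obtain ⟨s', rfl⟩ : ∃ s', s = s' + 1 := ⟨s - 1, by omega⟩
        have h3 := Nat.add_one_mul_choose_eq s' m'
        simp only [Nat.add_sub_cancel]
        calc (s' + 1).choose (m' + 1) * (p ^ c) ^ (m' + 1) * (m' + 1)
            = ((s' + 1).choose (m' + 1) * (m' + 1)) * (p ^ c) ^ (m' + 1) := by ring
          _ = ((s' + 1) * s'.choose m') * (p ^ c) ^ (m' + 1) := by rw [h3]
          _ = (s' + 1) * p ^ c * (s'.choose m' * p ^ (c * m')) := by rw [pow_mul]; ring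
      · rw [pow_mul]
        calc m < 3 ^ (m - 1) := by
              obtain ⟨m', rfl⟩ : ∃ m', m = m' + 2 := ⟨m - 2, by omega⟩
              clear hm
              induction m' with
              | zero => norm_num
              | succ k ih =>
                have h4 : (3 : ℕ) ^ (k + 1 + 2 - 1) = 3 ^ (k + 2 - 1) * 3 := by
                  rw [← pow_succ]; congr 1
                omega
          _ ≤ (p ^ c) ^ (m - 1) := Nat.pow_le_pow_left hQ _
    exact_mod_cast h2
  have h2 : (p : ℤ) ^ (e + 1) ∣ ∑ m ∈ Finset.Ico (1 + 1) (s + 1),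
      ((s.choose m * (p ^ c) ^ m : ℕ) : ℤ) * L (x * Y ^ m) := Finset.dvd_sum h1
  have h3 : (p : ℤ) ^ (e + 1) ∣ ((s * p ^ c : ℕ) : ℤ) * L (x * Y) := by
    have h4 : ((s * p ^ c : ℕ) : ℤ) * L (x * Y) = -∑ m ∈ Finset.Ico (1 + 1) (s + 1),
      ((s.choose m * (p ^ c) ^ m : ℕ) : ℤ) * L (x * Y ^ m) := by linarith
    rw [h4]
    exact (dvd_neg).mpr h2
  have hpz : Prime (p : ℤ) := Nat.prime_iff_prime_int.mp hp.out
  have h4 : (p : ℤ) ^ (e + 1) ∣ ((s * p ^ c : ℕ) : ℤ) :=
    ((Int.isCoprime_iff_gcd_eq_one.mpr (by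
      rw [Int.gcd_comm]
      exact (Int.isCoprime_iff_gcd_eq_one.mp
        ((hpz.coprime_iff_not_dvd.mpr hL).pow_left.symm)))).dvd_of_dvd_mul_right h3)
  have h5 : p ^ (e + 1) ∣ s * p ^ c := by exact_mod_cast h4
  have h6 := (padicValNat_dvd_iff_le hN).mp h5
  omega

end SubPl
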