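import Mathlib
import Pool.Agent.Lib.MP_d51818_co.Sub1

/-!
# MP_d51818_co: the equation `m ^ 2 + m + 1 = w ^ k`, second order terms and descent
-/

set_option autoImplicit false

namespace SubPl

open Finset QuadraticAlgebra

theorem choose_two_lt (m : ℕ) (hm : 3 ≤ m) : m.choose 2 < 4 ^ (m - 2) := by
  obtain ⟨k, rfl⟩ : ∃ k, m = k + 3 := ⟨m - 3, by omega⟩
  clear hm
  induction k with
  | zero => decide
  | succ k ih =>
    have h1 : (k + 1 + 3).choose 2 = (k + 3) + (k + 3).choose 2 := by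
      rw [show k + 1 + 3 = (k + 3) + 1 by ring, Nat.choose_succ_succ' (k + 3) 1,
        Nat.choose_one_right]
    have h2 : (4 : ℕ) ^ (k + 1 + 3 - 2) = 4 ^ (k + 3 - 2) * 4 := by
      rw [← pow_succ]; congr 1
    have h3 : k + 3 ≤ 4 ^ (k + 3 - 2) := by
      have h4 : k + 3 - 2 = k + 1 := by omega
      rw [h4]
      clear ih h1 h2 h4
      induction k with
      | zero => norm_num
      | succ k ih => rw [pow_succ]; omega
    rw [h1, h2]
    omega

theorem skolem2 {p c : ℕ} [hp : Fact p.Prime] (hQ : 4 ≤ p ^ c) (L : R →+ ℤ) (x Y : R)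
    (hL0 : L (x * Y) = 0) (hL : ¬ (p : ℤ) ∣ L (x * Y ^ 2)) {s : ℕ} (hs : 2 ≤ s) :
    L (x * (((p ^ c : ℕ) : R) * Y + 1) ^ s) ≠ L x := by
  intro h
  rw [expand, Finset.range_eq_Ico, Finset.sum_eq_sum_Ico_succ_bot (by omega),
    Finset.sum_eq_sum_Ico_succ_bot (by omega), Finset.sum_eq_sum_Ico_succ_bot (by omega)] at h
  simp only [Nat.choose_zero_right, pow_zero, mul_one, Nat.cast_one, one_mul, zero_add,
    Nat.choose_one_right, pow_one, hL0, mul_zero, Nat.reduceAdd] at h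
  have hch : s.choose 2 ≠ 0 := (Nat.choose_pos hs).ne'
  have hN : s.choose 2 * (p ^ c) ^ 2 ≠ 0 :=
    mul_ne_zero hch (pow_ne_zero _ (pow_ne_zero _ hp.out.ne_zero))
  set e := padicValNat p (s.choose 2 * (p ^ c) ^ 2) with he
  have h1 : ∀ m ∈ Finset.Ico 3 (s + 1),
      (p : ℤ) ^ (e + 1) ∣ ((s.choose m * (p ^ c) ^ m : ℕ) : ℤ) * L (x * Y ^ m) := by
    intro m hm
    rw [Finset.mem_Ico] at hm
    apply Dvd.dvd.mul_right
    have h2 : p ^ (e + 1) ∣ s.choose m * (p ^ c) ^ m := by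
      apply div_aux (N := s.choose 2 * (p ^ c) ^ 2) (K := m.choose 2)
        (W := (s - 2).choose (m - 2) * p ^ (c * (m - 2))) (k := c * (m - 2)) _ hN
        (Nat.choose_pos (by omega)).ne'
        (Dvd.intro_left _ rfl) _
      · have h3 := Nat.choose_mul (n := s) (k := m) (s := 2) (by omega)
        have h4 : (p ^ c) ^ m = (p ^ c) ^ 2 * p ^ (c * (m - 2)) := by
          rw [pow_mul, ← pow_add]; congr 1; omega
        calc s.choose m * (p ^ c) ^ m * m.choose 2
            = (s.choose m * m.choose 2) * (p ^ c) ^ m := by ring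
          _ = (s.choose 2 * (s - 2).choose (m - 2)) * (p ^ c) ^ m := by rw [h3]
          _ = _ := by rw [h4]; ring
      · rw [pow_mul]
        calc m.choose 2 < 4 ^ (m - 2) := choose_two_lt m (by omega)
          _ ≤ (p ^ c) ^ (m - 2) := Nat.pow_le_pow_left hQ _
    exact_mod_cast h2
  have h2 : (p : ℤ) ^ (e + 1) ∣ ∑ m ∈ Finset.Ico 3 (s + 1),
      ((s.choose m * (p ^ c) ^ m : ℕ) : ℤ) * L (x * Y ^ m) := Finset.dvd_sum h1
  have h3 : (p : ℤ) ^ (e + 1) ∣ ((s.choose 2 * (p ^ c) ^ 2 : ℕ) : ℤ) * L (x * Y ^ 2) := by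
    have h4 : ((s.choose 2 * (p ^ c) ^ 2 : ℕ) : ℤ) * L (x * Y ^ 2) =
      -∑ m ∈ Finset.Ico 3 (s + 1),
      ((s.choose m * (p ^ c) ^ m : ℕ) : ℤ) * L (x * Y ^ m) := by linarith
    rw [h4]
    exact (dvd_neg).mpr h2
  have hpz : Prime (p : ℤ) := Nat.prime_iff_prime_int.mp hp.out
  have h4 : (p : ℤ) ^ (e + 1) ∣ ((s.choose 2 * (p ^ c) ^ 2 : ℕ) : ℤ) :=
    ((Int.isCoprime_iff_gcd_eq_one.mpr (by
      rw [Int.gcd_comm]
      exact (Int.isCoprime_iff_gcd_eq_one.mp
        ((hpz.coprime_iff_not_dvd.mpr hL).pow_left.symm)))).dvd_of_dvd_mul_right h3)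
  have h5 : p ^ (e + 1) ∣ s.choose 2 * (p ^ c) ^ 2 := by exact_mod_cast h4
  have h6 := (padicValNat_dvd_iff_le hN).mp h5
  omega

theorem norm_eq (x : R) : norm x = x.re ^ 2 + x.re * x.im + x.im ^ 2 := by
  rw [norm_def]; ring

/-- descent: primitive elements of norm `w ^ k` -/
theorem descent {q w : ℤ} (hw : Prime w) (hwq : w = q ^ 2 + q + 1) (k : ℕ) :
    ∀ β : R, norm β = w ^ k → ¬ (w ∣ β.re ∧ w ∣ β.im) →
      ∃ ε : R, norm ε = 1 ∧ (β = ε * (⟨1, q⟩ : R) ^ k ∨ β = ε * (⟨1 + q, -q⟩ : R) ^ k) := by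
  induction k with
  | zero =>
    intro β hβ _
    exact ⟨β, by simpa using hβ, Or.inl (by simp)⟩
  | succ k ih =>
    intro β hβ hnd
    have hθ : (⟨1, q⟩ : R) * ⟨1 + q, -q⟩ = (w : R) := by
      rw [mk_mul_mk, hwq]
      ext
      · simp only [re_intCast]; push_cast; ring
      · simp only [im_intCast]; ring
    have hw0 : w ≠ 0 := hw.ne_zero
    have key : ∀ x y : R, x * (w : R) = y * (w : R) → x = y := by
      intro x y h
      have h1 : (x * (w : R)).re = (y * (w : R)).re := by rw [h]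
      have h2 : (x * (w : R)).im = (y * (w : R)).im := by rw [h]
      simp only [re_mul, im_mul, re_intCast, im_intCast, mul_zero, add_zero] at h1 h2
      ext
      · exact mul_right_cancel₀ hw0 (by simpa using h1)
      · exact mul_right_cancel₀ hw0 (by simpa using h2)
    have hnw : w ∣ (β.im - β.re * q) * (β.re - β.im * q) := by
      have h1 : (β.im - β.re * q) * (β.re - β.im * q) =
        -q * norm β + β.re * β.im * w := by rw [norm_eq, hwq]; ring
      rw [h1, hβ, pow_succ]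
      exact dvd_add ⟨-q * w ^ k, by ring⟩ ⟨β.re * β.im, by ring⟩
    have hnn : norm (⟨1, q⟩ : R) = w := by rw [norm_eq, hwq]; ring
    have hnn' : norm (⟨1 + q, -q⟩ : R) = w := by rw [norm_eq, hwq]; ring
    have hwdvd : ∀ γ : R, β = γ * (w : R) → False := by
      intro γ hγ
      apply hnd
      rw [hγ]
      simp only [re_mul, im_mul, re_intCast, im_intCast]
      exact ⟨⟨γ.re, by simp [mul_comm]⟩, ⟨γ.im, by simp [mul_comm]⟩⟩
    have hnndvd : ∀ γ δ : R, β = γ * δ → ¬ (w ∣ β.re ∧ w ∣ β.im) → ¬ (w ∣ γ.re ∧ w ∣ γ.im) := by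
      intro γ δ hγ h ⟨⟨u, hu⟩, ⟨v, hv⟩⟩
      apply h
      rw [hγ]
      simp only [re_mul, im_mul, hu, hv]
      exact ⟨⟨u * δ.re - v * δ.im, by ring⟩, ⟨u * δ.im + v * δ.re + v * δ.im, by ring⟩⟩
    rcases hw.dvd_or_dvd hnw with ⟨v, hv⟩ | ⟨u, hu⟩
    · have hre : w ∣ β.re * (1 + q) + β.im * q := by
        have : β.re * (1 + q) + β.im * q = w * (β.re + v * q) := by
          have h5 : β.im = w * v + β.re * q := by linarith
          rw [h5, hwq]; ring
        exact ⟨_, this⟩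
      obtain ⟨u, hu⟩ := hre
      have h1 : β * ⟨1 + q, -q⟩ = (⟨u, v⟩ : R) * (w : R) := by
        ext
        · simp only [re_mul, re_intCast, im_intCast, Int.cast_id]; linarith
        · simp only [im_mul, re_intCast, im_intCast, Int.cast_id]; linarith
      have h2 : β = ⟨u, v⟩ * ⟨1, q⟩ := by
        apply key
        rw [← hθ]
        calc β * ((⟨1, q⟩ : R) * ⟨1 + q, -q⟩) = (β * ⟨1 + q, -q⟩) * ⟨1, q⟩ := by ring
          _ = (⟨u, v⟩ * ⟨1, q⟩) * (w : R) := by rw [h1]; ring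
          _ = _ := by rw [← hθ]
      have h3 : norm (⟨u, v⟩ : R) = w ^ k := by
        have h4 : norm β = norm (⟨u, v⟩ : R) * w := by rw [h2, map_mul, hnn]
        rw [hβ, pow_succ] at h4
        exact (mul_right_cancel₀ hw0 h4).symm
      obtain ⟨ε, hε, h4⟩ := ih ⟨u, v⟩ h3 (hnndvd _ _ h2 hnd)
      rcases h4 with h4 | h4
      · exact ⟨ε, hε, Or.inl (by rw [h2, h4, pow_succ]; ring)⟩
      · rcases Nat.eq_zero_or_pos k with rfl | hk
        · exact ⟨ε, hε, Or.inl (by rw [h2, h4, pow_zero, zero_add, pow_one, mul_one])⟩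
        · exfalso
          obtain ⟨k', rfl⟩ : ∃ k', k = k' + 1 := ⟨k - 1, by omega⟩
          apply hwdvd (ε * (⟨1 + q, -q⟩ : R) ^ k')
          rw [h2, h4, ← hθ, pow_succ]; ring
    · have him : w ∣ β.re * q + β.im * (1 + q) := by
        have : β.re * q + β.im * (1 + q) = w * (u * q + β.im) := by
          have h5 : β.re = w * u + β.im * q := by linarith
          rw [h5, hwq]; ring
        exact ⟨_, this⟩
      obtain ⟨v, hv⟩ := him
      have h1 : β * ⟨1, q⟩ = (⟨u, v⟩ : R) * (w : R) := by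
        ext
        · simp only [re_mul, re_intCast, im_intCast, Int.cast_id]; linarith
        · simp only [im_mul, re_intCast, im_intCast, Int.cast_id]; linarith
      have h2 : β = ⟨u, v⟩ * ⟨1 + q, -q⟩ := by
        apply key
        rw [← hθ]
        calc β * ((⟨1, q⟩ : R) * ⟨1 + q, -q⟩) = (β * ⟨1, q⟩) * ⟨1 + q, -q⟩ := by ring
          _ = (⟨u, v⟩ * ⟨1 + q, -q⟩) * (w : R) := by rw [h1]; ring
          _ = _ := by rw [← hθ]
      have h3 : norm (⟨u, v⟩ : R) = w ^ k := by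
        have h4 : norm β = norm (⟨u, v⟩ : R) * w := by rw [h2, map_mul, hnn']
        rw [hβ, pow_succ] at h4
        exact (mul_right_cancel₀ hw0 h4).symm
      obtain ⟨ε, hε, h4⟩ := ih ⟨u, v⟩ h3 (hnndvd _ _ h2 hnd)
      rcases h4 with h4 | h4
      · rcases Nat.eq_zero_or_pos k with rfl | hk
        · exact ⟨ε, hε, Or.inr (by rw [h2, h4, pow_zero, zero_add, pow_one, mul_one])⟩
        · exfalso
          obtain ⟨k', rfl⟩ : ∃ k', k = k' + 1 := ⟨k - 1, by omega⟩
          apply hwdvd (ε * (⟨1, q⟩ : R) ^ k')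
          rw [h2, h4, ← hθ, pow_succ]; ring
      · exact ⟨ε, hε, Or.inr (by rw [h2, h4, pow_succ]; ring)⟩

end SubPl
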