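import Mathlib
import Pool.Agent.Lib.MP_d51818_co.Sub2

/-!
# MP_d51818_co: the solutions of `m ^ 2 + m + 1 = w ^ k` for a prime `w = q ^ 2 + q + 1`
-/

set_option autoImplicit false

namespace SubPl

open Finset QuadraticAlgebra

theorem units6 {a b : ℤ} (h : a ^ 2 + a * b + b ^ 2 = 1) :
    (a = 1 ∧ b = 0) ∨ (a = -1 ∧ b = 0) ∨ (a = 0 ∧ b = 1) ∨ (a = 0 ∧ b = -1) ∨
      (a = -1 ∧ b = 1) ∨ (a = 1 ∧ b = -1) := by
  have h1 : a ≤ 1 := by nlinarith [sq_nonneg (a + 2 * b)]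
  have h2 : -1 ≤ a := by nlinarith [sq_nonneg (a + 2 * b)]
  have h3 : b ≤ 1 := by nlinarith [sq_nonneg (b + 2 * a)]
  have h4 : -1 ≤ b := by nlinarith [sq_nonneg (b + 2 * a)]
  have h5 : a = -1 ∨ a = 0 ∨ a = 1 := by omega
  have h6 : b = -1 ∨ b = 0 ∨ b = 1 := by omega
  rcases h5 with rfl | rfl | rfl <;> rcases h6 with rfl | rfl | rfl <;> simp_all

theorem star_pow_th (q : ℤ) (k : ℕ) :
    (⟨1 + q, -q⟩ : R) ^ k = star ((⟨1, q⟩ : R) ^ k) := by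
  have h : (⟨1 + q, -q⟩ : R) = star (⟨1, q⟩ : R) := by
    rw [star_mk]; ext <;> simp
  rw [h, star_pow]

theorem cases6 {q w : ℤ} (hw : Prime w) (hwq : w = q ^ 2 + q + 1) {k : ℕ} {m : ℤ}
    (hm : m ^ 2 + m + 1 = w ^ k) :
    ((⟨1, q⟩ : R) ^ k).im = 1 ∨ ((⟨1, q⟩ : R) ^ k).im = -1 ∨
      ((⟨1, q⟩ : R) ^ k).re + ((⟨1, q⟩ : R) ^ k).im = 1 ∨
      ((⟨1, q⟩ : R) ^ k).re + ((⟨1, q⟩ : R) ^ k).im = -1 ∨
      ((⟨1, q⟩ : R) ^ k).re = 1 ∨ ((⟨1, q⟩ : R) ^ k).re = -1 := by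
  have hn : norm (⟨m, 1⟩ : R) = w ^ k := by rw [norm_eq, ← hm]; ring
  have hd : ¬ (w ∣ (⟨m, 1⟩ : R).re ∧ w ∣ (⟨m, 1⟩ : R).im) := by
    rintro ⟨_, h⟩
    exact hw.not_unit (isUnit_of_dvd_one h)
  obtain ⟨ε, hε, h⟩ := descent hw hwq k ⟨m, 1⟩ hn hd
  rw [star_pow_th] at h
  set t : R := (⟨1, q⟩ : R) ^ k with ht
  rw [norm_eq] at hε
  rcases h with h | h
  · have h1 : (1 : ℤ) = ε.re * t.im + ε.im * t.re + 1 * ε.im * t.im := by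
      have := congrArg QuadraticAlgebra.im h
      rwa [im_mul] at this
    rcases units6 hε with ⟨h2, h3⟩ | ⟨h2, h3⟩ | ⟨h2, h3⟩ | ⟨h2, h3⟩ | ⟨h2, h3⟩ | ⟨h2, h3⟩ <;>
      rw [h2, h3] at h1 <;> omega
  · have h1 : (1 : ℤ) = ε.re * (star t).im + ε.im * (star t).re + 1 * ε.im * (star t).im := by
      have := congrArg QuadraticAlgebra.im h
      rwa [im_mul] at this
    rw [re_star, im_star] at h1
    rcases units6 hε with ⟨h2, h3⟩ | ⟨h2, h3⟩ | ⟨h2, h3⟩ | ⟨h2, h3⟩ | ⟨h2, h3⟩ | ⟨h2, h3⟩ <;>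
      rw [h2, h3] at h1 <;> omega

theorem modQ (L : R →+ ℤ) (x Y : R) (Q s : ℕ) :
    (Q : ℤ) ∣ L (x * ((Q : R) * Y + 1) ^ s) - L x := by
  rw [expand, Finset.range_eq_Ico, Finset.sum_eq_sum_Ico_succ_bot (by omega)]
  simp only [Nat.choose_zero_right, pow_zero, mul_one, Nat.cast_one, one_mul, zero_add]
  rw [add_sub_cancel_left]
  refine Finset.dvd_sum fun m hm => ?_
  rw [Finset.mem_Ico] at hm
  apply Dvd.dvd.mul_right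
  obtain ⟨m', rfl⟩ : ∃ m', m = m' + 1 := ⟨m - 1, by omega⟩
  exact ⟨(s.choose (m' + 1) * Q ^ m' : ℕ), by push_cast; ring⟩

theorem th_eq (Q : ℕ) : (⟨1, (Q : ℤ)⟩ : R) = (Q : R) * ⟨0, 1⟩ + 1 := by
  ext
  · simp
  · simp

theorem im_dvd (Q k : ℕ) : (Q : ℤ) ∣ ((⟨1, (Q : ℤ)⟩ : R) ^ k).im := by
  have h1 := modQ reH 1 ⟨0, 1⟩ Q k
  have h2 := modQ suH 1 ⟨0, 1⟩ Q k
  rw [one_mul, ← th_eq] at h1 h2
  have h3 := dvd_sub h2 h1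
  simpa [reH, suH] using h3

theorem re_dvd (Q k : ℕ) : (Q : ℤ) ∣ ((⟨1, (Q : ℤ)⟩ : R) ^ k).re - 1 := by
  have h1 := modQ reH 1 ⟨0, 1⟩ Q k
  rw [one_mul, ← th_eq] at h1
  simpa [reH] using h1

theorem re_ne {p c k : ℕ} [hp : Fact p.Prime] (hQ : 4 ≤ p ^ c) (hk : 2 ≤ k) :
    ((⟨1, ((p ^ c : ℕ) : ℤ)⟩ : R) ^ k).re ≠ 1 := by
  have h := skolem2 (p := p) (c := c) hQ reH 1 (⟨0, 1⟩ : R)
    (by simp [reH]) (by
      have : reH (1 * (⟨0, 1⟩ : R) ^ 2) = -1 := by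
        simp [reH, pow_two]
      rw [this]
      intro h
      exact (Nat.prime_iff_prime_int.mp hp.out).not_unit (isUnit_of_dvd_unit h (by simp))) hk
  rw [one_mul, ← th_eq] at h
  simpa [reH] using h

theorem su_ne {p c k : ℕ} [hp : Fact p.Prime] (hQ : 3 ≤ p ^ c) (hk : 0 < k) :
    ((⟨1, ((p ^ c : ℕ) : ℤ)⟩ : R) ^ k).re + ((⟨1, ((p ^ c : ℕ) : ℤ)⟩ : R) ^ k).im ≠ 1 := by
  have h := skolem (p := p) (c := c) hQ suH 1 (⟨0, 1⟩ : R)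
    (by
      have : suH (1 * (⟨0, 1⟩ : R)) = 1 := by simp [suH]
      rw [this]
      intro h
      exact (Nat.prime_iff_prime_int.mp hp.out).not_unit (isUnit_of_dvd_one h)) hk
  rw [one_mul, ← th_eq] at h
  simpa [suH] using h

theorem re_ne3 {k : ℕ} (hk : 2 ≤ k) : ((⟨1, 3⟩ : R) ^ k).re ≠ 1 := by
  intro h
  have h6 : (⟨1, 3⟩ : R) ^ 6 = ((7 ^ 1 : ℕ) : R) * ⟨216, -360⟩ + 1 := by
    ext <;> simp [pow_succ] <;> norm_num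
  obtain ⟨s, r, hr, rfl⟩ : ∃ s r, r < 6 ∧ k = 6 * s + r :=
    ⟨k / 6, k % 6, Nat.mod_lt _ (by norm_num), (Nat.div_add_mod k 6).symm⟩
  have h7 : (⟨1, 3⟩ : R) ^ (6 * s + r) =
      (⟨1, 3⟩ : R) ^ r * (((7 ^ 1 : ℕ) : R) * ⟨216, -360⟩ + 1) ^ s := by
    rw [pow_add, pow_mul, h6, mul_comm]
  rw [h7] at h
  have h8 := modQ reH ((⟨1, 3⟩ : R) ^ r) ⟨216, -360⟩ (7 ^ 1) s
  have h9 : reH ((⟨1, 3⟩ : R) ^ r * (((7 ^ 1 : ℕ) : R) * ⟨216, -360⟩ + 1) ^ s) = 1 := h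
  rw [h9] at h8
  have : Fact (Nat.Prime 7) := ⟨by norm_num⟩
  interval_cases r
  · have hs : 0 < s := by omega
    apply skolem (p := 7) (c := 1) (by norm_num) reH ((⟨1, 3⟩ : R) ^ 0) ⟨216, -360⟩ _ hs
    · rw [h9]; simp [reH]
    · simp [reH]
  · have hs : 0 < s := by omega
    apply skolem (p := 7) (c := 1) (by norm_num) reH ((⟨1, 3⟩ : R) ^ 1) ⟨216, -360⟩ _ hs
    · rw [h9]; simp [reH]
    · simp [reH]
  · simp [reH, pow_succ] at h8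
  · simp [reH, pow_succ] at h8
  · simp [reH, pow_succ] at h8
  · simp [reH, pow_succ] at h8

theorem two_case {k : ℕ} (hk : 0 < k)
    (h : ((⟨1, 2⟩ : R) ^ k).im = 1 ∨ ((⟨1, 2⟩ : R) ^ k).im = -1 ∨
      ((⟨1, 2⟩ : R) ^ k).re + ((⟨1, 2⟩ : R) ^ k).im = 1 ∨
      ((⟨1, 2⟩ : R) ^ k).re + ((⟨1, 2⟩ : R) ^ k).im = -1 ∨
      ((⟨1, 2⟩ : R) ^ k).re = 1 ∨ ((⟨1, 2⟩ : R) ^ k).re = -1) : k = 1 ∨ k = 3 := by
  have h6 : (⟨1, 2⟩ : R) ^ 4 = ((2 ^ 3 : ℕ) : R) * ⟨-7, 2⟩ + 1 := by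
    ext <;> simp [pow_succ]
  obtain ⟨s, r, hr, rfl⟩ : ∃ s r, r < 4 ∧ k = 4 * s + r :=
    ⟨k / 4, k % 4, Nat.mod_lt _ (by norm_num), (Nat.div_add_mod k 4).symm⟩
  have h7 : (⟨1, 2⟩ : R) ^ (4 * s + r) =
      (⟨1, 2⟩ : R) ^ r * (((2 ^ 3 : ℕ) : R) * ⟨-7, 2⟩ + 1) ^ s := by
    rw [pow_add, pow_mul, h6, mul_comm]
  rw [h7] at h
  have hre := modQ reH ((⟨1, 2⟩ : R) ^ r) ⟨-7, 2⟩ (2 ^ 3) s
  have hsu := modQ suH ((⟨1, 2⟩ : R) ^ r) ⟨-7, 2⟩ (2 ^ 3) s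
  have hF : Fact (Nat.Prime 2) := ⟨by norm_num⟩
  have k1 : reH ((⟨1, 2⟩ : R) ^ r * (((2 ^ 3 : ℕ) : R) * ⟨-7, 2⟩ + 1) ^ s) =
    ((⟨1, 2⟩ : R) ^ r * (((2 ^ 3 : ℕ) : R) * ⟨-7, 2⟩ + 1) ^ s).re := rfl
  have k2 : suH ((⟨1, 2⟩ : R) ^ r * (((2 ^ 3 : ℕ) : R) * ⟨-7, 2⟩ + 1) ^ s) =
    ((⟨1, 2⟩ : R) ^ r * (((2 ^ 3 : ℕ) : R) * ⟨-7, 2⟩ + 1) ^ s).re +
    ((⟨1, 2⟩ : R) ^ r * (((2 ^ 3 : ℕ) : R) * ⟨-7, 2⟩ + 1) ^ s).im := rfl
  have e0 : (⟨1, 2⟩ : R) ^ 0 = ⟨1, 0⟩ := by ext <;> simp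
  have e1 : (⟨1, 2⟩ : R) ^ 1 = ⟨1, 2⟩ := by simp
  have e2 : (⟨1, 2⟩ : R) ^ 2 = ⟨-3, 8⟩ := by ext <;> simp [pow_succ]
  have e3 : (⟨1, 2⟩ : R) ^ 3 = ⟨-19, 18⟩ := by ext <;> simp [pow_succ]
  have hsk : ∀ (L : R →+ ℤ) (x : R), ¬ (2 : ℤ) ∣ L (x * ⟨-7, 2⟩) →
      L (x * (((2 ^ 3 : ℕ) : R) * ⟨-7, 2⟩ + 1) ^ s) = L x → s = 0 := by
    intro L x h1 h2
    by_contra h3
    exact skolem (p := 2) (c := 3) (by norm_num) L x ⟨-7, 2⟩ h1 (Nat.pos_of_ne_zero h3) h2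
  set T : R := (⟨1, 2⟩ : R) ^ r * (((2 ^ 3 : ℕ) : R) * ⟨-7, 2⟩ + 1) ^ s with hT
  interval_cases r
  · rw [e0] at hT hre hsu
    have a1 : s = 0 ∨ T.re ≠ 1 := by
      by_contra hc
      push Not at hc
      exact hc.1 (hsk reH ⟨1, 0⟩ (by simp [reH]) (by rw [← hT]; exact hc.2))
    have a2 : s = 0 ∨ T.re + T.im ≠ 1 := by
      by_contra hc
      push Not at hc
      exact hc.1 (hsk suH ⟨1, 0⟩ (by simp [suH]) (by rw [← hT]; exact hc.2))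
    have b1 : reH T = T.re := rfl
    have b2 : suH T = T.re + T.im := rfl
    have b3 : reH (⟨1, 0⟩ : R) = 1 := rfl
    have b4 : suH (⟨1, 0⟩ : R) = 1 := rfl
    rw [b1, b3] at hre
    rw [b2, b4] at hsu
    push_cast at hre hsu
    omega
  · rw [e1] at hT hre hsu
    have a1 : s = 0 ∨ T.re ≠ 1 := by
      by_contra hc
      push Not at hc
      exact hc.1 (hsk reH ⟨1, 2⟩ (by simp [reH]) (by rw [← hT]; exact hc.2))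
    have b1 : reH T = T.re := rfl
    have b2 : suH T = T.re + T.im := rfl
    have b3 : reH (⟨1, 2⟩ : R) = 1 := rfl
    have b4 : suH (⟨1, 2⟩ : R) = 3 := rfl
    rw [b1, b3] at hre
    rw [b2, b4] at hsu
    push_cast at hre hsu
    omega
  · rw [e2] at hT hre hsu
    have b1 : reH T = T.re := rfl
    have b2 : suH T = T.re + T.im := rfl
    have b3 : reH (⟨-3, 8⟩ : R) = -3 := rfl
    have b4 : suH (⟨-3, 8⟩ : R) = 5 := rfl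
    rw [b1, b3] at hre
    rw [b2, b4] at hsu
    push_cast at hre hsu
    omega
  · rw [e3] at hT hre hsu
    have a1 : s = 0 ∨ T.re + T.im ≠ -1 := by
      by_contra hc
      push Not at hc
      exact hc.1 (hsk suH ⟨-19, 18⟩ (by simp [suH]) (by rw [← hT]; exact hc.2))
    have b1 : reH T = T.re := rfl
    have b2 : suH T = T.re + T.im := rfl
    have b3 : reH (⟨-19, 18⟩ : R) = -19 := rfl
    have b4 : suH (⟨-19, 18⟩ : R) = -1 := rfl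
    rw [b1, b3] at hre
    rw [b2, b4] at hsu
    push_cast at hre hsu
    omega

theorem dio {p c : ℕ} (hp : p.Prime) (hc : 0 < c) {w k m : ℕ} (hw : w.Prime)
    (hwq : w = (p ^ c) ^ 2 + p ^ c + 1) (hk : 0 < k) (hm : m ^ 2 + m + 1 = w ^ k) :
    k = 1 ∨ (p ^ c = 2 ∧ m = 18) := by
  have hF : Fact p.Prime := ⟨hp⟩
  have hwz : Prime (w : ℤ) := Nat.prime_iff_prime_int.mp hw
  have hmz : (m : ℤ) ^ 2 + m + 1 = (w : ℤ) ^ k := by exact_mod_cast hm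
  have hwqz : (w : ℤ) = ((p ^ c : ℕ) : ℤ) ^ 2 + ((p ^ c : ℕ) : ℤ) + 1 := by exact_mod_cast hwq
  have h6 := cases6 hwz hwqz hmz
  have hQ2 : 2 ≤ p ^ c := le_trans hp.two_le (Nat.le_self_pow hc.ne' p)
  rcases Nat.lt_or_ge 2 (p ^ c) with h3 | h3
  · left
    have i1 := im_dvd (p ^ c) k
    have i2 := re_dvd (p ^ c) k
    have h1 := su_ne (p := p) (c := c) (k := k) h3 hk
    have h2 : 2 ≤ k → ((⟨1, ((p ^ c : ℕ) : ℤ)⟩ : R) ^ k).re ≠ 1 := by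
      intro hk2
      rcases Nat.lt_or_ge 3 (p ^ c) with h4 | h4
      · exact re_ne h4 hk2
      · have h5 : p ^ c = 3 := by omega
        rw [h5]
        exact re_ne3 hk2
    obtain ⟨u, hu⟩ := i1
    obtain ⟨v, hv⟩ := i2
    set q : ℤ := ((p ^ c : ℕ) : ℤ) with hq
    have hq3 : 3 ≤ q := by rw [hq]; exact_mod_cast h3
    by_contra hk1
    have h2' := h2 (by omega)
    have j1 : ∀ x : ℤ, q * x ≠ 1 ∧ q * x ≠ -1 ∧ q * x ≠ -2 := by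
      intro x
      refine ⟨?_, ?_, ?_⟩ <;> intro hx <;>
        rcases lt_trichotomy x 0 with h | h | h <;> nlinarith
    rcases h6 with h | h | h | h | h | h
    · exact (j1 u).1 (by rw [← hu, h])
    · exact (j1 u).2.1 (by rw [← hu, h])
    · exact h1 h
    · exact (j1 (u + v)).2.2 (by rw [mul_add, ← hu, ← hv]; linarith)
    · exact h2' h
    · exact (j1 v).2.2 (by rw [← hv, h]; norm_num)
  · have h4 : p ^ c = 2 := by omega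
    rw [h4] at h6 hwq
    rcases two_case hk h6 with h | h
    · exact Or.inl h
    · right
      refine ⟨h4, ?_⟩
      rw [h, hwq] at hm
      have h5 : m ≤ 18 := by
        by_contra hc
        have : 19 ≤ m := by omega
        nlinarith
      have h6 : 18 ≤ m := by
        by_contra hc
        have : m ≤ 17 := by omega
        nlinarith
      omega

end SubPl
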