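import Mathlib
import Pool.Agent.Lib.MP_d51818_co.Mult

/-!
# MP_d51818_co: subplanes fixed by multipliers
-/

set_option autoImplicit false
set_option linter.unusedSectionVars false

namespace SubPl

open Finset PDS7

variable {G : Type} [AddCommGroup G] [Fintype G] [DecidableEq G]

/-- the elements fixed by the multiplication by `t` -/
def Fx (G : Type) [AddCommGroup G] [Fintype G] [DecidableEq G] (t : ℕ) : Finset G :=
  univ.filter (fun g : G => t • g = g)

/-- the elements of `D` fixed by the multiplication by `t` -/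
def DF (D : Finset G) (t : ℕ) : Finset G := D.filter (fun g : G => t • g = g)

theorem mem_Fx {t : ℕ} {g : G} : g ∈ Fx G t ↔ t • g = g := by
  unfold Fx; simp

theorem mem_DF {D : Finset G} {t : ℕ} {g : G} : g ∈ DF D t ↔ g ∈ D ∧ t • g = g := by
  unfold DF; simp

theorem pds_uniq {n : ℕ} {D : Finset G} (h : IsPDS n D) {a b c d : G} (ha : a ∈ D) (hb : b ∈ D)
    (hc : c ∈ D) (hd : d ∈ D) (hab : a ≠ b) (he : a - b = c - d) : a = c ∧ b = d := by
  have h1 := h.diff (a - b) (sub_ne_zero.mpr hab)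
  rw [Finset.card_eq_one] at h1
  obtain ⟨x, hx⟩ := h1
  have h2 : (a, b) ∈ (D ×ˢ D).filter (fun p : G × G => p.1 - p.2 = a - b) := by
    rw [Finset.mem_filter, Finset.mem_product]; exact ⟨⟨ha, hb⟩, rfl⟩
  have h3 : (c, d) ∈ (D ×ˢ D).filter (fun p : G × G => p.1 - p.2 = a - b) := by
    rw [Finset.mem_filter, Finset.mem_product]; exact ⟨⟨hc, hd⟩, he.symm⟩
  rw [hx, Finset.mem_singleton] at h2 h3
  have h4 := h2.trans h3.symm
  exact ⟨congrArg Prod.fst h4, congrArg Prod.snd h4⟩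

theorem pds_exists {n : ℕ} {D : Finset G} (h : IsPDS n D) {g : G} (hg : g ≠ 0) :
    ∃ a ∈ D, ∃ b ∈ D, a - b = g := by
  have h1 := h.diff g hg
  rw [Finset.card_eq_one] at h1
  obtain ⟨x, hx⟩ := h1
  have h2 : x ∈ (D ×ˢ D).filter (fun p : G × G => p.1 - p.2 = g) := by rw [hx]; simp
  rw [Finset.mem_filter, Finset.mem_product] at h2
  exact ⟨x.1, h2.1.1, x.2, h2.1.2, h2.2⟩

theorem two_inj {n : ℕ} {D : Finset G} (h : IsPDS n D) {x : G} (hx : (2 : ℕ) • x = 0) : x = 0 := by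
  refine smul_inj h ?_ hx
  have : n ^ 2 + n + 1 = 2 * (n * (n + 1) / 2) + 1 := by
    rw [Nat.mul_div_cancel' (Nat.even_mul_succ_self n).two_dvd]; ring
  rw [this]
  exact (Nat.coprime_mul_left_add_right 2 1 _).mpr (Nat.coprime_one_right 2)

/-- closure: the elements of `D` fixed by a multiplier are a planar difference set -/
theorem closure {n : ℕ} {D : Finset G} (h : IsPDS n D) {t : ℕ} (ht : ∀ d ∈ D, t • d ∈ D) :
    (Fx G t).card - 1 = (DF D t).card * (DF D t).card - (DF D t).card := by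
  rw [← Finset.offDiag_card, ← Finset.card_erase_of_mem (show (0 : G) ∈ Fx G t by
    rw [mem_Fx, smul_zero])]
  symm
  refine Finset.card_bij (fun p _ => p.1 - p.2) ?_ ?_ ?_
  · intro p hp
    rw [Finset.mem_offDiag, mem_DF, mem_DF] at hp
    rw [Finset.mem_erase, mem_Fx, smul_sub, hp.1.2, hp.2.1.2]
    exact ⟨sub_ne_zero.mpr hp.2.2, rfl⟩
  · intro p hp r hr he
    rw [Finset.mem_offDiag, mem_DF, mem_DF] at hp hr
    obtain ⟨h1, h2⟩ := pds_uniq h hp.1.1 hp.2.1.1 hr.1.1 hr.2.1.1 hp.2.2 he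
    exact Prod.ext h1 h2
  · intro g hg
    rw [Finset.mem_erase, mem_Fx] at hg
    obtain ⟨a, ha, b, hb, hab⟩ := pds_exists h hg.1
    have hne : a ≠ b := sub_ne_zero.mp (by rw [hab]; exact hg.1)
    have h1 : a - b = t • a - t • b := by rw [← smul_sub, hab, hg.2]
    obtain ⟨h2, h3⟩ := pds_uniq h ha hb (ht a ha) (ht b hb) hne h1
    refine ⟨(a, b), ?_, hab⟩
    rw [Finset.mem_offDiag, mem_DF, mem_DF]
    exact ⟨⟨ha, h2.symm⟩, ⟨hb, h3.symm⟩, hne⟩

theorem closure' {n : ℕ} {D : Finset G} (h : IsPDS n D) {t : ℕ} (ht : ∀ d ∈ D, t • d ∈ D)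
    (h1 : 1 < (Fx G t).card) :
    ∃ m : ℕ, 0 < m ∧ (DF D t).card = m + 1 ∧ (Fx G t).card = m ^ 2 + m + 1 := by
  have h2 := closure h ht
  set c := (DF D t).card with hc
  have h3 : 2 ≤ c := by
    by_contra h4
    have : c = 0 ∨ c = 1 := by omega
    rcases this with h5 | h5 <;> rw [h5] at h2 <;> omega
  refine ⟨c - 1, by omega, by omega, ?_⟩
  obtain ⟨m, hm⟩ : ∃ m, c = m + 1 := ⟨c - 1, by omega⟩
  rw [hm] at h2 ⊢
  have h4 : (m + 1) * (m + 1) - (m + 1) = m ^ 2 + m := by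
    have : (m + 1) * (m + 1) = m ^ 2 + m + (m + 1) := by ring
    omega
  rw [h4] at h2
  simp only [Nat.add_sub_cancel]
  omega

theorem closure_diff {n : ℕ} {D : Finset G} (h : IsPDS n D) {t : ℕ} (ht : ∀ d ∈ D, t • d ∈ D)
    {g : G} (hg0 : g ≠ 0) (hg : t • g = g) :
    ((DF D t ×ˢ DF D t).filter (fun p : G × G => p.1 - p.2 = g)).card = 1 := by
  obtain ⟨a, ha, b, hb, hab⟩ := pds_exists h hg0
  have hne : a ≠ b := sub_ne_zero.mp (by rw [hab]; exact hg0)
  have h1 : a - b = t • a - t • b := by rw [← smul_sub, hab, hg]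
  obtain ⟨h2, h3⟩ := pds_uniq h ha hb (ht a ha) (ht b hb) hne h1
  rw [Finset.card_eq_one]
  refine ⟨(a, b), ?_⟩
  ext x
  rw [Finset.mem_filter, Finset.mem_product, Finset.mem_singleton, mem_DF, mem_DF]
  constructor
  · rintro ⟨⟨h4, h5⟩, h6⟩
    obtain ⟨h7, h8⟩ := pds_uniq h ha hb h4.1 h5.1 hne (hab.trans h6.symm)
    exact Prod.ext h7.symm h8.symm
  · rintro rfl
    exact ⟨⟨⟨ha, h2.symm⟩, ⟨hb, h3.symm⟩⟩, hab⟩

/-- the elements mapped to their negatives -/
def Fm (G : Type) [AddCommGroup G] [Fintype G] [DecidableEq G] (t : ℕ) : Finset G :=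
  univ.filter (fun g : G => t • g = -g)

theorem mem_Fm {t : ℕ} {g : G} : g ∈ Fm G t ↔ t • g = -g := by
  unfold Fm; simp

theorem card_sq {n : ℕ} {D : Finset G} (h : IsPDS n D) (t : ℕ) :
    (Fx G (t ^ 2)).card = (Fx G t).card * (Fm G t).card := by
  rw [← Finset.card_product]
  symm
  obtain ⟨u, hu⟩ : ∃ u, 2 * u = Fintype.card G + 1 := by
    refine ⟨n * (n + 1) / 2 + 1, ?_⟩
    rw [h.cardG, mul_add, Nat.mul_div_cancel' (Nat.even_mul_succ_self n).two_dvd]; ring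
  have hu' : ∀ g : G, u • ((2 : ℕ) • g) = g := by
    intro g
    rw [← mul_smul, mul_comm, hu, add_smul, one_smul, card_nsmul_eq_zero, zero_add]
  refine Finset.card_bij (fun p _ => p.1 + p.2) ?_ ?_ ?_
  · intro p hp
    rw [Finset.mem_product, mem_Fx, mem_Fm] at hp
    rw [mem_Fx, pow_two, mul_smul, smul_add, hp.1, hp.2, smul_add, hp.1, smul_neg, hp.2, neg_neg]
  · intro p hp r hr he
    rw [Finset.mem_product, mem_Fx, mem_Fm] at hp hr
    have he' : p.1 + p.2 = r.1 + r.2 := he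
    have h1 : p.1 - r.1 = r.2 - p.2 := by
      rw [sub_eq_sub_iff_add_eq_add]; rw [he', add_comm]
    have h2 : t • (p.1 - r.1) = p.1 - r.1 := by rw [smul_sub, hp.1, hr.1]
    have h3 : t • (p.1 - r.1) = -(p.1 - r.1) := by
      rw [h1, smul_sub, hp.2, hr.2]; abel
    have h4 : (2 : ℕ) • (p.1 - r.1) = 0 := by
      rw [two_smul]
      nth_rewrite 1 [← h2]
      rw [h3, neg_add_cancel]
    have h5 := two_inj h h4
    refine Prod.ext (sub_eq_zero.mp h5) ?_
    rw [h5] at h1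
    exact (sub_eq_zero.mp h1.symm).symm
  · intro g hg
    rw [mem_Fx, pow_two, mul_smul] at hg
    refine ⟨(u • (g + t • g), u • (g - t • g)), ?_, ?_⟩
    · rw [Finset.mem_product, mem_Fx, mem_Fm]
      constructor
      · show t • (u • (g + t • g)) = u • (g + t • g)
        rw [smul_comm, smul_add, hg, add_comm]
      · show t • (u • (g - t • g)) = -(u • (g - t • g))
        rw [smul_comm, smul_sub, hg, ← smul_neg]; congr 1; abel
    · show u • (g + t • g) + u • (g - t • g) = g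
      rw [← smul_add]
      have : g + t • g + (g - t • g) = (2 : ℕ) • g := by rw [two_smul]; abel
      rw [this, hu']

theorem card_minus {n : ℕ} {D : Finset G} (h : IsPDS n D) {t : ℕ} (ht : ∀ d ∈ D, t • d ∈ D) :
    (Fm G t).card - 1 + (DF D t).card = (DF D (t ^ 2)).card := by
  have hsub : DF D t ⊆ DF D (t ^ 2) := by
    intro d hd
    rw [mem_DF] at hd ⊢
    exact ⟨hd.1, by rw [pow_two, mul_smul, hd.2, hd.2]⟩
  rw [← Finset.card_sdiff_add_card_eq_card hsub]
  congr 1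
  rw [← Finset.card_erase_of_mem (show (0 : G) ∈ Fm G t by rw [mem_Fm, smul_zero, neg_zero])]
  symm
  refine Finset.card_bij (fun d _ => d - t • d) ?_ ?_ ?_
  · intro d hd
    rw [Finset.mem_sdiff, mem_DF, mem_DF] at hd
    obtain ⟨⟨h1, h2⟩, h3⟩ := hd
    rw [pow_two, mul_smul] at h2
    rw [Finset.mem_erase, mem_Fm]
    refine ⟨fun h4 => h3 ⟨h1, (sub_eq_zero.mp h4).symm⟩, ?_⟩
    rw [smul_sub, h2, neg_sub]
  · intro d hd e he heq
    rw [Finset.mem_sdiff, mem_DF, mem_DF] at hd he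
    exact (pds_uniq h hd.1.1 (ht d hd.1.1) he.1.1 (ht e he.1.1)
      (fun h4 => hd.2 ⟨hd.1.1, h4.symm⟩) heq).1
  · intro g hg
    rw [Finset.mem_erase, mem_Fm] at hg
    obtain ⟨a, ha, b, hb, hab⟩ := pds_exists h hg.1
    have hne : a ≠ b := sub_ne_zero.mp (by rw [hab]; exact hg.1)
    have h1 : a - b = t • b - t • a := by
      rw [← smul_sub, ← neg_sub a b, hab, smul_neg, hg.2, neg_neg]
    obtain ⟨h2, h3⟩ := pds_uniq h ha hb (ht b hb) (ht a ha) hne h1
    refine ⟨a, ?_, ?_⟩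
    · rw [Finset.mem_sdiff, mem_DF, mem_DF]
      refine ⟨⟨ha, ?_⟩, fun h4 => hne ?_⟩
      · rw [pow_two, mul_smul, ← h3, ← h2]
      · rw [h3, h4.2]
    · rw [← h3, hab]

/-- Baer: a multiplier of order two on a subplane of order `> 1` -/
theorem baer {n m : ℕ} {D : Finset G} (h : IsPDS n D) {t : ℕ} (ht : ∀ d ∈ D, t • d ∈ D)
    (hm : 0 < m) (h1 : (Fx G t).card = m ^ 2 + m + 1) :
    (Fx G (t ^ 2)).card = m ^ 2 + m + 1 ∨ (Fx G (t ^ 2)).card = m ^ 4 + m ^ 2 + 1 := by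
  have ht2 : ∀ d ∈ D, t ^ 2 • d ∈ D := by
    intro d hd
    rw [pow_two, mul_smul]
    exact ht _ (ht d hd)
  have hm2 : 0 < m ^ 2 := by positivity
  obtain ⟨m1, hm1, hd1, hf1⟩ := closure' h ht (by rw [h1]; omega)
  have e1 : m1 = m := by
    rw [h1] at hf1
    rcases lt_trichotomy m1 m with h2 | h2 | h2
    · nlinarith
    · exact h2
    · nlinarith
  subst e1
  have hsq := card_sq h t
  have hmi := card_minus h ht
  have hle : (Fx G t).card ≤ (Fx G (t ^ 2)).card := by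
    apply Finset.card_le_card
    intro g hg
    rw [mem_Fx] at hg ⊢
    rw [pow_two, mul_smul, hg, hg]
  obtain ⟨m2, hm2', hd2, hf2⟩ := closure' h ht2 (by omega)
  have hpos : 0 < (Fm G t).card := by
    apply Finset.card_pos.mpr
    exact ⟨0, by rw [mem_Fm, smul_zero, neg_zero]⟩
  set φ := (Fm G t).card with hφ
  rw [hf2, h1] at hsq
  rw [hd1, hd2] at hmi
  obtain ⟨j, hj⟩ : ∃ j, φ = j + 1 := ⟨φ - 1, by omega⟩
  have hm2e : m2 = m1 + j := by omega
  rw [hj, hm2e] at hsq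
  rw [hf2, hm2e]
  have hz : (j : ℤ) * ((m1 : ℤ) + j - (m1 : ℤ) ^ 2) = 0 := by
    have : (((m1 : ℤ) + j) ^ 2 + (m1 + j) + 1) = ((m1 : ℤ) ^ 2 + m1 + 1) * (j + 1) := by
      exact_mod_cast hsq
    linarith
  rcases mul_eq_zero.mp hz with h2 | h2
  · left
    have : j = 0 := by exact_mod_cast h2
    rw [this, add_zero]
  · right
    have : m1 + j = m1 ^ 2 := by
      have : (m1 : ℤ) + j = (m1 : ℤ) ^ 2 := by linarith
      exact_mod_cast this
    rw [this]; ring

end SubPl
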