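import Mathlib
import Pool.Agent.Lib.MP_d51818_co.Sub3
import Pool.Agent.Lib.MP_d51818_co.Sub4

/-!
# MP_d51818_co: torsion subgroups and the arithmetic of `n ^ 2 + n + 1`, `n = p ^ f`
-/

set_option autoImplicit false
set_option linter.unusedSectionVars false

namespace SubPl

open Finset PDS7

variable {G : Type} [AddCommGroup G] [Fintype G] [DecidableEq G]

/-- the elements killed by `k` -/
def Tf (G : Type) [AddCommGroup G] [Fintype G] [DecidableEq G] (k : ℕ) : Finset G :=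
  univ.filter (fun x : G => k • x = 0)

theorem mem_Tf {k : ℕ} {x : G} : x ∈ Tf G k ↔ k • x = 0 := by
  unfold Tf; simp

theorem natCard_eq (k : ℕ) : Nat.card {x : G // k • x = 0} = (Tf G k).card := by
  rw [Nat.card_eq_fintype_card, Fintype.card_subtype]
  rfl

/-- the same as a subgroup -/
def tor (G : Type) [AddCommGroup G] (k : ℕ) : AddSubgroup G where
  carrier := {x | k • x = 0}
  add_mem' {a b} ha hb := by
    show k • (a + b) = 0
    rw [smul_add, show k • a = 0 from ha, show k • b = 0 from hb, add_zero]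
  zero_mem' := smul_zero _
  neg_mem' {a} ha := by
    show k • (-a) = 0
    rw [smul_neg, show k • a = 0 from ha, neg_zero]

theorem mem_tor {k : ℕ} {x : G} : x ∈ tor G k ↔ k • x = 0 := Iff.rfl

theorem card_tor (k : ℕ) : Nat.card (tor G k) = (Tf G k).card := natCard_eq k

theorem dvd_card_Tf {k : ℕ} (hk : k ∣ Fintype.card G) : k ∣ (Tf G k).card := by
  rw [← card_tor, Nat.dvd_iff_prime_pow_dvd_dvd]
  intro l e hl hd
  have hF : Fact l.Prime := ⟨hl⟩
  obtain ⟨K, hK⟩ := Sylow.exists_subgroup_card_pow_prime (G := Multiplicative G) l (n := e)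
    (by rw [Nat.card_eq_fintype_card, Fintype.card_multiplicative]; exact hd.trans hk)
  have hle : Subgroup.toAddSubgroup' K ≤ tor G k := by
    intro x hx
    rw [mem_tor]
    rw [Subgroup.mem_toAddSubgroup'] at hx
    have h1 : (⟨Multiplicative.ofAdd x, hx⟩ : K) ^ (Nat.card K) = 1 := pow_card_eq_one'
    have h2 : (Multiplicative.ofAdd x) ^ (Nat.card K) = 1 := congrArg Subtype.val h1
    rw [← ofAdd_nsmul, ofAdd_eq_one, hK] at h2
    obtain ⟨j, hj⟩ := hd
    rw [hj, mul_comm, mul_smul, h2, smul_zero]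
  have h3 : Nat.card (Subgroup.toAddSubgroup' K) = l ^ e := hK
  rw [← h3]
  exact AddSubgroup.card_dvd_of_le hle

theorem card_Tf_pow {l : ℕ} (hl : l.Prime) (e : ℕ) : ∃ j, (Tf G (l ^ e)).card = l ^ j := by
  rw [← card_tor]
  refine ⟨_, Nat.eq_prime_pow_of_unique_prime_dvd Nat.card_pos.ne' ?_⟩
  intro d hd hdv
  have hF : Fact d.Prime := ⟨hd⟩
  obtain ⟨x, hx⟩ := exists_prime_addOrderOf_dvd_card' d hdv
  have h1 : l ^ e • (x : G) = 0 := x.2
  have h2 : l ^ e • x = 0 := Subtype.ext h1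
  have h3 := addOrderOf_dvd_of_nsmul_eq_zero h2
  rw [hx] at h3
  exact (Nat.prime_dvd_prime_iff_eq hd hl).mp (hd.dvd_of_dvd_pow h3)

theorem card_Tf_dvd (k : ℕ) : (Tf G k).card ∣ Fintype.card G := by
  rw [← card_tor, ← Nat.card_eq_fintype_card]
  exact AddSubgroup.card_addSubgroup_dvd_card _

theorem card_Tf_dvd_of_dvd {j k : ℕ} (h : j ∣ k) : (Tf G j).card ∣ (Tf G k).card := by
  rw [← card_tor, ← card_tor]
  apply AddSubgroup.card_dvd_of_le
  intro x hx
  rw [mem_tor] at hx ⊢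
  obtain ⟨i, rfl⟩ := h
  rw [mul_comm, mul_smul, hx, smul_zero]

theorem card_Tf_pos (k : ℕ) : 0 < (Tf G k).card :=
  Finset.card_pos.mpr ⟨0, by rw [mem_Tf, smul_zero]⟩

theorem card_Tf_mul (a b : ℕ) : (Tf G (a * b)).card ≤ (Tf G a).card * (Tf G b).card := by
  have h1 := Finset.card_le_mul_card_image (f := fun x : G => a • x) (Tf G (a * b))
    (Tf G a).card (by
      intro y hy
      obtain ⟨x0, hx0, rfl⟩ := Finset.mem_image.mp hy
      refine Finset.card_le_card_of_injOn (fun x => x - x0) ?_ ?_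
      · intro x hx
        have hx' := Finset.mem_filter.mp (Finset.mem_coe.mp hx)
        show x - x0 ∈ (Tf G a : Set G)
        rw [Finset.mem_coe, mem_Tf, smul_sub]
        exact sub_eq_zero.mpr hx'.2
      · intro x _ y _ hxy
        exact sub_left_injective hxy)
  refine h1.trans (Nat.mul_le_mul_left _ (Finset.card_le_card ?_))
  intro y hy
  obtain ⟨x, hx, rfl⟩ := Finset.mem_image.mp hy
  rw [mem_Tf] at hx ⊢
  rw [← mul_smul, mul_comm]
  exact hx

theorem card_Tf_prod {ι : Type} (s : Finset ι) (f : ι → ℕ) :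
    (Tf G (∏ i ∈ s, f i)).card ≤ ∏ i ∈ s, (Tf G (f i)).card := by
  classical
  induction s using Finset.induction_on with
  | empty =>
    rw [Finset.prod_empty, Finset.prod_empty]
    have : Tf G 1 = {0} := by
      ext x; rw [mem_Tf, one_smul, Finset.mem_singleton]
    rw [this, Finset.card_singleton]
  | insert i s hi ih =>
    rw [Finset.prod_insert hi, Finset.prod_insert hi]
    exact (card_Tf_mul _ _).trans (Nat.mul_le_mul_left _ ih)

theorem card_Tf_pow_le {l : ℕ} (h : (Tf G l).card ≤ l) (e : ℕ) : (Tf G (l ^ e)).card ≤ l ^ e := by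
  induction e with
  | zero =>
    have : Tf G (l ^ 0) = {0} := by
      ext x; rw [mem_Tf, pow_zero, one_smul, Finset.mem_singleton]
    rw [this, Finset.card_singleton, pow_zero]
  | succ e ih =>
    rw [pow_succ]
    exact (card_Tf_mul _ _).trans (Nat.mul_le_mul ih h)

/-- `q ^ 3` fixes exactly the elements killed by `q ^ 2 + q + 1` -/
theorem Fx_eq_Tf {n q f' : ℕ} (hG : Fintype.card G = n ^ 2 + n + 1) (hn : n = q ^ f')
    (hf : ¬ 3 ∣ f') : Fx G (q ^ 3) = Tf G (q ^ 2 + q + 1) := by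
  ext g
  rw [mem_Fx, mem_Tf]
  constructor
  · intro h
    have hz : (n ^ 2 + n + 1) • g = 0 := by rw [← hG]; exact card_nsmul_eq_zero
    have hu : ∀ u : ℕ, (q ^ (3 * u)) • g = g := by
      intro u
      induction u with
      | zero => simp
      | succ u ih =>
        rw [show 3 * (u + 1) = 3 + 3 * u by ring, pow_add, mul_smul, ih, h]
    obtain ⟨u, r, hr, hfr⟩ : ∃ u r, (r = 1 ∨ r = 2) ∧ f' = 3 * u + r :=
      ⟨f' / 3, f' % 3, by omega, (Nat.div_add_mod f' 3).symm⟩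
    have h1 : n • g = (q ^ r) • g := by
      rw [hn, hfr, pow_add, mul_comm, mul_smul, hu]
    have h2 : (n ^ 2) • g = (q ^ r) ^ 2 • g := by
      rw [pow_two, mul_smul, h1, ← mul_smul, mul_comm, mul_smul, h1, ← mul_smul, pow_two]
    rw [add_smul, add_smul, one_smul, h2, h1] at hz
    rw [add_smul, add_smul, one_smul]
    rcases hr with rfl | rfl
    · rwa [pow_one] at hz
    · have h3 : (q ^ 2) ^ 2 • g = q • g := by
        rw [← pow_mul, show 2 * 2 = 1 + 3 by norm_num, pow_add, pow_one, mul_smul, h]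
      rw [h3] at hz
      rw [← hz]; abel
  · intro h
    have h1 : q • ((q ^ 2 + q + 1) • g) = 0 := by rw [h, smul_zero]
    rw [← mul_smul] at h1
    have h2 : q * (q ^ 2 + q + 1) + 1 = q ^ 3 + (q ^ 2 + q + 1) := by ring
    have h3 : (q * (q ^ 2 + q + 1) + 1) • g = (q ^ 3 + (q ^ 2 + q + 1)) • g := by rw [h2]
    rw [add_smul, add_smul (q ^ 3), h1, h, one_smul, zero_add, add_zero] at h3
    exact h3.symm

theorem dvd_main {n q f' : ℕ} (hn : n = q ^ f') (hf : ¬ 3 ∣ f') :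
    q ^ 2 + q + 1 ∣ n ^ 2 + n + 1 := by
  have hz : ((q ^ 2 + q + 1 : ℕ) : ZMod (q ^ 2 + q + 1)) = 0 := ZMod.natCast_self _
  rw [← ZMod.natCast_eq_zero_iff]
  set Q : ZMod (q ^ 2 + q + 1) := (q : ZMod (q ^ 2 + q + 1)) with hQ
  have h0 : Q ^ 2 + Q + 1 = 0 := by
    rw [hQ]; push_cast at hz; exact hz
  have h3 : Q ^ 3 = 1 := by linear_combination (Q - 1) * h0
  obtain ⟨u, r, hr, hfr⟩ : ∃ u r, (r = 1 ∨ r = 2) ∧ f' = 3 * u + r :=
    ⟨f' / 3, f' % 3, by omega, (Nat.div_add_mod f' 3).symm⟩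
  have h4 : (n : ZMod (q ^ 2 + q + 1)) = Q ^ r := by
    rw [hn, Nat.cast_pow, hfr, pow_add, pow_mul, ← hQ, h3, one_pow, one_mul]
  rw [Nat.cast_add, Nat.cast_add, Nat.cast_pow, Nat.cast_one, h4]
  rcases hr with rfl | rfl
  · rw [pow_one]; exact h0
  · linear_combination Q * h3 + h0

/-- the statement that the subgroup fixed by `q ^ 3`, `q = p ^ s`, has the order `q ^ 2 + q + 1` -/
def CC (G : Type) [AddCommGroup G] [Fintype G] [DecidableEq G] (q : ℕ) : Prop :=
  (Tf G (q ^ 2 + q + 1)).card = q ^ 2 + q + 1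

theorem CC_double {n q f' : ℕ} {D : Finset G} (h : IsPDS n D) (hq : 2 ≤ q)
    (ht : ∀ d ∈ D, q ^ 3 • d ∈ D) (hn : n = (q ^ 2) ^ f') (hf : ¬ 3 ∣ f')
    (hC : CC G q) : CC G (q ^ 2) := by
  unfold CC at hC ⊢
  have hn1 : n = q ^ (2 * f') := by rw [hn, ← pow_mul]
  have hf1 : ¬ 3 ∣ 2 * f' := by omega
  rw [← Fx_eq_Tf h.cardG hn1 hf1] at hC
  have h1 := baer h ht (by omega) hC
  have h2 : (q ^ 3) ^ 2 = (q ^ 2) ^ 3 := by ring
  rw [h2, Fx_eq_Tf h.cardG hn hf] at h1
  have h3 : (q ^ 2) ^ 2 + q ^ 2 + 1 ∣ (Tf G ((q ^ 2) ^ 2 + q ^ 2 + 1)).card :=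
    dvd_card_Tf (by rw [h.cardG]; exact dvd_main hn hf)
  have h4 := Nat.le_of_dvd (card_Tf_pos _) h3
  rcases h1 with h5 | h5
  · exfalso
    rw [h5] at h4
    nlinarith [Nat.pow_le_pow_left hq 2]
  · rw [h5]; ring

theorem CC_chain {n p r : ℕ} {D : Finset G} (h : IsPDS n D) (hp : 2 ≤ p) (hr : 0 < r)
    (ht : ∀ s, ∀ d ∈ D, p ^ s • d ∈ D) (hC : CC G (p ^ r)) (a : ℕ) :
    ∀ f', n = p ^ (2 ^ a * r * f') → ¬ 3 ∣ f' → CC G (p ^ (2 ^ a * r)) := by
  induction a with
  | zero => intro f' _ _; rw [pow_zero, one_mul]; exact hC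
  | succ a ih =>
    intro f' hn hf
    have h1 : CC G (p ^ (2 ^ a * r)) := ih (2 * f') (by rw [hn]; congr 1; ring) (by omega)
    have h2 : p ^ (2 ^ (a + 1) * r) = (p ^ (2 ^ a * r)) ^ 2 := by
      rw [← pow_mul]; congr 1; ring
    rw [h2]
    refine CC_double (f' := f') h ?_ ?_ ?_ hf h1
    · exact le_trans hp (Nat.le_self_pow (by positivity) p)
    · intro d hd
      rw [← pow_mul]
      exact ht _ d hd
    · rw [← h2, ← pow_mul, hn]

end SubPl
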