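import Mathlib
import Pool.Agent.Lib.MP_d51818_co.Sub5

/-!
# MP_d51818_co: Sylow subgroups of abelian groups with a planar difference set of order `p ^ f`
-/

set_option autoImplicit false
set_option linter.unusedSectionVars false

namespace SubPl

open Finset PDS7

variable {G : Type} [AddCommGroup G] [Fintype G] [DecidableEq G]

theorem cube_root {K : Type} [CommRing K] [IsDomain K] {Q : K} (h3 : Q ^ 3 = 1) (h1 : Q ≠ 1) :
    Q ^ 2 + Q + 1 = 0 := by
  have h : (Q - 1) * (Q ^ 2 + Q + 1) = 0 := by linear_combination h3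
  rcases mul_eq_zero.mp h with h2 | h2
  · exact absurd (sub_eq_zero.mp h2) h1
  · exact h2

theorem top {w p s : ℕ} (hw : w.Prime) (hs : 0 < s) (ho : orderOf (p : ZMod w) = 3 * s)
    (hW : ¬ w ^ 2 ∣ p ^ (w - 1) - 1) (hC : CC G (p ^ s)) : (Tf G w).card ≤ w := by
  have hF : Fact w.Prime := ⟨hw⟩
  have h1 : (p : ZMod w) ^ (3 * s) = 1 := by rw [← ho]; exact pow_orderOf_eq_one _
  have hP : (p : ZMod w) ≠ 0 := by
    intro h
    rw [h, zero_pow (by omega)] at h1
    exact zero_ne_one h1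
  have hp0 : 0 < p := by
    rcases Nat.eq_zero_or_pos p with h | h
    · rw [h, Nat.cast_zero] at hP; exact absurd rfl hP
    · exact h
  have h2 : (p : ZMod w) ^ s ≠ 1 := by
    intro h
    have := orderOf_dvd_of_pow_eq_one h
    rw [ho] at this
    have := Nat.le_of_dvd hs this
    omega
  have h3 : ((p : ZMod w) ^ s) ^ 2 + (p : ZMod w) ^ s + 1 = 0 :=
    cube_root (by rw [← pow_mul, mul_comm]; exact h1) h2
  have h4 : w ∣ (p ^ s) ^ 2 + p ^ s + 1 := by
    rw [← ZMod.natCast_eq_zero_iff]; push_cast; exact h3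
  obtain ⟨j, hj⟩ := card_Tf_pow (G := G) hw 1
  rw [pow_one] at hj
  have h5 : w ^ j ∣ (p ^ s) ^ 2 + p ^ s + 1 := by
    rw [← hj]
    have := card_Tf_dvd_of_dvd (G := G) h4
    rwa [hC] at this
  have h6 : j ≤ 1 := by
    by_contra hc
    apply hW
    have h7 : w ^ 2 ∣ (p ^ s) ^ 2 + p ^ s + 1 := (pow_dvd_pow w (by omega)).trans h5
    rw [← ZMod.natCast_eq_zero_iff] at h7
    push_cast at h7
    have h8 : (p : ZMod (w ^ 2)) ^ (3 * s) = 1 := by
      have : (p : ZMod (w ^ 2)) ^ (3 * s) = ((p : ZMod (w ^ 2)) ^ s) ^ 3 := by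
        rw [← pow_mul, mul_comm]
      rw [this]
      linear_combination ((p : ZMod (w ^ 2)) ^ s - 1) * h7
    obtain ⟨u, hu⟩ : 3 * s ∣ w - 1 := by
      rw [← ho]; exact ZMod.orderOf_dvd_card_sub_one hP
    rw [← ZMod.natCast_eq_zero_iff, Nat.cast_sub (Nat.one_le_pow _ _ hp0), hu, pow_mul]
    push_cast
    rw [h8, one_pow, sub_self]
  rw [hj]
  calc w ^ j ≤ w ^ 1 := Nat.pow_le_pow_right hw.pos h6
    _ = w := pow_one w

theorem good {w p f s : ℕ} (hw : w.Prime) (hs : 0 < s) (ho : orderOf (p : ZMod w) = 3 * s)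
    (hd : w ∣ (p ^ f) ^ 2 + p ^ f + 1) : ∃ f', f = s * f' ∧ ¬ 3 ∣ f' := by
  have hF : Fact w.Prime := ⟨hw⟩
  rw [← ZMod.natCast_eq_zero_iff] at hd
  push_cast at hd
  have h1 : (p : ZMod w) ^ (3 * s) = 1 := by rw [← ho]; exact pow_orderOf_eq_one _
  have hP : (p : ZMod w) ≠ 0 := by
    intro h
    rw [h, zero_pow (by omega)] at h1
    exact zero_ne_one h1
  have h2 : (p : ZMod w) ^ (3 * f) = 1 := by
    have : (p : ZMod w) ^ (3 * f) = ((p : ZMod w) ^ f) ^ 3 := by rw [← pow_mul, mul_comm]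
    rw [this]
    linear_combination ((p : ZMod w) ^ f - 1) * hd
  have h3 : 3 * s ∣ 3 * f := by rw [← ho]; exact orderOf_dvd_of_pow_eq_one h2
  obtain ⟨f', hf'⟩ : s ∣ f := Nat.dvd_of_mul_dvd_mul_left (by norm_num) h3
  refine ⟨f', hf', ?_⟩
  rintro ⟨g, hg⟩
  have h4 : (p : ZMod w) ^ f = 1 := by
    rw [hf', hg, show s * (3 * g) = 3 * s * g by ring, pow_mul, h1, one_pow]
  rw [h4] at hd
  have h5 : ((3 : ℕ) : ZMod w) = 0 := by push_cast; linear_combination hd
  rw [ZMod.natCast_eq_zero_iff] at h5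
  have h6 : w ≤ 3 := Nat.le_of_dvd (by norm_num) h5
  have h7 : 3 * s ∣ w - 1 := by rw [← ho]; exact ZMod.orderOf_dvd_card_sub_one hP
  have h8 := Nat.le_of_dvd (by have := hw.two_le; omega) h7
  omega

/-- there is no subplane of order 18 inside the elements fixed by `8`, if `2` is a multiplier -/
theorem no18 {n : ℕ} {D : Finset G} (h : IsPDS n D) (ht : ∀ d ∈ D, 2 • d ∈ D)
    (hc : (DF D 8).card = 19) : False := by
  have h0 : (0 : G) ∉ DF D 8 := by
    intro h0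
    have h1 : ∃ d ∈ DF D 8, d ≠ 0 := by
      by_contra hc'
      push Not at hc'
      have : DF D 8 ⊆ {0} := fun d hd => Finset.mem_singleton.mpr (hc' d hd)
      have := Finset.card_le_card this
      rw [hc, Finset.card_singleton] at this
      omega
    obtain ⟨d, hd, hd0⟩ := h1
    rw [mem_DF] at hd h0
    have h2 : d - 0 = 2 • d - d := by rw [two_smul]; abel
    have h3 := (pds_uniq h hd.1 h0.1 (ht d hd.1) hd.1 hd0 h2).2
    exact hd0 h3.symm
  have h2 : ∀ d : G, 2 • (2 • (2 • d)) = 8 • d := by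
    intro d
    rw [← mul_smul, ← mul_smul]
    norm_num
  let σ : Function.End {x // x ∈ DF D 8} := fun x => ⟨2 • x.1, by
    have hx := mem_DF.mp x.2
    rw [mem_DF]
    refine ⟨ht _ hx.1, ?_⟩
    rw [smul_comm, hx.2]⟩
  have hF : Fact (Nat.Prime 3) := ⟨by norm_num⟩
  have hσ : σ ^ 3 ^ 1 = 1 := by
    funext x
    have hx := (mem_DF.mp x.2).2
    apply Subtype.ext
    show 2 • (2 • (2 • x.1)) = x.1
    rw [h2, hx]
  have h3 := Equiv.Perm.card_fixedPoints_modEq (f := σ) hσ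
  have h4 : Fintype.card (Function.fixedPoints σ) = 0 := by
    rw [Fintype.card_eq_zero_iff]
    constructor
    rintro ⟨x, hx⟩
    have h5 : 2 • x.1 = x.1 := congrArg Subtype.val hx
    rw [two_smul] at h5
    have h6 : x.1 = 0 := by simpa using h5
    exact h0 (h6 ▸ x.2)
  rw [h4, Fintype.card_coe, hc] at h3
  exact absurd h3 (by decide)

theorem base1 {n p r f' : ℕ} {D : Finset G} (h : IsPDS n D) (hp : p.Prime) (hr : 0 < r)
    (ht : ∀ s, ∀ d ∈ D, p ^ s • d ∈ D) (hn : n = (p ^ r) ^ f') (hf : ¬ 3 ∣ f')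
    (hk : ((p ^ r) ^ 2 + p ^ r + 1).Prime) : CC G (p ^ r) := by
  have hq : 2 ≤ p ^ r := le_trans hp.two_le (Nat.le_self_pow hr.ne' p)
  have h1 := Fx_eq_Tf h.cardG hn hf
  obtain ⟨j, hj⟩ := card_Tf_pow (G := G) hk 1
  rw [pow_one] at hj
  have h2 : (p ^ r) ^ 2 + p ^ r + 1 ∣ (Tf G ((p ^ r) ^ 2 + p ^ r + 1)).card :=
    dvd_card_Tf (by rw [h.cardG]; exact dvd_main hn hf)
  have hle := Nat.le_of_dvd (card_Tf_pos _) h2
  have hj0 : 0 < j := by
    rcases Nat.eq_zero_or_pos j with h3 | h3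
    · rw [h3, pow_zero] at hj
      have := hk.two_le
      omega
    · exact h3
  obtain ⟨m, hm, hDF, hFx⟩ := closure' h (t := (p ^ r) ^ 3) (by
    intro d hd; rw [← pow_mul]; exact ht _ d hd) (by
    rw [h1]; have := hk.two_le; omega)
  rw [h1, hj] at hFx
  rcases dio hp hr hk rfl hj0 hFx.symm with h3 | ⟨h3, h4⟩
  · unfold CC
    rw [hj, h3, pow_one]
  · exfalso
    rw [h3, h4] at hDF
    have hp2 : p = 2 := by
      have : p ∣ 2 := h3 ▸ dvd_pow_self p hr.ne'
      exact (Nat.prime_dvd_prime_iff_eq hp Nat.prime_two).mp this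
    refine no18 h ?_ hDF
    intro d hd
    have := ht 1 d hd
    rwa [hp2, pow_one] at this

end SubPl
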