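import Mathlib
import Pool.Agent.Lib.MP_d51818_co.Sub6

/-!
# MP_d51818_co: the order of the subgroup fixed by `q ^ 3`
-/

set_option autoImplicit false
set_option linter.unusedSectionVars false

namespace SubPl

open Finset PDS7

variable {G : Type} [AddCommGroup G] [Fintype G] [DecidableEq G]

/-- the cofactor -/
theorem cofactor {n q f' C : ℕ} (hn : n = q ^ f')
    (hC : n ^ 2 + n + 1 = (q ^ 2 + q + 1) * C) :
    ((n : ℤ) - 1) * C = ((q : ℤ) - 1) * ((∑ i ∈ range f', (q ^ 3) ^ i : ℕ) : ℤ) := by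
  have e1 := mul_geom_sum ((q : ℤ) ^ 3) f'
  have e2 : ((q : ℤ) ^ 3) ^ f' = (n : ℤ) ^ 3 := by
    rw [hn]; push_cast; rw [← pow_mul, ← pow_mul, mul_comm]
  have e3 : (n : ℤ) ^ 2 + n + 1 = ((q : ℤ) ^ 2 + q + 1) * C := by exact_mod_cast hC
  have e4 : ((q : ℤ) ^ 2 + q + 1) ≠ 0 := by positivity
  apply mul_left_cancel₀ e4
  rw [e2] at e1
  push_cast
  linear_combination (-1 : ℤ) * e1 - ((n : ℤ) - 1) * e3

theorem q_ne_one {l q : ℕ} (hl : l.Prime) (hl3 : l ≠ 3) (hlk : l ∣ q ^ 2 + q + 1) :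
    (q : ZMod l) ≠ 1 := by
  intro h
  rw [← ZMod.natCast_eq_zero_iff] at hlk
  push_cast at hlk
  rw [h] at hlk
  have h6 : ((3 : ℕ) : ZMod l) = 0 := by push_cast; linear_combination hlk
  rw [ZMod.natCast_eq_zero_iff] at h6
  exact hl3 ((Nat.prime_dvd_prime_iff_eq hl Nat.prime_three).mp h6)

/-- if the prime `w` divides `f'`, cyclicity -/
theorem top2 {n q f' w : ℕ} (hG : Fintype.card G = n ^ 2 + n + 1) (hn : n = q ^ f')
    (hf : ¬ 3 ∣ f') (hw : w.Prime) (hw3 : w ≠ 3) (hwk : w ∣ q ^ 2 + q + 1) (hwf : w ∣ f')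
    (hC : CC G q) : (Tf G w).card ≤ w := by
  have hF : Fact w.Prime := ⟨hw⟩
  unfold CC at hC
  set k := q ^ 2 + q + 1 with hk
  have hk0 : k ≠ 0 := by omega
  have hdm : k ∣ n ^ 2 + n + 1 := dvd_main hn hf
  obtain ⟨C, hCC⟩ := hdm
  have hid := cofactor hn hCC
  have hnk : w ∣ n ^ 2 + n + 1 := by rw [hCC]; exact hwk.mul_right C
  have hwC : w ∣ C := by
    have hidz := congrArg (Int.cast : ℤ → ZMod w) hid
    have hkz : (q : ZMod w) ^ 2 + q + 1 = 0 := by
      have := hwk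
      rw [← ZMod.natCast_eq_zero_iff, hk] at this
      push_cast at this
      exact this
    have hq3 : (q : ZMod w) ^ 3 = 1 := by linear_combination ((q : ZMod w) - 1) * hkz
    have hf0 : (f' : ZMod w) = 0 := (ZMod.natCast_eq_zero_iff _ _).mpr hwf
    push_cast at hidz
    rw [hq3] at hidz
    simp only [one_pow, sum_const, card_range, nsmul_eq_mul, mul_one, hf0, mul_zero] at hidz
    rcases mul_eq_zero.mp hidz with h1 | h1
    · exact absurd (sub_eq_zero.mp h1) (q_ne_one hw hw3 hnk)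
    · exact (ZMod.natCast_eq_zero_iff _ _).mp h1
  obtain ⟨e, he⟩ : ∃ e, k.factorization w = e + 1 := by
    have : 0 < k.factorization w := hw.factorization_pos_of_dvd hk0 hwk
    exact ⟨k.factorization w - 1, by omega⟩
  have hek : w ^ (e + 1) ∣ k := by rw [← he]; exact Nat.ordProj_dvd k w
  -- an element of order `w ^ (e + 2)`
  have h1 : w ^ (e + 2) ∣ n ^ 2 + n + 1 := by
    rw [hCC, pow_succ]
    exact Nat.mul_dvd_mul hek hwC
  have h2 : w ^ (e + 2) ∣ (Tf G (w ^ (e + 2))).card := dvd_card_Tf (by rw [hG]; exact h1)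
  have h3 := Nat.le_of_dvd (card_Tf_pos _) h2
  obtain ⟨j, hj⟩ := card_Tf_pow (G := G) hw (e + 1)
  have hjk : w ^ j ∣ k := by
    rw [← hj]
    have := card_Tf_dvd_of_dvd (G := G) hek
    rwa [hC] at this
  have hje : j ≤ e + 1 := by
    rw [← he]
    exact (hw.pow_dvd_iff_le_factorization hk0).mp hjk
  have h4 : (Tf G (w ^ (e + 1))).card ≤ w ^ (e + 1) := by
    rw [hj]; exact Nat.pow_le_pow_right hw.pos hje
  have h5 : ∃ x ∈ Tf G (w ^ (e + 2)), x ∉ Tf G (w ^ (e + 1)) := by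
    by_contra hcon
    push Not at hcon
    have h6 : (Tf G (w ^ (e + 2))).card ≤ (Tf G (w ^ (e + 1))).card :=
      Finset.card_le_card hcon
    have h7 : w ^ (e + 1) < w ^ (e + 2) := Nat.pow_lt_pow_right hw.one_lt (by omega)
    omega
  obtain ⟨x, hx1, hx2⟩ := h5
  rw [mem_Tf] at hx1 hx2
  have h6 : addOrderOf (w • x) = w ^ (e + 1) := by
    apply addOrderOf_eq_prime_pow
    · rw [← mul_smul, ← pow_succ]; exact hx2
    · rw [← mul_smul, ← pow_succ]; exact hx1
  have h7 : AddSubgroup.zmultiples (w • x) ≤ tor G (w ^ (e + 1)) := by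
    rw [AddSubgroup.zmultiples_le, mem_tor, ← mul_smul, ← pow_succ]
    exact hx1
  have h8 : AddSubgroup.zmultiples (w • x) = tor G (w ^ (e + 1)) := by
    apply AddSubgroup.eq_of_le_of_card_ge h7
    rw [Nat.card_zmultiples, h6, card_tor]
    exact h4
  have h9 : ∀ g : G, w • g = 0 → g ∈ AddSubgroup.zmultiples (w • x) := by
    intro g hg
    rw [h8, mem_tor, pow_succ, mul_smul, hg, smul_zero]
  classical
  have h10 := IsAddCyclic.card_nsmul_eq_zero_le (α := AddSubgroup.zmultiples (w • x)) hw.pos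
  refine le_trans (Finset.card_le_card_of_injOn
    (fun g => if h : w • g = 0 then (⟨g, h9 g h⟩ : AddSubgroup.zmultiples (w • x)) else 0)
    ?_ ?_) h10
  · intro g hg
    rw [Finset.mem_coe, mem_Tf] at hg
    rw [Finset.mem_coe, Finset.mem_filter]
    refine ⟨Finset.mem_univ _, ?_⟩
    simp only [hg, dif_pos]
    exact Subtype.ext hg
  · intro g hg g' hg' hgg
    rw [Finset.mem_coe, mem_Tf] at hg hg'
    simp only [hg, hg', dif_pos] at hgg
    exact congrArg Subtype.val hgg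

/-- lifting the exponent for the geometric sum -/
theorem geom_dvd {l x N i : ℕ} (hl : l.Prime) (hl2 : Odd l) (hx : 1 < x) (hxl : l ∣ x - 1)
    (hN : N ≠ 0) (h : l ^ i ∣ ∑ j ∈ range N, x ^ j) : l ^ i ∣ N := by
  have hF : Fact l.Prime := ⟨hl⟩
  have hlx : ¬ l ∣ x := by
    intro h1
    have h2 : l ∣ 1 := by
      have h3 := (Nat.dvd_sub h1 hxl)
      rwa [show x - (x - 1) = 1 by omega] at h3
    exact hl.one_lt.ne' (Nat.dvd_one.mp h2)
  have h1 := padicValNat.pow_sub_pow hl2 hx hxl hlx hN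
  rw [one_pow] at h1
  have h2 : x ^ N - 1 = (x - 1) * ∑ j ∈ range N, x ^ j := by
    have h3 := mul_geom_sum (x : ℤ) N
    zify [hx.le, Nat.one_le_pow N x (by omega)]
    exact h3.symm
  have hS0 : ∑ j ∈ range N, x ^ j ≠ 0 := by
    have : 0 < ∑ j ∈ range N, x ^ j :=
      Finset.sum_pos (fun j _ => by positivity) (by rw [Finset.nonempty_range_iff]; exact hN)
    omega
  rw [h2, padicValNat.mul (by omega) hS0] at h1
  have h4 : i ≤ padicValNat l N := by
    have := (padicValNat_dvd_iff_le hS0).mp h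
    omega
  exact (padicValNat_dvd_iff_le hN).mpr h4

theorem cm {n q f' : ℕ} {D : Finset G} (h : IsPDS n D) (hq : 2 ≤ q)
    (ht1 : ∀ d ∈ D, q • d ∈ D)
    (ht : ∀ d ∈ D, q ^ 3 • d ∈ D) (hn : n = q ^ f') (hf : ¬ 3 ∣ f') (hnC : ¬ CC G q) :
    ∃ (c m : ℕ) (E : Finset G), 1 < c ∧ c ∣ f' ∧ c * (q ^ 2 + q + 1) = m ^ 2 + m + 1 ∧
      (∀ l : ℕ, l.Prime → l ∣ c → l ∣ q ^ 2 + q + 1 ∧ l < (Tf G l).card) ∧
      (Tf G (q ^ 2 + q + 1)).card = m ^ 2 + m + 1 ∧ (∀ x ∈ E, q • x ∈ E) ∧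
      E.card = m + 1 ∧ (∀ x ∈ E, (q ^ 2 + q + 1) • x = 0) ∧
      ∀ g : G, g ≠ 0 → (q ^ 2 + q + 1) • g = 0 →
        ((E ×ˢ E).filter (fun p : G × G => p.1 - p.2 = g)).card = 1 := by
  unfold CC at hnC
  set k := q ^ 2 + q + 1 with hk
  have hk0 : k ≠ 0 := by omega
  have hdm : k ∣ n ^ 2 + n + 1 := dvd_main hn hf
  have h1 : k ∣ (Tf G k).card := dvd_card_Tf (by rw [h.cardG]; exact hdm)
  obtain ⟨c, hc⟩ := h1
  have hNpos : 0 < (Tf G k).card := card_Tf_pos _
  have hc0 : c ≠ 0 := by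
    rintro rfl
    rw [mul_zero] at hc
    omega
  have hc1 : c ≠ 1 := by
    rintro rfl
    rw [mul_one] at hc
    exact hnC hc
  have hkle := Nat.le_of_dvd hNpos (Dvd.intro c hc.symm)
  obtain ⟨m, hm, hDF, hFx⟩ := closure' h (t := q ^ 3) ht (by
    rw [Fx_eq_Tf h.cardG hn hf, ← hk]; omega)
  rw [Fx_eq_Tf h.cardG hn hf, ← hk] at hFx
  have hNG : (Tf G k).card ∣ n ^ 2 + n + 1 := by rw [← h.cardG]; exact card_Tf_dvd k
  obtain ⟨C, hC⟩ := hdm
  have hcC : c ∣ C := by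
    rw [hc, hC] at hNG
    exact Nat.dvd_of_mul_dvd_mul_left (Nat.pos_of_ne_zero hk0) hNG
  -- the primes of c
  have hlk : ∀ l : ℕ, l.Prime → l ∣ c → l ∣ k := by
    intro l hl hlc
    have hF : Fact l.Prime := ⟨hl⟩
    have h2 : l ∣ Nat.card (tor G k) := by
      rw [card_tor, hc]; exact hlc.mul_left k
    obtain ⟨x, hx⟩ := exists_prime_addOrderOf_dvd_card' l h2
    rw [← hx]
    apply addOrderOf_dvd_of_nsmul_eq_zero
    exact Subtype.ext x.2
  have hl3 : ∀ l : ℕ, l.Prime → l ∣ c → l ≠ 3 := by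
    rintro l hl hlc rfl
    have h9 : 3 * 3 ∣ n ^ 2 + n + 1 := by
      rw [hC]
      exact Nat.mul_dvd_mul (hlk 3 hl hlc) (hlc.trans hcC)
    have h10 : ((n ^ 2 + n + 1 : ℕ) : ZMod 9) = 0 :=
      (ZMod.natCast_eq_zero_iff _ _).mpr h9
    push_cast at h10
    have h11 : ∀ x : ZMod 9, x ^ 2 + x + 1 ≠ 0 := by decide
    exact h11 _ h10
  have hf0 : f' ≠ 0 := by
    rintro rfl
    exact hf (dvd_zero 3)
  have hfix : ∀ g : G, q ^ 3 • g = g ↔ k • g = 0 := by
    intro g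
    rw [← mem_Fx, ← mem_Tf, Fx_eq_Tf h.cardG hn hf]
  refine ⟨c, m, DF D (q ^ 3), by omega, ?_, ?_, ?_, hFx, (by
      intro x hx
      rw [mem_DF] at hx ⊢
      exact ⟨ht1 x hx.1, by rw [smul_comm, hx.2]⟩), hDF,
    fun x hx => (hfix x).mp (mem_DF.mp hx).2,
    fun g hg0 hg => closure_diff h ht hg0 ((hfix g).mpr hg)⟩
  · rw [Nat.dvd_iff_prime_pow_dvd_dvd]
    intro l i hl hli
    rcases Nat.eq_zero_or_pos i with rfl | hi
    · rw [pow_zero]; exact one_dvd _
    have hlc : l ∣ c := (dvd_pow_self l hi.ne').trans hli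
    have hlkk := hlk l hl hlc
    have hlne := hl3 l hl hlc
    have hq1 := q_ne_one hl hlne hlkk
    have hid := cofactor hn hC
    have h2 : (l : ℤ) ^ i ∣ ((q : ℤ) - 1) * ((∑ i ∈ range f', (q ^ 3) ^ i : ℕ) : ℤ) := by
      rw [← hid]
      have : (l : ℤ) ^ i ∣ (C : ℤ) := by exact_mod_cast hli.trans hcC
      exact this.mul_left _
    have hlz : Prime (l : ℤ) := Nat.prime_iff_prime_int.mp hl
    have h3 : ¬ (l : ℤ) ∣ (q : ℤ) - 1 := by
      intro h4
      apply hq1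
      rw [← ZMod.intCast_zmod_eq_zero_iff_dvd] at h4
      push_cast at h4
      exact sub_eq_zero.mp h4
    have h5 : (l : ℤ) ^ i ∣ ((∑ i ∈ range f', (q ^ 3) ^ i : ℕ) : ℤ) :=
      (hlz.coprime_iff_not_dvd.mpr h3).pow_left.dvd_of_dvd_mul_left h2
    have h6 : l ^ i ∣ ∑ i ∈ range f', (q ^ 3) ^ i := by exact_mod_cast h5
    have hl2 : Odd l := by
      rcases hl.eq_two_or_odd' with h7 | h7
      · exfalso
        rw [h7] at hlkk
        have : k % 2 = 1 := by
          have h8 : k = 2 * (q * (q + 1) / 2) + 1 := by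
            rw [Nat.mul_div_cancel' (Nat.even_mul_succ_self q).two_dvd, hk]; ring
          omega
        omega
      · exact h7
    refine geom_dvd hl hl2 ?_ ?_ hf0 h6
    · exact Nat.one_lt_pow (by norm_num) (by omega)
    · have h7 : q ^ 3 - 1 = (q - 1) * k := by
        obtain ⟨q', rfl⟩ : ∃ q', q = q' + 1 := ⟨q - 1, by omega⟩
        rw [hk, Nat.add_sub_cancel]
        have : (q' + 1) ^ 3 = q' * ((q' + 1) ^ 2 + (q' + 1) + 1) + 1 := by ring
        omega
      rw [h7]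
      exact hlkk.mul_left _
  · rw [← hFx, hc, mul_comm]
  · intro l hl hlc
    refine ⟨hlk l hl hlc, ?_⟩
    by_contra hcon
    push Not at hcon
    have hF : Fact l.Prime := ⟨hl⟩
    classical
    set e := k.factorization l with he
    have h2 : l ^ (e + 1) ∣ Fintype.card (tor G k) := by
      rw [← Nat.card_eq_fintype_card, card_tor, hc, pow_succ]
      exact Nat.mul_dvd_mul (Nat.ordProj_dvd k l) hlc
    have h3 := Nat.le_of_dvd (card_Tf_pos _) (dvd_card_Tf (G := tor G k) h2)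
    have h4 : (Tf (tor G k) (l ^ (e + 1))).card ≤ (Tf G (l ^ e)).card := by
      refine Finset.card_le_card_of_injOn (fun y => (y : G)) ?_ ?_
      · intro y hy
        rw [Finset.mem_coe, mem_Tf] at hy
        show (y : G) ∈ (Tf G (l ^ e) : Set G)
        rw [Finset.mem_coe, mem_Tf]
        have h5 : l ^ (e + 1) • (y : G) = 0 := congrArg Subtype.val hy
        have h6 : k • (y : G) = 0 := y.2
        have h7 := addOrderOf_dvd_of_nsmul_eq_zero h5
        have h8 := addOrderOf_dvd_of_nsmul_eq_zero h6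
        obtain ⟨t, _, ht'⟩ := (Nat.dvd_prime_pow hl).mp h7
        rw [ht'] at h8
        have h9 : t ≤ e := (hl.pow_dvd_iff_le_factorization hk0).mp h8
        apply addOrderOf_dvd_iff_nsmul_eq_zero.mp
        rw [ht']
        exact pow_dvd_pow l h9
      · intro y _ z _ hyz
        exact Subtype.ext hyz
    have h5 := card_Tf_pow_le hcon e
    have h6 : l ^ e < l ^ (e + 1) := Nat.pow_lt_pow_right hl.one_lt (by omega)
    omega

end SubPl
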