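import Mathlib
import Pool.Agent.Lib.MP_d51818_co.Sub7

/-!
# MP_d51818_co: the main theorems on orders `p ^ f`
-/

set_option autoImplicit false
set_option linter.unusedSectionVars false

namespace SubPl

open Finset PDS7

variable {G : Type} [AddCommGroup G] [Fintype G] [DecidableEq G]

theorem w_facts {w p s : ℕ} (hw : w.Prime) (hs : 0 < s) (ho : orderOf (p : ZMod w) = 3 * s) :
    w ∣ (p ^ s) ^ 2 + p ^ s + 1 ∧ 3 * s < w := by
  have hF : Fact w.Prime := ⟨hw⟩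
  have h1 : (p : ZMod w) ^ (3 * s) = 1 := by rw [← ho]; exact pow_orderOf_eq_one _
  have hP : (p : ZMod w) ≠ 0 := by
    intro h
    rw [h, zero_pow (by omega)] at h1
    exact zero_ne_one h1
  have h2 : (p : ZMod w) ^ s ≠ 1 := by
    intro h
    have := orderOf_dvd_of_pow_eq_one h
    rw [ho] at this
    have := Nat.le_of_dvd hs this
    omega
  have h3 : ((p : ZMod w) ^ s) ^ 2 + (p : ZMod w) ^ s + 1 = 0 :=
    cube_root (by rw [← pow_mul, mul_comm]; exact h1) h2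
  constructor
  · rw [← ZMod.natCast_eq_zero_iff]; push_cast; exact h3
  · have h7 : 3 * s ∣ w - 1 := by rw [← ho]; exact ZMod.orderOf_dvd_card_sub_one hP
    have h8 := Nat.le_of_dvd (by have := hw.two_le; omega) h7
    have := hw.two_le
    omega

/-- the subplane of order `q` -/
theorem sub_q {n q f' : ℕ} {D : Finset G} (h : IsPDS n D) (hq : 2 ≤ q)
    (ht : ∀ d ∈ D, q ^ 3 • d ∈ D) (hn : n = q ^ f') (hf : ¬ 3 ∣ f') (hC : CC G q) :
    ∃ E : Finset G, E.card = q + 1 ∧ (∀ x ∈ E, (q ^ 2 + q + 1) • x = 0) ∧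
      ∀ g : G, g ≠ 0 → (q ^ 2 + q + 1) • g = 0 →
        ((E ×ˢ E).filter (fun p : G × G => p.1 - p.2 = g)).card = 1 := by
  unfold CC at hC
  obtain ⟨m, hm, hDF, hFx⟩ := closure' h (t := q ^ 3) ht (by
    rw [Fx_eq_Tf h.cardG hn hf, hC]; omega)
  rw [Fx_eq_Tf h.cardG hn hf, hC] at hFx
  have hmq : m = q := by
    rcases lt_trichotomy m q with h2 | h2 | h2
    · nlinarith
    · exact h2
    · nlinarith
  have hfix : ∀ g : G, q ^ 3 • g = g ↔ (q ^ 2 + q + 1) • g = 0 := by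
    intro g
    rw [← mem_Fx, ← mem_Tf, Fx_eq_Tf h.cardG hn hf]
  exact ⟨DF D (q ^ 3), by rw [hDF, hmq], fun x hx => (hfix x).mp (mem_DF.mp hx).2,
    fun g hg0 hg => closure_diff h ht hg0 ((hfix g).mpr hg)⟩

theorem main1 {p f : ℕ} (hp : p.Prime) {D : Finset G} (h0 : IsPDS (p ^ f) D) {w : ℕ}
    (hw : w.Prime) {a r : ℕ} (hr : 0 < r)
    (ho : orderOf (p : ZMod w) = 3 * 2 ^ a * r) (hlt : w < (Tf G w).card) :
    (¬ w ∣ f ∧ w ^ 2 ∣ p ^ (w - 1) - 1 ∧ 2 ^ a * r ∣ f ∧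
      (Tf G (p ^ (2 * (2 ^ a * r)) + p ^ (2 ^ a * r) + 1)).card =
        p ^ (2 * (2 ^ a * r)) + p ^ (2 ^ a * r) + 1 ∧
      ∃ E : Finset G, E.card = p ^ (2 ^ a * r) + 1 ∧
        (∀ x ∈ E, (p ^ (2 * (2 ^ a * r)) + p ^ (2 ^ a * r) + 1) • x = 0) ∧
        ∀ g : G, g ≠ 0 → (p ^ (2 * (2 ^ a * r)) + p ^ (2 ^ a * r) + 1) • g = 0 →
          ((E ×ˢ E).filter (fun q : G × G => q.1 - q.2 = g)).card = 1) ∨
    (f ≠ 0 ∧ ¬ (p ^ (2 * r) + p ^ r + 1).Prime ∧ ¬ 3 * r ∣ f ∧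
    ∃ (c m : ℕ) (E : Finset G), 1 < c ∧ c * r ∣ f ∧
      c * (p ^ (2 * r) + p ^ r + 1) = m ^ 2 + m + 1 ∧
      (∀ l : ℕ, l.Prime → l ∣ c → l ∣ p ^ (2 * r) + p ^ r + 1 ∧ l < (Tf G l).card) ∧
      (Tf G (p ^ (2 * r) + p ^ r + 1)).card = m ^ 2 + m + 1 ∧ (∀ x ∈ E, p ^ r • x ∈ E) ∧
      E.card = m + 1 ∧ (∀ x ∈ E, (p ^ (2 * r) + p ^ r + 1) • x = 0) ∧
      ∀ g : G, g ≠ 0 → (p ^ (2 * r) + p ^ r + 1) • g = 0 →
        ((E ×ˢ E).filter (fun q : G × G => q.1 - q.2 = g)).card = 1) := by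
  have hs : 0 < 2 ^ a * r := by positivity
  rw [mul_assoc] at ho
  have hpp : p ^ (2 * r) = (p ^ r) ^ 2 := by rw [← pow_mul, mul_comm]
  have hpp2 : p ^ (2 * (2 ^ a * r)) = (p ^ (2 ^ a * r)) ^ 2 := by rw [← pow_mul, mul_comm 2]
  rw [hpp, hpp2]
  obtain ⟨hwk, hsw⟩ := w_facts hw hs ho
  have hd : w ∣ Fintype.card G := by
    by_contra hd
    obtain ⟨j, hj⟩ := card_Tf_pow (G := G) hw 1
    rw [pow_one] at hj
    rcases Nat.eq_zero_or_pos j with h2 | h2
    · rw [hj, h2, pow_zero] at hlt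
      have := hw.two_le
      omega
    · apply hd
      have h3 := card_Tf_dvd (G := G) w
      rw [hj] at h3
      exact (dvd_pow_self w h2.ne').trans h3
  rw [h0.cardG] at hd
  obtain ⟨f', hf', h3⟩ := good hw hs ho hd
  obtain ⟨D', h, hsum⟩ := exists_zero h0
  have hf0 : f ≠ 0 := by
    rw [hf']
    refine mul_ne_zero hs.ne' ?_
    rintro rfl
    exact h3 (dvd_zero 3)
  have ht : ∀ s, ∀ d ∈ D', p ^ s • d ∈ D' := by
    intro s
    induction s with
    | zero => intro d hd'; rwa [pow_zero, one_smul]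
    | succ s ih =>
      intro d hd'
      rw [pow_succ', mul_smul]
      exact mult_fix h hsum hp (dvd_pow_self p hf0) (pow_pos hp.pos f) _ (ih d hd')
  have h3' : ¬ 3 ∣ 2 ^ a * f' := by
    intro h4
    rcases (Nat.Prime.dvd_mul Nat.prime_three).mp h4 with h5 | h5
    · have := Nat.prime_three.dvd_of_dvd_pow h5
      omega
    · exact h3 h5
  have hfr : f = r * (2 ^ a * f') := by rw [hf']; ring
  have hn : p ^ f = (p ^ r) ^ (2 ^ a * f') := by
    rw [← pow_mul, ← hfr]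
  by_cases hC : CC G (p ^ r)
  · left
    have hCs := CC_chain h hp.two_le hr ht hC a f' (by rw [← hf']) h3
    have hns : p ^ f = (p ^ (2 ^ a * r)) ^ f' := by rw [← pow_mul, ← hf']
    have hq2 : 2 ≤ p ^ (2 ^ a * r) := le_trans hp.two_le (Nat.le_self_pow hs.ne' p)
    have hnW : ¬ (w ∣ f ∨ ¬ w ^ 2 ∣ p ^ (w - 1) - 1) := by
      intro hW
      have hle : (Tf G w).card ≤ w := by
        by_cases hW2 : w ^ 2 ∣ p ^ (w - 1) - 1
        · have hwf : w ∣ f := by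
            rcases hW with h4 | h4
            · exact h4
            · exact absurd hW2 h4
          rw [hf'] at hwf
          have hwf' : w ∣ f' := by
            rcases (Nat.Prime.dvd_mul hw).mp hwf with h5 | h5
            · exfalso
              have := Nat.le_of_dvd hs h5
              omega
            · exact h5
          exact top2 (n := p ^ f) (q := p ^ (2 ^ a * r)) (f' := f') h.cardG
            (by rw [← pow_mul, ← hf']) h3 hw (by omega) hwk hwf' hCs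
        · exact top hw hs ho hW2 hCs
      omega
    push Not at hnW
    exact ⟨hnW.1, hnW.2, ⟨f', hf'⟩, hCs, sub_q h hq2 (by
      intro d hd'; rw [← pow_mul]; exact ht _ d hd') hns h3 hCs⟩
  · right
    refine ⟨hf0, fun hk => hC (base1 h hp hr ht hn h3' hk), ?_, ?_⟩
    · rintro ⟨g, hg⟩
      apply h3'
      refine ⟨g, ?_⟩
      have h5 : r * (2 ^ a * f') = r * (3 * g) := by rw [← hfr, hg]; ring
      exact Nat.eq_of_mul_eq_mul_left hr h5
    · have hq : 2 ≤ p ^ r := le_trans hp.two_le (Nat.le_self_pow hr.ne' p)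
      obtain ⟨c, m, E, hc1, hcf, hcm, hE⟩ := cm h hq (ht r) (by
        intro d hd'; rw [← pow_mul]; exact ht _ d hd') hn h3' hC
      refine ⟨c, m, E, hc1, ?_, hcm, hE⟩
      rw [hfr, mul_comm]
      exact Nat.mul_dvd_mul_left r hcf

theorem exists_w (h : ¬ IsAddCyclic G) : ∃ w : ℕ, w.Prime ∧ w < (Tf G w).card := by
  by_contra hcon
  push Not at hcon
  apply h
  apply isAddCyclic_of_card_nsmul_eq_zero_le
  intro n hn
  show (Tf G n).card ≤ n
  have h3 : n = ∏ l ∈ n.primeFactors, l ^ n.factorization l :=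
    (Nat.factorization_prod_pow_eq_self hn.ne').symm
  calc (Tf G n).card = (Tf G (∏ l ∈ n.primeFactors, l ^ n.factorization l)).card := by
        rw [← h3]
    _ ≤ ∏ l ∈ n.primeFactors, (Tf G (l ^ n.factorization l)).card := card_Tf_prod _ _
    _ ≤ ∏ l ∈ n.primeFactors, l ^ n.factorization l :=
        Finset.prod_le_prod' fun l hl =>
          card_Tf_pow_le (hcon l (Nat.prime_of_mem_primeFactors hl)) _
    _ = n := h3.symm

theorem main2 {p f : ℕ} {D : Finset G} (h0 : IsPDS (p ^ f) D) {w : ℕ}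
    (hw : w.Prime) (hlt : w < (Tf G w).card) :
    ∃ a r : ℕ, Odd r ∧ orderOf (p : ZMod w) = 3 * 2 ^ a * r := by
  have hF : Fact w.Prime := ⟨hw⟩
  obtain ⟨j, hj⟩ := card_Tf_pow (G := G) hw 1
  rw [pow_one] at hj
  have hj2 : 2 ≤ j := by
    by_contra hc
    have h1 : w ^ j ≤ w ^ 1 := Nat.pow_le_pow_right hw.pos (by omega)
    rw [pow_one, ← hj] at h1
    omega
  have hw2 : w ^ 2 ∣ (p ^ f) ^ 2 + p ^ f + 1 := by
    rw [← h0.cardG]
    have h3 := card_Tf_dvd (G := G) w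
    rw [hj] at h3
    exact (pow_dvd_pow w hj2).trans h3
  have hw1 : w ∣ (p ^ f) ^ 2 + p ^ f + 1 := (dvd_pow_self w (by norm_num)).trans hw2
  have hw3 : w ≠ 3 := by
    rintro rfl
    have h10 : (((p ^ f) ^ 2 + p ^ f + 1 : ℕ) : ZMod 9) = 0 :=
      (ZMod.natCast_eq_zero_iff _ _).mpr hw2
    rw [Nat.cast_add, Nat.cast_add, Nat.cast_pow (p ^ f) 2, Nat.cast_one] at h10
    have h11 : ∀ x : ZMod 9, x ^ 2 + x + 1 ≠ 0 := by decide
    exact h11 _ h10
  have hN1 := q_ne_one hw hw3 hw1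
  have hNz : ((p ^ f : ℕ) : ZMod w) ^ 2 + ((p ^ f : ℕ) : ZMod w) + 1 = 0 := by
    have := (ZMod.natCast_eq_zero_iff _ _).mpr hw1
    push_cast at this ⊢
    exact this
  have hN3 : ((p ^ f : ℕ) : ZMod w) ^ 3 = 1 := by
    linear_combination (((p ^ f : ℕ) : ZMod w) - 1) * hNz
  have hF3 : Fact (Nat.Prime 3) := ⟨Nat.prime_three⟩
  have hoN : orderOf ((p ^ f : ℕ) : ZMod w) = 3 := orderOf_eq_prime hN3 hN1
  have h3o : 3 ∣ orderOf (p : ZMod w) := by
    rw [← hoN, Nat.cast_pow]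
    exact orderOf_pow_dvd f
  obtain ⟨s, hs⟩ := h3o
  have hP0 : (p : ZMod w) ≠ 0 := by
    intro h
    rw [Nat.cast_pow, h] at hNz hN1
    rcases Nat.eq_zero_or_pos f with hf | hf
    · rw [hf, pow_zero] at hN1; exact hN1 rfl
    · rw [zero_pow hf.ne'] at hNz
      simp at hNz
  have hs0 : s ≠ 0 := by
    rintro rfl
    rw [mul_zero] at hs
    rw [orderOf_eq_zero_iff'] at hs
    exact hs (w - 1) (by have := hw.two_le; omega) (ZMod.pow_card_sub_one_eq_one hP0)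
  obtain ⟨a, r, hrodd, hsr⟩ := Nat.exists_eq_two_pow_mul_odd hs0
  exact ⟨a, r, hrodd, by rw [hs, hsr, mul_assoc]⟩

end SubPl
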