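import Mathlib
import Pool.Agent.Lib.MP_d51818_co.Sub8

/-!
# MP_d51818_co: the order of a subplane as a multiplier
-/

set_option autoImplicit false
set_option linter.unusedSectionVars false

namespace SubPl

open Finset PDS7

variable {G : Type} [AddCommGroup G] [Fintype G] [DecidableEq G]

/-- the fixed elements as a subgroup -/
def FxS (G : Type) [AddCommGroup G] (t : ℕ) : AddSubgroup G where
  carrier := {x | t • x = x}
  add_mem' {a b} ha hb := by
    show t • (a + b) = a + b
    rw [smul_add, show t • a = a from ha, show t • b = b from hb]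
  zero_mem' := smul_zero _
  neg_mem' {a} ha := by
    show t • (-a) = -a
    rw [smul_neg, show t • a = a from ha]

theorem card_FxS (t : ℕ) : Nat.card (FxS G t) = (Fx G t).card := by
  have : Nat.card (FxS G t) = Nat.card {x : G // t • x = x} := rfl
  rw [this, Nat.card_eq_fintype_card, Fintype.card_subtype]
  rfl

theorem Fx_lagrange {t : ℕ} {x : G} (hx : t • x = x) : (Fx G t).card • x = 0 := by
  have h1 : Nat.card (FxS G t) • (⟨x, hx⟩ : FxS G t) = 0 := card_nsmul_eq_zero'
  rw [card_FxS] at h1
  exact congrArg Subtype.val h1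

theorem Fx_card_dvd (t : ℕ) : (Fx G t).card ∣ Fintype.card G := by
  rw [← card_FxS, ← Nat.card_eq_fintype_card]
  exact AddSubgroup.card_addSubgroup_dvd_card _

theorem fx_diff {m : ℕ} {D : Finset G} (h : IsPDS m D) {t : ℕ} (ht : ∀ d ∈ D, t • d ∈ D)
    {a b : G} (ha : a ∈ D) (hb : b ∈ D) (hab : a ≠ b) (hf : t • (a - b) = a - b) :
    t • a = a ∧ t • b = b := by
  have h1 : a - b = t • a - t • b := by rw [← smul_sub, hf]
  obtain ⟨h2, h3⟩ := pds_uniq h ha hb (ht a ha) (ht b hb) hab h1
  exact ⟨h2.symm, h3.symm⟩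

/-- Bruck: cosets of the fixed subgroup -/
theorem bruck_sum {m : ℕ} {D : Finset G} (h : IsPDS m D) {t : ℕ} (ht : ∀ d ∈ D, t • d ∈ D) :
    Set.InjOn (fun z : G × G => z.1 + z.2)
      (Fx G t ×ˢ insert 0 (D \ DF D t) : Finset (G × G)) := by
  intro z hz y hy he
  rw [Finset.mem_coe, Finset.mem_product, mem_Fx, Finset.mem_insert, Finset.mem_sdiff,
    mem_DF] at hz hy
  have he' : z.1 + z.2 = y.1 + y.2 := he
  have h1 : t • (z.2 - y.2) = z.2 - y.2 := by
    have : z.2 - y.2 = y.1 - z.1 := by rw [sub_eq_sub_iff_add_eq_add, add_comm, he', add_comm]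
    rw [this, smul_sub, hz.1, hy.1]
  have h2 : z.2 = y.2 := by
    by_contra hne
    rcases hz.2 with h3 | h3 <;> rcases hy.2 with h4 | h4
    · exact hne (h3.trans h4.symm)
    · rw [h3, zero_sub, smul_neg, neg_inj] at h1
      exact h4.2 ⟨h4.1, h1⟩
    · rw [h4, sub_zero] at h1
      exact h3.2 ⟨h3.1, h1⟩
    · exact h3.2 ⟨h3.1, (fx_diff h ht h3.1 h4.1 hne h1).1⟩
  rw [h2] at he'
  exact Prod.ext (add_right_cancel he') h2

theorem bruck_card {m : ℕ} {D : Finset G} (h : IsPDS m D) {t : ℕ} (ht : ∀ d ∈ D, t • d ∈ D) :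
    (Fx G t ×ˢ insert 0 (D \ DF D t) : Finset (G × G)).card =
      (Fx G t).card * (m + 1 - (DF D t).card + 1) := by
  rw [Finset.card_product, Finset.card_insert_of_notMem]
  · rw [Finset.card_sdiff_of_subset (show DF D t ⊆ D from Finset.filter_subset _ _), h.cardD]
  · rw [Finset.mem_sdiff, mem_DF, smul_zero]
    rintro ⟨h1, h2⟩
    exact h2 ⟨h1, rfl⟩

theorem bruck {m m1 : ℕ} {D : Finset G} (h : IsPDS m D) {t : ℕ} (ht : ∀ d ∈ D, t • d ∈ D)
    (hc : (Fx G t).card = m1 ^ 2 + m1 + 1) (hd : (DF D t).card = m1 + 1)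
    (hlt : (Fx G t).card < Fintype.card G) : m1 ^ 2 = m ∨ m1 ^ 2 + m1 ≤ m := by
  have hle : m1 ≤ m := by
    have : (DF D t).card ≤ D.card := Finset.card_le_card (Finset.filter_subset _ _)
    rw [hd, h.cardD] at this
    omega
  have hlt' : m1 < m := by
    rcases Nat.lt_or_ge m1 m with h1 | h1
    · exact h1
    · exfalso
      have : m1 = m := by omega
      rw [hc, this, h.cardG] at hlt
      exact lt_irrefl _ hlt
  have hinj := bruck_sum h ht
  have hcard := bruck_card h ht
  rw [hd, hc] at hcard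
  have h1 : (Fx G t ×ˢ insert 0 (D \ DF D t) : Finset (G × G)).card ≤ (univ : Finset G).card :=
    Finset.card_le_card_of_injOn _ (fun _ _ => Finset.mem_coe.mpr (Finset.mem_univ _)) hinj
  rw [hcard, Finset.card_univ, h.cardG] at h1
  obtain ⟨j, hj⟩ : ∃ j, m = m1 + j + 1 := ⟨m - m1 - 1, by omega⟩
  have e1 : m + 1 - (m1 + 1) + 1 = j + 2 := by omega
  rw [e1] at h1 hcard
  by_cases hsur : ∀ z : G, ∃ y ∈ (Fx G t ×ˢ insert 0 (D \ DF D t) : Finset (G × G)),
      y.1 + y.2 = z
  · left
    have h2 : (univ : Finset G).card ≤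
        (Fx G t ×ˢ insert 0 (D \ DF D t) : Finset (G × G)).card := by
      apply Finset.card_le_card_of_surjOn (fun z : G × G => z.1 + z.2)
      intro z _
      obtain ⟨y, hy, hyz⟩ := hsur z
      exact ⟨y, Finset.mem_coe.mpr hy, hyz⟩
    rw [hcard, Finset.card_univ, h.cardG] at h2
    have h3 : (m1 ^ 2 + m1 + 1) * (j + 2) = m ^ 2 + m + 1 := le_antisymm h1 h2
    rw [hj] at h3
    have h4 : ((j : ℤ) + 1) * ((m1 : ℤ) + j + 1 - (m1 : ℤ) ^ 2) = 0 := by
      have : (((m1 : ℤ) ^ 2 + m1 + 1) * (j + 2)) = ((m1 : ℤ) + j + 1) ^ 2 + (m1 + j + 1) + 1 := by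
        exact_mod_cast h3
      linarith
    rcases mul_eq_zero.mp h4 with h5 | h5
    · exfalso
      have : (0 : ℤ) ≤ j := Int.natCast_nonneg j
      linarith
    · have h6 : (m1 : ℤ) ^ 2 = m1 + j + 1 := by linarith
      rw [hj]
      exact_mod_cast h6
  · right
    push Not at hsur
    obtain ⟨z, hz⟩ := hsur
    have hzA : ¬ t • z = z := by
      intro h2
      refine hz (z, 0) ?_ (add_zero z)
      rw [Finset.mem_product, mem_Fx]
      exact ⟨h2, Finset.mem_insert_self _ _⟩
    -- the line `D - z` misses the fixed subgroup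
    have hmiss : ∀ e ∈ D, ¬ t • (e - z) = e - z := by
      intro e he h2
      have heA : ¬ t • e = e := by
        intro h3
        apply hzA
        have : z = e - (e - z) := by abel
        rw [this, smul_sub, h3, h2]
      refine hz (z - e, e) ?_ (sub_add_cancel z e)
      rw [Finset.mem_product, mem_Fx, Finset.mem_insert, Finset.mem_sdiff, mem_DF]
      refine ⟨?_, Or.inr ⟨he, fun h3 => heA h3.2⟩⟩
      show t • (z - e) = z - e
      rw [← neg_sub e z, smul_neg, h2]
    have hex : ∀ a : G, ∃ e' : G, t • a = a → e' ∈ D ∧ ∃ e ∈ D, e - e' = -z - a := by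
      intro a
      by_cases ha : t • a = a
      · have hne : -z - a ≠ 0 := by
          intro h2
          apply hzA
          have : z = -a := by
            have := sub_eq_zero.mp h2
            rw [← this, neg_neg]
          rw [this, smul_neg, ha]
        obtain ⟨e, he, e', he', hee⟩ := pds_exists h hne
        exact ⟨e', fun _ => ⟨he', e, he, hee⟩⟩
      · exact ⟨0, fun h2 => absurd h2 ha⟩
    choose F hF using hex
    have h2 : (Fx G t).card ≤ D.card := by
      refine Finset.card_le_card_of_injOn F ?_ ?_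
      · intro a ha
        rw [Finset.mem_coe, mem_Fx] at ha
        exact Finset.mem_coe.mpr (hF a ha).1
      · intro a ha b hb hab
        rw [Finset.mem_coe, mem_Fx] at ha hb
        obtain ⟨ha1, ea, hea, ha2⟩ := hF a ha
        obtain ⟨hb1, eb, heb, hb2⟩ := hF b hb
        by_contra hne
        have h3 : ea - eb = b - a := by
          have : ea = -z - a + F a := by rw [← ha2]; abel
          rw [this]
          have : eb = -z - b + F b := by rw [← hb2]; abel
          rw [this, hab]; abel
        have hne' : ea ≠ eb := by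
          intro h4
          rw [h4, sub_self] at h3
          exact hne (sub_eq_zero.mp h3.symm).symm
        have h4 : t • (ea - eb) = ea - eb := by rw [h3, smul_sub, ha, hb]
        have h5 := (fx_diff h ht hea heb hne' h4).1
        apply hmiss (F a) ha1
        have h6 : F a - z = ea + a := by
          have : ea = -z - a + F a := by rw [← ha2]; abel
          rw [this]; abel
        rw [h6, smul_add, h5, ha]
    rw [hc, h.cardD] at h2
    omega

end SubPl
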