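import Mathlib
import Pool.Agent.Lib.MP_d51818_co.Sub9

/-!
# MP_d51818_co: the order of a subplane as a multiplier, II
-/

set_option autoImplicit false
set_option linter.unusedSectionVars false

namespace SubPl

open Finset PDS7

variable {G : Type} [AddCommGroup G] [Fintype G] [DecidableEq G]

theorem mult_div {n : ℕ} {D : Finset G} (h : IsPDS n D) (hs : ∑ d ∈ D, d = 0) (hn : 0 < n) :
    ∀ m : ℕ, m ∣ n → ∀ d ∈ D, m • d ∈ D := by
  intro m
  induction m using induction_on_primes with
  | zero => intro h0; have := Nat.eq_zero_of_zero_dvd h0; omega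
  | one => intro _ d hd; rwa [one_smul]
  | prime_mul p a hp ih =>
    intro hpa d hd
    rw [mul_smul]
    exact mult_fix h hs hp ((Nat.dvd_mul_right p a).trans hpa) hn _
      (ih ((Nat.dvd_mul_left a p).trans hpa) d hd)

/-- a translate with sum zero that is still fixed by `q` -/
theorem exists_zero_fix {m q : ℕ} {E : Finset G} (h : IsPDS m E) (hq : ∀ e ∈ E, q • e ∈ E)
    (hinjq : ∀ x : G, q • x = 0 → x = 0) :
    ∃ E' : Finset G, IsPDS m E' ∧ ∑ d ∈ E', d = 0 ∧ ∀ e ∈ E', q • e ∈ E' := by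
  have hinj : Function.Injective (fun x : G => (m + 1) • x) := by
    intro x y hxy
    have h1 : (m + 1) • (x - y) = 0 := by
      rw [smul_sub]; exact sub_eq_zero.mpr hxy
    exact sub_eq_zero.mp (smul_inj h (coprime_succ m) h1)
  obtain ⟨g, hg⟩ := (Finite.injective_iff_surjective.mp hinj) (-∑ d ∈ E, d)
  have h2 : (m + 1) • g = -∑ d ∈ E, d := hg
  have hinq : Set.InjOn (fun d : G => q • d) (E : Set G) := by
    intro x _ y _ hxy
    have : q • (x - y) = 0 := by rw [smul_sub]; exact sub_eq_zero.mpr hxy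
    exact sub_eq_zero.mp (hinjq _ this)
  have him : E.image (fun d : G => q • d) = E := by
    apply Finset.eq_of_subset_of_card_le
    · intro x hx
      obtain ⟨d, hd, rfl⟩ := Finset.mem_image.mp hx
      exact hq d hd
    · rw [Finset.card_image_of_injOn hinq]
  have hσ : q • ∑ d ∈ E, d = ∑ d ∈ E, d := by
    rw [Finset.smul_sum]
    conv_rhs => rw [← him]
    rw [Finset.sum_image hinq]
  have hqg : q • g = g := by
    apply hinj
    show (m + 1) • (q • g) = (m + 1) • g
    rw [smul_comm, h2, smul_neg, hσ]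
  refine ⟨E.image (fun d => d + g), h.trans g, ?_, ?_⟩
  · rw [Finset.sum_image (fun x _ y _ hxy => add_right_cancel hxy), Finset.sum_add_distrib,
      Finset.sum_const, h.cardD, h2, add_neg_cancel]
  · intro e he
    obtain ⟨d, hd, rfl⟩ := Finset.mem_image.mp he
    refine Finset.mem_image.mpr ⟨q • d, hq d hd, ?_⟩
    show q • d + g = q • (d + g)
    rw [smul_add, hqg]

theorem tf3 {m : ℕ} {E : Finset G} (h : IsPDS m E) : (Tf G 3).card ≤ 3 := by
  obtain ⟨j, hj⟩ := card_Tf_pow (G := G) Nat.prime_three 1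
  rw [pow_one] at hj
  rw [hj]
  by_contra hcon
  push Not at hcon
  have hj2 : 2 ≤ j := by
    by_contra hc
    have h1 : 3 ^ j ≤ 3 ^ 1 := Nat.pow_le_pow_right (by norm_num) (by omega)
    omega
  have h3 := card_Tf_dvd (G := G) 3
  rw [hj, h.cardG] at h3
  have h9 : 9 ∣ m ^ 2 + m + 1 := (pow_dvd_pow 3 hj2).trans h3
  have h10 : ((m ^ 2 + m + 1 : ℕ) : ZMod 9) = 0 := (ZMod.natCast_eq_zero_iff _ _).mpr h9
  push_cast at h10
  have h11 : ∀ x : ZMod 9, x ^ 2 + x + 1 ≠ 0 := by decide
  exact h11 _ h10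

/-- the elements killed by a coprime factor -/
theorem tf_coprime {a b : ℕ} (h : Fintype.card G = a * b) (hab : Nat.Coprime a b) :
    (Tf G a).card ≤ a := by
  have hb : 0 < b := by
    rcases Nat.eq_zero_or_pos b with h1 | h1
    · rw [h1, mul_zero] at h
      exact absurd h Fintype.card_ne_zero
    · exact h1
  have h1 : b ≤ (Tf G b).card :=
    Nat.le_of_dvd (card_Tf_pos b) (dvd_card_Tf (by rw [h]; exact Nat.dvd_mul_left b a))
  have h2 : (Tf G a ×ˢ Tf G b).card ≤ (univ : Finset G).card := by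
    refine Finset.card_le_card_of_injOn (fun z : G × G => z.1 + z.2)
      (fun _ _ => Finset.mem_coe.mpr (Finset.mem_univ _)) ?_
    intro z hz y hy he
    rw [Finset.mem_coe, Finset.mem_product, mem_Tf, mem_Tf] at hz hy
    have he' : z.1 + z.2 = y.1 + y.2 := he
    have h3 : z.1 - y.1 = y.2 - z.2 := by rw [sub_eq_sub_iff_add_eq_add, he', add_comm]
    have h4 : a • (z.1 - y.1) = 0 := by rw [smul_sub, hz.1, hy.1, sub_zero]
    have h5 : b • (z.1 - y.1) = 0 := by rw [h3, smul_sub, hz.2, hy.2, sub_zero]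
    have h6 : z.1 - y.1 = 0 := by
      have h7 := Nat.dvd_gcd (addOrderOf_dvd_of_nsmul_eq_zero h4)
        (addOrderOf_dvd_of_nsmul_eq_zero h5)
      rw [hab] at h7
      exact AddMonoid.addOrderOf_eq_one_iff.mp (Nat.dvd_one.mp h7)
    refine Prod.ext (sub_eq_zero.mp h6) ?_
    rw [h6] at h3
    exact (sub_eq_zero.mp h3.symm).symm
  rw [Finset.card_product, Finset.card_univ, h] at h2
  by_contra hcon
  push Not at hcon
  have : a * b < (Tf G a).card * (Tf G b).card :=
    lt_of_lt_of_le (Nat.mul_lt_mul_of_pos_right hcon hb) (Nat.mul_le_mul_left _ h1)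
  omega

theorem contra {m s1 s2 : ℕ} {E : Finset G} (h : IsPDS m E) (hm : 2 ≤ m)
    (hdiv : ∀ d, d ∣ m → ∀ e ∈ E, d • e ∈ E)
    (h1 : ∀ e ∈ E, s1 • e ∈ E) (h2 : ∀ e ∈ E, s2 • e ∈ E)
    (hA : (Fx G s1).card < Fintype.card G) (hB : (Fx G s2).card < Fintype.card G)
    (hprod : Fintype.card G ≤ (Fx G s1).card * (Fx G s2).card)
    (hAB : ∀ x : G, s1 • x = x → s2 • x = x → 3 • x = 0)
    (h3 : ∀ x : G, 3 • x = 0 → s2 • x = s1 • x)
    (hle : (Fx G s2).card ≤ (Fx G s1).card) : False := by
  have hA1 : 1 < (Fx G s1).card := by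
    by_contra hc
    push Not at hc
    have : (Fx G s1).card * (Fx G s2).card ≤ 1 * (Fx G s2).card := Nat.mul_le_mul_right _ hc
    omega
  have hB1 : 1 < (Fx G s2).card := by
    by_contra hc
    push Not at hc
    have : (Fx G s1).card * (Fx G s2).card ≤ (Fx G s1).card * 1 := Nat.mul_le_mul_left _ hc
    omega
  obtain ⟨m1, hm1, hd1, hf1⟩ := closure' h h1 hA1
  obtain ⟨m2, hm2, hd2, hf2⟩ := closure' h h2 hB1
  have hN : Fintype.card G = m ^ 2 + m + 1 := h.cardG
  have hne : ∀ s : ℕ, (Fx G s).card ≤ m + 1 → (Fx G s).card ≤ m := by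
    intro s hs
    by_contra hc
    have h4 : (Fx G s).card = m + 1 := by omega
    have h5 := Fx_card_dvd (G := G) s
    rw [h4, hN] at h5
    have h7 : m + 1 ∣ 1 := by
      have := Nat.dvd_gcd dvd_rfl h5
      rwa [coprime_succ m] at this
    have := Nat.dvd_one.mp h7
    omega
  have hA2 : m1 ^ 2 = m := by
    rcases bruck h h1 hf1 hd1 hA with h4 | h4
    · exact h4
    · exfalso
      have h5 : (Fx G s1).card ≤ m := hne s1 (by omega)
      have h6 : (Fx G s2).card ≤ m := hle.trans h5
      have h7 : (Fx G s1).card * (Fx G s2).card ≤ m * m := Nat.mul_le_mul h5 h6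
      nlinarith
  obtain ⟨v, rfl⟩ : ∃ v, m1 = v + 1 := ⟨m1 - 1, by omega⟩
  have hv : 1 ≤ v := by
    by_contra hc
    have : v = 0 := by omega
    rw [this] at hA2
    omega
  have hNab : Fintype.card G = (v ^ 2 + 3 * v + 3) * (v ^ 2 + v + 1) := by
    rw [hN, ← hA2]; ring
  have hAa : (Fx G s1).card = v ^ 2 + 3 * v + 3 := by rw [hf1]; ring
  have hBb : v ^ 2 + v + 1 ≤ (Fx G s2).card := by
    rw [hNab, hAa] at hprod
    exact Nat.le_of_mul_le_mul_left hprod (by positivity)
  have hm2v : v ≤ m2 := by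
    by_contra hc
    push Not at hc
    have : m2 + 1 ≤ v := hc
    rw [hf2] at hBb
    nlinarith
  have hm2v' : m2 ≤ v + 1 := by
    by_contra hc
    push Not at hc
    have : v + 2 ≤ m2 := hc
    rw [hf2, hAa] at hle
    nlinarith
  rcases (show m2 = v ∨ m2 = v + 1 by omega) with h4 | h4
  · -- (i)
    rw [h4] at hd2 hf2
    have hvm : v + 1 ∣ m := by rw [← hA2]; exact dvd_pow_self _ (by norm_num)
    have hneg : ∀ e ∈ DF E s2, -e ∈ E := by
      intro e he
      rw [mem_DF] at he
      have h5 := Fx_lagrange he.2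
      rw [hf2] at h5
      have h6 : (v + 1) ^ 3 • e = -e := by
        have h7 : (v + 1) ^ 3 • e + e = (v + 2) • ((v ^ 2 + v + 1) • e) := by
          rw [← mul_smul]
          nth_rewrite 2 [← one_smul ℕ e]
          rw [← add_smul]
          congr 1
          ring
        rw [h5, smul_zero] at h7
        exact eq_neg_of_add_eq_zero_left h7
      rw [← h6]
      have h8 : (v + 1) ^ 3 • e = (v + 1) • ((v + 1) • ((v + 1) • e)) := by
        rw [← mul_smul, ← mul_smul]; congr 1; ring
      rw [h8]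
      exact hdiv _ hvm _ (hdiv _ hvm _ (hdiv _ hvm _ he.1))
    have hsum : ∀ e ∈ DF E s2, ∀ e' ∈ DF E s2, e ≠ e' → e + e' = 0 := by
      intro e he e' he' hee
      by_contra hc
      have h5 := pds_uniq h (mem_DF.mp he).1 (hneg e' he') (mem_DF.mp he').1 (hneg e he)
        (fun h6 => hc (by rw [h6, neg_add_cancel])) (by rw [sub_neg_eq_add, sub_neg_eq_add, add_comm])
      exact hee h5.1
    have hcard : (DF E s2).card ≤ 2 := by
      by_contra hc
      push Not at hc
      obtain ⟨a, b, c, ha, hb, hc', hab, hac, hbc⟩ := Finset.two_lt_card_iff.mp hc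
      have h5 := hsum a ha b hb hab
      have h6 := hsum a ha c hc' hac
      exact hbc (add_left_cancel (h5.trans h6.symm))
    have hv1 : v = 1 := by omega
    subst hv1
    have hz : Fx G s2 ⊆ {0} := by
      intro x hx
      rw [mem_Fx] at hx
      have h5 := Fx_lagrange hx
      rw [hf2] at h5
      have h5' : 3 • x = 0 := h5
      have h6 := h3 x h5'
      have h7 : s1 • x = x := by rw [← h6, hx]
      have h8 := Fx_lagrange h7
      rw [hAa] at h8
      have h8' : 7 • x = 0 := h8
      rw [Finset.mem_singleton]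
      have h9 : (7 : ℕ) • x = x + (2 : ℕ) • ((3 : ℕ) • x) := by module
      rw [h8', h5', smul_zero, add_zero] at h9
      exact h9.symm
    have := Finset.card_le_card hz
    rw [Finset.card_singleton] at this
    omega
  · -- (ii)
    rw [h4] at hd2 hf2
    have hco : Nat.Coprime (v ^ 2 + 3 * v + 3) (v ^ 2 + v + 1) := by
      have e1 : v ^ 2 + 3 * v + 3 = 2 * (v + 1) + (v ^ 2 + v + 1) := by ring
      rw [e1, Nat.coprime_add_self_left]
      apply Nat.Coprime.mul_left
      · have : v ^ 2 + v + 1 = 2 * (v * (v + 1) / 2) + 1 := by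
          rw [Nat.mul_div_cancel' (Nat.even_mul_succ_self v).two_dvd]; ring
        rw [this]
        exact (Nat.coprime_mul_left_add_right 2 1 _).mpr (Nat.coprime_one_right 2)
      · exact coprime_succ v
    have h5 := tf_coprime hNab hco
    have h6 : Fx G s1 = Tf G (v ^ 2 + 3 * v + 3) := by
      apply Finset.eq_of_subset_of_card_le
      · intro x hx
        rw [mem_Fx] at hx
        rw [mem_Tf, ← hAa]
        exact Fx_lagrange hx
      · rw [hAa]; exact h5
    have hBa : (Fx G s2).card = v ^ 2 + 3 * v + 3 := by rw [hf2]; ring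
    have h7 : Fx G s2 = Tf G (v ^ 2 + 3 * v + 3) := by
      apply Finset.eq_of_subset_of_card_le
      · intro x hx
        rw [mem_Fx] at hx
        rw [mem_Tf, ← hBa]
        exact Fx_lagrange hx
      · rw [hBa]; exact h5
    have h8 : Fx G s1 ⊆ Tf G 3 := by
      intro x hx
      have hx2 : x ∈ Fx G s2 := by rw [h7, ← h6]; exact hx
      rw [mem_Fx] at hx hx2
      rw [mem_Tf]
      exact hAB x hx hx2
    have h9 := (Finset.card_le_card h8).trans (tf3 h)
    rw [hAa] at h9
    nlinarith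

theorem nomix {m q : ℕ} {E : Finset G} (h : IsPDS m E) (hm : 2 ≤ m)
    (hq : ∀ e ∈ E, q • e ∈ E) (hk : ∀ x : G, (q ^ 2 + q + 1) • x = 0) :
    (∀ x : G, m • x = q • x) ∨ (∀ x : G, m • x = q ^ 2 • x) := by
  have hq3 : ∀ x : G, q ^ 3 • x = x := by
    intro x
    have h1 : q ^ 3 • x + (q ^ 2 + q + 1) • x = q • ((q ^ 2 + q + 1) • x) + x := by
      rw [← mul_smul, ← add_smul]
      nth_rewrite 3 [← one_smul ℕ x]
      rw [← add_smul]
      congr 1
      ring
    rw [hk, add_zero, smul_zero, zero_add] at h1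
    exact h1
  have hinjq : ∀ x : G, q • x = 0 → x = 0 := by
    intro x hx
    rw [← hq3 x, show q ^ 3 = q ^ 2 * q by ring, mul_smul, hx, smul_zero]
  obtain ⟨E', h', hs, hq'⟩ := exists_zero_fix h hq hinjq
  have hdiv := mult_div h' hs (by omega)
  have ht1 : ∀ e ∈ E', (m * q ^ 2) • e ∈ E' := by
    intro e he
    rw [mul_smul, pow_two, mul_smul]
    exact hdiv m dvd_rfl _ (hq' _ (hq' _ he))
  have ht2 : ∀ e ∈ E', (m * q) • e ∈ E' := by
    intro e he
    rw [mul_smul]
    exact hdiv m dvd_rfl _ (hq' _ he)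
  have hF1 : ∀ x : G, (m * q ^ 2) • x = x ↔ m • x = q • x := by
    intro x
    constructor
    · intro hx
      have h1 : q • ((m * q ^ 2) • x) = m • (q ^ 3 • x) := by
        rw [← mul_smul, ← mul_smul]; congr 1; ring
      rw [hx, hq3] at h1
      exact h1.symm
    · intro hx
      have h1 : (m * q ^ 2) • x = q ^ 2 • (m • x) := by rw [← mul_smul]; congr 1; ring
      rw [h1, hx, ← mul_smul, ← pow_succ, hq3]
  have hF2 : ∀ x : G, (m * q) • x = x ↔ m • x = q ^ 2 • x := by
    intro x
    constructor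
    · intro hx
      have h1 : q ^ 2 • ((m * q) • x) = m • (q ^ 3 • x) := by
        rw [← mul_smul, ← mul_smul]; congr 1; ring
      rw [hx, hq3] at h1
      exact h1.symm
    · intro hx
      have h1 : (m * q) • x = q • (m • x) := by rw [← mul_smul]; congr 1; ring
      rw [h1, hx, ← mul_smul, ← pow_succ', hq3]
  have hprod : Fintype.card G ≤ (Fx G (m * q ^ 2)).card * (Fx G (m * q)).card := by
    have h1 := Finset.card_le_mul_card_image (f := fun x : G => m • x - q • x) (univ : Finset G)
      (Fx G (m * q ^ 2)).card (by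
        intro y hy
        obtain ⟨x0, hx0, rfl⟩ := Finset.mem_image.mp hy
        refine Finset.card_le_card_of_injOn (fun x => x - x0) ?_ ?_
        · intro x hx
          have hx' := (Finset.mem_filter.mp (Finset.mem_coe.mp hx)).2
          show x - x0 ∈ (Fx G (m * q ^ 2) : Set G)
          rw [Finset.mem_coe, mem_Fx, hF1, smul_sub, smul_sub]
          have hx'' : m • x - q • x = m • x0 - q • x0 := hx'
          rw [sub_eq_sub_iff_add_eq_add] at hx'' ⊢
          rw [hx'', add_comm]
        · intro x _ y _ hxy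
          exact sub_left_injective hxy)
    rw [Finset.card_univ] at h1
    refine h1.trans (Nat.mul_le_mul_left _ (Finset.card_le_card ?_))
    intro y hy
    obtain ⟨x, hx, rfl⟩ := Finset.mem_image.mp hy
    rw [mem_Fx, hF2]
    have h2 : (m ^ 2 + m + 1) • x = 0 := by rw [← h.cardG]; exact card_nsmul_eq_zero
    have h3 := hk (m • x)
    have h4 := hq3 x
    rw [← sub_eq_zero]
    have h5 : m • (m • x - q • x) - q ^ 2 • (m • x - q • x) =
        (m ^ 2 + m + 1) • x - (q ^ 2 + q + 1) • (m • x) + (q ^ 3 • x - x) := by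
      module
    rw [h5, h2, h3, h4, sub_self, sub_self, add_zero]
  have hthree : ∀ x : G, 3 • x = 0 → q • x = x := by
    intro x hx
    have hz := hk x
    obtain ⟨j, hj⟩ : ∃ j, q = 3 * j ∨ q = 3 * j + 1 ∨ q = 3 * j + 2 := ⟨q / 3, by omega⟩
    have h3j : ∀ i : ℕ, (3 * i) • x = 0 := by
      intro i; rw [mul_comm, mul_smul, hx, smul_zero]
    rcases hj with hj | hj | hj
    · have e1 : q ^ 2 + q + 1 = 3 * (3 * j ^ 2 + j) + 1 := by rw [hj]; ring
      rw [e1, add_smul, h3j, zero_add, one_smul] at hz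
      rw [hz, smul_zero]
    · rw [hj, add_smul, h3j, zero_add, one_smul]
    · have e1 : q ^ 2 + q + 1 = 3 * (3 * j ^ 2 + 5 * j + 2) + 1 := by rw [hj]; ring
      rw [e1, add_smul, h3j, zero_add, one_smul] at hz
      rw [hz, smul_zero]
  have h3 : ∀ x : G, 3 • x = 0 → (m * q) • x = (m * q ^ 2) • x := by
    intro x hx
    have h1 := hthree x hx
    rw [pow_two, mul_smul, mul_smul, mul_smul, h1, h1]
  have hAB : ∀ x : G, (m * q ^ 2) • x = x → (m * q) • x = x → 3 • x = 0 := by
    intro x hx1 hx2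
    have h1 : q • x = x := by
      have h2 : (m * q ^ 2) • x = q • ((m * q) • x) := by rw [← mul_smul]; congr 1; ring
      rw [hx1, hx2] at h2
      exact h2.symm
    have h2 : (q ^ 2 + q + 1) • x = 3 • x := by
      rw [add_smul, add_smul, pow_two, mul_smul, h1, h1]
      rw [one_smul]
      module
    rw [← h2]
    exact hk x
  by_contra hcon
  push Not at hcon
  obtain ⟨⟨x, hx⟩, y, hy⟩ := hcon
  have hA : (Fx G (m * q ^ 2)).card < Fintype.card G := by
    rw [← Finset.card_univ]
    apply Finset.card_lt_card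
    rw [Finset.ssubset_univ_iff]
    intro he
    apply hx
    rw [← hF1, ← mem_Fx, he]
    exact Finset.mem_univ _
  have hB : (Fx G (m * q)).card < Fintype.card G := by
    rw [← Finset.card_univ]
    apply Finset.card_lt_card
    rw [Finset.ssubset_univ_iff]
    intro he
    apply hy
    rw [← hF2, ← mem_Fx, he]
    exact Finset.mem_univ _
  rcases le_total (Fx G (m * q)).card (Fx G (m * q ^ 2)).card with hle | hle
  · exact contra h' hm hdiv ht1 ht2 hA hB hprod hAB h3 hle
  · exact contra h' hm hdiv ht2 ht1 hB hA (by rw [mul_comm]; exact hprod)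
      (fun x h1 h2 => hAB x h2 h1) (fun x hx => (h3 x hx).symm) hle

/-- the same for a difference set in the subgroup of the elements killed by `k` -/
theorem transfer {m q k : ℕ} {E : Finset G} (hm : 2 ≤ m) (hk : k = q ^ 2 + q + 1)
    (hc : (Tf G k).card = m ^ 2 + m + 1) (hE : E.card = m + 1) (hEk : ∀ x ∈ E, k • x = 0)
    (hd : ∀ g : G, g ≠ 0 → k • g = 0 →
      ((E ×ˢ E).filter (fun p : G × G => p.1 - p.2 = g)).card = 1)
    (hq : ∀ e ∈ E, q • e ∈ E) :
    (∀ x : G, k • x = 0 → m • x = q • x) ∨ (∀ x : G, k • x = 0 → m • x = q ^ 2 • x) := by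
  classical
  have hpds : IsPDS m (univ.filter (fun x : tor G k => (x : G) ∈ E)) := by
    refine ⟨?_, ?_, ?_⟩
    · rw [← Nat.card_eq_fintype_card, card_tor, hc]
    · rw [← hE]
      refine Finset.card_bij (fun x _ => (x : G)) ?_ ?_ ?_
      · intro x hx
        exact (Finset.mem_filter.mp hx).2
      · intro x _ y _ hxy
        exact Subtype.ext hxy
      · intro y hy
        exact ⟨⟨y, hEk y hy⟩, Finset.mem_filter.mpr ⟨Finset.mem_univ _, hy⟩, rfl⟩
    · intro g hg
      rw [← hd (g : G) (fun h0 => hg (Subtype.ext h0)) g.2]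
      refine Finset.card_bij (fun z _ => ((z.1 : G), (z.2 : G))) ?_ ?_ ?_
      · intro z hz
        rw [Finset.mem_filter, Finset.mem_product] at hz ⊢
        exact ⟨⟨(Finset.mem_filter.mp hz.1.1).2, (Finset.mem_filter.mp hz.1.2).2⟩,
          congrArg Subtype.val hz.2⟩
      · intro z _ y _ hzy
        rw [Prod.mk.injEq] at hzy
        exact Prod.ext (Subtype.ext hzy.1) (Subtype.ext hzy.2)
      · intro z hz
        rw [Finset.mem_filter, Finset.mem_product] at hz
        refine ⟨(⟨z.1, hEk _ hz.1.1⟩, ⟨z.2, hEk _ hz.1.2⟩), ?_, rfl⟩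
        rw [Finset.mem_filter, Finset.mem_product]
        exact ⟨⟨Finset.mem_filter.mpr ⟨Finset.mem_univ _, hz.1.1⟩,
          Finset.mem_filter.mpr ⟨Finset.mem_univ _, hz.1.2⟩⟩, Subtype.ext hz.2⟩
  have h1 := nomix hpds hm (q := q) (by
      intro e he
      rw [Finset.mem_filter] at he ⊢
      exact ⟨Finset.mem_univ _, hq _ he.2⟩)
    (by
      intro x
      apply Subtype.ext
      rw [← hk]
      exact x.2)
  rcases h1 with h1 | h1
  · left
    intro x hx
    exact congrArg Subtype.val (h1 ⟨x, hx⟩)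
  · right
    intro x hx
    exact congrArg Subtype.val (h1 ⟨x, hx⟩)

end SubPl
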