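import Mathlib
import Pool.Agent.Lib.MP_d51818_co.Sub10

/-!
# MP_d51818_co: the arithmetic of the orders of the subplanes
-/

set_option autoImplicit false
set_option linter.unusedSectionVars false

namespace SubPl

open Finset PDS7

variable {G : Type} [AddCommGroup G] [Fintype G] [DecidableEq G]

theorem rad1 {q k m : ℕ} (h : k ∣ (Tf G k).card) (hx : ∀ x : G, k • x = 0 → m • x = q • x) :
    ∀ l : ℕ, l.Prime → l ∣ k → (l : ℤ) ∣ (m : ℤ) - q := by
  intro l hl hlk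
  have hF : Fact l.Prime := ⟨hl⟩
  obtain ⟨x, hx'⟩ := exists_prime_addOrderOf_dvd_card' (G := tor G k) l
    (by rw [card_tor]; exact hlk.trans h)
  have h1 := hx (x : G) x.2
  rw [← hx', addOrderOf_dvd_iff_zsmul_eq_zero]
  apply Subtype.ext
  rw [AddSubgroup.coe_zsmul, sub_smul, natCast_zsmul, natCast_zsmul, h1, sub_self]
  rfl

theorem not_nine {q : ℕ} : ¬ 9 ∣ q ^ 2 + q + 1 := by
  intro h
  have h10 : ((q ^ 2 + q + 1 : ℕ) : ZMod 9) = 0 := (ZMod.natCast_eq_zero_iff _ _).mpr h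
  push_cast at h10
  have h11 : ∀ x : ZMod 9, x ^ 2 + x + 1 ≠ 0 := by decide
  exact h11 _ h10

theorem k_dvd {q : ℕ} {A B C : ℤ} (hAB : A * B = C * ((q ^ 2 + q + 1 : ℕ) : ℤ))
    (hs : (A - B) ^ 2 = (2 * q + 1) ^ 2)
    (hr : ∀ l : ℕ, l.Prime → l ∣ q ^ 2 + q + 1 → (l : ℤ) ∣ A) :
    ((q ^ 2 + q + 1 : ℕ) : ℤ) ∣ A := by
  rw [Int.natCast_dvd, Nat.dvd_iff_prime_pow_dvd_dvd]
  intro l i hl hli
  rw [← Int.natCast_dvd]
  rcases Nat.eq_zero_or_pos i with rfl | hi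
  · rw [pow_zero]; exact one_dvd _
  have hlk : l ∣ q ^ 2 + q + 1 := (dvd_pow_self l hi.ne').trans hli
  by_cases hl3 : l = 3
  · subst hl3
    have hi1 : i = 1 := by
      by_contra hne
      have : 2 ≤ i := by omega
      exact not_nine ((pow_dvd_pow 3 this).trans hli)
    rw [hi1, pow_one]
    exact hr 3 hl hlk
  · have hlz : Prime (l : ℤ) := Nat.prime_iff_prime_int.mp hl
    have hB : ¬ (l : ℤ) ∣ B := by
      intro hB
      have h1 : (l : ℤ) ∣ (A - B) ^ 2 :=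
        (dvd_sub (hr l hl hlk) hB).trans (dvd_pow_self _ (by norm_num))
      rw [hs] at h1
      have h2 : (l : ℤ) ∣ ((q ^ 2 + q + 1 : ℕ) : ℤ) := by exact_mod_cast hlk
      have h3 : (l : ℤ) ∣ 3 := by
        have h4 := dvd_sub (h2.mul_left 4) h1
        have h5 : 4 * ((q ^ 2 + q + 1 : ℕ) : ℤ) - (2 * q + 1) ^ 2 = 3 := by push_cast; ring
        rwa [h5] at h4
      have h6 : l ∣ 3 := by exact_mod_cast h3
      rcases (Nat.dvd_prime Nat.prime_three).mp h6 with h7 | h7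
      · exact hl.one_lt.ne' h7
      · exact hl3 h7
    have h1 : (l : ℤ) ^ i ∣ A * B := by
      rw [hAB]
      have : (l : ℤ) ^ i ∣ ((q ^ 2 + q + 1 : ℕ) : ℤ) := by exact_mod_cast hli
      exact this.mul_left _
    have h2 : (l : ℤ) ^ i ∣ A :=
      (hlz.coprime_iff_not_dvd.mpr hB).pow_left.dvd_of_dvd_mul_right h1
    rw [Nat.cast_pow]
    exact h2

theorem exists_t {q m c : ℕ} (hcm : c * (q ^ 2 + q + 1) = m ^ 2 + m + 1)
    (hr : (∀ l : ℕ, l.Prime → l ∣ q ^ 2 + q + 1 → (l : ℤ) ∣ (m : ℤ) - q) ∨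
      (∀ l : ℕ, l.Prime → l ∣ q ^ 2 + q + 1 → (l : ℤ) ∣ (m : ℤ) + q + 1)) :
    ∃ t : ℤ, (c : ℤ) = (q ^ 2 + q + 1) * t ^ 2 + (2 * q + 1) * t + 1 := by
  have hk0 : ((q : ℤ) ^ 2 + q + 1) ≠ 0 := by positivity
  have hcz : (c : ℤ) * ((q : ℤ) ^ 2 + q + 1) = (m : ℤ) ^ 2 + m + 1 := by exact_mod_cast hcm
  rcases hr with hr | hr
  · obtain ⟨t, ht⟩ := k_dvd (C := (c : ℤ) - 1) (B := (m : ℤ) + q + 1)
      (by push_cast; linear_combination -hcz) (by ring) hr
    push_cast at ht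
    refine ⟨t, ?_⟩
    have hm : (m : ℤ) = q + ((q : ℤ) ^ 2 + q + 1) * t := by linarith
    apply mul_right_cancel₀ hk0
    rw [hcz, hm]
    ring
  · obtain ⟨t, ht⟩ := k_dvd (C := (c : ℤ) - 1) (B := (m : ℤ) - q)
      (by push_cast; linear_combination -hcz) (by ring) hr
    push_cast at ht
    refine ⟨-t, ?_⟩
    have hm : (m : ℤ) = -q - 1 + ((q : ℤ) ^ 2 + q + 1) * t := by linarith
    apply mul_right_cancel₀ hk0
    rw [hcz, hm]
    ring

theorem t_ge {q c : ℕ} {t : ℤ} (hc : 1 < c)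
    (hct : (c : ℤ) = (q ^ 2 + q + 1) * t ^ 2 + (2 * q + 1) * t + 1)
    (hl : ∀ l : ℕ, l.Prime → l ∣ c → l ∣ q ^ 2 + q + 1) : 2 < |t| := by
  by_contra hcon
  push Not at hcon
  have hl' : ∀ l : ℕ, l.Prime → l ∣ c →
      (l : ℤ) ∣ (q : ℤ) ^ 2 + q + 1 ∧ (l : ℤ) ∣ (2 * q + 1) * t + 1 := by
    intro l h1 h2
    have h3 : (l : ℤ) ∣ (q : ℤ) ^ 2 + q + 1 := by exact_mod_cast hl l h1 h2
    have h4 : (l : ℤ) ∣ (c : ℤ) := by exact_mod_cast h2
    refine ⟨h3, ?_⟩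
    rw [hct] at h4
    have h5 := dvd_sub h4 (h3.mul_right (t ^ 2))
    have h6 : ((q : ℤ) ^ 2 + q + 1) * t ^ 2 + (2 * q + 1) * t + 1 - ((q : ℤ) ^ 2 + q + 1) * t ^ 2 =
      (2 * q + 1) * t + 1 := by ring
    rwa [h6] at h5
  have hodd : ¬ (2 : ℤ) ∣ (q : ℤ) ^ 2 + q + 1 := by
    intro h
    have h1 : 2 ∣ q ^ 2 + q + 1 := by exact_mod_cast h
    have h2 : q ^ 2 + q + 1 = 2 * (q * (q + 1) / 2) + 1 := by
      rw [Nat.mul_div_cancel' (Nat.even_mul_succ_self q).two_dvd]; ring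
    omega
  -- a prime dividing `q ^ 2 + q + 1` and one of `2 q + 2`, `2 q` is impossible
  have hone : ∀ l : ℕ, l.Prime → (l : ℤ) ∣ (q : ℤ) ^ 2 + q + 1 →
      ((l : ℤ) ∣ 2 * ((q : ℤ) + 1) ∨ (l : ℤ) ∣ 2 * (q : ℤ)) → False := by
    intro l h1 h2 h3
    have hlz : Prime (l : ℤ) := Nat.prime_iff_prime_int.mp h1
    have h4 : ¬ (l : ℤ) ∣ 2 := by
      intro h5
      have h6 : l ∣ 2 := by exact_mod_cast h5
      have h7 : l = 2 := (Nat.prime_dvd_prime_iff_eq h1 Nat.prime_two).mp h6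
      rw [h7] at h2
      exact hodd (by exact_mod_cast h2)
    have h5 : (l : ℤ) ∣ 1 := by
      rcases h3 with h3 | h3
      · have h6 := (hlz.dvd_or_dvd h3).resolve_left h4
        have h7 := dvd_sub h2 (h6.mul_right (q : ℤ))
        have h8 : (q : ℤ) ^ 2 + q + 1 - (q + 1) * q = 1 := by ring
        rwa [h8] at h7
      · have h6 := (hlz.dvd_or_dvd h3).resolve_left h4
        have h7 := dvd_sub h2 (h6.mul_right ((q : ℤ) + 1))
        have h8 : (q : ℤ) ^ 2 + q + 1 - q * (q + 1) = 1 := by ring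
        rwa [h8] at h7
    exact hlz.not_unit (isUnit_of_dvd_one h5)
  have habs := abs_le.mp hcon
  obtain ⟨l, hlp, hlc⟩ := Nat.exists_prime_and_dvd (show c ≠ 1 by omega)
  -- the case `t = 2` or `t = -2`
  have htwo : (t = 2 ∨ t = -2) → False := by
    intro ht
    have h13 : ∀ l : ℕ, l.Prime → l ∣ c → l = 13 := by
      intro l h1 h2
      obtain ⟨h3, h4⟩ := hl' l h1 h2
      have h5 : (l : ℤ) ∣ 13 := by
        rcases ht with ht | ht
        · rw [ht] at h4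
          have h6 := dvd_sub (h3.mul_left 16) (h4.mul_right (4 * (q : ℤ) + 1))
          have h7 : 16 * ((q : ℤ) ^ 2 + q + 1) - ((2 * q + 1) * 2 + 1) * (4 * (q : ℤ) + 1) = 13 := by
            ring
          rwa [h7] at h6
        · rw [ht] at h4
          have h6 := dvd_add (h3.mul_left 16) (h4.mul_right (4 * (q : ℤ) + 3))
          have h7 : 16 * ((q : ℤ) ^ 2 + q + 1) + ((2 * q + 1) * (-2) + 1) * (4 * (q : ℤ) + 3) =
              13 := by
            ring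
          rwa [h7] at h6
      have h6 : l ∣ 13 := by exact_mod_cast h5
      exact (Nat.prime_dvd_prime_iff_eq h1 (by norm_num)).mp h6
    have h5 := Nat.eq_prime_pow_of_unique_prime_dvd (show c ≠ 0 by omega) (fun {d} h1 h2 => h13 d h1 h2)
    have h6 : c % 4 = 1 := by
      rw [h5, Nat.pow_mod]
      norm_num
    have h7 : (c : ℤ) % 4 = 1 := by exact_mod_cast h6
    rcases ht with ht | ht
    · rw [hct, ht] at h7
      ring_nf at h7
      omega
    · rw [hct, ht] at h7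
      ring_nf at h7
      omega
  obtain ⟨h3, h4⟩ := hl' l hlp hlc
  have : t = -2 ∨ t = -1 ∨ t = 0 ∨ t = 1 ∨ t = 2 := by omega
  rcases this with ht | ht | ht | ht | ht
  · exact htwo (Or.inr ht)
  · apply hone l hlp h3
    right
    rw [ht] at h4
    have h5 : (2 * (q : ℤ) + 1) * (-1) + 1 = -(2 * q) := by ring
    rw [h5, dvd_neg] at h4
    exact h4
  · rw [ht] at hct
    have : (c : ℤ) = 1 := by rw [hct]; ring
    have : c = 1 := by exact_mod_cast this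
    omega
  · apply hone l hlp h3
    left
    rw [ht] at h4
    have h5 : (2 * (q : ℤ) + 1) * 1 + 1 = 2 * (q + 1) := by ring
    rwa [h5] at h4
  · exact htwo (Or.inl ht)

theorem c_ge {q c : ℕ} {t : ℤ} (ht : 2 < |t|)
    (hct : (c : ℤ) = (q ^ 2 + q + 1) * t ^ 2 + (2 * q + 1) * t + 1) :
    9 * q ^ 2 + 3 * q + 7 ≤ c := by
  have h1 : (c : ℤ) = 9 * q ^ 2 + 3 * q + 7 +
      (t + 3) * ((q ^ 2 + q + 1) * (t - 3) + (2 * q + 1)) := by rw [hct]; ring
  have h2 : 0 ≤ (t + 3) * (((q : ℤ) ^ 2 + q + 1) * (t - 3) + (2 * q + 1)) := by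
    rcases lt_abs.mp ht with h3 | h3
    · apply mul_nonneg (by omega)
      have : 0 ≤ t - 3 := by omega
      positivity
    · apply mul_nonneg_of_nonpos_of_nonpos (by omega)
      have h4 : t - 3 ≤ -6 := by omega
      have h5 : ((q : ℤ) ^ 2 + q + 1) * (t - 3) ≤ ((q : ℤ) ^ 2 + q + 1) * (-6) :=
        mul_le_mul_of_nonneg_left h4 (by positivity)
      nlinarith [sq_nonneg (q : ℤ)]
  have h3 : ((9 * q ^ 2 + 3 * q + 7 : ℕ) : ℤ) ≤ (c : ℤ) := by
    push_cast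
    linarith
  exact_mod_cast h3

end SubPl
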