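import Mathlib

/-!
# MP_d51818_co: a finite check
-/

set_option autoImplicit false

namespace SubPl

/-- the two values of `c` for `t = s` and `t = -s` do not divide `k ^ 27` -/
def gd (k b s : ℕ) : Bool :=
  (!(Nat.beq (k ^ 27 % (k * s ^ 2 + b * s + 1)) 0)) &&
  (!(Nat.beq (k ^ 27 % (k * s ^ 2 + 1 - b * s)) 0))

def inner (k b : ℕ) : ℕ → Bool
  | 0 => true
  | s + 1 => gd k b (s + 3) && inner k b s

def outer : ℕ → Bool
  | 0 => true
  | j + 1 => inner ((j + 3) ^ 2 + (j + 3) + 1) (2 * (j + 3) + 1) (10000 / (j + 2)) && outer j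

theorem inner_spec {k b : ℕ} : ∀ {S : ℕ}, inner k b S = true → ∀ s < S, gd k b (s + 3) = true := by
  intro S
  induction S with
  | zero => intro _ s hs; omega
  | succ S ih =>
    intro h s hs
    rw [inner, Bool.and_eq_true] at h
    rcases Nat.lt_succ_iff_lt_or_eq.mp hs with h1 | h1
    · exact ih h.2 s h1
    · rw [h1]; exact h.1

theorem outer_spec : ∀ {J : ℕ}, outer J = true → ∀ j < J,
    inner ((j + 3) ^ 2 + (j + 3) + 1) (2 * (j + 3) + 1) (10000 / (j + 2)) = true := by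
  intro J
  induction J with
  | zero => intro _ s hs; omega
  | succ J ih =>
    intro h s hs
    rw [outer, Bool.and_eq_true] at h
    rcases Nat.lt_succ_iff_lt_or_eq.mp hs with h1 | h1
    · exact ih h.2 s h1
    · rw [h1]; exact h.1

theorem outer_true : outer 3331 = true := by decide +kernel

theorem dvd_pow27 {c k : ℕ} (hc : 0 < c) (hc8 : c ≤ 100000000)
    (hl : ∀ l : ℕ, l.Prime → l ∣ c → l ∣ k) : c ∣ k ^ 27 := by
  rw [Nat.dvd_iff_prime_pow_dvd_dvd]
  intro l i hl' hli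
  rcases Nat.eq_zero_or_pos i with rfl | hi
  · rw [pow_zero]; exact one_dvd _
  have h1 : l ∣ k := hl l hl' ((dvd_pow_self l hi.ne').trans hli)
  have h2 : i ≤ 27 := by
    by_contra hcon
    push Not at hcon
    have h3 : l ^ i ≤ c := Nat.le_of_dvd hc hli
    have h4 : 2 ^ i ≤ l ^ i := Nat.pow_le_pow_left hl'.two_le i
    have h5 : 2 ^ 27 ≤ 2 ^ i := Nat.pow_le_pow_right (by norm_num) hcon.le
    norm_num at h5
    omega
  exact (pow_dvd_pow_of_dvd h1 i).trans (pow_dvd_pow k h2)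

/-- no `c` below `10 ^ 8` for `q ≥ 3` -/
theorem small {q c : ℕ} {t : ℤ} (hq : 3 ≤ q) (ht : 2 < |t|)
    (hct : (c : ℤ) = (q ^ 2 + q + 1) * t ^ 2 + (2 * q + 1) * t + 1)
    (hge : 9 * q ^ 2 + 3 * q + 7 ≤ c)
    (hl : ∀ l : ℕ, l.Prime → l ∣ c → l ∣ q ^ 2 + q + 1) : 100000000 < c := by
  by_contra hcon
  push Not at hcon
  have hc0 : 0 < c := by omega
  have hdv := dvd_pow27 hc0 hcon hl
  obtain ⟨j, rfl⟩ : ∃ j, q = j + 3 := ⟨q - 3, by omega⟩
  have hj : j < 3331 := by
    by_contra h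
    push Not at h
    nlinarith
  obtain ⟨s, hs⟩ : ∃ s : ℕ, |t| = s + 3 := ⟨(|t| - 3).toNat, by omega⟩
  have hqs : ((j : ℤ) + 2) * |t| ≤ 10000 := by
    have h1 : (((j : ℤ) + 2) * |t|) ^ 2 ≤ 10000 ^ 2 := by
      rw [mul_pow, sq_abs]
      have h2 : (c : ℤ) ≤ 10000 ^ 2 := by
        have : (c : ℤ) ≤ 100000000 := by exact_mod_cast hcon
        linarith
      have h3 : (c : ℤ) = ((j : ℤ) + 2) ^ 2 * t ^ 2 +
          (t * (3 * ((j : ℤ) + 3) * t + 2 * ((j : ℤ) + 3) + 1) + 1) := by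
        rw [hct]; push_cast; ring
      have h4 : 0 ≤ t * (3 * ((j : ℤ) + 3) * t + 2 * ((j : ℤ) + 3) + 1) := by
        rcases lt_abs.mp ht with h5 | h5
        · apply mul_nonneg (by omega)
          have : 0 ≤ t := by omega
          positivity
        · apply mul_nonneg_of_nonpos_of_nonpos (by omega)
          have h6 : t ≤ -1 := by omega
          have h7 : 3 * ((j : ℤ) + 3) * t ≤ 3 * ((j : ℤ) + 3) * (-1) :=
            mul_le_mul_of_nonneg_left h6 (by positivity)
          linarith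
      linarith
    exact abs_le_of_sq_le_sq' h1 (by norm_num) |>.2
  have hS : s < 10000 / (j + 2) := by
    have h1 : (s + 3) * (j + 2) ≤ 10000 := by
      rw [hs] at hqs
      have : ((s : ℤ) + 3) * (j + 2) ≤ 10000 := by linarith
      exact_mod_cast this
    have h2 : s + 3 ≤ 10000 / (j + 2) := (Nat.le_div_iff_mul_le (by omega)).mpr h1
    omega
  have hg := inner_spec (outer_spec outer_true j hj) s hS
  rw [gd, Bool.and_eq_true, Bool.not_eq_true', Bool.not_eq_true'] at hg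
  have hne : ∀ {x : ℕ}, Nat.beq x 0 = false → x ≠ 0 := by
    intro x hx h0
    rw [h0] at hx
    exact absurd hx (by decide)
  rcases lt_abs.mp ht with h5 | h5
  · have htt : t = s + 3 := by rw [← hs, abs_of_pos (by omega)]
    apply hne hg.1
    have : c = ((j + 3) ^ 2 + (j + 3) + 1) * (s + 3) ^ 2 + (2 * (j + 3) + 1) * (s + 3) + 1 := by
      rw [htt] at hct
      exact_mod_cast hct
    rw [← this]
    exact Nat.mod_eq_zero_of_dvd hdv
  · have htt : t = -(s + 3) := by rw [← hs, abs_of_neg (by omega), neg_neg]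
    apply hne hg.2
    have : c = ((j + 3) ^ 2 + (j + 3) + 1) * (s + 3) ^ 2 + 1 - (2 * (j + 3) + 1) * (s + 3) := by
      rw [htt] at hct
      have h6 : c + (2 * (j + 3) + 1) * (s + 3) =
          ((j + 3) ^ 2 + (j + 3) + 1) * (s + 3) ^ 2 + 1 := by
        have : (c : ℤ) + (2 * (j + 3) + 1) * (s + 3) =
          ((j + 3) ^ 2 + (j + 3) + 1) * (s + 3) ^ 2 + 1 := by rw [hct]; push_cast; ring
        exact_mod_cast this
      omega
    rw [← this]
    exact Nat.mod_eq_zero_of_dvd hdv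

end SubPl
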