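import Mathlib
import Pool.Agent.Lib.MP_d51818_co.Sub11
import Pool.Agent.Lib.MP_d51818_co.Sub13

/-!
# MP_d51818_co: the final theorem on orders `p ^ f`
-/

set_option autoImplicit false
set_option linter.unusedSectionVars false

namespace SubPl

open Finset PDS7

variable {G : Type} [AddCommGroup G] [Fintype G] [DecidableEq G]

theorem main3 {p f : ℕ} (hp : p.Prime) {D : Finset G} (h0 : IsPDS (p ^ f) D) {w : ℕ}
    (hw : w.Prime) (hlt : w < (Tf G w).card) :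
    (¬ w ∣ f ∧ w ^ 2 ∣ p ^ (w - 1) - 1 ∧ ∃ s : ℕ, orderOf (p : ZMod w) = 3 * s ∧ s ∣ f ∧
      (Tf G (p ^ (2 * s) + p ^ s + 1)).card = (p ^ s) ^ 2 + p ^ s + 1 ∧
      ∃ E : Finset G, E.card = p ^ s + 1 ∧ (∀ x ∈ E, (p ^ (2 * s) + p ^ s + 1) • x = 0) ∧
        ∀ g : G, g ≠ 0 → (p ^ (2 * s) + p ^ s + 1) • g = 0 →
          ((E ×ˢ E).filter (fun q : G × G => q.1 - q.2 = g)).card = 1) ∨
    ∃ (r c m : ℕ) (t : ℤ), Odd r ∧ (∃ a : ℕ, orderOf (p : ZMod w) = 3 * 2 ^ a * r) ∧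
      ¬ (p ^ (2 * r) + p ^ r + 1).Prime ∧ ¬ 3 * r ∣ f ∧ c * r ∣ f ∧
      c * r ≤ f ∧ 9 * p ^ (2 * r) + 3 * p ^ r + 7 ≤ c ∧ 10 ^ 8 < c ∧ 2 < |t| ∧
      (c : ℤ) = (p ^ (2 * r) + p ^ r + 1) * t ^ 2 + (2 * p ^ r + 1) * t + 1 ∧
      c * (p ^ (2 * r) + p ^ r + 1) = m ^ 2 + m + 1 ∧
      (∀ l : ℕ, l.Prime → l ∣ c → l ∣ p ^ (2 * r) + p ^ r + 1 ∧ l < (Tf G l).card) ∧
      (Tf G (p ^ (2 * r) + p ^ r + 1)).card = m ^ 2 + m + 1 ∧
      ∃ E : Finset G, E.card = m + 1 ∧ (∀ x ∈ E, (p ^ (2 * r) + p ^ r + 1) • x = 0) ∧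
      ∀ g : G, g ≠ 0 → (p ^ (2 * r) + p ^ r + 1) • g = 0 →
        ((E ×ˢ E).filter (fun q : G × G => q.1 - q.2 = g)).card = 1 := by
  obtain ⟨a, r, hrodd, ho⟩ := main2 h0 hw hlt
  rcases main1 hp h0 hw hrodd.pos ho hlt with ⟨h1, h2, h3, h4, h5⟩ | ⟨hf0, h1, h2, c, m, E, hc1, hcf,
    hcm, hlc, hcard, hqE, hEcard, hEk, hEd⟩
  · left
    refine ⟨h1, h2, 2 ^ a * r, by rw [ho, mul_assoc], h3, ?_, h5⟩
    rw [h4]
    congr 2
    rw [← pow_mul, mul_comm 2]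
  · right
    have hpp : p ^ (2 * r) = (p ^ r) ^ 2 := by rw [← pow_mul, mul_comm]
    have hq : 2 ≤ p ^ r := le_trans hp.two_le (Nat.le_self_pow hrodd.pos.ne' p)
    have hm2 : 2 ≤ m := by
      by_contra hc
      have h3 : m ≤ 1 := by omega
      have h4 : m ^ 2 + m + 1 ≤ 3 := by nlinarith
      have h5 : 7 ≤ p ^ (2 * r) + p ^ r + 1 := by rw [hpp]; nlinarith
      have h6 : 1 * 7 ≤ c * (p ^ (2 * r) + p ^ r + 1) := Nat.mul_le_mul hc1.le h5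
      omega
    have hnm := transfer (q := p ^ r) hm2 (by rw [hpp]) hcard hEcard hEk hEd hqE
    have hkd : p ^ (2 * r) + p ^ r + 1 ∣ (Tf G (p ^ (2 * r) + p ^ r + 1)).card := by
      rw [hcard, ← hcm]
      exact Nat.dvd_mul_left _ _
    have hcm' : c * ((p ^ r) ^ 2 + p ^ r + 1) = m ^ 2 + m + 1 := by rw [← hpp]; exact hcm
    obtain ⟨t, ht⟩ := exists_t (q := p ^ r) hcm' (by
      rcases hnm with h3 | h3
      · left
        rw [← hpp]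
        exact rad1 hkd h3
      · right
        intro l hl hlk
        have h4 := rad1 (q := (p ^ r) ^ 2) hkd h3 l hl (by rw [hpp]; exact hlk)
        have h5 : (l : ℤ) ∣ (((p ^ r) ^ 2 + p ^ r + 1 : ℕ) : ℤ) := by exact_mod_cast hlk
        have h6 := dvd_add h4 h5
        have h7 : (m : ℤ) - ((p ^ r) ^ 2 : ℕ) + (((p ^ r) ^ 2 + p ^ r + 1 : ℕ) : ℤ) =
            (m : ℤ) + (p ^ r : ℕ) + 1 := by push_cast; ring
        rwa [h7] at h6)
    have ht3 := t_ge hc1 ht (fun l h3 h4 => by rw [← hpp]; exact (hlc l h3 h4).1)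
    have hcge := c_ge ht3 ht
    refine ⟨r, c, m, t, hrodd, ⟨a, ho⟩, h1, h2, hcf,
      Nat.le_of_dvd (Nat.pos_of_ne_zero hf0) hcf, by rw [hpp]; exact hcge, ?_, ht3, ?_, hcm, hlc,
      hcard, E, hEcard, hEk, hEd⟩
    · have hq3 : 3 ≤ p ^ r := by
        by_contra hlt3
        have h3 : p ^ r = 2 := by omega
        apply h1
        rw [hpp, h3]
        norm_num
      have := small hq3 ht3 ht hcge (fun l h3 h4 => by rw [← hpp]; exact (hlc l h3 h4).1)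
      norm_num
      exact this
    · rw [ht]
      push_cast
      ring

end SubPl
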