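import Mathlib
import Pool.Agent.Lib.MP_d51818_co.Sub10

/-!
# MP_d51818_co: all orders, I
-/

set_option autoImplicit false
set_option linter.unusedSectionVars false

namespace SubPl

open Finset PDS7

variable {G : Type} [AddCommGroup G] [Fintype G] [DecidableEq G]

/-- the set `E` is a planar difference set of order `m` in the subgroup `A` -/
theorem transferA {m q : ℕ} {A : AddSubgroup G} {E : Finset G} (hm : 2 ≤ m)
    (hc : Nat.card A = m ^ 2 + m + 1) (hE : E.card = m + 1) (hEA : ∀ x ∈ E, x ∈ A)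
    (hk : ∀ x ∈ A, (q ^ 2 + q + 1) • x = 0)
    (hd : ∀ g ∈ A, g ≠ 0 →
      ((E ×ˢ E).filter (fun p : G × G => p.1 - p.2 = g)).card = 1)
    (hq : ∀ e ∈ E, q • e ∈ E) :
    (∀ x ∈ A, m • x = q • x) ∨ (∀ x ∈ A, m • x = q ^ 2 • x) := by
  classical
  have hpds : IsPDS m (univ.filter (fun x : A => (x : G) ∈ E)) := by
    refine ⟨?_, ?_, ?_⟩
    · rw [← Nat.card_eq_fintype_card, hc]
    · rw [← hE]
      refine Finset.card_bij (fun x _ => (x : G)) ?_ ?_ ?_
      · intro x hx
        exact (Finset.mem_filter.mp hx).2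
      · intro x _ y _ hxy
        exact Subtype.ext hxy
      · intro y hy
        exact ⟨⟨y, hEA y hy⟩, Finset.mem_filter.mpr ⟨Finset.mem_univ _, hy⟩, rfl⟩
    · intro g hg
      rw [← hd (g : G) g.2 (fun h0 => hg (Subtype.ext h0))]
      refine Finset.card_bij (fun z _ => ((z.1 : G), (z.2 : G))) ?_ ?_ ?_
      · intro z hz
        rw [Finset.mem_filter, Finset.mem_product] at hz ⊢
        exact ⟨⟨(Finset.mem_filter.mp hz.1.1).2, (Finset.mem_filter.mp hz.1.2).2⟩,
          congrArg Subtype.val hz.2⟩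
      · intro z _ y _ hzy
        rw [Prod.mk.injEq] at hzy
        exact Prod.ext (Subtype.ext hzy.1) (Subtype.ext hzy.2)
      · intro z hz
        rw [Finset.mem_filter, Finset.mem_product] at hz
        refine ⟨(⟨z.1, hEA _ hz.1.1⟩, ⟨z.2, hEA _ hz.1.2⟩), ?_, rfl⟩
        rw [Finset.mem_filter, Finset.mem_product]
        exact ⟨⟨Finset.mem_filter.mpr ⟨Finset.mem_univ _, hz.1.1⟩,
          Finset.mem_filter.mpr ⟨Finset.mem_univ _, hz.1.2⟩⟩, Subtype.ext hz.2⟩
  have h1 := nomix hpds hm (q := q) (by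
      intro e he
      rw [Finset.mem_filter] at he ⊢
      exact ⟨Finset.mem_univ _, hq _ he.2⟩)
    (by
      intro x
      exact Subtype.ext (hk _ x.2))
  rcases h1 with h1 | h1
  · left
    intro x hx
    exact congrArg Subtype.val (h1 ⟨x, hx⟩)
  · right
    intro x hx
    exact congrArg Subtype.val (h1 ⟨x, hx⟩)

/-- no planar difference set of order 18 killed by 7 with multiplier 2 -/
theorem no18' {n : ℕ} {D : Finset G} (h : IsPDS n D) {E : Finset G} (hED : E ⊆ D)
    (ht : ∀ d ∈ E, 2 • d ∈ E) (h8 : ∀ d ∈ E, 8 • d = d) (hc : E.card = 19) : False := by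
  have h0 : (0 : G) ∉ E := by
    intro h0
    have h1 : ∃ d ∈ E, d ≠ 0 := by
      by_contra hc'
      push Not at hc'
      have : E ⊆ {0} := fun d hd => Finset.mem_singleton.mpr (hc' d hd)
      have := Finset.card_le_card this
      rw [hc, Finset.card_singleton] at this
      omega
    obtain ⟨d, hd, hd0⟩ := h1
    have h2 : d - 0 = 2 • d - d := by rw [two_smul]; abel
    have h3 := (pds_uniq h (hED hd) (hED h0) (hED (ht d hd)) (hED hd) hd0 h2).2
    exact hd0 h3.symm
  have h2 : ∀ d : G, 2 • (2 • (2 • d)) = 8 • d := by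
    intro d
    rw [← mul_smul, ← mul_smul]
    norm_num
  let σ : Function.End {x // x ∈ E} := fun x => ⟨2 • x.1, ht _ x.2⟩
  have hF : Fact (Nat.Prime 3) := ⟨by norm_num⟩
  have hσ : σ ^ 3 ^ 1 = 1 := by
    funext x
    apply Subtype.ext
    show 2 • (2 • (2 • x.1)) = x.1
    rw [h2, h8 _ x.2]
  have h3 := Equiv.Perm.card_fixedPoints_modEq (f := σ) hσ
  have h4 : Fintype.card (Function.fixedPoints σ) = 0 := by
    rw [Fintype.card_eq_zero_iff]
    constructor
    rintro ⟨x, hx⟩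
    have h5 : 2 • x.1 = x.1 := congrArg Subtype.val hx
    rw [two_smul] at h5
    have h6 : x.1 = 0 := by simpa using h5
    exact h0 (h6 ▸ x.2)
  rw [h4, Fintype.card_coe, hc] at h3
  exact absurd h3 (by decide)

theorem mult_pow {D : Finset G} {t : ℕ} (ht : ∀ d ∈ D, t • d ∈ D) (i : ℕ) :
    ∀ d ∈ D, t ^ i • d ∈ D := by
  induction i with
  | zero => intro d hd; rwa [pow_zero, one_smul]
  | succ i ih =>
    intro d hd
    rw [pow_succ', mul_smul]
    exact ht _ (ih d hd)

/-- Baer: a multiplier of order two without proper fixed subplane -/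
theorem baer0 {n : ℕ} {D : Finset G} (h : IsPDS n D) {t : ℕ} (ht : ∀ d ∈ D, t • d ∈ D)
    (h1 : (Fx G t).card = 1) : (Fx G (t ^ 2)).card = 1 ∨ (Fx G (t ^ 2)).card = 3 := by
  by_cases h2 : 1 < (Fx G (t ^ 2)).card
  · right
    obtain ⟨m2, hm2, hd2, hf2⟩ := closure' h (mult_pow ht 2) h2
    have h3 := card_sq h t
    have h4 := card_minus h ht
    rw [h1, one_mul] at h3
    rw [← h3, hf2, hd2] at h4
    have h5 : m2 ^ 2 ≤ 1 := by omega
    have h6 : m2 = 1 := by nlinarith
    rw [hf2, h6]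
    norm_num
  · left
    have : 0 < (Fx G (t ^ 2)).card := Finset.card_pos.mpr ⟨0, by rw [mem_Fx, smul_zero]⟩
    omega

theorem chain {n : ℕ} {D : Finset G} (h : IsPDS n D) {t m : ℕ} (ht : ∀ d ∈ D, t • d ∈ D)
    (hm : 0 < m) (h1 : (Fx G t).card = m ^ 2 + m + 1) (i : ℕ) :
    ∃ j ≤ i, (Fx G (t ^ 2 ^ i)).card = (m ^ 2 ^ j) ^ 2 + m ^ 2 ^ j + 1 := by
  induction i with
  | zero => exact ⟨0, le_rfl, by rw [pow_zero, pow_one, pow_one]; exact h1⟩
  | succ i ih =>
    obtain ⟨j, hj, hc⟩ := ih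
    have h2 := baer h (mult_pow ht (2 ^ i)) (m := m ^ 2 ^ j) (by positivity) hc
    have h3 : (t ^ 2 ^ i) ^ 2 = t ^ 2 ^ (i + 1) := by rw [← pow_mul, ← pow_succ]
    rw [h3] at h2
    rcases h2 with h2 | h2
    · exact ⟨j, by omega, h2⟩
    · refine ⟨j + 1, by omega, ?_⟩
      rw [h2]
      have h4 : m ^ 2 ^ (j + 1) = (m ^ 2 ^ j) ^ 2 := by rw [← pow_mul, ← pow_succ]
      rw [h4]
      ring

theorem chain0 {n : ℕ} {D : Finset G} (h : IsPDS n D) {t : ℕ} (ht : ∀ d ∈ D, t • d ∈ D)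
    (h1 : (Fx G t).card = 1) (i : ℕ) : (Fx G (t ^ 2 ^ i)).card = 1 ∨
      (Fx G (t ^ 2 ^ i)).card = 3 := by
  induction i with
  | zero => left; rw [pow_zero, pow_one]; exact h1
  | succ i ih =>
    have h3 : (t ^ 2 ^ i) ^ 2 = t ^ 2 ^ (i + 1) := by rw [← pow_mul, ← pow_succ]
    rcases ih with ih | ih
    · have h2 := baer0 h (mult_pow ht (2 ^ i)) ih
      rwa [h3] at h2
    · have h2 := baer h (mult_pow ht (2 ^ i)) (m := 1) one_pos ih
      rw [h3] at h2
      right
      rcases h2 with h2 | h2 <;> exact h2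

/-- a prime `p ∣ n` with order divisible by three -/
theorem exists_p {n w : ℕ} (hn : n ≠ 0) (hn3 : (n : ZMod w) ^ 3 = 1) (hn1 : (n : ZMod w) ≠ 1) :
    ∃ p : ℕ, p.Prime ∧ p ∣ n ∧ 3 ∣ orderOf (p : ZMod w) := by
  by_contra hcon
  push Not at hcon
  have key : ∀ m : ℕ, m ∣ n → ¬ 3 ∣ orderOf (m : ZMod w) := by
    intro m
    induction m using induction_on_primes with
    | zero =>
      intro h0
      exact absurd (Nat.eq_zero_of_zero_dvd h0) hn
    | one =>
      intro _
      rw [Nat.cast_one, orderOf_one]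
      norm_num
    | prime_mul p a hp ih =>
      intro hpa h3
      have h1 := hcon p hp ((Nat.dvd_mul_right p a).trans hpa)
      have h2 := ih ((Nat.dvd_mul_left a p).trans hpa)
      rw [Nat.cast_mul] at h3
      have h4 := (Commute.all (p : ZMod w) (a : ZMod w)).orderOf_mul_dvd_lcm
      have h5 : 3 ∣ orderOf (p : ZMod w) * orderOf (a : ZMod w) :=
        (h3.trans h4).trans (Nat.lcm_dvd_mul _ _)
      rcases (Nat.Prime.dvd_mul Nat.prime_three).mp h5 with h6 | h6
      · exact h1 h6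
      · exact h2 h6
  have hF3 : Fact (Nat.Prime 3) := ⟨Nat.prime_three⟩
  exact key n dvd_rfl (by rw [orderOf_eq_prime hn3 hn1])

end SubPl
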