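import Mathlib
import Pool.Agent.Lib.MP_d51818_co.Sub8
import Pool.Agent.Lib.MP_d51818_co.Sub14

/-!
# MP_d51818_co: all orders, II
-/

set_option autoImplicit false
set_option linter.unusedSectionVars false

namespace SubPl

open Finset PDS7

variable {G : Type} [AddCommGroup G] [Fintype G] [DecidableEq G]

theorem mem_FxS {t : ℕ} {x : G} : x ∈ FxS G t ↔ t • x = x := Iff.rfl

theorem quad_inj {a b : ℕ} (h : a ^ 2 + a + 1 = b ^ 2 + b + 1) : a = b := by
  rcases lt_trichotomy a b with h1 | h1 | h1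
  · have : a ^ 2 < b ^ 2 := Nat.pow_lt_pow_left h1 (by norm_num)
    omega
  · exact h1
  · have : b ^ 2 < a ^ 2 := Nat.pow_lt_pow_left h1 (by norm_num)
    omega

/-- the choice of the multiplier -/
theorem choose_e {w p n a r : ℕ} (hw : w.Prime) (hr : 0 < r)
    (ho : orderOf (p : ZMod w) = 3 * (2 ^ a * r))
    (hN3 : (n : ZMod w) ^ 3 = 1) (hN1 : (n : ZMod w) ≠ 1) :
    ∃ e : ℕ, (e = 1 ∨ e = 2) ∧ ((p ^ r * n ^ e : ℕ) : ZMod w) ^ 2 ^ a = 1 := by
  have hF : Fact w.Prime := ⟨hw⟩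
  set P : ZMod w := (p : ZMod w) with hP
  set N : ZMod w := (n : ZMod w) with hN
  have hs : 0 < 2 ^ a * r := by positivity
  have hQ3 : (P ^ (2 ^ a * r)) ^ 3 = 1 := by
    rw [← pow_mul, mul_comm, ← ho]
    exact pow_orderOf_eq_one _
  have hQ1 : P ^ (2 ^ a * r) ≠ 1 := by
    intro h
    have := orderOf_dvd_of_pow_eq_one h
    rw [ho] at this
    have := Nat.le_of_dvd hs this
    omega
  have hQ := cube_root hQ3 hQ1
  have hM3 : (N ^ 2 ^ a) ^ 3 = 1 := by rw [← pow_mul, mul_comm, pow_mul, hN3, one_pow]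
  have hM1 : N ^ 2 ^ a ≠ 1 := by
    intro h
    have hF3 : Fact (Nat.Prime 3) := ⟨Nat.prime_three⟩
    have h1 : orderOf N = 3 := orderOf_eq_prime hN3 hN1
    have h2 := orderOf_dvd_of_pow_eq_one h
    rw [h1] at h2
    have := Nat.prime_three.dvd_of_dvd_pow h2
    omega
  have hM := cube_root hM3 hM1
  set Q := P ^ (2 ^ a * r) with hQd
  set M := N ^ 2 ^ a with hMd
  have h1 : (Q * M - 1) * (Q * M ^ 2 - 1) = 0 := by
    linear_combination Q ^ 2 * hM3 - Q * hM + hQ
  rcases mul_eq_zero.mp h1 with h2 | h2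
  · refine ⟨1, Or.inl rfl, ?_⟩
    push_cast
    rw [pow_one, mul_pow, ← pow_mul, mul_comm r]
    exact sub_eq_zero.mp h2
  · refine ⟨2, Or.inr rfl, ?_⟩
    push_cast
    rw [mul_pow, ← pow_mul, mul_comm r, ← pow_mul N, mul_comm 2, pow_mul N]
    exact sub_eq_zero.mp h2

/-- on the elements fixed by `q n` or `q n ^ 2` the number `q` is a root of `X ^ 2 + X + 1` -/
theorem kill {n q e : ℕ} {x : G} (hn : (n ^ 2 + n + 1) • x = 0) (he : e = 1 ∨ e = 2)
    (hx : (q * n ^ e) • x = x) : (q ^ 2 + q + 1) • x = 0 := by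
  have hn3 : n ^ 3 • x = x := by
    have h1 : n ^ 3 • x + (n ^ 2 + n + 1) • x = n • ((n ^ 2 + n + 1) • x) + x := by
      module
    rw [hn, add_zero, smul_zero, zero_add] at h1
    exact h1
  rcases he with rfl | rfl
  · have h1 : q • x = n ^ 2 • x := by
      have h2 : n ^ 2 • ((q * n ^ 1) • x) = q • (n ^ 3 • x) := by
        rw [← mul_smul, ← mul_smul]; congr 1; ring
      rw [hx, hn3] at h2
      exact h2.symm
    have h3 : q ^ 2 • x = n • x := by
      have h4 : q ^ 2 • x = q • (q • x) := by rw [← mul_smul, pow_two]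
      rw [h4, h1]
      have h5 : q • (n ^ 2 • x) = n ^ 2 • (q • x) := smul_comm _ _ _
      rw [h5, h1]
      have h6 : n ^ 2 • (n ^ 2 • x) = n • (n ^ 3 • x) := by
        rw [← mul_smul, ← mul_smul]; congr 1; ring
      rw [h6, hn3]
    rw [add_smul, add_smul, h3, h1, ← hn]
    module
  · have h1 : q • x = n • x := by
      have h2 : n • ((q * n ^ 2) • x) = q • (n ^ 3 • x) := by
        rw [← mul_smul, ← mul_smul]; congr 1; ring
      rw [hx, hn3] at h2
      exact h2.symm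
    have h3 : q ^ 2 • x = n ^ 2 • x := by
      have h4 : q ^ 2 • x = q • (q • x) := by rw [← mul_smul, pow_two]
      rw [h4, h1, smul_comm, h1, ← mul_smul, ← pow_two]
    rw [add_smul, add_smul, h3, h1, ← hn]
    module

theorem gen {n : ℕ} {D0 : Finset G} (h0 : IsPDS n D0) {w : ℕ} (hw : w.Prime)
    (hlt : w < (Tf G w).card) :
    (∃ p : ℕ, p.Prime ∧ p ∣ n ∧ 3 ∣ orderOf (p : ZMod w)) ∧
    ∀ p a r : ℕ, p.Prime → p ∣ n → 0 < r → orderOf (p : ZMod w) = 3 * (2 ^ a * r) →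
      ∃ (m j : ℕ) (A B : AddSubgroup G), 2 ≤ m ∧ A ≤ B ∧
        (Nat.card A = m ^ 2 + m + 1 ∧
          ∃ E : Finset G, E.card = m + 1 ∧ (∀ x ∈ E, x ∈ A) ∧
            ∀ g ∈ A, g ≠ 0 →
              ((E ×ˢ E).filter (fun q : G × G => q.1 - q.2 = g)).card = 1) ∧
        (Nat.card B = (m ^ 2 ^ j) ^ 2 + m ^ 2 ^ j + 1 ∧
          ∃ E : Finset G, E.card = m ^ 2 ^ j + 1 ∧ (∀ x ∈ E, x ∈ B) ∧
            ∀ g ∈ B, g ≠ 0 →
              ((E ×ˢ E).filter (fun q : G × G => q.1 - q.2 = g)).card = 1) ∧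
        (∀ x ∈ A, ((p ^ r) ^ 2 + p ^ r + 1) • x = 0) ∧
        (∀ x : G, w • x = 0 → x ∈ B) ∧ w ^ 2 ∣ (m ^ 2 ^ j) ^ 2 + m ^ 2 ^ j + 1 ∧
        ((m = p ^ r ∧ j = a ∧ w ^ 2 ∣ p ^ (w - 1) - 1) ∨
          (m ≠ p ^ r ∧ j ≤ a ∧ ¬ ((p ^ r) ^ 2 + p ^ r + 1).Prime ∧
            ((∀ x ∈ A, m • x = p ^ r • x) ∨ (∀ x ∈ A, m • x = (p ^ r) ^ 2 • x)))) := by
  have hF : Fact w.Prime := ⟨hw⟩
  obtain ⟨D, h, hsum⟩ := exists_zero h0
  have hn0 : 0 < n := by
    rcases Nat.eq_zero_or_pos n with h1 | h1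
    · exfalso
      have h2 : (Tf G w).card ≤ Fintype.card G := Finset.card_le_univ _
      rw [h.cardG, h1] at h2
      have := hw.two_le
      omega
    · exact h1
  have hdiv := mult_div h hsum hn0
  -- facts on `w`
  obtain ⟨i, hi⟩ := card_Tf_pow (G := G) hw 1
  rw [pow_one] at hi
  have hi2 : 2 ≤ i := by
    by_contra hc
    have h1 : w ^ i ≤ w ^ 1 := Nat.pow_le_pow_right hw.pos (by omega)
    rw [pow_one, ← hi] at h1
    omega
  have hw2T : w ^ 2 ∣ (Tf G w).card := by rw [hi]; exact pow_dvd_pow w hi2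
  have hw2 : w ^ 2 ∣ n ^ 2 + n + 1 := by
    rw [← h.cardG]
    exact hw2T.trans (card_Tf_dvd (G := G) w)
  have hw1 : w ∣ n ^ 2 + n + 1 := (dvd_pow_self w (by norm_num)).trans hw2
  have hw3 : w ≠ 3 := by
    rintro rfl
    have h10 : ((n ^ 2 + n + 1 : ℕ) : ZMod 9) = 0 := (ZMod.natCast_eq_zero_iff _ _).mpr hw2
    push_cast at h10
    have h11 : ∀ x : ZMod 9, x ^ 2 + x + 1 ≠ 0 := by decide
    exact h11 _ h10
  have hN1 := q_ne_one hw hw3 hw1
  have hNz : (n : ZMod w) ^ 2 + (n : ZMod w) + 1 = 0 := by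
    have := (ZMod.natCast_eq_zero_iff _ _).mpr hw1
    push_cast at this
    exact this
  have hN3 : (n : ZMod w) ^ 3 = 1 := by
    linear_combination ((n : ZMod w) - 1) * hNz
  refine ⟨exists_p hn0.ne' hN3 hN1, ?_⟩
  intro p a r hp hpn hr ho
  obtain ⟨hwk, hsw⟩ := w_facts hw (by positivity) ho
  obtain ⟨e, he, hte⟩ := choose_e hw hr ho hN3 hN1
  set q := p ^ r with hq
  have hq2 : 2 ≤ q := le_trans hp.two_le (Nat.le_self_pow hr.ne' p)
  set t := q * n ^ e with ht_def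
  have htD : ∀ d ∈ D, t • d ∈ D := by
    intro d hd
    rw [ht_def, mul_smul]
    exact mult_pow (hdiv p hpn) r _ (mult_pow (hdiv n dvd_rfl) e d hd)
  have hkill : ∀ x : G, t • x = x → (q ^ 2 + q + 1) • x = 0 := by
    intro x hx
    have h1 : (n ^ 2 + n + 1) • x = 0 := by rw [← h.cardG]; exact card_nsmul_eq_zero
    exact kill h1 he hx
  -- the elements killed by `w` are fixed by the top multiplier
  have htop : ∀ x : G, w • x = 0 → t ^ 2 ^ a • x = x := by
    intro x hx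
    have h1 : t ^ 2 ^ a ≡ 1 [MOD w] := by
      rw [← ZMod.natCast_eq_natCast_iff]
      push_cast at hte ⊢
      exact hte
    rcases Nat.eq_zero_or_pos (t ^ 2 ^ a) with h2 | h2
    · exfalso
      rw [h2] at h1
      have h3 := (Nat.modEq_iff_dvd' (by omega)).mp h1
      have := Nat.dvd_one.mp (by simpa using h3)
      exact hw.one_lt.ne' this
    · obtain ⟨g, hg⟩ := (Nat.modEq_iff_dvd' h2).mp h1.symm
      have h3 : t ^ 2 ^ a = w * g + 1 := by omega
      rw [h3, add_smul, one_smul, mul_comm, mul_smul, hx, smul_zero, zero_add]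
  have hTA : tor G w ≤ FxS G (t ^ 2 ^ a) := fun x hx => htop x hx
  have hTdvd : w ^ 2 ∣ (Fx G (t ^ 2 ^ a)).card := by
    have h1 := AddSubgroup.card_dvd_of_le hTA
    rw [card_tor, card_FxS] at h1
    exact hw2T.trans h1
  have hw4 : 4 ≤ w := by
    have : 0 < 2 ^ a * r := by positivity
    omega
  have hbig : 16 ≤ (Fx G (t ^ 2 ^ a)).card := by
    have h1 := Nat.le_of_dvd (Finset.card_pos.mpr ⟨0, by rw [mem_Fx, smul_zero]⟩) hTdvd
    nlinarith
  have hA1 : 1 < (Fx G t).card := by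
    by_contra hc
    have h1 : (Fx G t).card = 1 := by
      have : 0 < (Fx G t).card := Finset.card_pos.mpr ⟨0, by rw [mem_Fx, smul_zero]⟩
      omega
    rcases chain0 h htD h1 a with h2 | h2 <;> omega
  obtain ⟨m, hm, hDm, hFm⟩ := closure' h htD hA1
  obtain ⟨j, hja, hFj⟩ := chain h htD hm hFm a
  have hm2 : 2 ≤ m := by
    by_contra hc
    have h1 : m = 1 := by omega
    rw [h1, one_pow] at hFj
    omega
  have hwj : w ∣ (m ^ 2 ^ j) ^ 2 + m ^ 2 ^ j + 1 := by
    rw [← hFj]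
    exact (dvd_pow_self w (by norm_num)).trans hTdvd
  have hle : FxS G t ≤ FxS G (t ^ 2 ^ a) := by
    intro x hx
    have h1 : ∀ i : ℕ, t ^ i • x = x := by
      intro i
      induction i with
      | zero => rw [pow_zero, one_smul]
      | succ i ih => rw [pow_succ, mul_smul, show t • x = x from hx, ih]
    exact h1 _
  obtain ⟨m', hm', hD', hF'⟩ := closure' h (mult_pow htD (2 ^ a)) (by omega)
  have hmm' : m' = m ^ 2 ^ j := quad_inj (hF'.symm.trans hFj)
  rw [hmm'] at hD'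
  refine ⟨m, j, FxS G t, FxS G (t ^ 2 ^ a), hm2, hle, ⟨by rw [card_FxS, hFm],
    DF D t, hDm, fun x hx => (mem_DF.mp hx).2, fun g hg hg0 => closure_diff h htD hg0 hg⟩,
    ⟨by rw [card_FxS, hFj], DF D (t ^ 2 ^ a), hD', fun x hx => (mem_DF.mp hx).2,
      fun g hg hg0 => closure_diff h (mult_pow htD (2 ^ a)) hg0 hg⟩,
    fun x hx => hkill x hx, fun x hx => htop x hx, by rw [← hFj]; exact hTdvd, ?_⟩
  by_cases hmq : m = q
  · left
    have hj : j = a := by
      rw [hmq] at hwj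
      have h1 : ((q ^ 2 ^ j : ℕ) : ZMod w) ^ 2 + ((q ^ 2 ^ j : ℕ) : ZMod w) + 1 = 0 := by
        have := (ZMod.natCast_eq_zero_iff _ _).mpr hwj
        push_cast at this ⊢
        exact this
      have h2 : (p : ZMod w) ^ (3 * (r * 2 ^ j)) = 1 := by
        have h3 : ((q ^ 2 ^ j : ℕ) : ZMod w) ^ 3 = 1 := by
          linear_combination (((q ^ 2 ^ j : ℕ) : ZMod w) - 1) * h1
        rw [hq] at h3
        push_cast at h3
        rw [← pow_mul, ← pow_mul] at h3
        rw [show 3 * (r * 2 ^ j) = r * (2 ^ j * 3) by ring]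
        exact h3
      have h3 := orderOf_dvd_of_pow_eq_one h2
      rw [ho] at h3
      have h4 := Nat.dvd_of_mul_dvd_mul_left (by norm_num) h3
      rw [mul_comm r] at h4
      have h5 := Nat.dvd_of_mul_dvd_mul_right hr h4
      have h6 := (Nat.pow_dvd_pow_iff_le_right (by norm_num)).mp h5
      omega
    have hqs : m ^ 2 ^ j = p ^ (2 ^ a * r) := by
      rw [hmq, hj, hq, ← pow_mul, mul_comm]
    rw [hqs] at hFj
    have hk2 : w ^ 2 ∣ (p ^ (2 ^ a * r)) ^ 2 + p ^ (2 ^ a * r) + 1 := by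
      rw [← hFj]; exact hTdvd
    refine ⟨hmq, hj, ?_⟩
    have hP0 : (p : ZMod w) ≠ 0 := by
      intro h
      have h1 : (p : ZMod w) ^ (3 * (2 ^ a * r)) = 1 := by rw [← ho]; exact pow_orderOf_eq_one _
      rw [h, zero_pow (by positivity)] at h1
      exact zero_ne_one h1
    obtain ⟨b, hb⟩ : 3 * (2 ^ a * r) ∣ w - 1 := by
      rw [← ho]; exact ZMod.orderOf_dvd_card_sub_one hP0
    rw [hb]
    have h1 : p ^ (3 * (2 ^ a * r)) - 1 ∣ p ^ (3 * (2 ^ a * r) * b) - 1 := by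
      rw [pow_mul p _ b]
      have := Nat.sub_dvd_pow_sub_pow (p ^ (3 * (2 ^ a * r))) 1 b
      rwa [one_pow] at this
    refine hk2.trans (Dvd.dvd.trans ?_ h1)
    refine ⟨p ^ (2 ^ a * r) - 1, ?_⟩
    obtain ⟨v, hv⟩ : ∃ v, p ^ (2 ^ a * r) = v + 1 :=
      ⟨p ^ (2 ^ a * r) - 1, by have := pow_pos hp.pos (2 ^ a * r); omega⟩
    rw [show 3 * (2 ^ a * r) = (2 ^ a * r) * 3 by ring, pow_mul, hv, Nat.add_sub_cancel]
    have : (v + 1) ^ 3 = ((v + 1) ^ 2 + (v + 1) + 1) * v + 1 := by ring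
    omega
  · right
    have hqD : ∀ x ∈ DF D t, q • x ∈ DF D t := by
      intro x hx
      rw [mem_DF] at hx ⊢
      exact ⟨mult_pow (hdiv p hpn) r _ hx.1, by rw [smul_comm, hx.2]⟩
    refine ⟨hmq, hja, ?_, ?_⟩
    · intro hl
      have hFl : Fact (q ^ 2 + q + 1).Prime := ⟨hl⟩
      have h1 : (Fx G t).card ≠ 0 := by omega
      have h2 := Nat.eq_prime_pow_of_unique_prime_dvd (p := q ^ 2 + q + 1) h1 (by
        intro d hd hdv
        have hFd : Fact d.Prime := ⟨hd⟩
        rw [← card_FxS] at hdv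
        obtain ⟨x, hx⟩ := exists_prime_addOrderOf_dvd_card' d hdv
        have h3 : (q ^ 2 + q + 1) • x = 0 := Subtype.ext (hkill _ x.2)
        have h4 := addOrderOf_dvd_of_nsmul_eq_zero h3
        rw [hx] at h4
        exact (Nat.prime_dvd_prime_iff_eq hd hl).mp h4)
      have h5 : 0 < (Fx G t).card.primeFactorsList.length := by
        rcases Nat.eq_zero_or_pos (Fx G t).card.primeFactorsList.length with h6 | h6
        · rw [h6, pow_zero] at h2
          omega
        · exact h6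
      rw [hFm] at h2
      rcases dio hp hr hl rfl h5 (by rw [hFm]; exact h2) with h6 | ⟨h6, h7⟩
      · rw [hFm] at h6
        rw [h6, pow_one] at h2
        exact hmq (quad_inj h2)
      · have hp2 : p = 2 := by
          have : p ∣ 2 := h6 ▸ dvd_pow_self p hr.ne'
          exact (Nat.prime_dvd_prime_iff_eq hp Nat.prime_two).mp this
        have hq2' : q = 2 := h6
        refine no18' h (E := DF D t) (Finset.filter_subset _ _) ?_ ?_ (by rw [hDm, h7])
        · intro x hx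
          have := hqD x hx
          rwa [hq2'] at this
        · intro x hx
          have h8 := hkill x (mem_DF.mp hx).2
          rw [hq2'] at h8
          have h9 : (8 : ℕ) • x = (2 ^ 2 + 2 + 1) • x + x := by module
          rw [h9, h8, zero_add]
    · exact transferA hm2 (by rw [card_FxS, hFm]) hDm (fun x hx => (mem_DF.mp hx).2)
        (fun x hx => hkill x hx) (fun g hg hg0 => closure_diff h htD hg0 hg) hqD

end SubPl
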