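import Mathlib
import Pool.Agent.Lib.MP_d51818_co.Sub15

/-!
# MP_d51818_co: all orders, III: fixed elements of sets of multipliers
-/

set_option autoImplicit false
set_option linter.unusedSectionVars false

namespace SubPl

open Finset PDS7

variable {G : Type} [AddCommGroup G] [Fintype G] [DecidableEq G]

/-- the elements fixed by all members of a set of multipliers -/
def FS (G : Type) [AddCommGroup G] (T : Set ℕ) : AddSubgroup G where
  carrier := {x | ∀ t ∈ T, t • x = x}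
  add_mem' {a b} ha hb := by
    intro t ht
    rw [smul_add, ha t ht, hb t ht]
  zero_mem' := fun t _ => smul_zero _
  neg_mem' {a} ha := by
    intro t ht
    rw [smul_neg, ha t ht]

theorem mem_FS {T : Set ℕ} {x : G} : x ∈ FS G T ↔ ∀ t ∈ T, t • x = x := Iff.rfl

open Classical in
/-- the elements of `D` in a subgroup -/
noncomputable def DI (D : Finset G) (A : AddSubgroup G) : Finset G := D.filter (fun x => x ∈ A)

theorem mem_DI {D : Finset G} {A : AddSubgroup G} {x : G} : x ∈ DI D A ↔ x ∈ D ∧ x ∈ A := by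
  unfold DI; simp

theorem fs_pair {n : ℕ} {D : Finset G} (h : IsPDS n D) {T : Set ℕ}
    (hT : ∀ t ∈ T, ∀ d ∈ D, t • d ∈ D) {g : G} (hg0 : g ≠ 0) (hg : g ∈ FS G T) :
    ∃ a ∈ DI D (FS G T), ∃ b ∈ DI D (FS G T), a - b = g := by
  obtain ⟨a, ha, b, hb, hab⟩ := pds_exists h hg0
  have hne : a ≠ b := sub_ne_zero.mp (by rw [hab]; exact hg0)
  have key : ∀ t ∈ T, t • a = a ∧ t • b = b := by
    intro t ht
    have h1 : a - b = t • a - t • b := by rw [← smul_sub, hab, hg t ht]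
    obtain ⟨h2, h3⟩ := pds_uniq h ha hb (hT t ht a ha) (hT t ht b hb) hne h1
    exact ⟨h2.symm, h3.symm⟩
  exact ⟨a, mem_DI.mpr ⟨ha, fun t ht => (key t ht).1⟩, b,
    mem_DI.mpr ⟨hb, fun t ht => (key t ht).2⟩, hab⟩

theorem fs_diff {n : ℕ} {D : Finset G} (h : IsPDS n D) {T : Set ℕ}
    (hT : ∀ t ∈ T, ∀ d ∈ D, t • d ∈ D) {g : G} (hg : g ∈ FS G T) (hg0 : g ≠ 0) :
    ((DI D (FS G T) ×ˢ DI D (FS G T)).filter (fun p : G × G => p.1 - p.2 = g)).card = 1 := by
  obtain ⟨a, ha, b, hb, hab⟩ := fs_pair h hT hg0 hg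
  have hne : a ≠ b := sub_ne_zero.mp (by rw [hab]; exact hg0)
  rw [Finset.card_eq_one]
  refine ⟨(a, b), ?_⟩
  ext x
  rw [Finset.mem_filter, Finset.mem_product, Finset.mem_singleton]
  constructor
  · rintro ⟨⟨h4, h5⟩, h6⟩
    obtain ⟨h7, h8⟩ := pds_uniq h (mem_DI.mp ha).1 (mem_DI.mp hb).1 (mem_DI.mp h4).1
      (mem_DI.mp h5).1 hne (hab.trans h6.symm)
    exact Prod.ext h7.symm h8.symm
  · rintro rfl
    exact ⟨⟨ha, hb⟩, hab⟩

theorem fs_card {n : ℕ} {D : Finset G} (h : IsPDS n D) {T : Set ℕ}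
    (hT : ∀ t ∈ T, ∀ d ∈ D, t • d ∈ D) (h1 : 1 < Nat.card (FS G T)) :
    ∃ m : ℕ, 0 < m ∧ (DI D (FS G T)).card = m + 1 ∧ Nat.card (FS G T) = m ^ 2 + m + 1 := by
  classical
  set F : Finset G := univ.filter (fun x => x ∈ FS G T) with hF
  have hFc : F.card = Nat.card (FS G T) := by
    rw [Nat.card_eq_fintype_card, hF, ← Fintype.card_subtype]
  have h2 : F.card - 1 = (DI D (FS G T)).card * (DI D (FS G T)).card - (DI D (FS G T)).card := by
    rw [← Finset.offDiag_card, ← Finset.card_erase_of_mem (show (0 : G) ∈ F by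
      rw [hF, Finset.mem_filter]; exact ⟨Finset.mem_univ _, zero_mem _⟩)]
    symm
    refine Finset.card_bij (fun p _ => p.1 - p.2) ?_ ?_ ?_
    · intro p hp
      rw [Finset.mem_offDiag] at hp
      rw [Finset.mem_erase, hF, Finset.mem_filter]
      exact ⟨sub_ne_zero.mpr hp.2.2, Finset.mem_univ _,
        sub_mem (mem_DI.mp hp.1).2 (mem_DI.mp hp.2.1).2⟩
    · intro p hp r hr he
      rw [Finset.mem_offDiag] at hp hr
      obtain ⟨h1, h2⟩ := pds_uniq h (mem_DI.mp hp.1).1 (mem_DI.mp hp.2.1).1 (mem_DI.mp hr.1).1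
        (mem_DI.mp hr.2.1).1 hp.2.2 he
      exact Prod.ext h1 h2
    · intro g hg
      rw [Finset.mem_erase, hF, Finset.mem_filter] at hg
      obtain ⟨a, ha, b, hb, hab⟩ := fs_pair h hT hg.1 hg.2.2
      refine ⟨(a, b), ?_, hab⟩
      rw [Finset.mem_offDiag]
      exact ⟨ha, hb, sub_ne_zero.mp (by rw [hab]; exact hg.1)⟩
  rw [hFc] at h2
  set c := (DI D (FS G T)).card with hc
  have h3 : 2 ≤ c := by
    by_contra h4
    have : c = 0 ∨ c = 1 := by omega
    rcases this with h5 | h5 <;> rw [h5] at h2 <;> omega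
  refine ⟨c - 1, by omega, by omega, ?_⟩
  obtain ⟨m, hm⟩ : ∃ m, c = m + 1 := ⟨c - 1, by omega⟩
  rw [hm] at h2 ⊢
  have h4 : (m + 1) * (m + 1) - (m + 1) = m ^ 2 + m := by
    have : (m + 1) * (m + 1) = m ^ 2 + m + (m + 1) := by ring
    omega
  rw [h4] at h2
  simp only [Nat.add_sub_cancel]
  omega

open Classical in
/-- restriction to a subgroup -/
theorem pds_sub {m : ℕ} {A : AddSubgroup G} {E : Finset G}
    (hc : Nat.card A = m ^ 2 + m + 1) (hE : E.card = m + 1) (hEA : ∀ x ∈ E, x ∈ A)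
    (hd : ∀ g ∈ A, g ≠ 0 →
      ((E ×ˢ E).filter (fun p : G × G => p.1 - p.2 = g)).card = 1) :
    IsPDS m (univ.filter (fun x : A => (x : G) ∈ E)) := by
  refine ⟨?_, ?_, ?_⟩
  · rw [← Nat.card_eq_fintype_card, hc]
  · rw [← hE]
    refine Finset.card_bij (fun x _ => (x : G)) ?_ ?_ ?_
    · intro x hx
      exact (Finset.mem_filter.mp hx).2
    · intro x _ y _ hxy
      exact Subtype.ext hxy
    · intro y hy
      exact ⟨⟨y, hEA y hy⟩, Finset.mem_filter.mpr ⟨Finset.mem_univ _, hy⟩, rfl⟩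
  · intro g hg
    rw [← hd (g : G) g.2 (fun h0 => hg (Subtype.ext h0))]
    refine Finset.card_bij (fun z _ => ((z.1 : G), (z.2 : G))) ?_ ?_ ?_
    · intro z hz
      rw [Finset.mem_filter, Finset.mem_product] at hz ⊢
      exact ⟨⟨(Finset.mem_filter.mp hz.1.1).2, (Finset.mem_filter.mp hz.1.2).2⟩,
        congrArg Subtype.val hz.2⟩
    · intro z _ y _ hzy
      rw [Prod.mk.injEq] at hzy
      exact Prod.ext (Subtype.ext hzy.1) (Subtype.ext hzy.2)
    · intro z hz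
      rw [Finset.mem_filter, Finset.mem_product] at hz
      refine ⟨(⟨z.1, hEA _ hz.1.1⟩, ⟨z.2, hEA _ hz.1.2⟩), ?_, rfl⟩
      rw [Finset.mem_filter, Finset.mem_product]
      exact ⟨⟨Finset.mem_filter.mpr ⟨Finset.mem_univ _, hz.1.1⟩,
        Finset.mem_filter.mpr ⟨Finset.mem_univ _, hz.1.2⟩⟩, Subtype.ext hz.2⟩

/-- the multipliers generated by the primes dividing `n` -/
def MM (n : ℕ) : Submonoid ℕ := Submonoid.closure {p | p.Prime ∧ p ∣ n}

theorem mm_mult {n : ℕ} {D : Finset G} (hdiv : ∀ m, m ∣ n → ∀ d ∈ D, m • d ∈ D) :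
    ∀ t ∈ MM n, ∀ d ∈ D, t • d ∈ D := by
  intro t ht
  induction ht using Submonoid.closure_induction with
  | mem x hx => exact hdiv x hx.2
  | one => intro d hd; rwa [one_smul]
  | mul x y _ _ hx hy => intro d hd; rw [mul_smul]; exact hx _ (hy d hd)

theorem dvd_mem_MM {n : ℕ} (hn : n ≠ 0) : ∀ m : ℕ, m ∣ n → m ∈ MM n := by
  intro m
  induction m using induction_on_primes with
  | zero => intro h0; exact absurd (Nat.eq_zero_of_zero_dvd h0) hn
  | one => intro _; exact one_mem _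
  | prime_mul p a hp ih =>
    intro hpa
    exact mul_mem (Submonoid.subset_closure ⟨hp, (Nat.dvd_mul_right p a).trans hpa⟩)
      (ih ((Nat.dvd_mul_left a p).trans hpa))

/-- all members of `MM n` are invertible modulo `w` -/
theorem mm_ne_zero {n w : ℕ} (hw : w.Prime) (hwn : w ∣ n ^ 2 + n + 1) :
    ∀ t ∈ MM n, (t : ZMod w) ≠ 0 := by
  have hF : Fact w.Prime := ⟨hw⟩
  intro t ht
  induction ht using Submonoid.closure_induction with
  | mem x hx =>
    intro h0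
    rw [ZMod.natCast_eq_zero_iff] at h0
    have h1 : w ∣ n := h0.trans hx.2
    have h2 : w ∣ 1 := by
      have h3 : n ^ 2 + n + 1 = n * (n + 1) + 1 := by ring
      rw [h3] at hwn
      exact (Nat.dvd_add_right (h1.mul_right _)).mp hwn
    exact hw.one_lt.ne' (Nat.dvd_one.mp h2)
  | one => rw [Nat.cast_one]; exact one_ne_zero
  | mul x y _ _ hx hy => rw [Nat.cast_mul]; exact mul_ne_zero hx hy

/-- a generator of the 2-part of the multipliers modulo `w` -/
theorem exists_sigma {n w : ℕ} (hw : w.Prime) (hwn : w ∣ n ^ 2 + n + 1) :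
    ∃ σ ∈ MM n, ∃ α : ℕ, (σ : ZMod w) ^ 2 ^ α = 1 ∧
      ∀ t ∈ MM n, ∀ i : ℕ, (t : ZMod w) ^ 2 ^ i = 1 → ∃ l : ℕ, (t : ZMod w) = (σ : ZMod w) ^ l := by
  classical
  have hF : Fact w.Prime := ⟨hw⟩
  set P : ℕ → Prop := fun α => ∃ t ∈ MM n, orderOf (t : ZMod w) = 2 ^ α with hP
  have hP0 : P 0 := ⟨1, one_mem _, by rw [Nat.cast_one, orderOf_one, pow_zero]⟩
  have hbd : ∀ α, P α → α ≤ w := by
    rintro α ⟨t, ht, ho⟩
    have h1 := ZMod.orderOf_dvd_card_sub_one (p := w) (mm_ne_zero hw hwn t ht)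
    rw [ho] at h1
    have h2 := Nat.le_of_dvd (by have := hw.two_le; omega) h1
    have h3 : α < 2 ^ α := Nat.lt_two_pow_self
    omega
  have hspec := Nat.findGreatest_spec (P := P) (Nat.zero_le w) hP0
  set α := Nat.findGreatest P w with hα
  obtain ⟨σ, hσ, hoσ⟩ := hspec
  refine ⟨σ, hσ, α, by rw [← hoσ]; exact pow_orderOf_eq_one _, ?_⟩
  intro t ht i hti
  obtain ⟨β, _, hβ⟩ := (Nat.dvd_prime_pow Nat.prime_two).mp (orderOf_dvd_of_pow_eq_one hti)
  have hPβ : P β := ⟨t, ht, hβ⟩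
  have hle : β ≤ α := Nat.le_findGreatest (hbd β hPβ) hPβ
  have h1 : (t : ZMod w) ^ 2 ^ α = 1 := by
    apply orderOf_dvd_iff_pow_eq_one.mp
    rw [hβ]
    exact pow_dvd_pow 2 hle
  have h2 : IsPrimitiveRoot (σ : ZMod w) (2 ^ α) := by
    rw [← hoσ]; exact IsPrimitiveRoot.orderOf _
  obtain ⟨l, _, hl⟩ := h2.eq_pow_of_pow_eq_one h1
  exact ⟨l, hl.symm⟩

end SubPl
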