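import Mathlib
import Pool.Agent.Lib.MP_d51818_co.Sub16

/-!
# MP_d51818_co: all orders, IV
-/

set_option autoImplicit false
set_option linter.unusedSectionVars false

namespace SubPl

open Finset PDS7

variable {G : Type} [AddCommGroup G] [Fintype G] [DecidableEq G]

theorem tower {M : ℕ} {E : Finset G} (h : IsPDS M E) {t a : ℕ} (ht : ∀ e ∈ E, t • e ∈ E)
    (htriv : ∀ x : G, t ^ 2 ^ a • x = x) (hbig : 3 < Fintype.card G) :
    ∃ m j : ℕ, 2 ≤ m ∧ j ≤ a ∧ M = m ^ 2 ^ j ∧ (Fx G t).card = m ^ 2 + m + 1 := by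
  have huniv : (Fx G (t ^ 2 ^ a)).card = Fintype.card G := by
    rw [← Finset.card_univ]
    congr 1
    ext x
    rw [mem_Fx]
    exact ⟨fun _ => Finset.mem_univ _, fun _ => htriv x⟩
  have hA1 : 1 < (Fx G t).card := by
    by_contra hc
    have h1 : (Fx G t).card = 1 := by
      have : 0 < (Fx G t).card := Finset.card_pos.mpr ⟨0, by rw [mem_Fx, smul_zero]⟩
      omega
    rcases chain0 h ht h1 a with h2 | h2 <;> rw [huniv] at h2 <;> omega
  obtain ⟨m, hm, hDm, hFm⟩ := closure' h ht hA1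
  obtain ⟨j, hja, hFj⟩ := chain h ht hm hFm a
  rw [huniv, h.cardG] at hFj
  refine ⟨m, j, ?_, hja, quad_inj hFj, hFm⟩
  by_contra hc
  have h1 : m = 1 := by omega
  rw [h1, one_pow] at hFj
  rw [h.cardG] at hbig
  omega

/-- on the elements fixed by `q n ^ e`, `3 ∤ e`, the number `q` is a root of `X ^ 2 + X + 1` -/
theorem kill' {n q e : ℕ} {x : G} (hn : (n ^ 2 + n + 1) • x = 0) (he : ¬ 3 ∣ e)
    (hx : (q * n ^ e) • x = x) : (q ^ 2 + q + 1) • x = 0 := by
  have hn3 : n ^ 3 • x = x := by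
    have h1 : n ^ 3 • x + (n ^ 2 + n + 1) • x = n • ((n ^ 2 + n + 1) • x) + x := by
      module
    rw [hn, add_zero, smul_zero, zero_add] at h1
    exact h1
  have h3 : ∀ u : ℕ, n ^ (3 * u) • x = x := by
    intro u
    induction u with
    | zero => rw [mul_zero, pow_zero, one_smul]
    | succ u ih => rw [mul_add, mul_one, pow_add, mul_smul, hn3, ih]
  have he' : e % 3 = 1 ∨ e % 3 = 2 := by omega
  refine kill hn he' ?_
  have h4 : e = e % 3 + 3 * (e / 3) := by omega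
  rw [h4, pow_add, ← mul_assoc, mul_smul, h3] at hx
  exact hx

/-- planar difference set of order `m` in the subgroup `A` -/
def PO (A : AddSubgroup G) (m : ℕ) : Prop :=
  Nat.card A = m ^ 2 + m + 1 ∧
  ∃ E : Finset G, E.card = m + 1 ∧ (∀ x ∈ E, x ∈ A) ∧
    ∀ g ∈ A, g ≠ 0 → ((E ×ˢ E).filter (fun q : G × G => q.1 - q.2 = g)).card = 1

/-- the multipliers that are `1` modulo `w` -/
def Tw (n w : ℕ) : Set ℕ := {t | t ∈ MM n ∧ (t : ZMod w) = 1}

/-- together with one more multiplier -/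
def Tt (n w t0 : ℕ) : Set ℕ := {t | t ∈ MM n ∧ ((t : ZMod w) = 1 ∨ t = t0)}

theorem mem_Tt {n w t0 : ℕ} (ht0 : t0 ∈ MM n) {x : G} :
    x ∈ FS G (Tt n w t0) ↔ x ∈ FS G (Tw n w) ∧ t0 • x = x := by
  constructor
  · intro hx
    exact ⟨fun t ht => hx t ⟨ht.1, Or.inl ht.2⟩, hx t0 ⟨ht0, Or.inr rfl⟩⟩
  · rintro ⟨h1, h2⟩ t ⟨ht, h3 | h3⟩
    · exact h1 t ⟨ht, h3⟩
    · rw [h3]; exact h2

theorem towerK {n M w : ℕ} {D : Finset G} (h : IsPDS n D)
    (hMM : ∀ t ∈ MM n, ∀ d ∈ D, t • d ∈ D)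
    (hK : Nat.card (FS G (Tw n w)) = M ^ 2 + M + 1)
    (hDK : (DI D (FS G (Tw n w))).card = M + 1) (hbig : 3 < Nat.card (FS G (Tw n w)))
    {t a : ℕ} (ht : t ∈ MM n) (hta : (t : ZMod w) ^ 2 ^ a = 1) :
    ∃ m j : ℕ, 2 ≤ m ∧ j ≤ a ∧ M = m ^ 2 ^ j ∧ PO (FS G (Tt n w t)) m ∧
      Nat.card (FS G (Tt n w t)) = m ^ 2 + m + 1 ∧ (DI D (FS G (Tt n w t))).card = m + 1 := by
  classical
  set K := FS G (Tw n w) with hKd
  have hTw : ∀ u ∈ Tw n w, ∀ d ∈ D, u • d ∈ D := fun u hu => hMM u hu.1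
  have hTt : ∀ u ∈ Tt n w t, ∀ d ∈ D, u • d ∈ D := fun u hu => hMM u hu.1
  have hpds := pds_sub (A := K) hK hDK (fun x hx => (mem_DI.mp hx).2)
    (fun g hg hg0 => fs_diff h hTw hg hg0)
  have hstab : ∀ x : G, x ∈ K → t • x ∈ K := by
    intro x hx u hu
    rw [smul_comm, hx u hu]
  obtain ⟨m, j, hm2, hj, hM, hF⟩ := tower hpds (t := t) (a := a) (by
      intro e he
      rw [Finset.mem_filter, mem_DI] at he ⊢
      refine ⟨Finset.mem_univ _, ?_, ?_⟩
      · exact hMM t ht _ he.2.1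
      · exact hstab _ he.2.2)
    (by
      intro x
      apply Subtype.ext
      have h1 : t ^ 2 ^ a ∈ Tw n w := ⟨pow_mem ht _, by rw [Nat.cast_pow]; exact hta⟩
      exact x.2 _ h1)
    (by rw [← Nat.card_eq_fintype_card]; exact hbig)
  have hcard : Nat.card (FS G (Tt n w t)) = m ^ 2 + m + 1 := by
    rw [← hF, ← card_FxS]
    refine Nat.card_congr ⟨fun x => ⟨⟨x.1, ((mem_Tt ht).mp x.2).1⟩,
      Subtype.ext ((mem_Tt ht).mp x.2).2⟩, fun y => ⟨y.1.1, (mem_Tt ht).mpr
      ⟨y.1.2, congrArg Subtype.val y.2⟩⟩, fun x => rfl, fun y => rfl⟩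
  obtain ⟨m', hm', hD', hF'⟩ := fs_card h hTt (by rw [hcard]; nlinarith)
  have hmm : m' = m := quad_inj (hF'.symm.trans hcard)
  rw [hmm] at hD'
  exact ⟨m, j, hm2, hj, hM, ⟨hcard, DI D (FS G (Tt n w t)), hD', fun x hx => (mem_DI.mp hx).2,
    fun g hg hg0 => fs_diff h hTt hg hg0⟩, hcard, hD'⟩

theorem uni {n : ℕ} {D0 : Finset G} (h0 : IsPDS n D0) {w : ℕ} (hw : w.Prime)
    (hlt : w < (Tf G w).card) :
    (∃ p : ℕ, p.Prime ∧ p ∣ n ∧ 3 ∣ orderOf (p : ZMod w)) ∧
    ∃ (M : ℕ) (B : AddSubgroup G), PO B M ∧ (∀ x : G, w • x = 0 → x ∈ B) ∧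
      w ^ 2 ∣ M ^ 2 + M + 1 ∧
      (∀ p : ℕ, p.Prime → p ∣ n → ∀ x ∈ B, p ^ orderOf (p : ZMod w) • x = x) ∧
      ∀ p a r : ℕ, p.Prime → p ∣ n → 0 < r →
        (orderOf (p : ZMod w) = 2 ^ a * r →
          ∃ (m j : ℕ) (A : AddSubgroup G), 2 ≤ m ∧ j ≤ a ∧ M = m ^ 2 ^ j ∧ A ≤ B ∧ PO A m ∧
            ∀ x ∈ A, p ^ r • x = x) ∧
        (orderOf (p : ZMod w) = 3 * (2 ^ a * r) →
          (∀ x ∈ B, ((p ^ (2 ^ a * r)) ^ 2 + p ^ (2 ^ a * r) + 1) • x = 0) ∧
          ∃ (m j : ℕ) (A : AddSubgroup G), 2 ≤ m ∧ j ≤ a ∧ M = m ^ 2 ^ j ∧ A ≤ B ∧ PO A m ∧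
            (∀ x ∈ A, ((p ^ r) ^ 2 + p ^ r + 1) • x = 0) ∧
            ((m = p ^ r ∧ j = a ∧ w ^ 2 ∣ p ^ (w - 1) - 1) ∨
              (m ≠ p ^ r ∧ ¬ ((p ^ r) ^ 2 + p ^ r + 1).Prime ∧
                ((∀ x ∈ A, m • x = p ^ r • x) ∨ (∀ x ∈ A, m • x = (p ^ r) ^ 2 • x))))) := by
  have hF : Fact w.Prime := ⟨hw⟩
  obtain ⟨D, h, hsum⟩ := exists_zero h0
  have hn0 : 0 < n := by
    rcases Nat.eq_zero_or_pos n with h1 | h1
    · exfalso
      have h2 : (Tf G w).card ≤ Fintype.card G := Finset.card_le_univ _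
      rw [h.cardG, h1] at h2
      have := hw.two_le
      omega
    · exact h1
  have hdiv := mult_div h hsum hn0
  have hMM := mm_mult hdiv
  obtain ⟨i, hi⟩ := card_Tf_pow (G := G) hw 1
  rw [pow_one] at hi
  have hi2 : 2 ≤ i := by
    by_contra hc
    have h1 : w ^ i ≤ w ^ 1 := Nat.pow_le_pow_right hw.pos (by omega)
    rw [pow_one, ← hi] at h1
    omega
  have hw2T : w ^ 2 ∣ (Tf G w).card := by rw [hi]; exact pow_dvd_pow w hi2
  have hw2 : w ^ 2 ∣ n ^ 2 + n + 1 := by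
    rw [← h.cardG]
    exact hw2T.trans (card_Tf_dvd (G := G) w)
  have hw1 : w ∣ n ^ 2 + n + 1 := (dvd_pow_self w (by norm_num)).trans hw2
  have hw3 : w ≠ 3 := by
    rintro rfl
    have h10 : ((n ^ 2 + n + 1 : ℕ) : ZMod 9) = 0 := (ZMod.natCast_eq_zero_iff _ _).mpr hw2
    push_cast at h10
    have h11 : ∀ x : ZMod 9, x ^ 2 + x + 1 ≠ 0 := by decide
    exact h11 _ h10
  have hN1 := q_ne_one hw hw3 hw1
  have hNz : (n : ZMod w) ^ 2 + (n : ZMod w) + 1 = 0 := by
    have := (ZMod.natCast_eq_zero_iff _ _).mpr hw1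
    push_cast at this
    exact this
  have hN3 : (n : ZMod w) ^ 3 = 1 := by
    linear_combination ((n : ZMod w) - 1) * hNz
  refine ⟨exists_p hn0.ne' hN3 hN1, ?_⟩
  -- the big subplane
  have htop : ∀ x : G, w • x = 0 → x ∈ FS G (Tw n w) := by
    intro x hx t ht
    have h1 : t ≡ 1 [MOD w] := by
      rw [← ZMod.natCast_eq_natCast_iff]
      rw [ht.2, Nat.cast_one]
    rcases Nat.eq_zero_or_pos t with h2 | h2
    · exfalso
      rw [h2] at h1
      have h3 := (Nat.modEq_iff_dvd' (by omega)).mp h1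
      have := Nat.dvd_one.mp (by simpa using h3)
      exact hw.one_lt.ne' this
    · obtain ⟨g, hg⟩ := (Nat.modEq_iff_dvd' h2).mp h1.symm
      have h3 : t = w * g + 1 := by omega
      rw [h3, add_smul, one_smul, mul_comm, mul_smul, hx, smul_zero, zero_add]
  have hTdvd : w ^ 2 ∣ Nat.card (FS G (Tw n w)) := by
    have h1 := AddSubgroup.card_dvd_of_le (show tor G w ≤ FS G (Tw n w) from fun x hx => htop x hx)
    rw [card_tor] at h1
    exact hw2T.trans h1
  have hw2' : 2 ≤ w := hw.two_le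
  have hbig : 3 < Nat.card (FS G (Tw n w)) := by
    have h1 := Nat.le_of_dvd Nat.card_pos hTdvd
    nlinarith
  obtain ⟨M, hM0, hDK, hKc⟩ := fs_card h (T := Tw n w) (fun u hu => hMM u hu.1) (by omega)
  refine ⟨M, FS G (Tw n w), ⟨hKc, DI D (FS G (Tw n w)), hDK, fun x hx => (mem_DI.mp hx).2,
    fun g hg hg0 => fs_diff h (fun u hu => hMM u hu.1) hg hg0⟩, htop, by rw [← hKc]; exact hTdvd,
    ?_, ?_⟩
  · intro p hp hpn x hx
    exact hx _ ⟨pow_mem (dvd_mem_MM hn0.ne' p hpn) _, by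
      rw [Nat.cast_pow]; exact pow_orderOf_eq_one _⟩
  intro p a r hp hpn hr
  have hpM := dvd_mem_MM hn0.ne' p hpn
  have hnM := dvd_mem_MM hn0.ne' n dvd_rfl
  have hle : ∀ t : ℕ, FS G (Tt n w t) ≤ FS G (Tw n w) := by
    intro t x hx u hu
    exact hx u ⟨hu.1, Or.inl hu.2⟩
  constructor
  · intro ho
    obtain ⟨m, j, hm2, hj, hM, hPO, -, -⟩ := towerK h hMM hKc hDK hbig (t := p ^ r) (a := a)
      (pow_mem hpM _) (by
        rw [Nat.cast_pow, ← pow_mul, mul_comm, ← ho]; exact pow_orderOf_eq_one _)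
    exact ⟨m, j, FS G (Tt n w (p ^ r)), hm2, hj, hM, hle _, hPO,
      fun x hx => ((mem_Tt (pow_mem hpM _)).mp hx).2⟩
  · intro ho
    obtain ⟨e, he, hte⟩ := choose_e hw hr ho hN3 hN1
    have he3 : ¬ 3 ∣ e := by omega
    have hkn : ∀ x : G, (n ^ 2 + n + 1) • x = 0 := by
      intro x
      rw [← h.cardG]; exact card_nsmul_eq_zero
    constructor
    · intro x hx
      have h1 : ¬ 3 ∣ e * 2 ^ a := by
        intro h2
        rcases (Nat.Prime.dvd_mul Nat.prime_three).mp h2 with h3 | h3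
        · exact he3 h3
        · have := Nat.prime_three.dvd_of_dvd_pow h3
          omega
      refine kill' (e := e * 2 ^ a) (hkn x) h1 ?_
      have h2 : p ^ (2 ^ a * r) * n ^ (e * 2 ^ a) = (p ^ r * n ^ e) ^ 2 ^ a := by
        rw [mul_pow, ← pow_mul, ← pow_mul, mul_comm r]
      rw [h2]
      exact hx _ ⟨pow_mem (mul_mem (pow_mem hpM _) (pow_mem hnM _)) _, by
        rw [Nat.cast_pow]; exact hte⟩
    · have htM : p ^ r * n ^ e ∈ MM n := mul_mem (pow_mem hpM _) (pow_mem hnM _)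
      obtain ⟨m, j, hm2, hj, hM, hPO, hAc, hAD⟩ := towerK h hMM hKc hDK hbig
        (t := p ^ r * n ^ e) (a := a) htM hte
      set q := p ^ r with hq
      have hkill : ∀ x ∈ FS G (Tt n w (q * n ^ e)), (q ^ 2 + q + 1) • x = 0 := fun x hx =>
        kill' (hkn x) he3 ((mem_Tt htM).mp hx).2
      have hTt : ∀ u ∈ Tt n w (q * n ^ e), ∀ d ∈ D, u • d ∈ D := fun u hu => hMM u hu.1
      refine ⟨m, j, FS G (Tt n w (q * n ^ e)), hm2, hj, hM, hle _, hPO, hkill, ?_⟩
      have hwM : w ^ 2 ∣ (m ^ 2 ^ j) ^ 2 + m ^ 2 ^ j + 1 := by rw [← hM, ← hKc]; exact hTdvd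
      by_cases hmq : m = q
      · left
        have hja : j = a := by
          have hwj : w ∣ (q ^ 2 ^ j) ^ 2 + q ^ 2 ^ j + 1 := by
            rw [hmq] at hwM
            exact (dvd_pow_self w (by norm_num)).trans hwM
          have h1 : ((q ^ 2 ^ j : ℕ) : ZMod w) ^ 2 + ((q ^ 2 ^ j : ℕ) : ZMod w) + 1 = 0 := by
            have := (ZMod.natCast_eq_zero_iff _ _).mpr hwj
            push_cast at this ⊢
            exact this
          have h2 : (p : ZMod w) ^ (3 * (r * 2 ^ j)) = 1 := by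
            have h3 : ((q ^ 2 ^ j : ℕ) : ZMod w) ^ 3 = 1 := by
              linear_combination (((q ^ 2 ^ j : ℕ) : ZMod w) - 1) * h1
            rw [hq] at h3
            push_cast at h3
            rw [← pow_mul, ← pow_mul] at h3
            rw [show 3 * (r * 2 ^ j) = r * (2 ^ j * 3) by ring]
            exact h3
          have h3 := orderOf_dvd_of_pow_eq_one h2
          rw [ho] at h3
          have h4 := Nat.dvd_of_mul_dvd_mul_left (by norm_num) h3
          rw [mul_comm r] at h4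
          have h5 := Nat.dvd_of_mul_dvd_mul_right hr h4
          have h6 := (Nat.pow_dvd_pow_iff_le_right (by norm_num)).mp h5
          omega
        have hqs : m ^ 2 ^ j = p ^ (2 ^ a * r) := by
          rw [hmq, hja, hq, ← pow_mul, mul_comm]
        rw [hqs] at hwM
        refine ⟨hmq, hja, ?_⟩
        have hP0 : (p : ZMod w) ≠ 0 := by
          intro h
          have h1 : (p : ZMod w) ^ (3 * (2 ^ a * r)) = 1 := by
            rw [← ho]; exact pow_orderOf_eq_one _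
          rw [h, zero_pow (by positivity)] at h1
          exact zero_ne_one h1
        obtain ⟨b, hb⟩ : 3 * (2 ^ a * r) ∣ w - 1 := by
          rw [← ho]; exact ZMod.orderOf_dvd_card_sub_one hP0
        rw [hb]
        have h1 : p ^ (3 * (2 ^ a * r)) - 1 ∣ p ^ (3 * (2 ^ a * r) * b) - 1 := by
          rw [pow_mul p _ b]
          have := Nat.sub_dvd_pow_sub_pow (p ^ (3 * (2 ^ a * r))) 1 b
          rwa [one_pow] at this
        refine hwM.trans (Dvd.dvd.trans ?_ h1)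
        refine ⟨p ^ (2 ^ a * r) - 1, ?_⟩
        obtain ⟨v, hv⟩ : ∃ v, p ^ (2 ^ a * r) = v + 1 :=
          ⟨p ^ (2 ^ a * r) - 1, by have := pow_pos hp.pos (2 ^ a * r); omega⟩
        rw [show 3 * (2 ^ a * r) = (2 ^ a * r) * 3 by ring, pow_mul, hv, Nat.add_sub_cancel]
        have : (v + 1) ^ 3 = ((v + 1) ^ 2 + (v + 1) + 1) * v + 1 := by ring
        omega
      · right
        have hqD : ∀ x ∈ DI D (FS G (Tt n w (q * n ^ e))),
            q • x ∈ DI D (FS G (Tt n w (q * n ^ e))) := by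
          intro x hx
          rw [mem_DI] at hx ⊢
          refine ⟨hMM _ (pow_mem hpM r) _ hx.1, ?_⟩
          intro u hu
          rw [smul_comm, hx.2 u hu]
        refine ⟨hmq, ?_, ?_⟩
        · intro hl
          have hFl : Fact (q ^ 2 + q + 1).Prime := ⟨hl⟩
          have h1 : Nat.card (FS G (Tt n w (q * n ^ e))) ≠ 0 := Nat.card_pos.ne'
          have h2 := Nat.eq_prime_pow_of_unique_prime_dvd (p := q ^ 2 + q + 1) h1 (by
            intro d hd hdv
            have hFd : Fact d.Prime := ⟨hd⟩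
            obtain ⟨x, hx⟩ := exists_prime_addOrderOf_dvd_card' d hdv
            have h3 : (q ^ 2 + q + 1) • x = 0 := Subtype.ext (hkill _ x.2)
            have h4 := addOrderOf_dvd_of_nsmul_eq_zero h3
            rw [hx] at h4
            exact (Nat.prime_dvd_prime_iff_eq hd hl).mp h4)
          set L := (Nat.card (FS G (Tt n w (q * n ^ e)))).primeFactorsList.length with hL
          have h5 : 0 < L := by
            rcases Nat.eq_zero_or_pos L with h6 | h6
            · rw [h6, pow_zero, hAc] at h2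
              nlinarith
            · exact h6
          rw [hAc] at h2
          rcases dio hp hr hl rfl h5 h2 with h6 | ⟨h6, h7⟩
          · rw [h6, pow_one] at h2
            exact hmq (quad_inj h2)
          · have hp2 : p = 2 := by
              have : p ∣ 2 := h6 ▸ dvd_pow_self p hr.ne'
              exact (Nat.prime_dvd_prime_iff_eq hp Nat.prime_two).mp this
            have hq2' : q = 2 := h6
            refine no18' h (E := DI D (FS G (Tt n w (q * n ^ e))))
              (fun x hx => (mem_DI.mp hx).1) ?_ ?_ (by rw [hAD, h7])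
            · intro x hx
              have h8 := hqD x hx
              have h9 : (2 : ℕ) • x = q • x := by rw [hq2']
              rw [h9]
              exact h8
            · intro x hx
              have h8 := hkill x (mem_DI.mp hx).2
              rw [hq2'] at h8
              have h9 : (8 : ℕ) • x = (2 ^ 2 + 2 + 1) • x + x := by module
              rw [h9, h8, zero_add]
        · exact transferA hm2 hAc hAD (fun x hx => (mem_DI.mp hx).2) hkill
            (fun g hg hg0 => fs_diff h hTt hg hg0) hqD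

end SubPl
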