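import Mathlib

/-!
# MP_d51818_co: uniqueness of the representation of a prime
-/

set_option autoImplicit false

namespace PDS7

/-- uniqueness for `n = u² + 7 v²` -/
theorem uniq_aux {n : ℤ} (hn : Prime n) (hpos : 0 < n) {a b c d : ℤ} (h1 : n = a ^ 2 + 7 * b ^ 2)
    (h2 : n = c ^ 2 + 7 * d ^ 2) (h3 : n ∣ a * d - c * b) : b ^ 2 = d ^ 2 := by
  have h4 : (a * c + 7 * b * d) ^ 2 + 7 * (a * d - c * b) ^ 2 = n ^ 2 := by
    calc _ = (a ^ 2 + 7 * b ^ 2) * (c ^ 2 + 7 * d ^ 2) := by ring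
      _ = n ^ 2 := by rw [← h1, ← h2]; ring
  obtain ⟨k, hk⟩ := h3
  have hk0 : k = 0 := by
    by_contra hk0
    have h5 : 1 ≤ k ^ 2 := by
      have : 0 < k ^ 2 := by positivity
      omega
    rw [hk] at h4
    have h6 : 0 < n ^ 2 := by positivity
    nlinarith [sq_nonneg (a * c + 7 * b * d)]
  rw [hk0, mul_zero] at hk
  have h5 : a * d = c * b := by linarith
  have h6 : n * d ^ 2 = n * b ^ 2 := by
    have h7 : a ^ 2 * d ^ 2 = c ^ 2 * b ^ 2 := by
      calc _ = (a * d) ^ 2 := by ring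
        _ = (c * b) ^ 2 := by rw [h5]
        _ = _ := by ring
    have h8 : a ^ 2 = n - 7 * b ^ 2 := by linarith
    have h9 : c ^ 2 = n - 7 * d ^ 2 := by linarith
    rw [h8, h9] at h7
    linarith
  exact (mul_left_cancel₀ hpos.ne' h6).symm

theorem even_of_rep {n u v : ℤ} (hn : Odd n) (h : 4 * n = u ^ 2 + 7 * v ^ 2) :
    ∃ a b : ℤ, u = 2 * a ∧ v = 2 * b ∧ n = a ^ 2 + 7 * b ^ 2 := by
  obtain ⟨k, hk⟩ := hn
  rcases Int.even_or_odd' u with ⟨a, ha | ha⟩ <;> rcases Int.even_or_odd' v with ⟨b, hb | hb⟩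
  · refine ⟨a, b, ha, hb, ?_⟩
    subst ha hb
    nlinarith
  · exfalso
    subst ha hb hk
    ring_nf at h
    omega
  · exfalso
    subst ha hb hk
    ring_nf at h
    omega
  · exfalso
    subst ha hb hk
    have h1 : ∃ s : ℤ, a * (a + 1) = 2 * s := by
      obtain ⟨s, hs⟩ := Int.even_mul_succ_self a
      exact ⟨s, by linarith⟩
    have h2 : ∃ s : ℤ, b * (b + 1) = 2 * s := by
      obtain ⟨s, hs⟩ := Int.even_mul_succ_self b
      exact ⟨s, by linarith⟩
    obtain ⟨s, hs⟩ := h1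
    obtain ⟨t, ht⟩ := h2
    have h3 : 4 * (2 * k + 1) = 4 * (a * (a + 1)) + 1 + 7 * (4 * (b * (b + 1)) + 1) := by
      rw [h]
      ring
    rw [hs, ht] at h3
    omega

/-- a prime has at most one representation up to signs -/
theorem uniq {n : ℕ} (hn : n.Prime) {u v u' v' : ℤ} (h1 : 4 * (n : ℤ) = u ^ 2 + 7 * v ^ 2)
    (h2 : 4 * (n : ℤ) = u' ^ 2 + 7 * v' ^ 2) : v ^ 2 = v' ^ 2 := by
  rcases hn.eq_two_or_odd' with h | h
  · subst h
    have key : ∀ x y : ℤ, 4 * ((2 : ℕ) : ℤ) = x ^ 2 + 7 * y ^ 2 → y ^ 2 = 1 := by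
      intro x y hxy
      push_cast at hxy
      have hy1 : y ≤ 1 := by nlinarith [sq_nonneg x]
      have hy2 : -1 ≤ y := by nlinarith [sq_nonneg x]
      have hx1 : x ≤ 2 := by nlinarith [sq_nonneg y]
      have hx2 : -2 ≤ x := by nlinarith [sq_nonneg y]
      interval_cases y <;> interval_cases x <;> omega
    rw [key u v h1, key u' v' h2]
  · have hodd : Odd (n : ℤ) := by exact_mod_cast h
    obtain ⟨a, b, rfl, rfl, h3⟩ := even_of_rep hodd h1
    obtain ⟨c, d, rfl, rfl, h4⟩ := even_of_rep hodd h2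
    have hp : Prime (n : ℤ) := Nat.prime_iff_prime_int.mp hn
    have hpos : (0 : ℤ) < n := by exact_mod_cast hn.pos
    have h5 : (n : ℤ) ∣ (a * d - c * b) * (a * d + c * b) := by
      refine ⟨d ^ 2 - b ^ 2, ?_⟩
      have e1 : a ^ 2 = n - 7 * b ^ 2 := by linarith
      have e2 : c ^ 2 = n - 7 * d ^ 2 := by linarith
      calc _ = a ^ 2 * d ^ 2 - c ^ 2 * b ^ 2 := by ring
        _ = _ := by rw [e1, e2]; ring
    rcases hp.dvd_or_dvd h5 with h6 | h6
    · have := uniq_aux hp hpos h3 h4 h6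
      nlinarith
    · have h7 : (n : ℤ) ∣ a * (-d) - c * b := by
        have := (dvd_neg (a := (n : ℤ))).mpr h6
        have e : -(a * d + c * b) = a * (-d) - c * b := by ring
        rwa [e] at this
      have := uniq_aux (a := a) (b := b) (c := c) (d := -d) hp hpos h3 (by rw [neg_sq]; exact h4) h7
      nlinarith

end PDS7
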